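import Pool.Agent.Helper982_KG.BadDefs

/-! # Part BAD, ITDIFF (helper625) -/

set_option autoImplicit false

open MeasureTheory Set

namespace Pool.Agent.Helper982_KG.Bad

theorem itd_shift {d m : ℕ} (L : List (Fin (d + 1) × ℝ)) :
    ∀ (F : (Fin (d + 1) → ℝ) → (Fin m → ℝ)) (v x : Fin (d + 1) → ℝ),
    DD L (fun u => F (u + v) - F u) x = DD L F (x + v) - DD L F x := by
  induction L with
  | nil => intro F v x; rfl
  | cons q L ih =>
    intro F v x
    have h1 : DD (q :: L) (fun u => F (u + v) - F u) x =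
        DD L (fun u => (fun u => F (u + q.2 • Pi.single q.1 1) - F u) (u + v) -
          (fun u => F (u + q.2 • Pi.single q.1 1) - F u) u) x := by
      show DD L _ x = DD L _ x
      congr 1
      funext u
      show F (u + q.2 • Pi.single q.1 1 + v) - F (u + q.2 • Pi.single q.1 1) - (F (u + v) - F u) =
        F (u + v + q.2 • Pi.single q.1 1) - F (u + v) - (F (u + q.2 • Pi.single q.1 1) - F u)
      rw [add_right_comm u (q.2 • Pi.single q.1 1) v]
      abel
    rw [h1]
    exact ih (fun u => F (u + q.2 • Pi.single q.1 1) - F u) v x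

theorem itd_norm {d : ℕ} (j : Fin (d + 1)) (t : ℝ) :
    ‖(t • Pi.single j 1 : Fin (d + 1) → ℝ)‖ = |t| := by
  rw [norm_smul, Pi.norm_single, norm_one, mul_one, Real.norm_eq_abs]

theorem itd_deriv {d m : ℕ} (j : Fin (d + 1)) (u₀ : Fin (d + 1) → ℝ) (r : ℝ)
    (F : (Fin (d + 1) → ℝ) → (Fin m → ℝ)) (hF : DifferentiableOn ℝ F (Metric.ball u₀ r))
    (L : List (Fin (d + 1) × ℝ)) :
    ∀ (x : Fin (d + 1) → ℝ) (s : ℝ),
      ‖x + s • Pi.single j 1 - u₀‖ + (L.map (fun p => |p.2|)).sum < r →
      HasDerivAt (fun s : ℝ => DD L F (x + s • Pi.single j 1))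
        (DD L (pd j F) (x + s • Pi.single j 1)) s := by
  induction L with
  | nil =>
    intro x s h
    have h1 : x + s • Pi.single j 1 ∈ Metric.ball u₀ r := by
      rw [mem_ball_iff_norm]
      simpa using h
    have h2 : HasFDerivAt F (fderiv ℝ F (x + s • Pi.single j 1)) (x + s • Pi.single j 1) :=
      (hF.differentiableAt (Metric.isOpen_ball.mem_nhds h1)).hasFDerivAt
    have h3 : HasDerivAt (fun s : ℝ => x + s • (Pi.single j 1 : Fin (d + 1) → ℝ))
        (Pi.single j 1) s := by
      have := ((hasDerivAt_id s).smul_const (Pi.single j 1 : Fin (d + 1) → ℝ)).const_add x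
      simpa using this
    exact h2.comp_hasDerivAt s h3
  | cons q L ih =>
    intro x s h
    have hs : (List.map (fun p : Fin (d + 1) × ℝ => |p.2|) (q :: L)).sum =
        |q.2| + (L.map (fun p => |p.2|)).sum := by simp
    rw [hs] at h
    have hnn : 0 ≤ |q.2| := abs_nonneg _
    have e1 : x + q.2 • Pi.single q.1 1 + s • Pi.single j 1 =
        x + s • Pi.single j 1 + q.2 • Pi.single q.1 1 := by abel
    have h1 := ih x s (by linarith)
    have h2 := ih (x + q.2 • Pi.single q.1 1) s (by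
      have h3 : x + q.2 • Pi.single q.1 1 + s • Pi.single j 1 - u₀ =
        (x + s • Pi.single j 1 - u₀) + q.2 • Pi.single q.1 1 := by abel
      rw [h3]
      have h4 := norm_add_le (x + s • Pi.single j 1 - u₀) (q.2 • (Pi.single q.1 1 : Fin (d + 1) → ℝ))
      rw [itd_norm] at h4
      linarith)
    have h3 : (fun s : ℝ => DD (q :: L) F (x + s • Pi.single j 1)) =
        fun s : ℝ => DD L F (x + q.2 • Pi.single q.1 1 + s • Pi.single j 1) -
          DD L F (x + s • Pi.single j 1) := by
      funext s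
      show DD L _ _ = _
      rw [itd_shift]
      congr 2
      abel
    have h4 : DD (q :: L) (pd j F) (x + s • Pi.single j 1) =
        DD L (pd j F) (x + q.2 • Pi.single q.1 1 + s • Pi.single j 1) -
          DD L (pd j F) (x + s • Pi.single j 1) := by
      show DD L _ _ = _
      rw [itd_shift]
      congr 2
      abel
    rw [h3, h4]
    exact h2.sub h1

theorem itd_pt {d : ℕ} (u₀ : Fin (d + 1) → ℝ) (r : ℝ) (j : Fin (d + 1)) (u : Fin (d + 1) → ℝ)
    (t s S : ℝ) (hs : s ∈ Set.uIcc 0 t) (hu : ‖u - u₀‖ + (|t| + S) < r) :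
    ‖u + s • Pi.single j 1 - u₀‖ + S < r := by
  have h1 : |s| ≤ |t| := by
    rcases Set.mem_uIcc.1 hs with ⟨h1, h2⟩ | ⟨h1, h2⟩
    · rw [abs_of_nonneg h1, abs_of_nonneg (h1.trans h2)]; exact h2
    · rw [abs_of_nonpos h2, abs_of_nonpos (h1.trans h2)]; linarith
  have h2 : u + s • Pi.single j 1 - u₀ = (u - u₀) + s • Pi.single j 1 := by abel
  rw [h2]
  have h3 := norm_add_le (u - u₀) (s • (Pi.single j 1 : Fin (d + 1) → ℝ))
  rw [itd_norm] at h3
  linarith

theorem itd_main {d m : ℕ} (u₀ : Fin (d + 1) → ℝ) (r : ℝ) (L : List (Fin (d + 1) × ℝ)) :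
    ∀ (F : (Fin (d + 1) → ℝ) → (Fin m → ℝ)),
    ContDiffOn ℝ (L.length : ℕ) F (Metric.ball u₀ r) →
    ∀ (a : Fin m → ℝ) (ε : ℝ), (∀ u ∈ Metric.ball u₀ r, ‖dW (L.map Prod.fst) F u - a‖ ≤ ε) →
    ∀ u : Fin (d + 1) → ℝ, ‖u - u₀‖ + (L.map (fun p => |p.2|)).sum < r →
      ‖DD L F u - (L.map Prod.snd).prod • a‖ ≤ ε * (L.map (fun p => |p.2|)).prod := by
  induction L with
  | nil =>
    intro F hF a ε h u hu
    have h1 : u ∈ Metric.ball u₀ r := by
      rw [mem_ball_iff_norm]
      simpa using hu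
    have h2 : ‖F u - a‖ ≤ ε := h u h1
    show ‖F u - (List.map Prod.snd ([] : List (Fin (d + 1) × ℝ))).prod • a‖ ≤ _
    simpa using h2
  | cons q L ih =>
    intro F hF a ε h u hu
    obtain ⟨j, t⟩ := q
    have hs : (List.map (fun p : Fin (d + 1) × ℝ => |p.2|) ((j, t) :: L)).sum =
        |t| + (L.map (fun p => |p.2|)).sum := by simp
    rw [hs] at hu
    have hF1 : ContDiffOn ℝ (L.length + 1 : ℕ) F (Metric.ball u₀ r) := hF
    have hF2 : ContDiffOn ℝ (L.length : ℕ) (pd j F) (Metric.ball u₀ r) := by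
      have h1 : ContDiffOn ℝ (L.length : ℕ) (fderiv ℝ F) (Metric.ball u₀ r) :=
        hF1.fderiv_of_isOpen Metric.isOpen_ball (by push_cast; exact le_rfl)
      exact h1.clm_apply contDiffOn_const
    have hD : DifferentiableOn ℝ F (Metric.ball u₀ r) := hF1.differentiableOn (by simp)
    have hb := ih (pd j F) hF2 a ε h
    have hmv := Convex.norm_image_sub_le_of_norm_hasDerivWithin_le
      (f := fun s : ℝ => DD L F (u + s • Pi.single j 1) - s • ((L.map Prod.snd).prod • a))
      (f' := fun s : ℝ => DD L (pd j F) (u + s • Pi.single j 1) - (L.map Prod.snd).prod • a)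
      (s := Set.uIcc 0 t) (x := 0) (y := t) (C := ε * (L.map (fun p => |p.2|)).prod)
      (fun s hs => ?_) (fun s hs => ?_) (convex_uIcc 0 t) Set.left_mem_uIcc Set.right_mem_uIcc
    · have e1 : DD ((j, t) :: L) F u = DD L F (u + t • Pi.single j 1) - DD L F u := by
        show DD L _ u = _
        rw [itd_shift]
      have e2 : DD ((j, t) :: L) F u - (List.map Prod.snd ((j, t) :: L)).prod • a =
          (DD L F (u + t • Pi.single j 1) - t • ((L.map Prod.snd).prod • a)) -
          (DD L F (u + (0 : ℝ) • Pi.single j 1) - (0 : ℝ) • ((L.map Prod.snd).prod • a)) := by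
        rw [e1, List.map_cons, List.prod_cons, zero_smul, zero_smul, add_zero, mul_smul]
        abel
      rw [e2]
      refine hmv.trans (le_of_eq ?_)
      rw [List.map_cons, List.prod_cons, sub_zero, Real.norm_eq_abs]
      ring
    · have hst := itd_pt u₀ r j u t s _ hs hu
      have h1 := itd_deriv j u₀ r F hD L u s hst
      have h2 : HasDerivAt (fun s : ℝ => s • ((L.map Prod.snd).prod • a))
          ((L.map Prod.snd).prod • a) s := by
        have := (hasDerivAt_id s).smul_const ((L.map Prod.snd).prod • a)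
        simpa using this
      exact (h1.sub h2).hasDerivWithinAt
    · exact hb _ (itd_pt u₀ r j u t s _ hs hu)

theorem itdiff : S_ITDIFF := by
  intro d m L F u₀ r hF a ε h u hu
  exact itd_main u₀ r L F hF a ε h u hu

end Pool.Agent.Helper982_KG.Bad
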