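import Pool.Agent.Helper982_KG.BadDefs

set_option autoImplicit false

open MeasureTheory Set

namespace Pool.Agent.Helper982_KG.Bad

theorem ndu_pd_contDiffAt {d : ℕ} {G : Type} [NormedAddCommGroup G] [NormedSpace ℝ G]
    (j : Fin (d + 1)) (F : (Fin (d + 1) → ℝ) → G) (u : Fin (d + 1) → ℝ) (n : ℕ)
    (hF : ContDiffAt ℝ ((n + 1 : ℕ) : WithTop ℕ∞) F u) :
    ContDiffAt ℝ (n : WithTop ℕ∞) (pd j F) u := by
  have h1 : ContDiffAt ℝ (n : WithTop ℕ∞) (fderiv ℝ F) u := by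
    apply hF.fderiv_right
    norm_cast
  exact (ContinuousLinearMap.apply ℝ G (Pi.single j (1 : ℝ) : Fin (d + 1) → ℝ)).contDiff.contDiffAt.comp u h1

theorem ndu_iter {d : ℕ} {G : Type} [NormedAddCommGroup G] [NormedSpace ℝ G] (k : ℕ) :
    ∀ (F : (Fin (d + 1) → ℝ) → G) (u : Fin (d + 1) → ℝ),
      ContDiffAt ℝ (k : WithTop ℕ∞) F u → ∀ v : Fin k → Fin (d + 1),
      iteratedFDeriv ℝ k F u (fun j => Pi.single (v j) 1) =
        dW (List.ofFn (fun i => v (Fin.rev i))) F u := by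
  induction k with
  | zero =>
    intro F u hF v
    simp [dW]
  | succ k ih =>
    intro F u hF v
    have h1 : ContDiffAt ℝ (k : WithTop ℕ∞) (fderiv ℝ F) u := by
      apply hF.fderiv_right
      norm_cast
    rw [iteratedFDeriv_succ_apply_right]
    have h2 := ContinuousLinearMap.iteratedFDeriv_comp_left
      (ContinuousLinearMap.apply ℝ G (Pi.single (v (Fin.last k)) (1 : ℝ) : Fin (d + 1) → ℝ)) h1
      (i := k) le_rfl
    have h3 := ih (pd (v (Fin.last k)) F) u (ndu_pd_contDiffAt _ _ _ _ hF) (fun i => v i.castSucc)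
    have h4 : pd (v (Fin.last k)) F =
        (⇑(ContinuousLinearMap.apply ℝ G (Pi.single (v (Fin.last k)) (1 : ℝ) : Fin (d + 1) → ℝ)) ∘
          fderiv ℝ F) := by
      funext y
      rfl
    have h5 : List.ofFn (fun i : Fin (k + 1) => v (Fin.rev i)) =
        v (Fin.last k) :: List.ofFn (fun i : Fin k => v (Fin.rev i).castSucc) := by
      rw [List.ofFn_succ]
      have h6 : (fun i : Fin k => v (Fin.rev i.succ)) = fun i : Fin k => v (Fin.rev i).castSucc := by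
        funext i
        rw [Fin.rev_succ]
      rw [h6]
      simp
    rw [h5]
    simp only [dW]
    rw [← h3, h4, h2]
    rfl

theorem ndu_cont {d : ℕ} {G : Type} [NormedAddCommGroup G] [NormedSpace ℝ G]
    (L : List (Fin (d + 1))) :
    ∀ (F : (Fin (d + 1) → ℝ) → G) (u : Fin (d + 1) → ℝ) (n : ℕ), L.length ≤ n →
      ContDiffAt ℝ (n : WithTop ℕ∞) F u → ContinuousAt (dW L F) u := by
  induction L with
  | nil =>
    intro F u n _ hF
    exact hF.continuousAt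
  | cons j L ih =>
    intro F u n hn hF
    obtain ⟨n, rfl⟩ : ∃ n', n = n' + 1 := ⟨n - 1, by simp at hn; omega⟩
    exact ih (pd j F) u n (by simpa using hn) (ndu_pd_contDiffAt _ _ _ _ hF)

theorem ndu : S_NDU := by
  intro d m l Y u₀ ρ hρ hY hND
  have hYat : ContDiffAt ℝ (l : WithTop ℕ∞) Y u₀ := hY.contDiffAt (Metric.ball_mem_nhds _ hρ)
  by_cases hex : ∃ w : Fin m → ℝ, w ≠ 0
  swap
  · refine ⟨1, one_pos, 1, one_pos, fun ε _ => ⟨ρ, hρ, le_rfl, fun w hw => ?_⟩⟩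
    exact (hex ⟨w, hw⟩).elim
  classical
  -- the finite set of words
  have hfin : {L : List (Fin (d + 1)) | L.length ≤ l}.Finite := List.finite_length_le _ l
  set S : Finset (List (Fin (d + 1))) :=
    hfin.toFinset.filter (fun L => 1 ≤ L.length ∧ (L.length = 1 → (0 : Fin (d + 1)) ∉ L)) with hS
  have hmem : ∀ L, L ∈ S ↔ L.length ≤ l ∧ 1 ≤ L.length ∧
      (L.length = 1 → (0 : Fin (d + 1)) ∉ L) := by
    intro L
    simp [hS]
  set φ : List (Fin (d + 1)) → (Fin m → ℝ) → ℝ := fun L w => |∑ i, w i * dW L Y u₀ i| with hφ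
  have hφc : ∀ L, Continuous (φ L) := by
    intro L
    simp only [hφ]
    fun_prop
  have hφh : ∀ L (c : ℝ) (w : Fin m → ℝ), φ L (c • w) = |c| * φ L w := by
    intro L c w
    simp only [hφ, Pi.smul_apply, smul_eq_mul, mul_assoc, ← Finset.mul_sum, abs_mul]
  set Q : (Fin m → ℝ) → ℝ := fun w => ∑ L ∈ S, φ L w with hQ
  have hQc : Continuous Q := by
    simp only [hQ]
    exact continuous_finsetSum _ (fun L _ => hφc L)
  have hφ0 : ∀ L w, 0 ≤ φ L w := fun L w => abs_nonneg _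
  have hQpos : ∀ w : Fin m → ℝ, w ≠ 0 → 0 < Q w := by
    intro w hw
    obtain ⟨k, hk1, hkl, v, hv, hne⟩ := hND w hw
    have h1 : ContDiffAt ℝ (k : WithTop ℕ∞) Y u₀ := hYat.of_le (by exact_mod_cast hkl)
    rw [ndu_iter k Y u₀ h1 v] at hne
    have hL : List.ofFn (fun i : Fin k => v (Fin.rev i)) ∈ S := by
      rw [hmem]
      refine ⟨by simpa using hkl, by simpa using hk1, ?_⟩
      intro hlen h0
      rw [List.length_ofFn] at hlen
      apply hv
      refine ⟨hlen, ?_⟩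
      rw [List.mem_ofFn] at h0
      obtain ⟨i, hi⟩ := h0
      subst hlen
      intro i'
      have : i' = Fin.rev i := Subsingleton.elim _ _
      rw [this]
      exact hi
    refine lt_of_lt_of_le (abs_pos.2 hne) ?_
    exact Finset.single_le_sum (f := fun L => φ L w) (fun L _ => hφ0 L w) hL
  -- minimum on the sphere
  obtain ⟨w₁, hw₁⟩ := hex
  have hcomp : IsCompact (Metric.sphere (0 : Fin m → ℝ) 1) := isCompact_sphere _ _
  have hn1 : ‖w₁‖ ≠ 0 := norm_ne_zero_iff.2 hw₁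
  have hne : (Metric.sphere (0 : Fin m → ℝ) 1).Nonempty := by
    refine ⟨‖w₁‖⁻¹ • w₁, ?_⟩
    simp [norm_smul, hn1]
  obtain ⟨w₂, hw₂, hmin⟩ := hcomp.exists_isMinOn hne hQc.continuousOn
  have hw₂0 : w₂ ≠ 0 := by
    rintro rfl
    simp at hw₂
  have hc := hQpos w₂ hw₂0
  set c : ℝ := Q w₂ with hcdef
  have hQl : ∀ w : Fin m → ℝ, c * ‖w‖ ≤ Q w := by
    intro w
    by_cases hw : w = 0
    · subst hw
      simp only [norm_zero, mul_zero]
      exact Finset.sum_nonneg (fun L _ => hφ0 L _)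
    · have hnw : 0 < ‖w‖ := norm_pos_iff.2 hw
      have h1 : ‖w‖⁻¹ • w ∈ Metric.sphere (0 : Fin m → ℝ) 1 := by
        simp [norm_smul, hnw.ne']
      have h2 : c ≤ Q (‖w‖⁻¹ • w) := hmin h1
      have h3 : Q (‖w‖⁻¹ • w) = ‖w‖⁻¹ * Q w := by
        simp only [hQ, hφh, Finset.mul_sum, abs_inv, abs_norm]
      rw [h3] at h2
      calc c * ‖w‖ ≤ (‖w‖⁻¹ * Q w) * ‖w‖ := by gcongr
        _ = Q w := by field_simp
  set N : ℝ := (S.card : ℝ) + 1 with hN
  have hNpos : 0 < N := by positivity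
  set A : ℝ := 1 + ∑ L ∈ S, (m : ℝ) * ‖dW L Y u₀‖ with hA
  have hApos : 0 < A := by
    have : 0 ≤ ∑ L ∈ S, (m : ℝ) * ‖dW L Y u₀‖ := Finset.sum_nonneg (fun L _ => by positivity)
    linarith
  have hAbd : ∀ L ∈ S, ∀ w : Fin m → ℝ, φ L w ≤ A * ‖w‖ := by
    intro L hL w
    have h1 : φ L w ≤ ∑ i : Fin m, ‖w‖ * ‖dW L Y u₀‖ := by
      simp only [hφ]
      refine (Finset.abs_sum_le_sum_abs _ _).trans ?_
      refine Finset.sum_le_sum (fun i _ => ?_)
      rw [abs_mul]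
      have ha : |w i| ≤ ‖w‖ := by
        rw [← Real.norm_eq_abs]; exact norm_le_pi_norm w i
      have hb : |dW L Y u₀ i| ≤ ‖dW L Y u₀‖ := by
        rw [← Real.norm_eq_abs]; exact norm_le_pi_norm _ i
      gcongr
    have h2 : (m : ℝ) * ‖dW L Y u₀‖ ≤ ∑ L ∈ S, (m : ℝ) * ‖dW L Y u₀‖ :=
      Finset.single_le_sum (f := fun L => (m : ℝ) * ‖dW L Y u₀‖) (fun L _ => by positivity) hL
    have h3 : (∑ i : Fin m, ‖w‖ * ‖dW L Y u₀‖) = ((m : ℝ) * ‖dW L Y u₀‖) * ‖w‖ := by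
      simp
      ring
    rw [h3] at h1
    refine h1.trans ?_
    gcongr
    linarith
  refine ⟨c / N, by positivity, A, hApos, fun ε hε => ?_⟩
  -- the radius
  have hcont : ∀ L ∈ S, ∃ r : ℝ, 0 < r ∧ ∀ u ∈ Metric.ball u₀ r, ‖dW L Y u - dW L Y u₀‖ ≤ ε := by
    intro L hL
    have h1 : ContinuousAt (dW L Y) u₀ := ndu_cont L Y u₀ l ((hmem L).1 hL).1 hYat
    obtain ⟨r, hr, hr'⟩ := Metric.continuousAt_iff.1 h1 ε hε
    refine ⟨r, hr, fun u hu => ?_⟩
    have := hr' hu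
    rw [dist_eq_norm] at this
    exact this.le
  choose! rr hrr hrr' using hcont
  have hSne : S.Nonempty := by
    by_contra h
    rw [Finset.not_nonempty_iff_eq_empty] at h
    have : Q w₂ = 0 := by simp [hQ, h]
    exact hc.ne' this
  refine ⟨min ρ (S.inf' hSne rr), ?_, min_le_left _ _, fun w hw => ?_⟩
  · refine lt_min hρ ?_
    rw [Finset.lt_inf'_iff]
    exact hrr
  · have h1 : c * ‖w‖ ≤ ∑ L ∈ S, φ L w := hQl w
    obtain ⟨L, hL, hmax⟩ := S.exists_max_image (fun L => φ L w) hSne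
    have h2 : ∑ L ∈ S, φ L w ≤ S.card * φ L w := by
      have := Finset.sum_le_card_nsmul S (fun L => φ L w) (φ L w) hmax
      simpa using this
    obtain ⟨hLl, hL1, hL0⟩ := (hmem L).1 hL
    refine ⟨L, hL1, hLl, hL0, ?_, hAbd L hL w, fun u hu => ?_⟩
    · have h3 : c * ‖w‖ ≤ N * φ L w := by
        have : 0 ≤ φ L w := hφ0 L w
        rw [hN]
        nlinarith
      have h4 : c / N * ‖w‖ = (c * ‖w‖) / N := by ring
      rw [h4, div_le_iff₀ hNpos]
      calc c * ‖w‖ ≤ N * φ L w := h3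
        _ = φ L w * N := by ring
    · apply hrr' L hL
      have h5 : min ρ (S.inf' hSne rr) ≤ rr L := (min_le_right _ _).trans (Finset.inf'_le _ hL)
      exact Metric.ball_subset_ball h5 hu

end Pool.Agent.Helper982_KG.Bad
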