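import Pool.Agent.Helper982_KG.BadDefs

set_option autoImplicit false

open MeasureTheory Set

namespace Pool.Agent.Helper982_KG.Bad

theorem om_one (b N : ℕ) (α r : ℝ) (hb : 1 ≤ b) (hN : 1 ≤ N) (hr : 0 < r) :
    volume {x : ℝ | x ∈ Metric.ball α r ∧ ∃ a : ℤ, |(b : ℝ) * x - a| ≤ 1 / (N : ℝ)}
      ≤ ENNReal.ofReal ((2 * r + 3) * 2 / N) := by
  have hb' : (1 : ℝ) ≤ b := by exact_mod_cast hb
  have hN' : (1 : ℝ) ≤ N := by exact_mod_cast hN
  have hN1 : 1 / (N : ℝ) ≤ 1 := by rw [div_le_one (by linarith)]; exact hN'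
  set A : ℝ := b * (α - r) - 1 / N with hA
  set B : ℝ := b * (α + r) + 1 / N with hB
  have hsub : {x : ℝ | x ∈ Metric.ball α r ∧ ∃ a : ℤ, |(b : ℝ) * x - a| ≤ 1 / (N : ℝ)} ⊆
      ⋃ a ∈ Finset.Icc ⌈A⌉ ⌊B⌋, Icc (((a : ℝ) - 1 / N) / b) (((a : ℝ) + 1 / N) / b) := by
    rintro x ⟨hx, a, ha⟩
    rw [Metric.mem_ball, Real.dist_eq, abs_lt] at hx
    rw [abs_le] at ha
    simp only [mem_iUnion]
    have hb0 : (0 : ℝ) < b := by linarith
    refine ⟨a, ?_, ?_⟩
    · rw [Finset.mem_Icc]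
      constructor
      · rw [Int.ceil_le, hA]
        nlinarith
      · rw [Int.le_floor, hB]
        nlinarith
    · rw [mem_Icc, div_le_iff₀ hb0, le_div_iff₀ hb0]
      constructor <;> nlinarith
  refine (measure_mono hsub).trans ((measure_biUnion_finset_le _ _).trans ?_)
  have hb0 : (0 : ℝ) < b := by linarith
  have hN0 : (0 : ℝ) < N := by linarith
  have h1 : ∀ a ∈ Finset.Icc ⌈A⌉ ⌊B⌋,
      volume (Icc (((a : ℝ) - 1 / N) / b) (((a : ℝ) + 1 / N) / b)) =
        ENNReal.ofReal (2 / (N * b)) := by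
    intro a _
    rw [Real.volume_Icc]
    congr 1
    field_simp
    ring
  rw [Finset.sum_congr rfl h1, Finset.sum_const, nsmul_eq_mul,
    ← ENNReal.ofReal_natCast, ← ENNReal.ofReal_mul (by positivity)]
  apply ENNReal.ofReal_le_ofReal
  have hcard : ((Finset.Icc ⌈A⌉ ⌊B⌋).card : ℝ) ≤ (2 * r + 3) * b := by
    rw [Int.card_Icc]
    have h2 : (((⌊B⌋ + 1 - ⌈A⌉).toNat : ℤ) : ℝ) = (((⌊B⌋ + 1 - ⌈A⌉).toNat : ℕ) : ℝ) := by
      push_cast
      rfl
    rw [← h2, Int.toNat_eq_max]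
    push_cast
    apply max_le
    · have e1 : (⌊B⌋ : ℝ) ≤ B := Int.floor_le B
      have e2 : A ≤ (⌈A⌉ : ℝ) := Int.le_ceil A
      rw [hB] at e1
      rw [hA] at e2
      have : 2 / (N : ℝ) = 1 / N + 1 / N := by ring
      nlinarith
    · positivity
  calc ((Finset.Icc ⌈A⌉ ⌊B⌋).card : ℝ) * (2 / (N * b))
      ≤ ((2 * r + 3) * b) * (2 / (N * b)) := by
        apply mul_le_mul_of_nonneg_right hcard
        positivity
    _ = (2 * r + 3) * 2 / N := by
        field_simp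

theorem om : S_OM := by
  intro d b N u₀ r hb hN hr
  constructor
  · have : Om b N u₀ r = Metric.ball u₀ r ∩ ⋃ a : ℤ, {u | |(b : ℝ) * u 0 - a| ≤ 1 / (N : ℝ)} := by
      ext u
      simp only [Om, mem_inter_iff, mem_iUnion]
      rfl
    rw [this]
    refine measurableSet_ball.inter (MeasurableSet.iUnion fun a => ?_)
    refine (isClosed_le ?_ continuous_const).measurableSet
    fun_prop
  · have h1 : Om b N u₀ r = Set.pi univ (Fin.cons
        {x : ℝ | x ∈ Metric.ball (u₀ 0) r ∧ ∃ a : ℤ, |(b : ℝ) * x - a| ≤ 1 / (N : ℝ)}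
        (fun i : Fin d => Metric.ball (u₀ i.succ) r) : Fin (d + 1) → Set ℝ) := by
      ext u
      rw [Set.mem_univ_pi, Fin.forall_fin_succ]
      simp only [Fin.cons_zero, Fin.cons_succ]
      constructor
      · rintro ⟨hu, a, ha⟩
        rw [Metric.mem_ball, dist_pi_lt_iff hr] at hu
        exact ⟨⟨hu 0, a, ha⟩, fun i => hu i.succ⟩
      · rintro ⟨⟨h0, a, ha⟩, hs⟩
        refine ⟨?_, a, ha⟩
        rw [Metric.mem_ball, dist_pi_lt_iff hr]
        exact Fin.forall_fin_succ.2 ⟨h0, hs⟩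
    rw [h1, MeasureTheory.volume_pi_pi, Fin.prod_univ_succ]
    simp only [Fin.cons_zero, Fin.cons_succ]
    have h2 : (∏ i : Fin d, volume (Metric.ball (u₀ i.succ) r)) = ENNReal.ofReal ((2 * r) ^ d) := by
      simp only [Real.volume_ball]
      rw [Finset.prod_const, Finset.card_univ, Fintype.card_fin, ENNReal.ofReal_pow (by positivity)]
    rw [h2]
    calc _ ≤ ENNReal.ofReal ((2 * r + 3) * 2 / N) * ENNReal.ofReal ((2 * r) ^ d) :=
          mul_le_mul_left (om_one b N (u₀ 0) r hb hN hr) _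
      _ = ENNReal.ofReal ((2 * r) ^ d * (2 * r + 3) * 2 / N) := by
          rw [← ENNReal.ofReal_mul (by positivity)]
          congr 1
          ring

end Pool.Agent.Helper982_KG.Bad
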