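import Pool.Agent.Helper982_KG.BadDefs

set_option autoImplicit false

open MeasureTheory Set

namespace Pool.Agent.Helper982_KG.Bad

namespace RecAux

/-- Counting indices close to a given one. -/
theorem count_near (M i : ℕ) (ρ : ℝ) (hρ : 0 < ρ) :
    (((Finset.range M).filter fun i' : ℕ => |((i' : ℝ) - i)| < ρ).card : ℝ) ≤ 2 * ρ + 1 := by
  set n : ℕ := ⌈ρ⌉₊ with hn
  have hn1 : 1 ≤ n := Nat.one_le_iff_ne_zero.2 (by
    intro h0
    have := Nat.ceil_eq_zero.1 h0
    linarith)
  have hn2 : (n : ℝ) < ρ + 1 := Nat.ceil_lt_add_one hρ.le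
  have hρn : ρ ≤ n := Nat.le_ceil ρ
  have h1 : ((Finset.range M).filter fun i' : ℕ => |((i' : ℝ) - i)| < ρ).card ≤
      (Finset.Icc ((i : ℤ) - (n - 1 : ℤ)) ((i : ℤ) + (n - 1 : ℤ))).card := by
    apply Finset.card_le_card_of_injOn (fun i' : ℕ => (i' : ℤ))
    · intro i' hi'
      have hi2 : |((i' : ℝ) - i)| < ρ := (Finset.mem_filter.1 (Finset.mem_coe.1 hi')).2
      have h3 : |((i' : ℝ) - i)| < n := lt_of_lt_of_le hi2 hρn
      have h4 : |((i' : ℤ) - i)| < (n : ℤ) := by
        have h5 : ((|((i' : ℤ) - i)| : ℤ) : ℝ) < ((n : ℤ) : ℝ) := by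
          push_cast
          exact h3
        exact_mod_cast h5
      rw [abs_lt] at h4
      rw [Finset.mem_coe, Finset.mem_Icc]
      show (i : ℤ) - (n - 1 : ℤ) ≤ (i' : ℤ) ∧ (i' : ℤ) ≤ (i : ℤ) + (n - 1 : ℤ)
      constructor <;> omega
    · intro a _ b _ hab
      have hab' : (a : ℤ) = (b : ℤ) := hab
      exact_mod_cast hab'
  have h2 : (Finset.Icc ((i : ℤ) - (n - 1 : ℤ)) ((i : ℤ) + (n - 1 : ℤ))).card = 2 * n - 1 := by
    rw [Int.card_Icc]
    omega
  have h3 : ((((Finset.range M).filter fun i' : ℕ => |((i' : ℝ) - i)| < ρ).card : ℕ) : ℝ) ≤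
      ((2 * n - 1 : ℕ) : ℝ) := by
    exact_mod_cast h2 ▸ h1
  have h4 : ((2 * n - 1 : ℕ) : ℝ) = 2 * (n : ℝ) - 1 := by
    rw [Nat.cast_sub (by omega)]
    push_cast
    ring
  rw [h4] at h3
  linarith

theorem rpow_bound (s : ℝ) (hs : 0 < s) (hs1 : 5 * s ≤ 1) (k : ℕ) :
    Real.sqrt (5 * s + 2 * (5 * s) ^ ((1 : ℝ) / 2 ^ k)) ≤
      2 * (5 * s) ^ ((1 : ℝ) / 2 ^ (k + 1)) := by
  have h5 : 0 < 5 * s := by linarith
  have hk : (1 : ℝ) / 2 ^ k ≤ 1 := by
    rw [div_le_one (by positivity)]
    exact one_le_pow₀ (by norm_num)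
  have h1 : 5 * s ≤ (5 * s) ^ ((1 : ℝ) / 2 ^ k) := by
    have := Real.rpow_le_rpow_of_exponent_ge h5 hs1 hk
    rwa [Real.rpow_one] at this
  have h2 : (5 * s) ^ ((1 : ℝ) / 2 ^ k) = ((5 * s) ^ ((1 : ℝ) / 2 ^ (k + 1))) ^ 2 := by
    rw [← Real.rpow_natCast ((5 * s) ^ ((1 : ℝ) / 2 ^ (k + 1))) 2, ← Real.rpow_mul h5.le]
    congr 1
    rw [pow_succ]
    field_simp
    norm_num
  have h3 : 0 ≤ (5 * s) ^ ((1 : ℝ) / 2 ^ (k + 1)) := Real.rpow_nonneg h5.le _
  rw [Real.sqrt_le_left (by positivity)]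
  rw [h2] at h1 ⊢
  nlinarith

theorem one_le_rp (s : ℝ) (hs1 : 1 < 5 * s) (k : ℕ) :
    1 ≤ (5 * s) ^ ((1 : ℝ) / 2 ^ k) :=
  Real.one_le_rpow hs1.le (by positivity)

theorem norm_single {d : ℕ} (j : Fin (d + 1)) (y : ℝ) :
    ‖(y • Pi.single j (1 : ℝ) : Fin (d + 1) → ℝ)‖ = |y| := by
  rw [norm_smul]
  have : ‖(Pi.single j (1 : ℝ) : Fin (d + 1) → ℝ)‖ = 1 := by
    rw [Pi.norm_single]
    simp
  rw [this, mul_one, Real.norm_eq_abs]

theorem Om_mono {d b N : ℕ} {u₀ : Fin (d + 1) → ℝ} {r r' : ℝ} (h : r' ≤ r) :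
    Om b N u₀ r' ⊆ Om b N u₀ r :=
  fun _ hu => ⟨Metric.ball_subset_ball h hu.1, hu.2⟩

theorem shift_mem {d b N : ℕ} {u₀ : Fin (d + 1) → ℝ} {r r' H : ℝ} (hr : r' + H ≤ r)
    (j : Fin (d + 1)) (h : ℝ) (i : ℕ) (h0 : 0 ≤ (i : ℝ) * h) (hi : (i : ℝ) * h ≤ H)
    (hc : j = 0 → ∃ c : ℤ, (b : ℝ) * h = c) (u : Fin (d + 1) → ℝ) (hu : u ∈ Om b N u₀ r') :
    u - ((i : ℝ) * h) • (Pi.single j (1 : ℝ) : Fin (d + 1) → ℝ) ∈ Om b N u₀ r := by
  obtain ⟨hb, a, ha⟩ := hu
  refine ⟨?_, ?_⟩
  · rw [mem_ball_iff_norm] at hb ⊢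
    have h1 : u - ((i : ℝ) * h) • (Pi.single j (1 : ℝ) : Fin (d + 1) → ℝ) - u₀ =
        (u - u₀) - ((i : ℝ) * h) • (Pi.single j (1 : ℝ) : Fin (d + 1) → ℝ) := by abel
    rw [h1]
    have h2 := norm_sub_le (u - u₀) (((i : ℝ) * h) • (Pi.single j (1 : ℝ) : Fin (d + 1) → ℝ))
    rw [norm_single, abs_of_nonneg h0] at h2
    linarith
  · by_cases hj : j = 0
    · obtain ⟨c, hc'⟩ := hc hj
      refine ⟨a - i * c, ?_⟩
      subst hj
      have h1 : (b : ℝ) * ((u - ((i : ℝ) * h) • (Pi.single (0 : Fin (d + 1)) (1 : ℝ) :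
          Fin (d + 1) → ℝ)) 0) - ((a - i * c : ℤ) : ℝ) = (b : ℝ) * u 0 - a := by
        simp only [Pi.sub_apply, Pi.smul_apply, Pi.single_eq_same, smul_eq_mul, mul_one]
        push_cast
        rw [← hc']
        ring
      rw [h1]
      exact ha
    · refine ⟨a, ?_⟩
      have h1 : ((u - ((i : ℝ) * h) • (Pi.single j (1 : ℝ) :
          Fin (d + 1) → ℝ)) 0) = u 0 := by
        have : (Pi.single j (1 : ℝ) : Fin (d + 1) → ℝ) 0 = 0 :=
          Pi.single_eq_of_ne (fun h => hj h.symm) 1
        simp [this]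
      rw [h1]
      exact ha

end RecAux

open RecAux in
theorem recursion (step : S_STEP) : S_REC := by
  intro d b N u₀ r r' H s V hb hN hH hs hV hr hOm hvol L
  have hrr : r' ≤ r := by linarith
  induction L with
  | nil =>
    intro _ g θ Z _ _ hnear hDD
    have hZ : Z = ∅ := by
      rw [Set.eq_empty_iff_forall_notMem]
      intro u hu
      obtain ⟨a, ha⟩ := hnear u hu
      obtain ⟨h1, h2⟩ := hDD [] rfl (by simp) u hu
      simp only [List.length_nil, pow_zero, one_mul, List.zip_nil_left, DD] at h1 h2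
      by_cases ha0 : a = 0
      · rw [ha0] at ha
        simp only [Int.cast_zero, sub_zero] at ha
        linarith
      · have h3 : (1 : ℝ) ≤ |(a : ℝ)| := by
          have : (1 : ℤ) ≤ |a| := Int.one_le_abs ha0
          exact_mod_cast this
        have h4 : |(a : ℝ)| ≤ |g u - a| + |g u| := by
          have : (a : ℝ) = -(g u - a) + g u := by ring
          calc |(a : ℝ)| = |-(g u - a) + g u| := by rw [← this]
            _ ≤ |-(g u - a)| + |g u| := abs_add_le _ _
            _ = |g u - a| + |g u| := by rw [abs_neg]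
        linarith
    rw [hZ]
    simp
  | cons j L ih =>
    intro hL g θ Z hZm hZ hnear hDD
    obtain ⟨M, h, hh, hsM, hH1, hH2, hc⟩ := hL j (List.mem_cons_self)
    have hL' : ∀ j ∈ L, ∃ (M : ℕ) (h : ℝ), 0 < h ∧ 1 ≤ s * M ∧ H / 2 ≤ M * h ∧ M * h ≤ H ∧
        (j = 0 → ∃ c : ℤ, (b : ℝ) * h = c) := fun j' hj' => hL j' (List.mem_cons_of_mem _ hj')
    have ih' := ih hL'
    have hM0 : (0 : ℝ) < M := by
      by_contra hcon
      have : (M : ℝ) = 0 := le_antisymm (not_lt.1 hcon) (Nat.cast_nonneg M)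
      rw [this] at hsM
      linarith
    have hM1 : 1 ≤ M := by exact_mod_cast hM0
    rcases le_or_gt (5 * s) 1 with hs5 | hs5
    · set B : ℝ := 2 * (5 * s) ^ ((1 : ℝ) / 2 ^ L.length) with hB
      have hB0 : 0 ≤ B := by positivity
      have key := step d M Z (Om b N u₀ r)
        (fun i => ((i : ℝ) * h) • (Pi.single j (1 : ℝ) : Fin (d + 1) → ℝ)) V (5 * s) B hM1 hZm hOm
        hV (by linarith) hB0 hvol ?_ ?_
      · refine key.trans (ENNReal.ofReal_le_ofReal ?_)
        refine mul_le_mul_of_nonneg_right ?_ hV.le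
        have := rpow_bound s hs hs5 L.length
        rw [List.length_cons]
        exact this
      · intro i hi u hu
        have hiM : (i : ℝ) ≤ M := by exact_mod_cast hi.le
        exact shift_mem hr j h i (by positivity)
          (le_trans (mul_le_mul_of_nonneg_right hiM hh.le) hH2) hc u (hZ hu)
      · -- the exceptional pairs
        refine ⟨((Finset.range M) ×ˢ (Finset.range M)).filter
          (fun p : ℕ × ℕ => |((p.2 : ℝ) - p.1)| < s * H / h), ?_, ?_⟩
        · have h1 : ((((Finset.range M) ×ˢ (Finset.range M)).filter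
              (fun p : ℕ × ℕ => |((p.2 : ℝ) - p.1)| < s * H / h)).card : ℝ) =
              ∑ i ∈ Finset.range M, (((Finset.range M).filter
                fun i' : ℕ => |((i' : ℝ) - i)| < s * H / h).card : ℝ) := by
            rw [Finset.card_filter, Finset.sum_product]
            push_cast
            refine Finset.sum_congr rfl fun i _ => ?_
            rw [Finset.card_filter]
            push_cast
            rfl
          rw [h1]
          have hρ : 0 < s * H / h := by positivity
          have h2 : ∀ i ∈ Finset.range M, (((Finset.range M).filter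
                fun i' : ℕ => |((i' : ℝ) - i)| < s * H / h).card : ℝ) ≤ 5 * s * M := by
            intro i _
            refine (count_near M i _ hρ).trans ?_
            have h3 : s * H / h ≤ s * (2 * M) := by
              rw [div_le_iff₀ hh]
              have : H ≤ 2 * (M * h) := by linarith
              nlinarith
            nlinarith
          refine (Finset.sum_le_sum h2).trans ?_
          rw [Finset.sum_const, Finset.card_range, nsmul_eq_mul]
          nlinarith
        · intro i hi i' hi' hT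
          have hge : s * H / h ≤ |((i' : ℝ) - i)| := by
            by_contra hcon
            apply hT
            rw [Finset.mem_filter, Finset.mem_product]
            exact ⟨⟨Finset.mem_range.2 hi, Finset.mem_range.2 hi'⟩, not_le.1 hcon⟩
          set t : ℝ := ((i' : ℝ) - i) * h with ht
          have ht1 : s * H ≤ |t| := by
            rw [ht, abs_mul, abs_of_pos hh]
            rwa [div_le_iff₀ hh] at hge
          have ht2 : |t| ≤ H := by
            rw [ht, abs_mul, abs_of_pos hh]
            have : |((i' : ℝ) - i)| ≤ M := by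
              have a1 : (i : ℝ) ≤ M := by exact_mod_cast hi.le
              have a2 : (i' : ℝ) ≤ M := by exact_mod_cast hi'.le
              have a3 : (0 : ℝ) ≤ i := Nat.cast_nonneg i
              have a4 : (0 : ℝ) ≤ i' := Nat.cast_nonneg i'
              rw [abs_le]
              constructor <;> linarith
            exact le_trans (mul_le_mul_of_nonneg_right this hh.le) hH2
          have hdiff : ((i' : ℝ) * h) • (Pi.single j (1 : ℝ) : Fin (d + 1) → ℝ) -
              ((i : ℝ) * h) • (Pi.single j (1 : ℝ) : Fin (d + 1) → ℝ) =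
              t • (Pi.single j (1 : ℝ) : Fin (d + 1) → ℝ) := by
            rw [← sub_smul, ht]
            congr 1
            ring
          have hset : {u | u ∈ Z ∧ u + (((i' : ℝ) * h) • (Pi.single j (1 : ℝ) : Fin (d + 1) → ℝ) -
              ((i : ℝ) * h) • (Pi.single j (1 : ℝ) : Fin (d + 1) → ℝ)) ∈ Z} =
              {u | u ∈ Z ∧ u + t • (Pi.single j (1 : ℝ) : Fin (d + 1) → ℝ) ∈ Z} := by
            rw [hdiff]
          show volume {u | u ∈ Z ∧ u + (((i' : ℝ) * h) • (Pi.single j (1 : ℝ) :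
            Fin (d + 1) → ℝ) - ((i : ℝ) * h) • (Pi.single j (1 : ℝ) : Fin (d + 1) → ℝ)) ∈ Z} ≤ _
          rw [hset]
          refine ih' (fun u => g (u + t • Pi.single j 1) - g u) (2 * θ) _ ?_ ?_ ?_ ?_
          · exact hZm.inter ((measurable_id.add_const _) hZm)
          · exact fun u hu => hZ hu.1
          · rintro u ⟨hu1, hu2⟩
            obtain ⟨a, ha⟩ := hnear u hu1
            obtain ⟨a', ha'⟩ := hnear _ hu2
            refine ⟨a' - a, ?_⟩
            have : g (u + t • Pi.single j 1) - g u - ((a' - a : ℤ) : ℝ) =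
                (g (u + t • Pi.single j 1) - a') - (g u - a) := by
              push_cast; ring
            rw [this]
            refine (abs_sub _ _).trans_lt ?_
            linarith
          · intro t' ht' hrange u hu
            have h3 := hDD (t :: t') (by simp [ht']) (by
              intro y hy
              rcases List.mem_cons.1 hy with rfl | hy
              · exact ⟨ht1, ht2⟩
              · exact hrange y hy) u hu.1
            simp only [List.zip_cons_cons, DD, List.length_cons] at h3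
            have h4 : (2 : ℝ) ^ L.length * (2 * θ) = 2 ^ (L.length + 1) * θ := by
              rw [pow_succ]; ring
            rw [h4]
            exact h3
    · have h1 : volume Z ≤ ENNReal.ofReal V :=
        (measure_mono (hZ.trans (Om_mono hrr))).trans hvol
      refine h1.trans (ENNReal.ofReal_le_ofReal ?_)
      have := one_le_rp s hs5 (j :: L).length
      nlinarith

end Pool.Agent.Helper982_KG.Bad
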