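import Pool.Agent.Helper982_KG.BadDefs

set_option autoImplicit false

open MeasureTheory Set

namespace Pool.Agent.Helper982_KG.Bad

/-- Cauchy-Schwarz for a sum of indicators -/
theorem step_aux_cs {E : Type} [MeasurableSpace E] (μ : Measure E) (M : ℕ) (T : ℕ → Set E)
    (Om' : Set E) (hT : ∀ i < M, MeasurableSet (T i)) (hO : MeasurableSet Om')
    (hsub : ∀ i < M, T i ⊆ Om') :
    (∑ i ∈ Finset.range M, μ (T i)) ^ 2 ≤
      (∑ p ∈ Finset.range M ×ˢ Finset.range M, μ (T p.1 ∩ T p.2)) * μ Om' := by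
  classical
  set φ : E → ENNReal := fun u => ∑ i ∈ Finset.range M, (T i).indicator 1 u with hφ
  have hm : Measurable φ := by
    apply Finset.measurable_fun_sum
    intro i hi
    exact measurable_one.indicator (hT i (Finset.mem_range.1 hi))
  have h1 : ∫⁻ u, φ u ∂μ = ∑ i ∈ Finset.range M, μ (T i) := by
    rw [hφ, lintegral_finsetSum]
    · refine Finset.sum_congr rfl fun i hi => ?_
      exact lintegral_indicator_one (hT i (Finset.mem_range.1 hi))
    · intro i hi
      exact measurable_one.indicator (hT i (Finset.mem_range.1 hi))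
  have h2 : ∫⁻ u, (φ u) ^ (2 : ℝ) ∂μ
      = ∑ p ∈ Finset.range M ×ˢ Finset.range M, μ (T p.1 ∩ T p.2) := by
    have e : ∀ u, (φ u) ^ (2 : ℝ) =
        ∑ p ∈ Finset.range M ×ˢ Finset.range M, (T p.1 ∩ T p.2).indicator 1 u := by
      intro u
      rw [show (2 : ℝ) = ((2 : ℕ) : ℝ) by norm_num, ENNReal.rpow_natCast, sq, hφ]
      simp only
      rw [Finset.sum_mul_sum, ← Finset.sum_product']
      refine Finset.sum_congr rfl fun p _ => ?_
      by_cases ha : u ∈ T p.1 <;> by_cases hb : u ∈ T p.2 <;> simp [ha, hb]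
    rw [lintegral_congr e, lintegral_finsetSum]
    · refine Finset.sum_congr rfl fun p hp => ?_
      rw [Finset.mem_product] at hp
      exact lintegral_indicator_one ((hT _ (Finset.mem_range.1 hp.1)).inter
        (hT _ (Finset.mem_range.1 hp.2)))
    · intro p hp
      rw [Finset.mem_product] at hp
      exact measurable_one.indicator ((hT _ (Finset.mem_range.1 hp.1)).inter
        (hT _ (Finset.mem_range.1 hp.2)))
  have h3 : ∫⁻ u, (Om'.indicator (1 : E → ENNReal) u) ^ (2 : ℝ) ∂μ = μ Om' := by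
    have e : ∀ u, (Om'.indicator (1 : E → ENNReal) u) ^ (2 : ℝ) = Om'.indicator 1 u := by
      intro u
      by_cases ha : u ∈ Om' <;> simp [ha]
    rw [lintegral_congr e]
    exact lintegral_indicator_one hO
  have h4 : (φ * Om'.indicator (1 : E → ENNReal)) = φ := by
    funext u
    rw [Pi.mul_apply]
    by_cases ha : u ∈ Om'
    · simp [ha]
    · have : φ u = 0 := by
        rw [hφ]
        apply Finset.sum_eq_zero
        intro i hi
        rw [Set.indicator_of_notMem]
        exact fun h => ha (hsub i (Finset.mem_range.1 hi) h)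
      simp [this]
  have h5 := ENNReal.lintegral_mul_le_Lp_mul_Lq μ Real.HolderConjugate.two_two hm.aemeasurable
    (measurable_one.indicator hO).aemeasurable (g := Om'.indicator (1 : E → ENNReal))
  rw [h4, h1, h2, h3] at h5
  calc (∑ i ∈ Finset.range M, μ (T i)) ^ 2
      ≤ ((∑ p ∈ Finset.range M ×ˢ Finset.range M, μ (T p.1 ∩ T p.2)) ^ ((1 : ℝ) / 2)
        * (μ Om') ^ ((1 : ℝ) / 2)) ^ 2 := by gcongr
    _ = _ := by
      rw [mul_pow, ← ENNReal.rpow_natCast, ← ENNReal.rpow_natCast, ← ENNReal.rpow_mul,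
        ← ENNReal.rpow_mul]
      norm_num

theorem step : S_STEP := by
  classical
  intro d M Z Om' x V σ B hM hZ hO hV hσ hB hOV hsub ⟨T, hT, hTB⟩
  have htr : ∀ (a : Fin (d + 1) → ℝ) (A : Set (Fin (d + 1) → ℝ)),
      volume ((fun u => u + a) ⁻¹' A) = volume A := fun a A => measure_preimage_add_right _ a A
  have hmeas : ∀ (a : Fin (d + 1) → ℝ) (A : Set (Fin (d + 1) → ℝ)), MeasurableSet A →
      MeasurableSet ((fun u => u + a) ⁻¹' A) := fun a A hA => (measurable_add_const a) hA
  set S : ℕ → Set (Fin (d + 1) → ℝ) := fun i => (fun u => u + x i) ⁻¹' Z with hS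
  have hSm : ∀ i < M, MeasurableSet (S i) := fun i _ => hmeas _ _ hZ
  have hSO : ∀ i < M, S i ⊆ Om' := by
    intro i hi u hu
    have h1 := hsub i hi (u + x i) hu
    simpa using h1
  have hSv : ∀ i, volume (S i) = volume Z := fun i => htr _ _
  have hZV : volume Z ≤ ENNReal.ofReal V := by
    rw [← hSv 0]
    exact (measure_mono (hSO 0 (by omega))).trans hOV
  have hfin : volume Z ≠ ⊤ := ne_top_of_le_ne_top ENNReal.ofReal_ne_top hZV
  have hcs := step_aux_cs volume M S Om' hSm hO hSO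
  have hinter : ∀ i i', volume (S i ∩ S i') = volume {u | u ∈ Z ∧ u + (x i' - x i) ∈ Z} := by
    intro i i'
    rw [← htr (x i) {u | u ∈ Z ∧ u + (x i' - x i) ∈ Z}]
    congr 1
    ext u
    simp only [hS, Set.mem_inter_iff, Set.mem_preimage, Set.mem_ofPred_eq]
    rw [show u + x i + (x i' - x i) = u + x i' by abel]
  have hbound : (∑ p ∈ Finset.range M ×ˢ Finset.range M, volume (S p.1 ∩ S p.2)) ≤
      ENNReal.ofReal (σ * (M : ℝ) ^ 2 * V + (M : ℝ) ^ 2 * (B * V)) := by
    have h1 : (∑ p ∈ Finset.range M ×ˢ Finset.range M, volume (S p.1 ∩ S p.2)) ≤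
        ∑ p ∈ Finset.range M ×ˢ Finset.range M,
          ((if p ∈ T then ENNReal.ofReal V else 0) + ENNReal.ofReal (B * V)) := by
      apply Finset.sum_le_sum
      intro p hp
      rw [Finset.mem_product, Finset.mem_range, Finset.mem_range] at hp
      by_cases hpT : p ∈ T
      · rw [if_pos hpT]
        calc volume (S p.1 ∩ S p.2) ≤ volume (S p.1) := measure_mono Set.inter_subset_left
          _ = volume Z := hSv _
          _ ≤ ENNReal.ofReal V := hZV
          _ ≤ _ := le_self_add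
      · rw [if_neg hpT, zero_add, hinter]
        exact hTB p.1 hp.1 p.2 hp.2 hpT
    refine h1.trans ?_
    rw [Finset.sum_add_distrib, Finset.sum_const, Finset.card_product, Finset.card_range,
      Finset.sum_ite_mem, Finset.sum_const, nsmul_eq_mul, nsmul_eq_mul,
      ENNReal.ofReal_add (by positivity) (by positivity)]
    gcongr
    · have h2 : (((Finset.range M ×ˢ Finset.range M) ∩ T).card : ENNReal)
          ≤ ENNReal.ofReal (σ * (M : ℝ) ^ 2) := by
        have h3 : ((((Finset.range M ×ˢ Finset.range M) ∩ T).card : ℕ) : ℝ) ≤ σ * (M : ℝ) ^ 2 :=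
          le_trans (by exact_mod_cast Finset.card_le_card Finset.inter_subset_right) hT
        rw [← ENNReal.ofReal_natCast]
        exact ENNReal.ofReal_le_ofReal h3
      calc _ ≤ ENNReal.ofReal (σ * (M : ℝ) ^ 2) * ENNReal.ofReal V := by gcongr
        _ = _ := (ENNReal.ofReal_mul (by positivity)).symm
    · rw [ENNReal.ofReal_mul (by positivity : (0 : ℝ) ≤ (M : ℝ) ^ 2)]
      gcongr
      rw [← ENNReal.ofReal_natCast]
      apply ENNReal.ofReal_le_ofReal
      push_cast
      rw [sq]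
  -- back to real numbers
  set z := (volume Z).toReal with hz
  have hz0 : 0 ≤ z := ENNReal.toReal_nonneg
  have hzZ : volume Z = ENNReal.ofReal z := (ENNReal.ofReal_toReal hfin).symm
  have hsum : (∑ i ∈ Finset.range M, volume (S i)) = ENNReal.ofReal ((M : ℝ) * z) := by
    rw [Finset.sum_congr rfl fun i _ => hSv i, Finset.sum_const, Finset.card_range, nsmul_eq_mul,
      hzZ, ENNReal.ofReal_mul (by positivity), ENNReal.ofReal_natCast]
  have hR : ENNReal.ofReal (((M : ℝ) * z) ^ 2) ≤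
      ENNReal.ofReal ((σ * (M : ℝ) ^ 2 * V + (M : ℝ) ^ 2 * (B * V)) * V) := by
    rw [ENNReal.ofReal_pow (by positivity), ← hsum, ENNReal.ofReal_mul (by positivity)]
    refine hcs.trans ?_
    gcongr
  have hR' : ((M : ℝ) * z) ^ 2 ≤ (σ * (M : ℝ) ^ 2 * V + (M : ℝ) ^ 2 * (B * V)) * V :=
    (ENNReal.ofReal_le_ofReal_iff (by positivity)).1 hR
  have hM0 : (0 : ℝ) < (M : ℝ) ^ 2 := by
    have : (0 : ℝ) < M := by exact_mod_cast hM
    positivity
  have h1 : z ^ 2 ≤ (σ + B) * V ^ 2 := by
    have h2 : (M : ℝ) ^ 2 * z ^ 2 ≤ (M : ℝ) ^ 2 * ((σ + B) * V ^ 2) := by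
      calc (M : ℝ) ^ 2 * z ^ 2 = ((M : ℝ) * z) ^ 2 := by ring
        _ ≤ _ := hR'
        _ = _ := by ring
    exact le_of_mul_le_mul_left h2 hM0
  rw [hzZ]
  apply ENNReal.ofReal_le_ofReal
  calc z = Real.sqrt (z ^ 2) := (Real.sqrt_sq hz0).symm
    _ ≤ Real.sqrt ((σ + B) * V ^ 2) := Real.sqrt_le_sqrt h1
    _ = Real.sqrt (σ + B) * V := by
      rw [Real.sqrt_mul (by positivity), Real.sqrt_sq hV.le]

end Pool.Agent.Helper982_KG.Bad
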