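import Pool.Agent.Helper982_KG.BadAsm
import Pool.Agent.Helper982_KG.BadItdiff
import Pool.Agent.Helper982_KG.BadNdu
import Pool.Agent.Helper982_KG.BadOm
import Pool.Agent.Helper982_KG.BadStep
import Pool.Agent.Helper982_KG.BadRec

/-!
# Part BAD (helper661; sub-lemmas by helper625, helper977, helper218, helper148, helper146)
-/

namespace Pool.Agent.Helper982_KG.Bad

/-- P9: the exceptional set -/
theorem bad : S_BAD := bad_of itdiff ndu om (recursion step)

end Pool.Agent.Helper982_KG.Bad
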