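import Pool.Agent.Helper982_KG.Stmts

/-!
# MP_99fd1a_nt, part BASES (helper297): bases of the lattices at three scales
-/

set_option autoImplicit false

open MeasureTheory Set Finset

namespace Pool.Agent.Helper982_KG.Bases

lemma comp_exists (b a : ℤ) (hb : 1 ≤ b) (h : IsCoprime b a) :
    ∃ c : ℤ × ℤ, 0 ≤ c.1 ∧ c.1 < b ∧ b * c.2 - a * c.1 = -1 := by
  obtain ⟨u, v, huv⟩ := h
  -- u * b + v * a = 1
  refine ⟨(v % b, -u - a * (v / b)), Int.emod_nonneg _ (by omega), Int.emod_lt_of_pos _ (by omega),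
    ?_⟩
  have h1 := Int.emod_add_mul_ediv v b
  have h2 : v % b = v - b * (v / b) := by linarith
  change b * (-u - a * (v / b)) - a * (v % b) = -1
  rw [h2]
  linear_combination -huv

open Classical in
/-- the second row of the basis with first row `c` -/
noncomputable def comp (c : ℤ × ℤ) : ℤ × ℤ :=
  if h : 1 ≤ c.1 ∧ IsCoprime c.1 c.2 then (comp_exists c.1 c.2 h.1 h.2).choose else 0

lemma comp_spec {c : ℤ × ℤ} (h1 : 1 ≤ c.1) (h2 : IsCoprime c.1 c.2) :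
    0 ≤ (comp c).1 ∧ (comp c).1 < c.1 ∧ c.1 * (comp c).2 - c.2 * (comp c).1 = -1 := by
  unfold comp
  rw [dif_pos ⟨h1, h2⟩]
  exact (comp_exists c.1 c.2 h1 h2).choose_spec

/-- the properties of a basis at scale `N` -/
structure Sc (N : ℝ) (x : ℝ) (c c' : ℤ × ℤ) : Prop where
  one : 1 ≤ c.1
  low : kap * N ≤ c.1
  upp : (c.1 : ℝ) ≤ N
  app : |(c.1 : ℝ) * x - c.2| ≤ 1 / N
  nn : 0 ≤ c'.1
  lt : c'.1 < c.1
  det : c.1 * c'.2 - c.2 * c'.1 = -1

lemma kap_pos : 0 < kap := by unfold kap; norm_num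

lemma exists_sc (N : ℕ) (x : ℝ) (hN : 1 ≤ N) (hE : EE N x) : ∃ c : ℤ × ℤ, Sc N x c (comp c) := by
  obtain ⟨j, k, hk, hkN, hjk⟩ := Real.exists_int_int_abs_mul_sub_le x (n := N) hN
  have hN0 : (0 : ℝ) < N := by exact_mod_cast hN
  set g : ℤ := ((Int.gcd k j : ℕ) : ℤ) with hg
  have hgpos : 0 < g := by
    have : Int.gcd k j ≠ 0 := fun h => by
      rw [Int.gcd_eq_zero_iff] at h
      omega
    omega
  obtain ⟨b, hb⟩ : g ∣ k := Int.gcd_dvd_left _ _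
  obtain ⟨a, ha⟩ : g ∣ j := Int.gcd_dvd_right _ _
  have hb0 : 0 < b := by
    by_contra h
    push Not at h
    have : g * b ≤ 0 := mul_nonpos_of_nonneg_of_nonpos hgpos.le h
    omega
  have hcop : IsCoprime b a := by
    have h1 : Int.gcd k j = g.natAbs * Int.gcd b a := by
      conv_lhs => rw [hb, ha]
      exact Int.gcd_mul_left _ _ _
    have h2 : g.natAbs = Int.gcd k j := by rw [hg]; exact Int.natAbs_natCast _
    rw [h2] at h1
    rw [Int.isCoprime_iff_gcd_eq_one]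
    have h3 : 0 < Int.gcd k j := by omega
    exact (Nat.eq_of_mul_eq_mul_left h3 (by rw [mul_one]; exact h1)).symm
  have hgR : (1 : ℝ) ≤ g := by exact_mod_cast hgpos
  have happ : |(b : ℝ) * x - a| ≤ 1 / N := by
    have h1 : (k : ℝ) * x - j = g * ((b : ℝ) * x - a) := by
      rw [hb, ha]
      push_cast
      ring
    have h2 : |(k : ℝ) * x - j| ≤ 1 / N := by
      have h3 : |(k : ℝ) * x - j| ≤ 1 / (N + 1) := by
        rw [mul_comm]
        simpa [mul_comm] using hjk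
      refine h3.trans ?_
      exact one_div_le_one_div_of_le hN0 (by linarith)
    rw [h1, abs_mul, abs_of_pos (by linarith)] at h2
    refine le_trans ?_ h2
    exact le_mul_of_one_le_left (abs_nonneg _) hgR
  have hbN : b ≤ N := by
    have : b ≤ g * b := le_mul_of_one_le_left hb0.le hgpos
    omega
  have hlow : kap * N ≤ b := by
    by_contra h
    push Not at h
    have h1 := hE b.toNat (by omega) (by
      have : ((b.toNat : ℕ) : ℝ) = b := by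
        exact_mod_cast congrArg (Int.cast (R := ℝ)) (Int.toNat_of_nonneg hb0.le)
      rw [this]
      exact h) a
    have h2 : ((b.toNat : ℕ) : ℝ) = b := by
      exact_mod_cast congrArg (Int.cast (R := ℝ)) (Int.toNat_of_nonneg hb0.le)
    rw [h2] at h1
    linarith
  have hspec := comp_spec (c := (b, a)) (by exact hb0) hcop
  exact ⟨(b, a), ⟨hb0, hlow, by exact_mod_cast hbN, happ, hspec.1, hspec.2.1, hspec.2.2⟩⟩

lemma Sc.app' {N x : ℝ} {c c' : ℤ × ℤ} (hN : 0 < N) (h : Sc N x c c') :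
    |(c'.1 : ℝ) * x - c'.2| ≤ 2 ^ 17 / N := by
  have hb : (1 : ℝ) ≤ c.1 := by exact_mod_cast h.one
  have hb0 : (0 : ℝ) < c.1 := by linarith
  have hd : (c.1 : ℝ) * c'.2 - c.2 * c'.1 = -1 := by exact_mod_cast h.det
  have h1 : (c'.1 : ℝ) * x - c'.2 = (c'.1 / c.1) * (c.1 * x - c.2) + 1 / c.1 := by
    field_simp
    linear_combination -hd
  have hlt : (c'.1 : ℝ) ≤ c.1 := by exact_mod_cast h.lt.le
  have hnn : (0 : ℝ) ≤ c'.1 := by exact_mod_cast h.nn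
  have h2 : |(c'.1 : ℝ) / c.1| ≤ 1 := by
    rw [abs_of_nonneg (by positivity), div_le_one hb0]
    exact hlt
  have h3 : (1 : ℝ) / c.1 ≤ 2 ^ 16 / N := by
    rw [div_le_div_iff₀ hb0 hN]
    have := h.low
    unfold kap at this
    linarith
  rw [h1]
  calc |(c'.1 : ℝ) / c.1 * (c.1 * x - c.2) + 1 / c.1|
      ≤ |(c'.1 : ℝ) / c.1 * (c.1 * x - c.2)| + |1 / (c.1 : ℝ)| := abs_add_le _ _
    _ ≤ 1 * (1 / N) + 2 ^ 16 / N := by
        rw [abs_mul]
        refine add_le_add (mul_le_mul h2 h.app (abs_nonneg _) zero_le_one) ?_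
        rw [abs_of_nonneg (by positivity)]
        exact h3
    _ ≤ 2 ^ 17 / N := by
        rw [one_mul, ← add_div]
        exact div_le_div_of_nonneg_right (by norm_num) hN.le

/-- the transition matrix -/
def tr (c c' e e' : ℤ × ℤ) : M4 :=
  (-(e.1 * c'.2) + e.2 * c'.1, e.1 * c.2 - e.2 * c.1,
    -(e'.1 * c'.2) + e'.2 * c'.1, e'.1 * c.2 - e'.2 * c.1)

lemma entry_le {N N' x : ℝ} (hN : 0 < N) (hNN : N ≤ N') {b a b' a' : ℤ} (hb : |(b : ℝ)| ≤ N)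
    (ha : |(b : ℝ) * x - a| ≤ 2 ^ 17 / N) (hb' : |(b' : ℝ)| ≤ N')
    (ha' : |(b' : ℝ) * x - a'| ≤ 2 ^ 17 / N') :
    |(b' : ℝ) * a - a' * b| ≤ 2 ^ 18 * (N' / N) := by
  have h1 : (b' : ℝ) * a - a' * b = b * (b' * x - a') - b' * (b * x - a) := by ring
  have hN' : 0 < N' := by linarith
  rw [h1]
  have hq : N / N' ≤ N' / N := by
    rw [div_le_div_iff₀ hN' hN]
    nlinarith
  calc |(b : ℝ) * (b' * x - a') - b' * (b * x - a)|
      ≤ |(b : ℝ) * (b' * x - a')| + |(b' : ℝ) * (b * x - a)| := abs_sub _ _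
    _ ≤ N * (2 ^ 17 / N') + N' * (2 ^ 17 / N) := by
        rw [abs_mul, abs_mul]
        exact add_le_add (mul_le_mul hb ha' (abs_nonneg _) hN.le)
          (mul_le_mul hb' ha (abs_nonneg _) hN'.le)
    _ = 2 ^ 17 * (N / N') + 2 ^ 17 * (N' / N) := by ring
    _ ≤ 2 ^ 18 * (N' / N) := by nlinarith

lemma tr_mem {N x : ℝ} (hN : 0 < N) (t : ℕ) {c c' e e' : ℤ × ℤ} (h : Sc N x c c')
    (h' : Sc (N * 2 ^ t) x e e') : tr c c' e e' ∈ GG (2 ^ 35) (2 ^ 18 * 2 ^ t) := by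
  have h2t : (1 : ℝ) ≤ 2 ^ t := one_le_pow₀ (by norm_num)
  have hN' : 0 < N * 2 ^ t := by positivity
  have hNN : N ≤ N * 2 ^ t := le_mul_of_one_le_right hN.le h2t
  have hq : N * 2 ^ t / N = 2 ^ t := by field_simp
  -- the four bounds
  have b1 : |(c.1 : ℝ)| ≤ N := by
    rw [abs_of_nonneg (by exact_mod_cast (by linarith [h.one] : (0 : ℤ) ≤ c.1))]
    exact h.upp
  have b1' : |(c'.1 : ℝ)| ≤ N := by
    rw [abs_of_nonneg (by exact_mod_cast h.nn)]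
    have : (c'.1 : ℝ) ≤ c.1 := by exact_mod_cast h.lt.le
    linarith [h.upp]
  have b2 : |(e.1 : ℝ)| ≤ N * 2 ^ t := by
    rw [abs_of_nonneg (by exact_mod_cast (by linarith [h'.one] : (0 : ℤ) ≤ e.1))]
    exact h'.upp
  have b2' : |(e'.1 : ℝ)| ≤ N * 2 ^ t := by
    rw [abs_of_nonneg (by exact_mod_cast h'.nn)]
    have : (e'.1 : ℝ) ≤ e.1 := by exact_mod_cast h'.lt.le
    linarith [h'.upp]
  have a1 : |(c.1 : ℝ) * x - c.2| ≤ 2 ^ 17 / N :=
    h.app.trans (div_le_div_of_nonneg_right (by norm_num) hN.le)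
  have a1' := h.app' hN
  have a2 : |(e.1 : ℝ) * x - e.2| ≤ 2 ^ 17 / (N * 2 ^ t) :=
    h'.app.trans (div_le_div_of_nonneg_right (by norm_num) hN'.le)
  have a2' := h'.app' hN'
  have key : ∀ {b a b' a' : ℤ}, |(b : ℝ)| ≤ N → |(b : ℝ) * x - a| ≤ 2 ^ 17 / N →
      |(b' : ℝ)| ≤ N * 2 ^ t → |(b' : ℝ) * x - a'| ≤ 2 ^ 17 / (N * 2 ^ t) →
      |b' * a - a' * b| ≤ 2 ^ 18 * 2 ^ t := by
    intro b a b' a' k1 k2 k3 k4
    have := entry_le hN hNN k1 k2 k3 k4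
    rw [hq] at this
    exact_mod_cast this
  have f1 : |e.1 * c'.2 - e.2 * c'.1| ≤ 2 ^ 18 * 2 ^ t := key b1' a1' b2 a2
  have f2 : |e.1 * c.2 - e.2 * c.1| ≤ 2 ^ 18 * 2 ^ t := key b1 a1 b2 a2
  have f3 : |e'.1 * c'.2 - e'.2 * c'.1| ≤ 2 ^ 18 * 2 ^ t := key b1' a1' b2' a2'
  have f4 : |e'.1 * c.2 - e'.2 * c.1| ≤ 2 ^ 18 * 2 ^ t := key b1 a1 b2' a2'
  have hd := h.det
  have hd' := h'.det
  -- the first row
  have hrow : (e.1 : ℝ) = (-(e.1 * c'.2) + e.2 * c'.1 : ℤ) * c.1 +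
      (e.1 * c.2 - e.2 * c.1 : ℤ) * c'.1 := by
    have : e.1 = (-(e.1 * c'.2) + e.2 * c'.1) * c.1 + (e.1 * c.2 - e.2 * c.1) * c'.1 := by
      linear_combination e.1 * hd
    exact_mod_cast this
  have hmax : kap * 2 ^ t ≤ 2 * ((max |-(e.1 * c'.2) + e.2 * c'.1| |e.1 * c.2 - e.2 * c.1| : ℤ) :
      ℝ) := by
    set μ : ℤ := max |-(e.1 * c'.2) + e.2 * c'.1| |e.1 * c.2 - e.2 * c.1| with hμ
    have m1 : |((-(e.1 * c'.2) + e.2 * c'.1 : ℤ) : ℝ)| ≤ μ := by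
      exact_mod_cast le_max_left _ _
    have m2 : |((e.1 * c.2 - e.2 * c.1 : ℤ) : ℝ)| ≤ μ := by
      exact_mod_cast le_max_right _ _
    have h1 : (e.1 : ℝ) ≤ μ * N + μ * N := by
      rw [hrow]
      refine (le_abs_self _).trans ((abs_add_le _ _).trans ?_)
      rw [abs_mul, abs_mul]
      exact add_le_add (mul_le_mul m1 b1 (abs_nonneg _) ((abs_nonneg _).trans m1))
        (mul_le_mul m2 b1' (abs_nonneg _) ((abs_nonneg _).trans m2))
    have h2 := h'.low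
    have h3 : kap * (N * 2 ^ t) ≤ N * (2 * μ) := by linarith
    have h4 : N * (kap * 2 ^ t) ≤ N * (2 * μ) := by linarith
    exact le_of_mul_le_mul_left h4 hN
  unfold GG
  rw [Finset.mem_filter]
  refine ⟨?_, ?_, ?_⟩
  · simp only [Finset.mem_product, Finset.mem_Icc, tr]
    push_cast
    rw [abs_le] at f1 f2 f3 f4
    refine ⟨⟨?_, ?_⟩, ⟨?_, ?_⟩, ⟨?_, ?_⟩, ⟨?_, ?_⟩⟩ <;> linarith [f1.1, f1.2, f2.1, f2.2, f3.1, f3.2, f4.1, f4.2]
  · simp only [tr]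
    linear_combination (e.1 * e'.2 - e.2 * e'.1) * hd - hd'
  · simp only [tr]
    have h5 : ((2 ^ 18 * 2 ^ t : ℕ) : ℝ) ≤ ((2 ^ 35 : ℕ) : ℝ) *
        ((max |-(e.1 * c'.2) + e.2 * c'.1| |e.1 * c.2 - e.2 * c.1| : ℤ) : ℝ) := by
      unfold kap at hmax
      push_cast
      push_cast at hmax
      linarith
    exact_mod_cast h5

theorem iact_tr {c c' e e' : ℤ × ℤ} (h : c.1 * c'.2 - c.2 * c'.1 = -1) :
    iact (tr c c' e e') (c.1, c'.1) = (e.1, e'.1) ∧ iact (tr c c' e e') (c.2, c'.2) = (e.2, e'.2) := by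
  unfold iact tr
  refine ⟨Prod.ext ?_ ?_, Prod.ext ?_ ?_⟩
  · change (-(e.1 * c'.2) + e.2 * c'.1) * c.1 + (e.1 * c.2 - e.2 * c.1) * c'.1 = e.1
    linear_combination (-e.1) * h
  · change (-(e'.1 * c'.2) + e'.2 * c'.1) * c.1 + (e'.1 * c.2 - e'.2 * c.1) * c'.1 = e'.1
    linear_combination (-e'.1) * h
  · change (-(e.1 * c'.2) + e.2 * c'.1) * c.2 + (e.1 * c.2 - e.2 * c.1) * c'.2 = e.2
    linear_combination (-e.2) * h
  · change (-(e'.1 * c'.2) + e'.2 * c'.1) * c.2 + (e'.1 * c.2 - e'.2 * c.1) * c'.2 = e'.2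
    linear_combination (-e'.2) * h

theorem bases : S_BASES := by
  refine ⟨2 ^ 35, 2 ^ 18, comp, by norm_num, by norm_num, ?_⟩
  intro N t s x hN h0 h1 h2
  have hNr : (0 : ℝ) < N := by exact_mod_cast hN
  have h2t : 1 ≤ 2 ^ t := Nat.one_le_two_pow
  have h2s : 1 ≤ 2 ^ s := Nat.one_le_two_pow
  obtain ⟨c, hc⟩ := exists_sc N x hN h0
  obtain ⟨e, he⟩ := exists_sc (N * 2 ^ t) x (Nat.mul_pos hN h2t) h1
  obtain ⟨f, hf⟩ := exists_sc (N * 2 ^ t * 2 ^ s) x (Nat.mul_pos (Nat.mul_pos hN h2t) h2s) h2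
  push_cast at he hf
  have hNt : (0 : ℝ) < N * 2 ^ t := by positivity
  have hNts : (0 : ℝ) < N * 2 ^ t * 2 ^ s := by positivity
  refine ⟨c, tr e (comp e) f (comp f), tr c (comp c) e (comp e), ?_⟩
  obtain ⟨i1, i2⟩ := iact_tr (e := e) (e' := comp e) hc.det
  obtain ⟨i3, i4⟩ := iact_tr (e := f) (e' := comp f) he.det
  unfold BaseData
  rw [i1, i2, i3, i4]
  refine ⟨tr_mem hNt s he hf, tr_mem hNr t hc he, hc.one, hc.low, by exact_mod_cast hc.upp, hc.app,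
    hc.nn, ?_, ?_, hf.low, hf.upp, hf.nn, ?_, hf.app, ?_⟩
  · have h3 : (c.1 : ℝ) ≤ N := hc.upp
    have h4 : c.1 ≤ N := by exact_mod_cast h3
    exact hc.lt.le.trans h4
  · have := hf.det
    linear_combination this
  · have h3 : ((comp f).1 : ℝ) ≤ f.1 := by exact_mod_cast hf.lt.le
    exact h3.trans hf.upp
  · refine (hf.app' hNts).trans (div_le_div_of_nonneg_right ?_ hNts.le)
    push_cast
    norm_num

end Pool.Agent.Helper982_KG.Bases
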