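import Mathlib

/-!
# Divergence multiplicative Khintchine-Groshev for nondegenerate maps: definitions

Problem MP_99fd1a_nt.  The blueprint is `work/paper.md` on the branch `helper982` (paper 120 in the
team database); the statements of the parts are in `Stmts.lean`.
-/

open MeasureTheory Set

namespace Pool.Agent.Helper982_KG

/-- integer `2 × 2` matrices `(x, y; z, w)` -/
abbrev M4 := ℤ × ℤ × ℤ × ℤ

/-- matrices of determinant `1`, entries at most `R`, with a first row of size at least `R / C₀` -/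
noncomputable def GG (C₀ R : ℕ) : Finset M4 :=
  ((Finset.Icc (-(R : ℤ)) R) ×ˢ (Finset.Icc (-(R : ℤ)) R) ×ˢ (Finset.Icc (-(R : ℤ)) R) ×ˢ
    (Finset.Icc (-(R : ℤ)) R)).filter
    (fun g => g.1 * g.2.2.2 - g.2.1 * g.2.2.1 = 1 ∧ (R : ℤ) ≤ C₀ * max |g.1| |g.2.1|)

/-- action of an integer matrix on a real column vector -/
def act (g : M4) (v : ℝ × ℝ) : ℝ × ℝ :=
  ((g.1 : ℝ) * v.1 + (g.2.1 : ℝ) * v.2, (g.2.2.1 : ℝ) * v.1 + (g.2.2.2 : ℝ) * v.2)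

/-- action of the transpose of an integer matrix on an integer column vector -/
def tact (g : M4) (w : ℤ × ℤ) : ℤ × ℤ :=
  (g.1 * w.1 + g.2.2.1 * w.2, g.2.1 * w.1 + g.2.2.2 * w.2)

/-- action of an integer matrix on an integer column vector -/
def iact (g : M4) (v : ℤ × ℤ) : ℤ × ℤ :=
  (g.1 * v.1 + g.2.1 * v.2, g.2.2.1 * v.1 + g.2.2.2 * v.2)

/-- `e(t) = exp(2 π i t)` -/
noncomputable def e (t : ℝ) : ℂ := Complex.exp ((2 * Real.pi * t : ℝ) * Complex.I)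

/-- distance from `t` to the integers is at most `ρ` -/
def NI (t ρ : ℝ) : Prop := ∃ k : ℤ, |t - k| ≤ ρ

/-- distance from `t` to the integers is at least `κ₁` -/
def Far (κ₁ t : ℝ) : Prop := ∀ k : ℤ, κ₁ ≤ |t - k|

/-- `v` is within `ρ` of `z` modulo `ℤ²`, in both coordinates -/
def Near (ρ : ℝ) (v z : ℝ × ℝ) : Prop := NI (v.1 - z.1) ρ ∧ NI (v.2 - z.2) ρ

/-- Diophantine condition on one vector: `‖k ζ‖ ≥ κ₁` for `1 ≤ k ≤ K₁` -/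
def DioOne (K₁ : ℕ) (κ₁ : ℝ) (ζ : ℝ × ℝ) : Prop :=
  ∀ k : ℕ, 1 ≤ k → k ≤ K₁ → Far κ₁ (k * ζ.1) ∨ Far κ₁ (k * ζ.2)

/-- Diophantine condition on two vectors: `‖k₁ ξ + k₂ ξ'‖ ≥ κ₁` for `0 < |k| ≤ K₁` -/
def DioTwo (K₁ : ℕ) (κ₁ : ℝ) (ξ ξ' : ℝ × ℝ) : Prop :=
  ∀ k : ℤ × ℤ, k ≠ 0 → |k.1| ≤ K₁ → |k.2| ≤ K₁ →
    Far κ₁ (k.1 * ξ.1 + k.2 * ξ'.1) ∨ Far κ₁ (k.1 * ξ.2 + k.2 * ξ'.2)

/-- the absolute constant `κ` -/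
noncomputable def kap : ℝ := 1 / 65536

/-- `x` is not within `1 / (b N)` of a rational `a / b` with `b < κ N` -/
def EE (N : ℕ) (x : ℝ) : Prop :=
  ∀ b : ℕ, 1 ≤ b → (b : ℝ) < kap * N → ∀ a : ℤ, 1 / (N : ℝ) < |(b : ℝ) * x - a|

/-- the linear form `mm · y` -/
def dt {m : ℕ} (mm : Fin m → ℕ) (yx : Fin m → ℝ) : ℝ := ∑ i, (mm i : ℝ) * yx i

/-- the event at a point `x` with value `yx` of the map: some coprime `(p, q)` with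
`2 ^ k ≤ q < 2 ^ (k + 1)` and `|p + q x + mm · yx| < δ` -/
def Ev {m : ℕ} (k : ℕ) (mm : Fin m → ℕ) (δ : ℝ) (x : ℝ) (yx : Fin m → ℝ) : Prop :=
  ∃ (p : ℤ) (q : ℕ), 2 ^ k ≤ q ∧ q < 2 ^ (k + 1) ∧ Int.gcd p q = 1 ∧
    |(p : ℝ) + (q : ℝ) * x + dt mm yx| < δ

/-- Diophantine condition at the point `x` (with value `yx` of the map), scale `N`: no
`κ N ≤ b ≤ N` with `‖b x‖ ≤ 1 / N` and no integer `w ≠ 0`, `|w| ≤ W` has `‖b w · y(x)‖ < κ₁` -/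
def Dio {m : ℕ} (κ₁ : ℝ) (N W : ℕ) (x : ℝ) (yx : Fin m → ℝ) : Prop :=
  ∀ b : ℕ, kap * N ≤ (b : ℝ) → b ≤ N → (∃ a : ℤ, |(b : ℝ) * x - a| ≤ 1 / (N : ℝ)) →
    ∀ w : Fin m → ℤ, w ≠ 0 → (∀ i, |w i| ≤ W) → Far κ₁ ((b : ℝ) * ∑ i, (w i : ℝ) * yx i)

/-- `y` is Lipschitz with constant `L` in every coordinate on `[s, s + l]` -/
def LipOn {m : ℕ} (y : ℝ → Fin m → ℝ) (L s l : ℝ) : Prop :=
  ∀ x ∈ Icc s (s + l), ∀ x' ∈ Icc s (s + l), ∀ i, |y x i - y x' i| ≤ L * |x - x'|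

/-! ### scales: `X = 2 ^ k`, `N₁ = 2 ^ (k - s)`, `N₀ = 2 ^ (k - s - t)` -/

/-- the exponent `s = ⌊k / a₁⌋` -/
def sE (a₁ k : ℕ) : ℕ := k / a₁
/-- the exponent `t = ⌊k / 8⌋` -/
def tE (k : ℕ) : ℕ := k / 8
/-- the coarse scale `N₀` -/
def N0 (a₁ k : ℕ) : ℕ := 2 ^ (k - sE a₁ k - tE k)
/-- the middle scale `N₁` -/
def N1 (a₁ k : ℕ) : ℕ := 2 ^ (k - sE a₁ k)

/-- the good set at scale `k` (condition on the point `x` and the value `yx`) -/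
def Gd {m : ℕ} (a₁ k : ℕ) (x : ℝ) (yx : Fin m → ℝ) : Prop :=
  EE (2 ^ k) x ∧ EE (N1 a₁ k) x ∧ EE (N0 a₁ k) x ∧
    Dio (1 / 2 ^ (tE k / 2)) (N0 a₁ k) (2 ^ (3 * sE a₁ k)) x yx

/-- condition on the exponents: `a₁ ≥ 64`, `a₄ ≥ 2000 a₁`, `a₃ ≥ 4 (m + 1) a₄` -/
def ParOK (m a₁ a₃ a₄ : ℕ) : Prop := 64 ≤ a₁ ∧ 2000 * a₁ ≤ a₄ ∧ 4 * (m + 1) * a₄ ≤ a₃

/-- the admissible range for `mm` at scale `k` -/
def MOK {m : ℕ} (a₃ k : ℕ) (mm : Fin m → ℕ) : Prop := ∀ i, 1 ≤ mm i ∧ mm i ≤ 2 ^ (k / a₃)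

/-- the admissible range for `δ` at scale `k` -/
def dOK (a₄ k : ℕ) (δ : ℝ) : Prop := 1 / (2 : ℝ) ^ (k + k / a₄) ≤ δ ∧ δ ≤ 1 / (2 : ℝ) ^ (k + 4)

/-- the word `v` of basis directions is not the single letter `e₀` -/
def NotE0 {d : ℕ} {k : ℕ} (v : Fin k → Fin (d + 1)) : Prop := ¬ (k = 1 ∧ ∀ i, v i = 0)

/-- nondegeneracy of `u ↦ (u₀, Y u)` at `u₀`, in normal form -/
def NDn {d m : ℕ} (l : ℕ) (Y : (Fin (d + 1) → ℝ) → (Fin m → ℝ)) (u₀ : Fin (d + 1) → ℝ) : Prop :=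
  ∀ w : Fin m → ℝ, w ≠ 0 → ∃ k : ℕ, 1 ≤ k ∧ k ≤ l ∧ ∃ v : Fin k → Fin (d + 1), NotE0 v ∧
    ∑ i, w i * (iteratedFDeriv ℝ k Y u₀ (fun j => Pi.single (v j) 1)) i ≠ 0

end Pool.Agent.Helper982_KG
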