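import Mathlib
import Pool.Agent.Helper982_KG.Defs

/-!
# Divergence multiplicative Khintchine-Groshev: statements of the parts

Every part is a `Prop`; `Helper982_KG/<Part>.lean` proves it, possibly from earlier ones.
-/

open MeasureTheory Set Finset

namespace Pool.Agent.Helper982_KG

/-! ### P0: kernels -/

/-- Fejer expansion: `|∑_{k<K} e(kt)|² = ∑_{|k|<K} (K - |k|) e(kt)` -/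
def S_FEJ : Prop := ∀ (K : ℕ) (t : ℝ),
  ((‖∑ k ∈ Finset.range K, e (k * t)‖ ^ 2 : ℝ) : ℂ) =
    ∑ k ∈ Finset.Ioo (-(K : ℤ)) K, (((K : ℝ) - |(k : ℝ)| : ℝ) : ℂ) * e (k * t)

/-- lower bound of the kernel near the integers -/
def S_FLOW : Prop := ∀ (K : ℕ) (t : ℝ), 1 ≤ K → NI t (1 / (2 * K)) →
  (K : ℝ) / 2 ≤ ‖∑ k ∈ Finset.range K, e (k * t)‖

/-- geometric sum -/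
def S_GEO : Prop := ∀ (κ₁ t : ℝ) (R : ℕ), 0 < κ₁ → Far κ₁ t →
  ‖∑ k ∈ Finset.Icc (-(R : ℤ)) R, e (k * t)‖ ≤ 1 / (2 * κ₁)

/-! ### P1: counting in `SL₂(ℤ)` -/

/-- at most `2 C₀ + 1` matrices with a given first row -/
def S_ROW : Prop := ∀ (C₀ R : ℕ) (r : ℤ × ℤ),
  ((GG C₀ R).filter (fun g => (g.1, g.2.1) = r)).card ≤ 2 * C₀ + 1

def S_CARD : Prop := ∀ C₀ R : ℕ, (GG C₀ R).card ≤ (2 * C₀ + 1) * (2 * R + 1) ^ 2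

/-- additive energy -/
def S_ENERGY : Prop := ∀ C₀ : ℕ, ∃ C : ℝ, 0 < C ∧ ∀ R : ℕ, 1 ≤ R →
  ((((GG C₀ R) ×ˢ (GG C₀ R) ×ˢ (GG C₀ R) ×ˢ (GG C₀ R)).filter
    (fun p => p.1 + p.2.1 = p.2.2.1 + p.2.2.2)).card : ℝ) ≤ C * (R : ℝ) ^ ((29 : ℝ) / 5)

/-- pairs with the same image of `w` -/
def S_MULT : Prop := ∀ C₀ : ℕ, ∃ C : ℝ, 0 < C ∧ ∀ R K : ℕ, 1 ≤ R → 1 ≤ K → ∀ w : ℤ × ℤ, w ≠ 0 →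
  |w.1| ≤ K → |w.2| ≤ K →
  ((((GG C₀ R) ×ˢ (GG C₀ R)).filter (fun p => tact p.1 w = tact p.2 w)).card : ℝ) ≤
    C * (K : ℝ) ^ 3 * (R : ℝ) ^ ((14 : ℝ) / 5)

/-! ### P2: bilinear sums -/

def S_R2 : Prop := ∀ C₀ : ℕ, ∃ C : ℝ, 0 < C ∧ ∀ (A₀ R : ℕ) (κ₁ : ℝ) (ξ ξ' : ℝ × ℝ), 1 ≤ A₀ →
  0 < κ₁ → 8 * (A₀ : ℝ) ≤ κ₁ * R → DioTwo (8 * A₀) κ₁ ξ ξ' →
  ‖∑ A ∈ GG C₀ A₀, ∑ B ∈ GG C₀ R, e ((act A (act B ξ)).1 + (act A (act B ξ')).2)‖ ≤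
    C * (A₀ : ℝ) ^ ((79 : ℝ) / 40) * (R : ℝ) ^ 2

def S_R1 : Prop := ∀ C₀ : ℕ, ∃ C : ℝ, 0 < C ∧ ∀ (A₀ R K : ℕ) (κ₁ : ℝ) (ζ : ℝ × ℝ) (w : ℤ × ℤ),
  1 ≤ A₀ → 1 ≤ K → 0 < κ₁ → 8 * (A₀ : ℝ) * K ≤ κ₁ * R → DioOne (4 * A₀ * K) κ₁ ζ →
  w ≠ 0 → |w.1| ≤ K → |w.2| ≤ K →
  ‖∑ A ∈ GG C₀ A₀, ∑ B ∈ GG C₀ R, e (w.1 * (act A (act B ζ)).1 + w.2 * (act A (act B ζ)).2)‖ ≤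
    C * (K : ℝ) ^ 2 * (A₀ : ℝ) ^ ((19 : ℝ) / 10) * (R : ℝ) ^ 2

/-! ### P3: box bounds -/

/-- common hypotheses of the box bounds -/
def BoxHyp (A₀ R K K₁ : ℕ) (κ₁ : ℝ) : Prop :=
  1 ≤ K ∧ K ^ 200 ≤ A₀ ∧ 16 * A₀ * K ^ 2 ≤ K₁ ∧ 0 < κ₁ ∧ 8 * (A₀ : ℝ) * K ≤ κ₁ * R

def S_BOX1 : Prop := ∀ C₀ : ℕ, ∃ C : ℝ, 0 < C ∧ ∀ (A₀ R K K₁ : ℕ) (κ₁ : ℝ) (ζ z : ℝ × ℝ),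
  BoxHyp A₀ R K K₁ κ₁ → DioOne K₁ κ₁ ζ →
  ∀ S : Finset (M4 × M4), (∀ p ∈ S, p.1 ∈ GG C₀ A₀ ∧ p.2 ∈ GG C₀ R ∧
    Near (1 / (2 * K)) (act p.1 (act p.2 ζ)) z) →
  (S.card : ℝ) ≤ C * (A₀ : ℝ) ^ 2 * (R : ℝ) ^ 2 / (K : ℝ) ^ 2

def S_BOX2 : Prop := ∀ C₀ : ℕ, ∃ C : ℝ, 0 < C ∧ ∀ (A₀ R K K₁ : ℕ) (κ₁ : ℝ) (ξ ξ' z z' : ℝ × ℝ),
  BoxHyp A₀ R K K₁ κ₁ → DioTwo K₁ κ₁ ξ ξ' →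
  ∀ S : Finset (M4 × M4), (∀ p ∈ S, p.1 ∈ GG C₀ A₀ ∧ p.2 ∈ GG C₀ R ∧
    Near (1 / (2 * K)) (act p.1 (act p.2 ξ)) z ∧ Near (1 / (2 * K)) (act p.1 (act p.2 ξ')) z') →
  (S.card : ℝ) ≤ C * (A₀ : ℝ) ^ 2 * (R : ℝ) ^ 2 / (K : ℝ) ^ 4

/-! ### P4: orbit counts -/

/-- counting lemma for pairs of integer vectors with small wedge -/
def S_COUNT : Prop := ∀ P Q Y : ℕ, ∀ S : Finset ((ℤ × ℤ) × (ℤ × ℤ)),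
  (∀ p ∈ S, p.1 ≠ 0 ∧ |p.1.1| ≤ P ∧ |p.1.2| ≤ P ∧ |p.2.1| ≤ Q ∧ |p.2.2| ≤ Q ∧
    |p.1.1 * p.2.2 - p.1.2 * p.2.1| ≤ Y) →
  S.card ≤ (2 * Q + 1) * (16 * P * Y + 8 * P ^ 2)

/-- orbit count, rank one -/
def S_O1 : Prop := ∀ C₀ C₁ : ℕ, ∃ C : ℝ, 0 < C ∧
  ∀ (A₀ R j j' Lg K₁ : ℕ) (κ₁ : ℝ) (ζ : ℝ × ℝ) (r τ ω : ℝ),
  1 ≤ j → 1 ≤ j' → Nat.Coprime j j' → BoxHyp A₀ R (j * j' * Lg) K₁ κ₁ → DioOne K₁ κ₁ ζ →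
  0 < r → r ≤ 1 → 0 < τ → τ ≤ 1 → 1 ≤ τ * r * Lg → 0 ≤ ω → ω ≤ 1 / (4 * (j * j' * Lg)) →
  ∀ S : Finset (M4 × M4), (∀ p ∈ S, p.1 ∈ GG C₀ A₀ ∧ p.2 ∈ GG C₀ R ∧
    ∃ (v v' : ℝ × ℝ) (a a' : ℤ × ℤ), |v.1| ≤ C₁ * r ∧ |v.2| ≤ C₁ * r ∧ |v'.1| ≤ C₁ ∧ |v'.2| ≤ C₁ ∧
      |v.1 * v'.2 - v.2 * v'.1| ≤ τ ∧
      |j * (act p.1 (act p.2 ζ)).1 + a.1 - v.1| ≤ ω ∧
      |j * (act p.1 (act p.2 ζ)).2 + a.2 - v.2| ≤ ω ∧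
      |j' * (act p.1 (act p.2 ζ)).1 + a'.1 - v'.1| ≤ ω ∧
      |j' * (act p.1 (act p.2 ζ)).2 + a'.2 - v'.2| ≤ ω ∧
      (j' * a.1 ≠ j * a'.1 ∨ j' * a.2 ≠ j * a'.2)) →
  (S.card : ℝ) ≤ C * τ * r * (A₀ : ℝ) ^ 2 * (R : ℝ) ^ 2

/-- orbit count, rank two -/
def S_O2 : Prop := ∀ C₀ C₁ : ℕ, ∃ C : ℝ, 0 < C ∧
  ∀ (A₀ R K K₁ : ℕ) (κ₁ : ℝ) (ξ ξ' : ℝ × ℝ) (r τ ω : ℝ),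
  BoxHyp A₀ R K K₁ κ₁ → DioTwo K₁ κ₁ ξ ξ' →
  0 < r → r ≤ 1 → 0 < τ → τ ≤ 1 → 1 ≤ τ * r * K → 0 ≤ ω → ω ≤ 1 / (16 * K) →
  ∀ S : Finset (M4 × M4), (∀ p ∈ S, p.1 ∈ GG C₀ A₀ ∧ p.2 ∈ GG C₀ R ∧
    ∃ v v' : ℝ × ℝ, |v.1| ≤ C₁ * r ∧ |v.2| ≤ C₁ * r ∧ |v'.1| ≤ C₁ ∧ |v'.2| ≤ C₁ ∧
      |v.1 * v'.2 - v.2 * v'.1| ≤ τ ∧
      Near ω (act p.1 (act p.2 ξ)) v ∧ Near ω (act p.1 (act p.2 ξ')) v') →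
  (S.card : ℝ) ≤ C * τ * r * (A₀ : ℝ) ^ 2 * (R : ℝ) ^ 2

/-! ### P5: bases of the lattices at three scales -/

/-- the data attached to a point `x` at the scales `N`, `N 2 ^ t`, `N 2 ^ t 2 ^ s` -/
def BaseData (C₀ C₂ : ℕ) (comp : ℤ × ℤ → ℤ × ℤ) (N t s : ℕ) (x : ℝ) (c : ℤ × ℤ) (A B : M4) :
    Prop :=
  A ∈ GG C₀ (C₂ * 2 ^ s) ∧ B ∈ GG C₀ (C₂ * 2 ^ t) ∧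
  1 ≤ c.1 ∧ kap * N ≤ c.1 ∧ c.1 ≤ N ∧ |(c.1 : ℝ) * x - c.2| ≤ 1 / N ∧
  0 ≤ (comp c).1 ∧ (comp c).1 ≤ N ∧
  -- the basis at the finest scale
  (iact A (iact B (c.1, (comp c).1))).1 * (iact A (iact B (c.2, (comp c).2))).2 -
    (iact A (iact B (c.2, (comp c).2))).1 * (iact A (iact B (c.1, (comp c).1))).2 = -1 ∧
  kap * (N * 2 ^ t * 2 ^ s) ≤ (iact A (iact B (c.1, (comp c).1))).1 ∧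
  ((iact A (iact B (c.1, (comp c).1))).1 : ℝ) ≤ N * 2 ^ t * 2 ^ s ∧
  0 ≤ (iact A (iact B (c.1, (comp c).1))).2 ∧
  ((iact A (iact B (c.1, (comp c).1))).2 : ℝ) ≤ N * 2 ^ t * 2 ^ s ∧
  |((iact A (iact B (c.1, (comp c).1))).1 : ℝ) * x - (iact A (iact B (c.2, (comp c).2))).1| ≤
    1 / (N * 2 ^ t * 2 ^ s) ∧
  |((iact A (iact B (c.1, (comp c).1))).2 : ℝ) * x - (iact A (iact B (c.2, (comp c).2))).2| ≤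
    C₂ / (N * 2 ^ t * 2 ^ s)

def S_BASES : Prop := ∃ (C₀ C₂ : ℕ) (comp : ℤ × ℤ → ℤ × ℤ), 1 ≤ C₀ ∧ 1 ≤ C₂ ∧
  ∀ (N t s : ℕ) (x : ℝ), 1 ≤ N → EE N x → EE (N * 2 ^ t) x → EE (N * 2 ^ t * 2 ^ s) x →
    ∃ (c : ℤ × ℤ) (A B : M4), BaseData C₀ C₂ comp N t s x c A B

/-! ### P7: packing on a line -/

/-- on an interval of length `C₃ / 4 ^ k` the event is covered by `n` intervals of length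
`4 δ / 2 ^ k` -/
def S_PACK : Prop := ∀ (m a₃ : ℕ) (L C₃ : ℝ), 2 ≤ a₃ → 0 ≤ L → 0 ≤ C₃ → ∃ n k₀ : ℕ,
  ∀ (s l : ℝ) (y : ℝ → Fin m → ℝ), LipOn y L s l → ∀ k, k₀ ≤ k → ∀ mm : Fin m → ℕ, MOK a₃ k mm →
  ∀ δ : ℝ, 0 < δ → δ ≤ 1 / 2 ^ (k + 4) → ∀ α : ℝ, ∃ c : Fin n → ℝ,
    {x | x ∈ Icc s (s + l) ∧ α ≤ x ∧ x ≤ α + C₃ / 4 ^ k ∧ EE (2 ^ k) x ∧ Ev k mm δ x (y x)} ⊆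
      ⋃ i, Icc (c i) (c i + 4 * δ / 2 ^ k)

/-- upper bound for one event -/
def S_UP : Prop := ∀ (m a₃ : ℕ) (L : ℝ), 2 ≤ a₃ → 0 ≤ L → ∃ C : ℝ, 0 < C ∧ ∀ l : ℝ, 0 < l → l ≤ 1 →
  ∃ k₀ : ℕ, ∀ (s : ℝ) (y : ℝ → Fin m → ℝ), LipOn y L s l → ∀ k, k₀ ≤ k → ∀ mm : Fin m → ℕ,
  MOK a₃ k mm → ∀ δ : ℝ, 0 < δ → δ ≤ 1 / 2 ^ (k + 4) →
    volume {x | x ∈ Icc s (s + l) ∧ EE (2 ^ k) x ∧ Ev k mm δ x (y x)} ≤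
      ENNReal.ofReal (C * l * (2 ^ k * δ))

/-- the two events at `(k, mm)` and `(k', mm')` -/
def Two {m : ℕ} (a₁ : ℕ) (k k' : ℕ) (mm mm' : Fin m → ℕ) (δ δ' : ℝ) (y : ℝ → Fin m → ℝ)
    (x : ℝ) : Prop :=
  Gd a₁ k x (y x) ∧ Ev k mm δ x (y x) ∧ Gd a₁ k' x (y x) ∧ Ev k' mm' δ' x (y x)

def S_CASE1 : Prop := ∀ (m a₁ a₃ a₄ : ℕ) (L : ℝ), ParOK m a₁ a₃ a₄ → 0 ≤ L → ∃ C : ℝ, 0 < C ∧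
  ∀ l : ℝ, 0 < l → l ≤ 1 → ∃ k₀ : ℕ, ∀ (s : ℝ) (y : ℝ → Fin m → ℝ), LipOn y L s l →
  ∀ k k' : ℕ, k₀ ≤ k → k ≤ k' → ∀ mm mm' : Fin m → ℕ, MOK a₃ k mm → MOK a₃ k' mm' →
  ∀ δ δ' : ℝ, dOK a₄ k δ → dOK a₄ k' δ' → (2 : ℝ) ^ k ≤ 8 * 4 ^ k' * δ →
    volume {x | x ∈ Icc s (s + l) ∧ Two a₁ k k' mm mm' δ δ' y x} ≤
      ENNReal.ofReal (C * l * (2 ^ k * δ) * (2 ^ k' * δ'))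

def S_CASE2 : Prop := ∀ (m a₁ a₃ a₄ : ℕ) (L : ℝ), ParOK m a₁ a₃ a₄ → 0 ≤ L → ∃ C : ℝ, 0 < C ∧
  ∀ l : ℝ, 0 < l → l ≤ 1 → ∃ k₀ : ℕ, ∀ (s : ℝ) (y : ℝ → Fin m → ℝ), LipOn y L s l →
  ∀ k k' : ℕ, k₀ ≤ k → k ≤ k' → ∀ mm mm' : Fin m → ℕ, MOK a₃ k mm → MOK a₃ k' mm' →
  ¬ (k = k' ∧ mm = mm') →
  ∀ δ δ' : ℝ, dOK a₄ k δ → dOK a₄ k' δ' → 8 * 4 ^ k' * δ < (2 : ℝ) ^ k →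
    volume {x | x ∈ Icc s (s + l) ∧ Two a₁ k k' mm mm' δ δ' y x} ≤
      ENNReal.ofReal (C * l * (2 ^ k * δ) * (2 ^ k' * δ'))

def S_PAIR : Prop := ∀ (m a₁ a₃ a₄ : ℕ) (L : ℝ), ParOK m a₁ a₃ a₄ → 0 ≤ L → ∃ C : ℝ, 0 < C ∧
  ∀ l : ℝ, 0 < l → l ≤ 1 → ∃ k₀ : ℕ, ∀ (s : ℝ) (y : ℝ → Fin m → ℝ), LipOn y L s l →
  ∀ k k' : ℕ, k₀ ≤ k → k₀ ≤ k' → ∀ mm mm' : Fin m → ℕ, MOK a₃ k mm → MOK a₃ k' mm' →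
  ¬ (k = k' ∧ mm = mm') → ∀ δ δ' : ℝ, dOK a₄ k δ → dOK a₄ k' δ' →
    volume {x | x ∈ Icc s (s + l) ∧ Two a₁ k k' mm mm' δ δ' y x} ≤
      ENNReal.ofReal (C * l * (2 ^ k * δ) * (2 ^ k' * δ'))

/-! ### P8: first moment on a line -/

/-- coprime pairs -/
def S_COPR : Prop := ∀ l : ℝ, 0 < l → l ≤ 1 → ∃ k₀ : ℕ, ∀ k, k₀ ≤ k → ∀ (α : ℕ → ℤ) (M : ℕ → ℕ),
  (∀ q : ℕ, 2 ^ k ≤ q → q < 2 ^ (k + 1) → |(M q : ℝ) - q * l| ≤ q * l / 50) →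
  (1 / 10 : ℝ) * 4 ^ k * l ≤ ∑ q ∈ Finset.Ico (2 ^ k) (2 ^ (k + 1)),
    ((((Finset.Ico (α q) (α q + M q)).filter (fun p => Int.gcd p q = 1)).card : ℕ) : ℝ)

def S_FIRST : Prop := ∀ (m a₁ a₃ a₄ : ℕ) (L : ℝ), ParOK m a₁ a₃ a₄ → 0 ≤ L → ∃ c : ℝ, 0 < c ∧
  ∀ l : ℝ, 0 < l → l ≤ 1 → ∃ k₀ : ℕ, ∀ (s : ℝ) (y : ℝ → Fin m → ℝ), LipOn y L s l →
  ∀ k, k₀ ≤ k → ∀ mm : Fin m → ℕ, MOK a₃ k mm → ∀ δ : ℝ, dOK a₄ k δ →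
    ENNReal.ofReal (c * l * (2 ^ k * δ)) ≤
      volume {x | x ∈ Icc s (s + l) ∧ EE (2 ^ k) x ∧ EE (N1 a₁ k) x ∧ EE (N0 a₁ k) x ∧
        Ev k mm δ x (y x)}

/-! ### P9: the exceptional set -/

def S_BAD : Prop := ∀ (d m l : ℕ) (Y : (Fin (d + 1) → ℝ) → (Fin m → ℝ)) (u₀ : Fin (d + 1) → ℝ)
  (ρ : ℝ), 0 < ρ → ContDiffOn ℝ l Y (Metric.ball u₀ ρ) → NDn l Y u₀ →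
  ∃ ρ' : ℝ, 0 < ρ' ∧ ρ' ≤ ρ ∧ ∃ η : ℝ, 0 < η ∧ ∃ C : ℝ, 0 < C ∧ ∀ (N W : ℕ) (θ : ℝ), 1 ≤ W →
  0 < θ → θ ≤ 1 → C * W ≤ N * θ ^ 2 →
    volume {u | u ∈ Metric.ball u₀ ρ' ∧ ¬ Dio θ N W (u 0) (Y u)} ≤
      ENNReal.ofReal (C * (W : ℝ) ^ m * θ ^ η)

/-! ### P11: divergence -/

/-- the value of `δ` attached to an index -/
noncomputable def dl {m : ℕ} (ψ : ℝ → ℝ) (k : ℕ) (mm : Fin m → ℕ) : ℝ :=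
  min (ψ (2 ^ (k + 1) * ∏ i, (mm i : ℝ))) (1 / (8 * (2 ^ (k + 1) * ∏ i, (mm i : ℝ))))

def S_DIV : Prop := ∀ (m a₃ a₄ : ℕ) (ψ : ℝ → ℝ), 1 ≤ a₄ → 4 * (m + 1) * a₄ ≤ a₃ →
  (∀ x, 0 < x → 0 < ψ x) → AntitoneOn ψ (Ioi 0) →
  ¬ Summable (fun h : ℕ => Real.log (h + 1) ^ m * ψ (h + 1)) → ∀ (k₀ : ℕ) (M : ℝ),
  ∃ T : Finset (ℕ × (Fin m → ℕ)), (∀ p ∈ T, k₀ ≤ p.1 ∧ MOK a₃ p.1 p.2 ∧ dOK a₄ p.1 (dl ψ p.1 p.2)) ∧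
    M ≤ ∑ p ∈ T, 2 ^ p.1 * dl ψ p.1 p.2

/-! ### P12: local theorem -/

def S_LOCAL : Prop := ∀ (d m l : ℕ) (Y : (Fin (d + 1) → ℝ) → (Fin m → ℝ)) (u₀ : Fin (d + 1) → ℝ)
  (ρ : ℝ), 0 < ρ → ContDiffOn ℝ l Y (Metric.ball u₀ ρ) → NDn l Y u₀ → ∀ ψ : ℝ → ℝ,
  (∀ x, 0 < x → 0 < ψ x) → AntitoneOn ψ (Ioi 0) →
  ¬ Summable (fun h : ℕ => Real.log (h + 1) ^ m * ψ (h + 1)) →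
  ∃ ρ' : ℝ, 0 < ρ' ∧ ∀ᵐ u ∂(volume.restrict (Metric.ball u₀ ρ')),
    {z : ℤ × ℕ × (Fin m → ℕ) | 1 ≤ z.2.1 ∧ (∀ i, 1 ≤ z.2.2 i) ∧
      |(z.1 : ℝ) + z.2.1 * u 0 + dt z.2.2 (Y u)| < ψ (z.2.1 * ∏ i, (z.2.2 i : ℝ))}.Infinite

/-! ### P10: the theorem -/

/-- `Π₊(q)` -/
noncomputable def PiPlus {n : ℕ} (q : Fin n → ℤ) : ℝ := ∏ i, if q i = 0 then 1 else |(q i : ℝ)|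

/-- `l`-nondegeneracy at `x₀` -/
def NondegAt {d n : ℕ} (l : ℕ) (f : (Fin d → ℝ) → (Fin n → ℝ)) (x₀ : Fin d → ℝ) : Prop :=
  (∃ V : Set (Fin d → ℝ), IsOpen V ∧ x₀ ∈ V ∧ ContDiffOn ℝ l f V) ∧
    Submodule.span ℝ {v : Fin n → ℝ | ∃ k : ℕ, 1 ≤ k ∧ k ≤ l ∧ ∃ w : Fin k → Fin d,
      v = iteratedFDeriv ℝ k f x₀ (fun j => Pi.single (w j) 1)} = ⊤

/-- critical points are negligible -/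
def S_CRIT : Prop := ∀ (d n l : ℕ) (f : (Fin d → ℝ) → (Fin n → ℝ)) (V : Set (Fin d → ℝ)),
  1 ≤ l → IsOpen V → ContDiffOn ℝ l f V →
  ∀ᵐ x ∂(volume.restrict V), fderiv ℝ f x = 0 → ∀ k : ℕ, 1 ≤ k → k ≤ l → iteratedFDeriv ℝ k f x = 0

def S_MAIN : Prop := ∀ (d n : ℕ), 1 ≤ d → 1 ≤ n → ∀ (U : Set (Fin d → ℝ)), IsOpen U →
  ∀ f : (Fin d → ℝ) → (Fin n → ℝ), (∀ᵐ x ∂(volume.restrict U), ∃ l, NondegAt l f x) →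
  ∀ ψ : ℝ → ℝ, (∀ x, 0 < x → 0 < ψ x) → (MonotoneOn ψ (Ioi 0) ∨ AntitoneOn ψ (Ioi 0)) →
  ¬ Summable (fun h : ℕ => Real.log (h + 1) ^ (n - 1) * ψ (h + 1)) →
  ∀ᵐ x ∂(volume.restrict U), {z : ℤ × (Fin n → ℤ) |
    |(z.1 : ℝ) + ∑ i, (z.2 i : ℝ) * f x i| < ψ (PiPlus z.2)}.Infinite

end Pool.Agent.Helper982_KG
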