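import Mathlib
import Pool.Agent.Helper982_KG.Stmts

/-!
# Box bounds
-/

open Finset

namespace Pool.Agent.Helper982_KG.Box

lemma e_add (x y : ℝ) : e (x + y) = e x * e y := by
  unfold e
  rw [← Complex.exp_add]
  congr 1
  push_cast
  ring

lemma e_zero : e 0 = 1 := by simp [e]

lemma norm_e (x : ℝ) : ‖e x‖ = 1 := by
  unfold e
  exact Complex.norm_exp_ofReal_mul_I _

lemma e_sum {ι : Type*} (s : Finset ι) (f : ι → ℝ) : e (∑ i ∈ s, f i) = ∏ i ∈ s, e (f i) := by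
  classical
  induction s using Finset.induction_on with
  | empty => simp [e_zero]
  | insert a s ha ih => rw [Finset.sum_insert ha, Finset.prod_insert ha, e_add, ih]

/-- Fejer kernel counting in `n` dimensions -/
lemma fejer_count (hF : S_FEJ) (hL : S_FLOW) {α : Type*} {n K : ℕ} (hK : 1 ≤ K)
    (G S : Finset α) (hS : S ⊆ G) (s : α → Fin n → ℝ) (z : Fin n → ℝ)
    (hnear : ∀ p ∈ S, ∀ i, NI (s p i - z i) (1 / (2 * K))) {B : ℝ} (hB0 : 0 ≤ B)
    (hB : ∀ k : Fin n → ℤ, k ≠ 0 → (∀ i, |k i| ≤ K) →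
      ‖∑ p ∈ G, e (∑ i, (k i : ℝ) * s p i)‖ ≤ B) :
    ((K : ℝ) / 2) ^ (2 * n) * S.card ≤ (K : ℝ) ^ n * G.card + (2 * (K : ℝ)) ^ n * ((K : ℝ) ^ n * B) := by
  classical
  set D : ℝ → ℝ := fun t => ‖∑ k ∈ Finset.range K, e (k * t)‖ with hD
  have hD0 : ∀ t, 0 ≤ D t := fun t => norm_nonneg _
  have hK0 : (0 : ℝ) < K := by positivity
  have h1 : ∀ p ∈ S, ((K : ℝ) / 2) ^ (2 * n) ≤ ∏ i, D (s p i - z i) ^ 2 := by
    intro p hp
    calc ((K : ℝ) / 2) ^ (2 * n) = ∏ _i : Fin n, ((K : ℝ) / 2) ^ 2 := by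
          rw [Finset.prod_const, Finset.card_univ, Fintype.card_fin, pow_mul]
      _ ≤ _ := by
          refine Finset.prod_le_prod (fun i _ => by positivity) fun i _ => ?_
          have := hL K (s p i - z i) hK (hnear p hp i)
          exact pow_le_pow_left₀ (by positivity) this 2
  have h2 : ((K : ℝ) / 2) ^ (2 * n) * S.card ≤ ∑ p ∈ G, ∏ i, D (s p i - z i) ^ 2 := by
    calc ((K : ℝ) / 2) ^ (2 * n) * S.card = ∑ _p ∈ S, ((K : ℝ) / 2) ^ (2 * n) := by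
          rw [Finset.sum_const, nsmul_eq_mul, mul_comm]
      _ ≤ ∑ p ∈ S, ∏ i, D (s p i - z i) ^ 2 := Finset.sum_le_sum h1
      _ ≤ _ := Finset.sum_le_sum_of_subset_of_nonneg hS fun p _ _ =>
          Finset.prod_nonneg fun i _ => by positivity
  set I : Finset ℤ := Finset.Ioo (-(K : ℤ)) K with hI
  set PI : Finset (Fin n → ℤ) := Fintype.piFinset (fun _ : Fin n => I) with hPI
  have h3 : ((∑ p ∈ G, ∏ i, D (s p i - z i) ^ 2 : ℝ) : ℂ) =
      ∑ k ∈ PI, (∏ i, (((K : ℝ) - |(k i : ℝ)| : ℝ) : ℂ)) *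
        ∑ p ∈ G, e (∑ i, (k i : ℝ) * (s p i - z i)) := by
    have h31 : ∀ p ∈ G, ((∏ i, D (s p i - z i) ^ 2 : ℝ) : ℂ) =
        ∑ k ∈ PI, (∏ i, (((K : ℝ) - |(k i : ℝ)| : ℝ) : ℂ)) *
          e (∑ i, (k i : ℝ) * (s p i - z i)) := by
      intro p _
      rw [Complex.ofReal_prod]
      have h32 : ∀ i ∈ (Finset.univ : Finset (Fin n)), ((D (s p i - z i) ^ 2 : ℝ) : ℂ) =
          ∑ k ∈ I, (((K : ℝ) - |(k : ℝ)| : ℝ) : ℂ) * e (k * (s p i - z i)) :=
        fun i _ => hF K (s p i - z i)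
      rw [Finset.prod_congr rfl h32, Finset.prod_univ_sum]
      refine Finset.sum_congr rfl fun k _ => ?_
      rw [Finset.prod_mul_distrib, e_sum]
    rw [Complex.ofReal_sum, Finset.sum_congr rfl h31, Finset.sum_comm]
    refine Finset.sum_congr rfl fun k _ => ?_
    rw [Finset.mul_sum]
  have h4 : ∀ k ∈ PI, ‖(∏ i, (((K : ℝ) - |(k i : ℝ)| : ℝ) : ℂ)) *
        ∑ p ∈ G, e (∑ i, (k i : ℝ) * (s p i - z i))‖ ≤
      (K : ℝ) ^ n * ((if k = 0 then (G.card : ℝ) else 0) + B) := by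
    intro k hk
    rw [hPI, Fintype.mem_piFinset] at hk
    have hk' : ∀ i, |(k i : ℝ)| ≤ K := by
      intro i
      have := Finset.mem_Ioo.1 (hk i)
      rw [abs_le]
      constructor
      · have : -(K : ℤ) ≤ k i := by omega
        exact_mod_cast this
      · have : k i ≤ (K : ℤ) := by omega
        exact_mod_cast this
    rw [norm_mul]
    have e1 : ‖(∏ i, (((K : ℝ) - |(k i : ℝ)| : ℝ) : ℂ))‖ ≤ (K : ℝ) ^ n := by
      rw [norm_prod]
      calc ∏ i, ‖(((K : ℝ) - |(k i : ℝ)| : ℝ) : ℂ)‖ ≤ ∏ _i : Fin n, (K : ℝ) := by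
            refine Finset.prod_le_prod (fun i _ => norm_nonneg _) fun i _ => ?_
            rw [Complex.norm_real, Real.norm_eq_abs, abs_of_nonneg]
            · have := abs_nonneg (k i : ℝ)
              linarith
            · have := hk' i
              linarith
        _ = (K : ℝ) ^ n := by
            rw [Finset.prod_const, Finset.card_univ, Fintype.card_fin]
    have e2 : ‖∑ p ∈ G, e (∑ i, (k i : ℝ) * (s p i - z i))‖ =
        ‖∑ p ∈ G, e (∑ i, (k i : ℝ) * s p i)‖ := by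
      have : ∀ p ∈ G, e (∑ i, (k i : ℝ) * (s p i - z i)) =
          e (-∑ i, (k i : ℝ) * z i) * e (∑ i, (k i : ℝ) * s p i) := by
        intro p _
        rw [← e_add]
        congr 1
        rw [← Finset.sum_neg_distrib, ← Finset.sum_add_distrib]
        refine Finset.sum_congr rfl fun i _ => ?_
        ring
      rw [Finset.sum_congr rfl this, ← Finset.mul_sum, norm_mul, norm_e, one_mul]
    rw [e2]
    have e3 : ‖∑ p ∈ G, e (∑ i, (k i : ℝ) * s p i)‖ ≤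
        (if k = 0 then (G.card : ℝ) else 0) + B := by
      split_ifs with h
      · have : ‖∑ p ∈ G, e (∑ i, (k i : ℝ) * s p i)‖ ≤ G.card := by
          refine (norm_sum_le _ _).trans ?_
          simp [norm_e]
        linarith
      · rw [zero_add]
        refine hB k h fun i => ?_
        have := hk' i
        exact_mod_cast this
    exact mul_le_mul e1 e3 (norm_nonneg _) (by positivity)
  have h5 : ∑ p ∈ G, ∏ i, D (s p i - z i) ^ 2 ≤
      ∑ k ∈ PI, (K : ℝ) ^ n * ((if k = 0 then (G.card : ℝ) else 0) + B) := by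
    have h0 : 0 ≤ ∑ p ∈ G, ∏ i, D (s p i - z i) ^ 2 :=
      Finset.sum_nonneg fun p _ => Finset.prod_nonneg fun i _ => by positivity
    calc ∑ p ∈ G, ∏ i, D (s p i - z i) ^ 2 =
          ‖((∑ p ∈ G, ∏ i, D (s p i - z i) ^ 2 : ℝ) : ℂ)‖ := by
            rw [Complex.norm_real, Real.norm_eq_abs, abs_of_nonneg h0]
      _ ≤ _ := by
          rw [h3]
          exact (norm_sum_le _ _).trans (Finset.sum_le_sum h4)
  refine h2.trans (h5.trans ?_)
  rw [← Finset.mul_sum, Finset.sum_add_distrib, Finset.sum_ite_eq', mul_add]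
  have hcard : ((PI.card : ℕ) : ℝ) ≤ (2 * (K : ℝ)) ^ n := by
    rw [hPI, Fintype.card_piFinset, Finset.prod_const, Finset.card_univ, Fintype.card_fin, hI,
      Int.card_Ioo]
    push_cast
    refine pow_le_pow_left₀ (by positivity) ?_ n
    have : ((K : ℤ) - -(K : ℤ) - 1).toNat ≤ 2 * K := by omega
    exact_mod_cast this
  refine add_le_add ?_ ?_
  · refine mul_le_mul_of_nonneg_left ?_ (by positivity)
    split_ifs
    · exact le_rfl
    · positivity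
  · rw [Finset.sum_const, nsmul_eq_mul]
    calc (K : ℝ) ^ n * (PI.card * B) = PI.card * ((K : ℝ) ^ n * B) := by ring
      _ ≤ _ := by gcongr

/-- powers of `K` are small powers of `A₀` -/
lemma kpow {K A₀ : ℕ} (h : K ^ 200 ≤ A₀) (j : ℕ) : (K : ℝ) ^ j ≤ (A₀ : ℝ) ^ ((j : ℝ) / 200) := by
  have hK0 : (0 : ℝ) ≤ K := by positivity
  have h1 : (K : ℝ) ^ (200 : ℕ) ≤ A₀ := by exact_mod_cast h
  calc (K : ℝ) ^ j = ((K : ℝ) ^ (200 : ℕ)) ^ ((j : ℝ) / 200) := by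
        rw [← Real.rpow_natCast (K : ℝ) 200, ← Real.rpow_mul hK0, ← Real.rpow_natCast (K : ℝ) j]
        congr 1
        push_cast
        ring
    _ ≤ (A₀ : ℝ) ^ ((j : ℝ) / 200) := Real.rpow_le_rpow (by positivity) h1 (by positivity)

lemma kpow_mul {K A₀ : ℕ} (h : K ^ 200 ≤ A₀) (hA : 1 ≤ A₀) (j : ℕ) {b : ℝ}
    (hb : (j : ℝ) / 200 + b ≤ 2) : (K : ℝ) ^ j * (A₀ : ℝ) ^ b ≤ (A₀ : ℝ) ^ 2 := by
  have hA0 : (0 : ℝ) < A₀ := by positivity
  have hA1 : (1 : ℝ) ≤ A₀ := by exact_mod_cast hA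
  calc (K : ℝ) ^ j * (A₀ : ℝ) ^ b ≤ (A₀ : ℝ) ^ ((j : ℝ) / 200) * (A₀ : ℝ) ^ b := by
        gcongr
        exact kpow h j
    _ = (A₀ : ℝ) ^ ((j : ℝ) / 200 + b) := (Real.rpow_add hA0 _ _).symm
    _ ≤ (A₀ : ℝ) ^ (2 : ℝ) := Real.rpow_le_rpow_of_exponent_le hA1 hb
    _ = (A₀ : ℝ) ^ 2 := by
        rw [← Real.rpow_natCast]
        norm_num

/-- the sizes of the two finite sets -/
lemma card_bound (hC : S_CARD) {C₀ A₀ R : ℕ} (hA : 1 ≤ A₀) (hR : 1 ≤ R) :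
    (((GG C₀ A₀ ×ˢ GG C₀ R).card : ℕ) : ℝ) ≤
      81 * (2 * C₀ + 1) ^ 2 * (A₀ : ℝ) ^ 2 * (R : ℝ) ^ 2 := by
  have h1 : ((GG C₀ A₀).card : ℝ) ≤ (2 * C₀ + 1) * (2 * A₀ + 1) ^ 2 := by
    exact_mod_cast hC C₀ A₀
  have h2 : ((GG C₀ R).card : ℝ) ≤ (2 * C₀ + 1) * (2 * R + 1) ^ 2 := by
    exact_mod_cast hC C₀ R
  have hA1 : (1 : ℝ) ≤ A₀ := by exact_mod_cast hA
  have hR1 : (1 : ℝ) ≤ R := by exact_mod_cast hR
  have h3 : (2 * (A₀ : ℝ) + 1) ^ 2 ≤ (3 * A₀) ^ 2 := by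
    apply pow_le_pow_left₀ (by positivity); linarith
  have h4 : (2 * (R : ℝ) + 1) ^ 2 ≤ (3 * R) ^ 2 := by
    apply pow_le_pow_left₀ (by positivity); linarith
  rw [Finset.card_product]
  push_cast
  calc ((GG C₀ A₀).card : ℝ) * (GG C₀ R).card
      ≤ ((2 * C₀ + 1) * (2 * A₀ + 1) ^ 2) * ((2 * C₀ + 1) * (2 * R + 1) ^ 2) := by gcongr
    _ ≤ ((2 * C₀ + 1) * (3 * A₀) ^ 2) * ((2 * C₀ + 1) * (3 * R) ^ 2) := by gcongr
    _ = _ := by ring

/-- consequences of `BoxHyp` -/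
lemma boxhyp_facts {A₀ R K K₁ : ℕ} {κ₁ : ℝ} (h : BoxHyp A₀ R K K₁ κ₁) :
    1 ≤ A₀ ∧ 1 ≤ R := by
  obtain ⟨h1, h2, h3, h4, h5⟩ := h
  have hA : 1 ≤ A₀ := (Nat.one_le_pow _ _ h1).trans h2
  refine ⟨hA, ?_⟩
  rcases Nat.eq_zero_or_pos R with h | h
  · rw [h] at h5
    simp only [Nat.cast_zero, mul_zero] at h5
    have : (0 : ℝ) < 8 * (A₀ : ℝ) * K := by positivity
    linarith
  · exact h

theorem box1 (hF : S_FEJ) (hL : S_FLOW) (hC : S_CARD) (hR1 : S_R1) : S_BOX1 := by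
  intro C₀
  obtain ⟨C, hC0, hR1⟩ := hR1 C₀
  refine ⟨16 * (81 * (2 * C₀ + 1) ^ 2) + 64 * C, by positivity, ?_⟩
  intro A₀ R K K₁ κ₁ ζ z hbox hdio S hS
  obtain ⟨hA, hR⟩ := boxhyp_facts hbox
  obtain ⟨hK, hK200, hKK, hκ, hκR⟩ := hbox
  have hK0 : (0 : ℝ) < K := by positivity
  have hKR : (1 : ℝ) ≤ K := by exact_mod_cast hK
  set B : ℝ := C * (K : ℝ) ^ 2 * (A₀ : ℝ) ^ ((19 : ℝ) / 10) * (R : ℝ) ^ 2 with hB
  have hB0 : 0 ≤ B := by positivity
  have hdio' : DioOne (4 * A₀ * K) κ₁ ζ := by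
    intro k hk1 hk2
    refine hdio k hk1 (hk2.trans (le_trans ?_ hKK))
    nlinarith [Nat.mul_le_mul_left A₀ (Nat.mul_le_mul_left K hK), hA]
  have hmain := fejer_count hF hL (n := 2) hK (GG C₀ A₀ ×ˢ GG C₀ R) S
    (fun p hp => Finset.mem_product.2 ⟨(hS p hp).1, (hS p hp).2.1⟩)
    (fun p => ![(act p.1 (act p.2 ζ)).1, (act p.1 (act p.2 ζ)).2]) ![z.1, z.2]
    (fun p hp i => by
      fin_cases i
      · exact (hS p hp).2.2.1
      · exact (hS p hp).2.2.2) hB0 (by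
      intro k hk hkb
      have hw : ((k 0, k 1) : ℤ × ℤ) ≠ 0 := by
        intro h
        apply hk
        have h1 : k 0 = 0 := congrArg Prod.fst h
        have h2 : k 1 = 0 := congrArg Prod.snd h
        funext i
        fin_cases i
        · exact h1
        · exact h2
      have := hR1 A₀ R K κ₁ ζ (k 0, k 1) hA hK hκ hκR hdio' hw (hkb 0) (hkb 1)
      rw [Finset.sum_product]
      simpa [Fin.sum_univ_two] using this)
  have hcard := card_bound hC (C₀ := C₀) hA hR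
  have hB2 : B * (K : ℝ) ^ 2 ≤ C * (A₀ : ℝ) ^ 2 * (R : ℝ) ^ 2 := by
    have := kpow_mul hK200 hA 4 (b := (19 : ℝ) / 10) (by norm_num)
    calc B * (K : ℝ) ^ 2 = C * ((K : ℝ) ^ 4 * (A₀ : ℝ) ^ ((19 : ℝ) / 10)) * (R : ℝ) ^ 2 := by
          rw [hB]; ring
      _ ≤ _ := by gcongr
  rw [le_div_iff₀ (by positivity)]
  have h6 : (K : ℝ) ^ 2 * ((S.card : ℝ) * (K : ℝ) ^ 2) ≤
      (K : ℝ) ^ 2 * (16 * (GG C₀ A₀ ×ˢ GG C₀ R).card + 64 * (B * (K : ℝ) ^ 2)) := by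
    have e1 : ((K : ℝ) / 2) ^ (2 * 2) * S.card = (K : ℝ) ^ 2 * (S.card * (K : ℝ) ^ 2) / 16 := by
      ring
    rw [e1] at hmain
    have e2 : (2 * (K : ℝ)) ^ 2 * ((K : ℝ) ^ 2 * B) = 4 * (K : ℝ) ^ 2 * (B * (K : ℝ) ^ 2) := by ring
    rw [e2] at hmain
    linarith
  have h7 := le_of_mul_le_mul_left h6 (by positivity)
  calc (S.card : ℝ) * (K : ℝ) ^ 2 ≤ 16 * (GG C₀ A₀ ×ˢ GG C₀ R).card + 64 * (B * (K : ℝ) ^ 2) := h7
    _ ≤ 16 * (81 * (2 * C₀ + 1) ^ 2 * (A₀ : ℝ) ^ 2 * (R : ℝ) ^ 2) +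
        64 * (C * (A₀ : ℝ) ^ 2 * (R : ℝ) ^ 2) := by gcongr
    _ = _ := by ring

/-- a nonzero integer matrix of determinant zero is a product of two vectors -/
lemma rank_one_dec {K : ℕ} (hK : 1 ≤ K) {a b c d : ℤ} (hdet : a * d - b * c = 0)
    (hne : ¬ (a = 0 ∧ b = 0 ∧ c = 0 ∧ d = 0)) (ha : |a| ≤ K) (hb : |b| ≤ K) (hc : |c| ≤ K)
    (hd : |d| ≤ K) : ∃ x y u v : ℤ, a = x * u ∧ b = x * v ∧ c = y * u ∧ d = y * v ∧
      (x, y) ≠ 0 ∧ (u, v) ≠ 0 ∧ |x| ≤ K ∧ |y| ≤ K ∧ |u| ≤ K ∧ |v| ≤ K := by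
  have hK' : (1 : ℤ) ≤ K := by exact_mod_cast hK
  by_cases h0 : a = 0 ∧ b = 0
  · refine ⟨0, 1, c, d, ?_, ?_, ?_, ?_, ?_, ?_, ?_, ?_, hc, hd⟩
    · rw [h0.1]; ring
    · rw [h0.2]; ring
    · ring
    · ring
    · simp
    · intro h
      apply hne
      have h1 : c = 0 := congrArg Prod.fst h
      have h2 : d = 0 := congrArg Prod.snd h
      exact ⟨h0.1, h0.2, h1, h2⟩
    · simp
    · simpa using hK'
  · have hg : 0 < Int.gcd a b := by
      rcases Nat.eq_zero_or_pos (Int.gcd a b) with h | h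
      · exact (h0 (Int.gcd_eq_zero_iff.1 h)).elim
      · exact h
    have hg1 : (1 : ℤ) ≤ (Int.gcd a b : ℤ) := by exact_mod_cast hg
    set g : ℤ := (Int.gcd a b : ℤ) with hgd
    obtain ⟨u, hu⟩ : g ∣ a := Int.gcd_dvd_left ..
    obtain ⟨v, hv⟩ : g ∣ b := Int.gcd_dvd_right ..
    have hcop : Int.gcd u v = 1 := by
      have h1 : Int.gcd (g * u) (g * v) = g.natAbs * Int.gcd u v := Int.gcd_mul_left ..
      rw [← hu, ← hv] at h1
      have h2 : g.natAbs = Int.gcd a b := by rw [hgd, Int.natAbs_natCast]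
      rw [h2] at h1
      have h3 : Int.gcd a b * 1 = Int.gcd a b * Int.gcd u v := by rw [mul_one]; exact h1
      exact (Nat.eq_of_mul_eq_mul_left hg h3).symm
    have hbez : (1 : ℤ) = u * Int.gcdA u v + v * Int.gcdB u v := by
      have := Int.gcd_eq_gcd_ab u v
      rw [hcop] at this
      exact_mod_cast this
    set p := Int.gcdA u v
    set q := Int.gcdB u v
    have hdet' : u * d - v * c = 0 := by
      have : g * (u * d - v * c) = 0 := by
        rw [hu, hv] at hdet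
        linear_combination hdet
      rcases mul_eq_zero.1 this with h | h
      · omega
      · exact h
    have hcy : c = (c * p + d * q) * u := by
      linear_combination c * hbez - q * hdet'
    have hdy : d = (c * p + d * q) * v := by
      linear_combination d * hbez + p * hdet'
    have huv : (u, v) ≠ 0 := by
      intro h
      have h1 : u = 0 := congrArg Prod.fst h
      have h2 : v = 0 := congrArg Prod.snd h
      rw [h1, h2] at hbez
      simp at hbez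
    have hfac : ∀ x w z : ℤ, w ≠ 0 → z = x * w → |z| ≤ K → |x| ≤ K := by
      intro x w z hw hz hzK
      have h1 : 1 ≤ |w| := Int.one_le_abs hw
      rw [hz, abs_mul] at hzK
      nlinarith [abs_nonneg x]
    have huv' : u ≠ 0 ∨ v ≠ 0 := by
      by_contra hcon
      push Not at hcon
      exact huv (Prod.ext hcon.1 hcon.2)
    refine ⟨g, c * p + d * q, u, v, hu, hv, hcy, hdy, ?_, huv, ?_, ?_, ?_, ?_⟩
    · intro h
      have h1 : g = 0 := congrArg Prod.fst h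
      omega
    · rcases huv' with h | h
      · exact hfac g u a h hu ha
      · exact hfac g v b h hv hb
    · rcases huv' with h | h
      · exact hfac _ u c h hcy hc
      · exact hfac _ v d h hdy hd
    · exact hfac u g a (by omega) (by rw [hu]; ring) ha
    · exact hfac v g b (by omega) (by rw [hv]; ring) hb

theorem box2 (hF : S_FEJ) (hL : S_FLOW) (hC : S_CARD) (hR1 : S_R1) (hR2 : S_R2) : S_BOX2 := by
  intro C₀
  obtain ⟨C, hC0, hR1⟩ := hR1 C₀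
  obtain ⟨C', hC0', hR2⟩ := hR2 C₀
  refine ⟨256 * (81 * (2 * C₀ + 1) ^ 2) + 4096 * (C + C'), by positivity, ?_⟩
  intro A₀ R K K₁ κ₁ ξ ξ' z z' hbox hdio S hS
  obtain ⟨hA, hR⟩ := boxhyp_facts hbox
  obtain ⟨hK, hK200, hKK, hκ, hκR⟩ := hbox
  have hK0 : (0 : ℝ) < K := by positivity
  have hKR : (1 : ℝ) ≤ K := by exact_mod_cast hK
  have hAR : (1 : ℝ) ≤ A₀ := by exact_mod_cast hA
  set B1 : ℝ := C * (K : ℝ) ^ 2 * (A₀ : ℝ) ^ ((19 : ℝ) / 10) * (R : ℝ) ^ 2 with hB1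
  set B2 : ℝ := C' * (A₀ : ℝ) ^ ((79 : ℝ) / 40) * (R : ℝ) ^ 2 with hB2
  have hB10 : 0 ≤ B1 := by positivity
  have hB20 : 0 ≤ B2 := by positivity
  have hKKZ : 16 * (A₀ : ℤ) * K ^ 2 ≤ K₁ := by exact_mod_cast hKK
  have hKZ : (1 : ℤ) ≤ K := by exact_mod_cast hK
  have hAZ : (1 : ℤ) ≤ A₀ := by exact_mod_cast hA
  have hmain := fejer_count hF hL (n := 4) hK (GG C₀ A₀ ×ˢ GG C₀ R) S
    (fun p hp => Finset.mem_product.2 ⟨(hS p hp).1, (hS p hp).2.1⟩)
    (fun p => ![(act p.1 (act p.2 ξ)).1, (act p.1 (act p.2 ξ)).2,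
      (act p.1 (act p.2 ξ')).1, (act p.1 (act p.2 ξ')).2]) ![z.1, z.2, z'.1, z'.2]
    (fun p hp i => by
      fin_cases i
      · exact (hS p hp).2.2.1.1
      · exact (hS p hp).2.2.1.2
      · exact (hS p hp).2.2.2.1
      · exact (hS p hp).2.2.2.2) (B := B1 + B2) (by positivity) (by
      intro k hk hkb
      rw [Finset.sum_product]
      by_cases hdet : k 0 * k 3 - k 1 * k 2 = 0
      · -- rank one
        have hne : ¬ (k 0 = 0 ∧ k 1 = 0 ∧ k 2 = 0 ∧ k 3 = 0) := by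
          rintro ⟨h0, h1, h2, h3⟩
          apply hk
          funext i
          fin_cases i
          · exact h0
          · exact h1
          · exact h2
          · exact h3
        obtain ⟨x, y, u, v, e0, e1, e2, e3, hxy, huv, hx, hy, hu, hv⟩ :=
          rank_one_dec hK hdet hne (hkb 0) (hkb 1) (hkb 2) (hkb 3)
        have hdio' : DioOne (4 * A₀ * K) κ₁ (x * ξ.1 + y * ξ'.1, x * ξ.2 + y * ξ'.2) := by
          intro j hj1 hj2
          have hj2' : (j : ℤ) ≤ 4 * A₀ * K := by exact_mod_cast hj2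
          have hj0 : (0 : ℤ) ≤ j := by positivity
          have hbd : ∀ w : ℤ, |w| ≤ K → |(j : ℤ) * w| ≤ K₁ := by
            intro w hw
            rw [abs_mul, Nat.abs_cast]
            calc (j : ℤ) * |w| ≤ (4 * A₀ * K) * K := by gcongr
              _ ≤ 16 * (A₀ : ℤ) * K ^ 2 := by nlinarith [mul_nonneg (by positivity : (0:ℤ) ≤ A₀) (sq_nonneg (K:ℤ))]
              _ ≤ K₁ := hKKZ
          have hjne : ((j : ℤ) * x, (j : ℤ) * y) ≠ 0 := by
            intro h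
            have h1 : (j : ℤ) * x = 0 := congrArg Prod.fst h
            have h2 : (j : ℤ) * y = 0 := congrArg Prod.snd h
            have hj : (j : ℤ) ≠ 0 := by positivity
            exact hxy (Prod.ext ((mul_eq_zero.1 h1).resolve_left hj)
              ((mul_eq_zero.1 h2).resolve_left hj))
          have := hdio ((j : ℤ) * x, (j : ℤ) * y) hjne (hbd x hx) (hbd y hy)
          simp only at this ⊢
          push_cast at this
          have f1 : (j : ℝ) * (x * ξ.1 + y * ξ'.1) = j * x * ξ.1 + j * y * ξ'.1 := by ring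
          have f2 : (j : ℝ) * (x * ξ.2 + y * ξ'.2) = j * x * ξ.2 + j * y * ξ'.2 := by ring
          rw [f1, f2]
          exact this
        have h := hR1 A₀ R K κ₁ (x * ξ.1 + y * ξ'.1, x * ξ.2 + y * ξ'.2) (u, v) hA hK hκ hκR
          hdio' huv hu hv
        have heq : ∀ A ∈ GG C₀ A₀, ∑ B ∈ GG C₀ R, e (∑ i, (k i : ℝ) *
            (![(act A (act B ξ)).1, (act A (act B ξ)).2,
              (act A (act B ξ')).1, (act A (act B ξ')).2] : Fin 4 → ℝ) i) =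
            ∑ B ∈ GG C₀ R, e ((((u, v) : ℤ × ℤ).1 : ℝ) *
              (act A (act B (x * ξ.1 + y * ξ'.1, x * ξ.2 + y * ξ'.2))).1 +
              (((u, v) : ℤ × ℤ).2 : ℝ) *
              (act A (act B (x * ξ.1 + y * ξ'.1, x * ξ.2 + y * ξ'.2))).2) := by
          intro A _
          refine Finset.sum_congr rfl fun B _ => ?_
          congr 1
          rw [Fin.sum_univ_four, e0, e1, e2, e3]
          simp [act]
          ring
        rw [Finset.sum_congr rfl heq]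
        exact h.trans (by linarith)
      · -- rank two
        have hdio' : DioTwo (8 * A₀) κ₁ ((k 0 : ℝ) * ξ.1 + k 2 * ξ'.1, (k 0 : ℝ) * ξ.2 + k 2 * ξ'.2)
            ((k 1 : ℝ) * ξ.1 + k 3 * ξ'.1, (k 1 : ℝ) * ξ.2 + k 3 * ξ'.2) := by
          intro j hj hj1 hj2
          have hbd : ∀ w w' : ℤ, |w| ≤ K → |w'| ≤ K → |j.1 * w + j.2 * w'| ≤ K₁ := by
            intro w w' hw hw'
            have g1 : |j.1| ≤ 8 * (A₀ : ℤ) := by exact_mod_cast hj1
            have g2 : |j.2| ≤ 8 * (A₀ : ℤ) := by exact_mod_cast hj2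
            calc |j.1 * w + j.2 * w'| ≤ |j.1 * w| + |j.2 * w'| := abs_add_le _ _
              _ = |j.1| * |w| + |j.2| * |w'| := by rw [abs_mul, abs_mul]
              _ ≤ 8 * A₀ * K + 8 * A₀ * K := by gcongr
              _ = 16 * (A₀ : ℤ) * K := by ring
              _ ≤ 16 * (A₀ : ℤ) * K ^ 2 := by
                  have : (K : ℤ) ≤ K ^ 2 := by nlinarith
                  have h0 : (0 : ℤ) ≤ 16 * (A₀ : ℤ) := by positivity
                  exact mul_le_mul_of_nonneg_left this h0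
              _ ≤ K₁ := hKKZ
          have hne : (j.1 * k 0 + j.2 * k 1, j.1 * k 2 + j.2 * k 3) ≠ (0 : ℤ × ℤ) := by
            intro h
            have h1 : j.1 * k 0 + j.2 * k 1 = 0 := congrArg Prod.fst h
            have h2 : j.1 * k 2 + j.2 * k 3 = 0 := congrArg Prod.snd h
            have f1 : j.1 * (k 0 * k 3 - k 1 * k 2) = 0 := by
              linear_combination k 3 * h1 - k 1 * h2
            have f2 : j.2 * (k 0 * k 3 - k 1 * k 2) = 0 := by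
              linear_combination k 0 * h2 - k 2 * h1
            exact hj (Prod.ext ((mul_eq_zero.1 f1).resolve_right hdet)
              ((mul_eq_zero.1 f2).resolve_right hdet))
          have := hdio (j.1 * k 0 + j.2 * k 1, j.1 * k 2 + j.2 * k 3) hne
            (hbd _ _ (hkb 0) (hkb 1)) (hbd _ _ (hkb 2) (hkb 3))
          simp only at this ⊢
          push_cast at this
          have f1 : (j.1 : ℝ) * ((k 0 : ℝ) * ξ.1 + k 2 * ξ'.1) + j.2 * ((k 1 : ℝ) * ξ.1 + k 3 * ξ'.1) =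
              (j.1 * k 0 + j.2 * k 1) * ξ.1 + (j.1 * k 2 + j.2 * k 3) * ξ'.1 := by ring
          have f2 : (j.1 : ℝ) * ((k 0 : ℝ) * ξ.2 + k 2 * ξ'.2) + j.2 * ((k 1 : ℝ) * ξ.2 + k 3 * ξ'.2) =
              (j.1 * k 0 + j.2 * k 1) * ξ.2 + (j.1 * k 2 + j.2 * k 3) * ξ'.2 := by ring
          rw [f1, f2]
          exact this
        have h8 : 8 * (A₀ : ℝ) ≤ κ₁ * R := by
          refine le_trans ?_ hκR
          have : (0 : ℝ) ≤ 8 * (A₀ : ℝ) := by positivity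
          nlinarith
        have h := hR2 A₀ R κ₁ _ _ hA hκ h8 hdio'
        have heq : ∀ A ∈ GG C₀ A₀, ∑ B ∈ GG C₀ R, e (∑ i, (k i : ℝ) *
            (![(act A (act B ξ)).1, (act A (act B ξ)).2,
              (act A (act B ξ')).1, (act A (act B ξ')).2] : Fin 4 → ℝ) i) =
            ∑ B ∈ GG C₀ R, e ((act A (act B ((k 0 : ℝ) * ξ.1 + k 2 * ξ'.1,
              (k 0 : ℝ) * ξ.2 + k 2 * ξ'.2))).1 +
              (act A (act B ((k 1 : ℝ) * ξ.1 + k 3 * ξ'.1, (k 1 : ℝ) * ξ.2 + k 3 * ξ'.2))).2) := by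
          intro A _
          refine Finset.sum_congr rfl fun B _ => ?_
          congr 1
          rw [Fin.sum_univ_four]
          simp [act]
          ring
        rw [Finset.sum_congr rfl heq]
        exact h.trans (by linarith))
  have hcard := card_bound hC (C₀ := C₀) hA hR
  have hB1' : B1 * (K : ℝ) ^ 4 ≤ C * (A₀ : ℝ) ^ 2 * (R : ℝ) ^ 2 := by
    have := kpow_mul hK200 hA 6 (b := (19 : ℝ) / 10) (by norm_num)
    calc B1 * (K : ℝ) ^ 4 = C * ((K : ℝ) ^ 6 * (A₀ : ℝ) ^ ((19 : ℝ) / 10)) * (R : ℝ) ^ 2 := by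
          rw [hB1]; ring
      _ ≤ _ := by gcongr
  have hB2' : B2 * (K : ℝ) ^ 4 ≤ C' * (A₀ : ℝ) ^ 2 * (R : ℝ) ^ 2 := by
    have := kpow_mul hK200 hA 4 (b := (79 : ℝ) / 40) (by norm_num)
    calc B2 * (K : ℝ) ^ 4 = C' * ((K : ℝ) ^ 4 * (A₀ : ℝ) ^ ((79 : ℝ) / 40)) * (R : ℝ) ^ 2 := by
          rw [hB2]; ring
      _ ≤ _ := by gcongr
  rw [le_div_iff₀ (by positivity)]
  have h6 : (K : ℝ) ^ 4 * ((S.card : ℝ) * (K : ℝ) ^ 4) ≤
      (K : ℝ) ^ 4 * (256 * (GG C₀ A₀ ×ˢ GG C₀ R).card +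
        4096 * ((B1 + B2) * (K : ℝ) ^ 4)) := by
    have e1 : ((K : ℝ) / 2) ^ (2 * 4) * S.card = (K : ℝ) ^ 4 * (S.card * (K : ℝ) ^ 4) / 256 := by
      ring
    rw [e1] at hmain
    have e2 : (2 * (K : ℝ)) ^ 4 * ((K : ℝ) ^ 4 * (B1 + B2)) =
        16 * (K : ℝ) ^ 4 * ((B1 + B2) * (K : ℝ) ^ 4) := by ring
    rw [e2] at hmain
    linarith
  have h7 := le_of_mul_le_mul_left h6 (by positivity)
  calc (S.card : ℝ) * (K : ℝ) ^ 4 ≤ 256 * (GG C₀ A₀ ×ˢ GG C₀ R).card +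
        4096 * ((B1 + B2) * (K : ℝ) ^ 4) := h7
    _ = 256 * (GG C₀ A₀ ×ˢ GG C₀ R).card +
        4096 * (B1 * (K : ℝ) ^ 4 + B2 * (K : ℝ) ^ 4) := by ring
    _ ≤ 256 * (81 * (2 * C₀ + 1) ^ 2 * (A₀ : ℝ) ^ 2 * (R : ℝ) ^ 2) +
        4096 * (C * (A₀ : ℝ) ^ 2 * (R : ℝ) ^ 2 + C' * (A₀ : ℝ) ^ 2 * (R : ℝ) ^ 2) := by gcongr
    _ = _ := by ring

end Pool.Agent.Helper982_KG.Box
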