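import Pool.Agent.Helper982_KG.Stmts

open MeasureTheory Set Finset

namespace Pool.Agent.Helper982_KG.COPR

/-- number of multiples of `r` in an interval of `M` consecutive integers -/
theorem mult_count (α : ℤ) (M r : ℕ) (hr : 1 ≤ r) :
    (((Finset.Ico α (α + M)).filter (fun p => (r : ℤ) ∣ p)).card : ℝ) ≤ M / r + 1 := by
  have hr0 : (0 : ℤ) < r := by exact_mod_cast hr
  have h := Int.Ico_filter_dvd_card α (α + M) hr0
  have hrQ : (0 : ℚ) < r := by exact_mod_cast hr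
  have h1 : ((⌈((α + M : ℤ) : ℚ) / (r : ℤ)⌉ - ⌈(α : ℚ) / (r : ℤ)⌉ : ℤ) : ℚ) ≤ M / r + 1 := by
    have a1 := Int.ceil_lt_add_one (((α + M : ℤ) : ℚ) / (r : ℤ))
    have a2 := Int.le_ceil ((α : ℚ) / (r : ℤ))
    push_cast at a1 a2 ⊢
    have a3 : ((α : ℚ) + M) / r = (α : ℚ) / r + M / r := add_div _ _ _
    rw [a3] at a1 ⊢
    linarith
  have h2 : (((max (⌈((α + M : ℤ) : ℚ) / (r : ℤ)⌉ - ⌈(α : ℚ) / (r : ℤ)⌉) 0 : ℤ)) : ℚ) ≤
      M / r + 1 := by
    rw [Int.cast_max]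
    refine max_le h1 ?_
    push_cast
    positivity
  have h3 : ((((Finset.Ico α (α + M)).filter (fun p => (r : ℤ) ∣ p)).card : ℤ) : ℚ) ≤
      M / r + 1 := by
    rw [h]
    exact h2
  have h4 : ((((((Finset.Ico α (α + M)).filter (fun p => (r : ℤ) ∣ p)).card : ℤ) : ℚ)) : ℝ) ≤
      ((M / r + 1 : ℚ) : ℝ) := by exact_mod_cast h3
  push_cast at h4
  exact h4

theorem nat_mult_count (X r : ℕ) (hr : 1 ≤ r) :
    (((Finset.Ico X (2 * X)).filter (fun q => r ∣ q)).card : ℝ) ≤ X / r + 1 := by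
  refine le_trans ?_ (mult_count (X : ℤ) X r hr)
  have : ((Finset.Ico X (2 * X)).filter (fun q => r ∣ q)).card ≤
      ((Finset.Ico (X : ℤ) ((X : ℤ) + X)).filter (fun p => (r : ℤ) ∣ p)).card := by
    refine Finset.card_le_card_of_injOn (fun q => (q : ℤ)) ?_ ?_
    · intro q hq
      simp only [Finset.coe_filter, Finset.mem_Ico, Set.mem_ofPred_eq] at hq ⊢
      refine ⟨⟨by exact_mod_cast hq.1.1, ?_⟩, ?_⟩
      · have := hq.1.2
        omega
      · exact_mod_cast hq.2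
    · intro a _ b _ hab
      have hab' : (a : ℤ) = (b : ℤ) := hab
      exact_mod_cast hab'
  exact_mod_cast this

theorem sum_sq (n : ℕ) (hn : 2 ≤ n) :
    ∑ r ∈ Finset.Icc 2 n, (1 : ℝ) / (r : ℝ) ^ 2 ≤ 13 / 20 - 1 / ((n : ℝ) + 1 / 2) := by
  induction n, hn using Nat.le_induction with
  | base => norm_num
  | succ n hn ih =>
    rw [Finset.sum_Icc_succ_top (by omega)]
    have h1 : (1 : ℝ) / ((n + 1 : ℕ) : ℝ) ^ 2 ≤ 1 / ((n : ℝ) + 1 / 2) - 1 / (((n + 1 : ℕ) : ℝ) + 1 / 2) := by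
      push_cast
      rw [div_sub_div _ _ (by positivity) (by positivity), div_le_div_iff₀ (by positivity) (by positivity)]
      nlinarith
    linarith

theorem sum_inv (n : ℕ) : ∑ r ∈ Finset.Icc 1 n, (1 : ℝ) / (r : ℝ) ≤ 1 + Real.log n := by
  have h := harmonic_le_one_add_log n
  rw [harmonic_eq_sum_Icc] at h
  push_cast at h
  simpa [one_div] using h

theorem sum_inv_pow (j : ℕ) (n : ℕ) (hn : n ≤ 2 ^ j) :
    ∑ r ∈ Finset.Icc 1 n, (1 : ℝ) / (r : ℝ) ≤ 1 + j := by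
  rcases Nat.eq_zero_or_pos n with h0 | h0
  · subst h0
    simp
    positivity
  refine (sum_inv n).trans ?_
  have h1 : Real.log n ≤ Real.log ((2 : ℝ) ^ j) := by
    refine Real.log_le_log (by exact_mod_cast h0) ?_
    exact_mod_cast hn
  rw [Real.log_pow] at h1
  have h2 : Real.log 2 ≤ 1 := by
    have := Real.log_two_lt_d9
    linarith
  have h3 : (j : ℝ) * Real.log 2 ≤ j := mul_le_of_le_one_right (by positivity) h2
  linarith

theorem sum_arith (X : ℝ) (n : ℕ) :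
    ∑ i ∈ Finset.range n, (X + (i : ℝ)) = n * X + n * (n - 1) / 2 := by
  induction n with
  | zero => simp
  | succ n ih => rw [Finset.sum_range_succ, ih]; push_cast; ring

/-- coprime elements of an interval -/
theorem cop_count (α : ℤ) (M q Y : ℕ) (hq : 1 ≤ q) (hqY : q ≤ Y) :
    (M : ℝ) - ∑ r ∈ (Finset.Icc 2 Y).filter (fun r => r ∣ q), ((M : ℝ) / r + 1) ≤
      (((Finset.Ico α (α + M)).filter (fun p => Int.gcd p q = 1)).card : ℝ) := by
  classical
  have hcov : Finset.Ico α (α + M) ⊆ (Finset.Ico α (α + M)).filter (fun p => Int.gcd p q = 1) ∪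
      ((Finset.Icc 2 Y).filter (fun r => r ∣ q)).biUnion
        (fun r => (Finset.Ico α (α + M)).filter (fun p => (r : ℤ) ∣ p)) := by
    intro p hp
    rw [Finset.mem_union]
    by_cases hg : Int.gcd p q = 1
    · left
      exact Finset.mem_filter.2 ⟨hp, hg⟩
    · right
      rw [Finset.mem_biUnion]
      have hg1 : Int.gcd p q ∣ q := by
        have := Int.gcd_dvd_right (a := p) (b := (q : ℤ))
        exact_mod_cast this
      have hg0 : Int.gcd p q ≠ 0 := by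
        intro h0
        rw [h0] at hg1
        have := Nat.eq_zero_of_zero_dvd hg1
        omega
      refine ⟨Int.gcd p q, Finset.mem_filter.2 ⟨Finset.mem_Icc.2 ⟨by omega, ?_⟩, hg1⟩,
        Finset.mem_filter.2 ⟨hp, Int.gcd_dvd_left _ _⟩⟩
      exact (Nat.le_of_dvd (by omega) hg1).trans hqY
  have h1 := Finset.card_le_card hcov
  have h2 := h1.trans (Finset.card_union_le _ _)
  rw [Int.card_Ico] at h2
  have h3 : (α + (M : ℤ) - α).toNat = M := by simp
  rw [h3] at h2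
  have h4 : ((((Finset.Icc 2 Y).filter (fun r => r ∣ q)).biUnion
        (fun r => (Finset.Ico α (α + M)).filter (fun p => (r : ℤ) ∣ p))).card : ℝ) ≤
      ∑ r ∈ (Finset.Icc 2 Y).filter (fun r => r ∣ q), ((M : ℝ) / r + 1) := by
    have h5 := Finset.card_biUnion_le (s := (Finset.Icc 2 Y).filter (fun r => r ∣ q))
      (t := fun r => (Finset.Ico α (α + M)).filter (fun p => (r : ℤ) ∣ p))
    calc ((((Finset.Icc 2 Y).filter (fun r => r ∣ q)).biUnion
        (fun r => (Finset.Ico α (α + M)).filter (fun p => (r : ℤ) ∣ p))).card : ℝ)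
        ≤ ((∑ r ∈ (Finset.Icc 2 Y).filter (fun r => r ∣ q),
          ((Finset.Ico α (α + M)).filter (fun p => (r : ℤ) ∣ p)).card : ℕ) : ℝ) := by
          exact_mod_cast h5
      _ = ∑ r ∈ (Finset.Icc 2 Y).filter (fun r => r ∣ q),
          (((Finset.Ico α (α + M)).filter (fun p => (r : ℤ) ∣ p)).card : ℝ) := by push_cast; rfl
      _ ≤ _ := by
          refine Finset.sum_le_sum fun r hr => mult_count α M r ?_
          have := (Finset.mem_Icc.1 (Finset.mem_filter.1 hr).1).1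
          omega
  have h6 : (M : ℝ) ≤ (((Finset.Ico α (α + M)).filter (fun p => Int.gcd p q = 1)).card : ℝ) +
      ((((Finset.Icc 2 Y).filter (fun r => r ∣ q)).biUnion
        (fun r => (Finset.Ico α (α + M)).filter (fun p => (r : ℤ) ∣ p))).card : ℝ) := by
    exact_mod_cast h2
  linarith

theorem exists_k0 (C ε : ℝ) (hε : 0 < ε) : ∃ k₀ : ℕ, ∀ k : ℕ, k₀ ≤ k →
    C * ((k : ℝ) + 1) ≤ ε * 2 ^ k := by
  have h1 : Filter.Tendsto (fun k : ℕ => ((k : ℝ) ^ 1) / (2 : ℝ) ^ k) Filter.atTop (nhds 0) :=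
    tendsto_pow_const_div_const_pow_of_one_lt 1 (by norm_num)
  have h2 : Filter.Tendsto (fun k : ℕ => (1 : ℝ) / (2 : ℝ) ^ k) Filter.atTop (nhds 0) := by
    have := tendsto_pow_const_div_const_pow_of_one_lt 0 (r := (2 : ℝ)) (by norm_num)
    simpa using this
  have h3 : Filter.Tendsto (fun k : ℕ => C * (((k : ℝ) ^ 1) / (2 : ℝ) ^ k + 1 / 2 ^ k))
      Filter.atTop (nhds (C * (0 + 0))) := (h1.add h2).const_mul C
  simp only [add_zero, mul_zero] at h3
  have h4 := h3.eventually (gt_mem_nhds hε)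
  obtain ⟨k₀, hk₀⟩ := Filter.eventually_atTop.1 h4
  refine ⟨k₀, fun k hk => ?_⟩
  have h5 := (hk₀ k hk).le
  have h6 : (0 : ℝ) < 2 ^ k := by positivity
  have h7 : C * (((k : ℝ) ^ 1) / (2 : ℝ) ^ k + 1 / 2 ^ k) = C * ((k : ℝ) + 1) / 2 ^ k := by
    rw [pow_one]; ring
  rw [h7, div_le_iff₀ h6] at h5
  exact h5

theorem copr : S_COPR := by
  intro l hl0 hl1
  obtain ⟨k₀, hk₀⟩ := exists_k0 9 (11 / 250 * l) (by positivity)
  refine ⟨k₀, fun k hk α M hM => ?_⟩
  have hk' := hk₀ k hk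
  set X : ℕ := 2 ^ k with hX
  have h2X : (2 : ℕ) ^ (k + 1) = 2 * X := by rw [hX, pow_succ]; ring
  rw [h2X] at hM ⊢
  have hX1 : 1 ≤ X := Nat.one_le_two_pow
  have hXr : (1 : ℝ) ≤ X := by exact_mod_cast hX1
  have h4 : (4 : ℝ) ^ k = (X : ℝ) ^ 2 := by
    rw [hX]; push_cast
    rw [← pow_mul, mul_comm, pow_mul]; norm_num
  have h2k : (2 : ℝ) ^ k = X := by rw [hX]; push_cast; rfl
  rw [h2k] at hk'
  rw [h4]
  have hlow : ∀ q ∈ Finset.Ico X (2 * X), (49 / 50 : ℝ) * l * q -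
      ∑ r ∈ (Finset.Icc 2 (2 * X)).filter (fun r => r ∣ q), ((51 / 25 : ℝ) * X * l / r + 1) ≤
      ((((Finset.Ico (α q) (α q + M q)).filter (fun p => Int.gcd p q = 1)).card : ℕ) : ℝ) := by
    intro q hq
    rw [Finset.mem_Ico] at hq
    have hMq := hM q hq.1 hq.2
    rw [abs_le] at hMq
    have hq2 : (q : ℝ) ≤ 2 * X := by exact_mod_cast hq.2.le
    refine le_trans ?_ (cop_count (α q) (M q) q (2 * X) (by omega) hq.2.le)
    have h5 : ∑ r ∈ (Finset.Icc 2 (2 * X)).filter (fun r => r ∣ q), ((M q : ℝ) / r + 1) ≤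
        ∑ r ∈ (Finset.Icc 2 (2 * X)).filter (fun r => r ∣ q), ((51 / 25 : ℝ) * X * l / r + 1) := by
      refine Finset.sum_le_sum fun r _ => ?_
      have : (M q : ℝ) ≤ (51 / 25 : ℝ) * X * l := by nlinarith
      gcongr
    nlinarith
  refine le_trans ?_ (Finset.sum_le_sum hlow)
  rw [Finset.sum_sub_distrib]
  -- main term
  have hmain : ∑ q ∈ Finset.Ico X (2 * X), (49 / 50 : ℝ) * l * q =
      (49 / 50 : ℝ) * l * (X * X + X * (X - 1) / 2) := by
    rw [← Finset.mul_sum, Finset.sum_Ico_eq_sum_range]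
    have : 2 * X - X = X := by omega
    rw [this]
    have h6 := sum_arith (X : ℝ) X
    push_cast
    rw [h6]
  -- swap
  have hswap : ∑ q ∈ Finset.Ico X (2 * X),
      ∑ r ∈ (Finset.Icc 2 (2 * X)).filter (fun r => r ∣ q), ((51 / 25 : ℝ) * X * l / r + 1) ≤
      ∑ r ∈ Finset.Icc 2 (2 * X), ((X : ℝ) / r + 1) * ((51 / 25 : ℝ) * X * l / r + 1) := by
    have e1 : ∑ q ∈ Finset.Ico X (2 * X),
      ∑ r ∈ (Finset.Icc 2 (2 * X)).filter (fun r => r ∣ q), ((51 / 25 : ℝ) * X * l / r + 1) =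
      ∑ r ∈ Finset.Icc 2 (2 * X), ∑ q ∈ (Finset.Ico X (2 * X)).filter (fun q => r ∣ q),
        ((51 / 25 : ℝ) * X * l / r + 1) := by
      simp only [Finset.sum_filter]
      exact Finset.sum_comm
    rw [e1]
    refine Finset.sum_le_sum fun r hr => ?_
    rw [Finset.sum_const, nsmul_eq_mul]
    have hr1 := (Finset.mem_Icc.1 hr).1
    have := nat_mult_count X r (by omega)
    gcongr
  have hsum2 : ∑ r ∈ Finset.Icc 2 (2 * X), ((X : ℝ) / r + 1) * ((51 / 25 : ℝ) * X * l / r + 1) ≤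
      (51 / 25 : ℝ) * X ^ 2 * l * (13 / 20) + (X + (51 / 25 : ℝ) * X * l) * (k + 2) + 2 * X := by
    have e2 : ∀ r ∈ Finset.Icc 2 (2 * X), ((X : ℝ) / r + 1) * ((51 / 25 : ℝ) * X * l / r + 1) =
        (51 / 25 : ℝ) * X ^ 2 * l * (1 / (r : ℝ) ^ 2) + (X + (51 / 25 : ℝ) * X * l) * (1 / (r : ℝ)) + 1 := by
      intro r hr
      have : (r : ℝ) ≠ 0 := by
        have := (Finset.mem_Icc.1 hr).1
        exact_mod_cast (by omega : r ≠ 0)
      field_simp
      ring
    rw [Finset.sum_congr rfl e2, Finset.sum_add_distrib, Finset.sum_add_distrib, ← Finset.mul_sum,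
      ← Finset.mul_sum]
    have b1 : ∑ r ∈ Finset.Icc 2 (2 * X), (1 : ℝ) / (r : ℝ) ^ 2 ≤ 13 / 20 := by
      have := sum_sq (2 * X) (by omega)
      have h7 : 0 ≤ 1 / (((2 * X : ℕ) : ℝ) + 1 / 2) := by positivity
      linarith
    have b2 : ∑ r ∈ Finset.Icc 2 (2 * X), (1 : ℝ) / (r : ℝ) ≤ k + 2 := by
      have h8 := sum_inv_pow (k + 1) (2 * X) (by rw [h2X])
      have h9 : ∑ r ∈ Finset.Icc 2 (2 * X), (1 : ℝ) / (r : ℝ) ≤
          ∑ r ∈ Finset.Icc 1 (2 * X), (1 : ℝ) / (r : ℝ) := by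
        refine Finset.sum_le_sum_of_subset_of_nonneg ?_ ?_
        · intro r hr
          rw [Finset.mem_Icc] at hr ⊢
          omega
        · intro r _ _
          positivity
      push_cast at h8
      linarith
    have b3 : ∑ r ∈ Finset.Icc 2 (2 * X), (1 : ℝ) ≤ 2 * X := by
      rw [Finset.sum_const, Nat.card_Icc, nsmul_eq_mul, mul_one]
      have : 2 * X + 1 - 2 ≤ 2 * X := by omega
      exact_mod_cast this
    gcongr
  have hfin : (1 / 10 : ℝ) * (X : ℝ) ^ 2 * l ≤ (49 / 50 : ℝ) * l * (X * X + X * (X - 1) / 2) -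
      ((51 / 25 : ℝ) * X ^ 2 * l * (13 / 20) + (X + (51 / 25 : ℝ) * X * l) * (k + 2) + 2 * X) := by
    have h10 : (9 : ℝ) * (k + 1) * X ≤ 11 / 250 * l * X * X := by nlinarith
    have h11 : l * X * ((k : ℝ) + 2) ≤ X * ((k : ℝ) + 2) := by
      have : l * X ≤ X := by nlinarith
      have h12 : (0 : ℝ) ≤ (k : ℝ) + 2 := by positivity
      nlinarith
    have h13 : l * X ≤ X := by nlinarith
    have h14 : (0 : ℝ) ≤ (k : ℝ) := by positivity
    have h15 : (0 : ℝ) ≤ X * (k : ℝ) := by positivity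
    nlinarith
  linarith

end Pool.Agent.Helper982_KG.COPR
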