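import Mathlib
import Pool.Agent.Helper982_KG.Stmts

/-!
# Case II of the pair correlation bound: pointwise data and parameters
-/

open MeasureTheory Set Finset

namespace Pool.Agent.Helper982_KG.Case2

lemma kap_pos : 0 < kap := by norm_num [kap]

lemma act_mul (A B : M4) (μ : ℝ) (u : ℤ × ℤ) :
    act A (act B (μ * u.1, μ * u.2)) =
      (μ * ((iact A (iact B u)).1 : ℝ), μ * ((iact A (iact B u)).2 : ℝ)) := by
  simp only [act, iact]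
  push_cast
  refine Prod.ext ?_ ?_ <;> simp only <;> ring

/-- bound for one coordinate of the vector attached to a form -/
lemma vec_bound {X X' δ x F C₂ q b a : ℝ} (hb : |b| ≤ X')
    (hF : |F| < δ) (hq0 : 0 ≤ q) (hq : q ≤ 2 * X) (hba : |b * x - a| ≤ C₂ / X') :
    |F * b - q * (b * x - a)| ≤ X' * δ + 2 * X * (C₂ / X') := by
  have h1 : |F * b| ≤ δ * X' := by
    rw [abs_mul]
    exact mul_le_mul hF.le hb (abs_nonneg _) ((abs_nonneg _).trans hF.le)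
  have h2 : |q * (b * x - a)| ≤ 2 * X * (C₂ / X') := by
    rw [abs_mul, abs_of_nonneg hq0]
    exact mul_le_mul hq hba (abs_nonneg _) (hq0.trans hq)
  calc |F * b - q * (b * x - a)| ≤ |F * b| + |q * (b * x - a)| := abs_sub _ _
    _ ≤ δ * X' + 2 * X * (C₂ / X') := add_le_add h1 h2
    _ = _ := by ring

/-- the facts about the two forms at a point -/
structure PtData (C₂ : ℕ) (k k' : ℕ) (δ δ' : ℝ) (b a : ℤ × ℤ) (μ μ' : ℝ)
    (p : ℤ) (q : ℕ) (p' : ℤ) (q' : ℕ) : Prop where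
  q1 : 2 ^ k ≤ q
  q2 : q < 2 ^ (k + 1)
  g1 : Int.gcd p q = 1
  q3 : 2 ^ k' ≤ q'
  q4 : q' < 2 ^ (k' + 1)
  g2 : Int.gcd p' q' = 1
  v1 : |μ * b.1 + ((b.1 * p + a.1 * q : ℤ) : ℝ)| ≤ ((2 * C₂ + 1 : ℕ) : ℝ) * (2 ^ k / 2 ^ k')
  v2 : |μ * b.2 + ((b.2 * p + a.2 * q : ℤ) : ℝ)| ≤ ((2 * C₂ + 1 : ℕ) : ℝ) * (2 ^ k / 2 ^ k')
  w1 : |μ' * b.1 + ((b.1 * p' + a.1 * q' : ℤ) : ℝ)| ≤ ((2 * C₂ + 1 : ℕ) : ℝ)
  w2 : |μ' * b.2 + ((b.2 * p' + a.2 * q' : ℤ) : ℝ)| ≤ ((2 * C₂ + 1 : ℕ) : ℝ)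
  wd : |(μ * b.1 + ((b.1 * p + a.1 * q : ℤ) : ℝ)) * (μ' * b.2 + ((b.2 * p' + a.2 * q' : ℤ) : ℝ)) -
    (μ * b.2 + ((b.2 * p + a.2 * q : ℤ) : ℝ)) * (μ' * b.1 + ((b.1 * p' + a.1 * q' : ℤ) : ℝ))| ≤
      2 * 2 ^ k * δ' + 2 * 2 ^ k' * δ

lemma pt_data {m a₁ C₀ C₂ k k' : ℕ} {comp : ℤ × ℤ → ℤ × ℤ} {mm mm' : Fin m → ℕ} {δ δ' x : ℝ}
    {y : ℝ → Fin m → ℝ} {N t s : ℕ} {c : ℤ × ℤ} {A B : M4} (hC₂ : 1 ≤ C₂)
    (hT : Two a₁ k k' mm mm' δ δ' y x) (hB : BaseData C₀ C₂ comp N t s x c A B)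
    (hX : (N : ℝ) * 2 ^ t * 2 ^ s = 2 ^ k') (hδ : 8 * 4 ^ k' * δ < (2 : ℝ) ^ k)
    (hδ' : δ' ≤ 1 / 2 ^ (k' + 4)) :
    ∃ (p : ℤ) (q : ℕ) (p' : ℤ) (q' : ℕ),
      PtData C₂ k k' δ δ' (iact A (iact B (c.1, (comp c).1))) (iact A (iact B (c.2, (comp c).2)))
        (dt mm (y x)) (dt mm' (y x)) p q p' q' := by
  obtain ⟨-, ⟨p, q, hq1, hq2, hg, hF⟩, -, ⟨p', q', hq1', hq2', hg', hF'⟩⟩ := hT
  obtain ⟨-, -, -, -, -, -, -, -, hdet, hb1, hb1', hb2, hb2', he1, he2⟩ := hB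
  rw [hX] at hb1 hb1' hb2' he1 he2
  set b := iact A (iact B (c.1, (comp c).1)) with hb
  set a := iact A (iact B (c.2, (comp c).2)) with ha
  set μ := dt mm (y x)
  set μ' := dt mm' (y x)
  have hX'0 : (0 : ℝ) < 2 ^ k' := by positivity
  have hX0 : (0 : ℝ) < 2 ^ k := by positivity
  have hdetR : (b.1 : ℝ) * a.2 - a.1 * b.2 = -1 := by exact_mod_cast hdet
  have hC₂R : (1 : ℝ) ≤ C₂ := by exact_mod_cast hC₂
  have hab1 : |(b.1 : ℝ)| ≤ 2 ^ k' := by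
    rw [abs_of_nonneg]
    · exact hb1'
    · exact (mul_pos kap_pos hX'0).le.trans hb1
  have hab2 : |(b.2 : ℝ)| ≤ 2 ^ k' := by
    rw [abs_of_nonneg]
    · exact hb2'
    · exact_mod_cast hb2
  have he1' : |(b.1 : ℝ) * x - a.1| ≤ C₂ / 2 ^ k' := he1.trans (by gcongr)
  have hqR0 : (0 : ℝ) ≤ q := by positivity
  have hqR0' : (0 : ℝ) ≤ q' := by positivity
  have hqR : (q : ℝ) ≤ 2 * 2 ^ k := by
    have : (q : ℝ) ≤ 2 ^ (k + 1) := by exact_mod_cast hq2.le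
    rw [pow_succ] at this
    linarith
  have hqR' : (q' : ℝ) ≤ 2 * 2 ^ k' := by
    have : (q' : ℝ) ≤ 2 ^ (k' + 1) := by exact_mod_cast hq2'.le
    rw [pow_succ] at this
    linarith
  -- `X' δ ≤ X / X'`
  have hXd : 2 ^ k' * δ ≤ (2 : ℝ) ^ k / 2 ^ k' := by
    rw [le_div_iff₀ hX'0]
    have h4 : (4 : ℝ) ^ k' = 2 ^ k' * 2 ^ k' := by
      rw [← mul_pow]; norm_num
    rw [h4] at hδ
    nlinarith
  have hXd' : 2 ^ k' * δ' ≤ (1 : ℝ) := by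
    have : 2 ^ k' * δ' ≤ 2 ^ k' * (1 / 2 ^ (k' + 4)) := by gcongr
    refine this.trans ?_
    rw [pow_add, mul_one_div, div_le_one (by positivity)]
    nlinarith
  have hbd : 2 ^ k' * δ + 2 * 2 ^ k * ((C₂ : ℝ) / 2 ^ k') ≤
      ((2 * C₂ + 1 : ℕ) : ℝ) * (2 ^ k / 2 ^ k') := by
    have : 2 * 2 ^ k * ((C₂ : ℝ) / 2 ^ k') = 2 * C₂ * (2 ^ k / 2 ^ k') := by ring
    rw [this]
    push_cast
    nlinarith
  have hbd' : 2 ^ k' * δ' + 2 * 2 ^ k' * ((C₂ : ℝ) / 2 ^ k') ≤ ((2 * C₂ + 1 : ℕ) : ℝ) := by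
    have : 2 * 2 ^ k' * ((C₂ : ℝ) / 2 ^ k') = 2 * C₂ := by field_simp
    rw [this]
    push_cast
    linarith
  refine ⟨p, q, p', q', hq1, hq2, hg, hq1', hq2', hg', ?_, ?_, ?_, ?_, ?_⟩
  · have h := vec_bound (X := 2 ^ k) hab1 hF hqR0 hqR he1'
    refine le_trans (le_of_eq ?_) (h.trans hbd)
    congr 1
    push_cast
    ring
  · have h := vec_bound (X := 2 ^ k) hab2 hF hqR0 hqR he2
    refine le_trans (le_of_eq ?_) (h.trans hbd)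
    congr 1
    push_cast
    ring
  · have h := vec_bound (X := 2 ^ k') hab1 hF' hqR0' hqR' he1'
    refine le_trans (le_of_eq ?_) (h.trans hbd')
    congr 1
    push_cast
    ring
  · have h := vec_bound (X := 2 ^ k') hab2 hF' hqR0' hqR' he2
    refine le_trans (le_of_eq ?_) (h.trans hbd')
    congr 1
    push_cast
    ring
  · have hid : (μ * b.1 + ((b.1 * p + a.1 * q : ℤ) : ℝ)) *
        (μ' * b.2 + ((b.2 * p' + a.2 * q' : ℤ) : ℝ)) -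
        (μ * b.2 + ((b.2 * p + a.2 * q : ℤ) : ℝ)) * (μ' * b.1 + ((b.1 * p' + a.1 * q' : ℤ) : ℝ)) =
        q * ((p' : ℝ) + q' * x + μ') - q' * ((p : ℝ) + q * x + μ) := by
      push_cast
      linear_combination (-(q * ((p' : ℝ) + q' * x + μ') - q' * ((p : ℝ) + q * x + μ))) * hdetR
    rw [hid]
    calc |q * ((p' : ℝ) + q' * x + μ') - q' * ((p : ℝ) + q * x + μ)|
        ≤ |q * ((p' : ℝ) + q' * x + μ')| + |q' * ((p : ℝ) + q * x + μ)| := abs_sub _ _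
      _ = q * |(p' : ℝ) + q' * x + μ'| + q' * |(p : ℝ) + q * x + μ| := by
          rw [abs_mul, abs_mul, abs_of_nonneg hqR0, abs_of_nonneg hqR0']
      _ ≤ (2 * 2 ^ k) * δ' + (2 * 2 ^ k') * δ := by
          gcongr
      _ = _ := by ring

/-- two proportional primitive forms are equal -/
lemma no_prop {b a : ℤ × ℤ} (hdet : b.1 * a.2 - a.1 * b.2 = -1) {p p' : ℤ} {q q' j j' : ℕ}
    (h1 : Int.gcd p q = 1) (h2 : Int.gcd p' q' = 1) (hj : 1 ≤ j)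
    (e1 : (j' : ℤ) * (b.1 * p + a.1 * q) = j * (b.1 * p' + a.1 * q'))
    (e2 : (j' : ℤ) * (b.2 * p + a.2 * q) = j * (b.2 * p' + a.2 * q')) : j = j' ∧ q = q' := by
  have hP : (j' : ℤ) * p = j * p' := by
    have h : ((j' : ℤ) * p - j * p') * (b.1 * a.2 - a.1 * b.2) = 0 := by
      linear_combination a.2 * e1 - a.1 * e2
    rw [hdet] at h
    linarith
  have hQ : (j' : ℤ) * q = j * q' := by
    have h : ((j' : ℤ) * q - j * q') * (b.1 * a.2 - a.1 * b.2) = 0 := by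
      linear_combination b.1 * e2 - b.2 * e1
    rw [hdet] at h
    linarith
  have hg1 : Int.gcd ((j' : ℤ) * p) (j' * q) = j' := by
    rw [Int.gcd_mul_left, h1]; simp
  have hg2 : Int.gcd ((j : ℤ) * p') (j * q') = j := by
    rw [Int.gcd_mul_left, h2]; simp
  have hjj : j = j' := by
    rw [← hg2, ← hg1, hP, hQ]
  refine ⟨hjj, ?_⟩
  rw [← hjj] at hQ
  have hj0 : (j : ℤ) ≠ 0 := by positivity
  exact_mod_cast mul_left_cancel₀ hj0 hQ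

/-- `p q' = q p'` for primitive forms forces `q = q'` -/
lemma eq_of_wedge {p p' : ℤ} {q q' : ℕ} (h1 : Int.gcd p q = 1) (h2 : Int.gcd p' q' = 1)
    (e : p * q' = q * p') : q = q' := by
  have d1 : (q : ℤ) ∣ q' := by
    have : (q : ℤ) ∣ p * q' := ⟨p', e⟩
    exact Int.dvd_of_dvd_mul_right_of_gcd_one this (by rw [Int.gcd_comm]; exact h1)
  have d2 : (q' : ℤ) ∣ q := by
    have : (q' : ℤ) ∣ p' * q := ⟨p, by linear_combination -e⟩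
    exact Int.dvd_of_dvd_mul_right_of_gcd_one this (by rw [Int.gcd_comm]; exact h2)
  exact Nat.dvd_antisymm (Int.natCast_dvd_natCast.1 d1) (Int.natCast_dvd_natCast.1 d2)

/-! ### parameters -/

lemma par_ineq {m a₁ a₃ a₄ : ℕ} (h : ParOK m a₁ a₃ a₄) (k : ℕ) :
    2000 * (k / a₄) ≤ k / a₁ ∧ 4 * (m + 1) * (k / a₃) ≤ k / a₄ ∧ 8 * (k / a₁) ≤ k / 8 ∧
      8 * (k / 8) ≤ k := by
  obtain ⟨h1, h2, h3⟩ := h
  have ha1 : 0 < a₁ := by omega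
  have ha4 : 0 < a₄ := by omega
  refine ⟨?_, ?_, ?_, Nat.mul_div_le k 8⟩
  · rw [Nat.le_div_iff_mul_le ha1]
    calc 2000 * (k / a₄) * a₁ = (k / a₄) * (2000 * a₁) := by ring
      _ ≤ (k / a₄) * a₄ := Nat.mul_le_mul_left _ h2
      _ ≤ k := Nat.div_mul_le_self k a₄
  · rw [Nat.le_div_iff_mul_le ha4]
    calc 4 * (m + 1) * (k / a₃) * a₄ = (k / a₃) * (4 * (m + 1) * a₄) := by ring
      _ ≤ (k / a₃) * a₃ := Nat.mul_le_mul_left _ h3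
      _ ≤ k := Nat.div_mul_le_self k a₃
  · rw [Nat.le_div_iff_mul_le (by norm_num)]
    calc 8 * (k / a₁) * 8 = (k / a₁) * 64 := by ring
      _ ≤ (k / a₁) * a₁ := Nat.mul_le_mul_left _ h1
      _ ≤ k := Nat.div_mul_le_self k a₁

lemma boxhyp {m a₁ a₃ a₄ : ℕ} (h : ParOK m a₁ a₃ a₄) (hm : 1 ≤ m) {u C₂ k K : ℕ}
    (hC₂ : 1 ≤ C₂) (hu : C₂ ≤ 2 ^ u) (hk : 2 * (u + 8) ≤ k / a₁) (hK1 : 1 ≤ K)
    (hK : K ≤ 2 ^ (2 * (k / a₃) + 2 * (k / a₄))) :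
    BoxHyp (C₂ * 2 ^ sE a₁ k) (C₂ * 2 ^ tE k) K (2 ^ (2 * sE a₁ k)) (1 / 2 ^ (tE k / 2)) := by
  obtain ⟨i1, i2, i3, i4⟩ := par_ineq h k
  simp only [sE, tE]
  set s := k / a₁
  set t := k / 8
  set D := k / a₄
  set c := k / a₃
  have i2' : 8 * c ≤ D := by
    refine le_trans (Nat.mul_le_mul_right _ ?_) i2
    omega
  refine ⟨hK1, ?_, ?_, by positivity, ?_⟩
  · calc K ^ 200 ≤ (2 ^ (2 * c + 2 * D)) ^ 200 := Nat.pow_le_pow_left hK _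
      _ = 2 ^ ((2 * c + 2 * D) * 200) := by rw [← pow_mul]
      _ ≤ 2 ^ s := Nat.pow_le_pow_right (by norm_num) (by omega)
      _ ≤ C₂ * 2 ^ s := Nat.le_mul_of_pos_left _ (by omega)
  · calc 16 * (C₂ * 2 ^ s) * K ^ 2 ≤ 16 * (2 ^ u * 2 ^ s) * (2 ^ (2 * c + 2 * D)) ^ 2 := by
          gcongr
      _ = 2 ^ (4 + u + s + (2 * c + 2 * D) * 2) := by
          rw [← pow_mul, pow_add, pow_add, pow_add]; ring
      _ ≤ 2 ^ (2 * s) := Nat.pow_le_pow_right (by norm_num) (by omega)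
  · have h1 : 8 * 2 ^ s * K * 2 ^ (t / 2) ≤ 2 ^ t := by
      calc 8 * 2 ^ s * K * 2 ^ (t / 2) ≤ 8 * 2 ^ s * 2 ^ (2 * c + 2 * D) * 2 ^ (t / 2) := by
            gcongr
        _ = 2 ^ (3 + s + (2 * c + 2 * D) + t / 2) := by
            rw [show (8 : ℕ) = 2 ^ 3 by norm_num, ← pow_add, ← pow_add, ← pow_add]
        _ ≤ 2 ^ t := Nat.pow_le_pow_right (by norm_num) (by omega)
    have h2 : (8 : ℝ) * 2 ^ s * K * 2 ^ (t / 2) ≤ 2 ^ t := by exact_mod_cast h1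
    have h3 : (0 : ℝ) < 2 ^ (t / 2) := by positivity
    have hC0 : (0 : ℝ) ≤ C₂ := by positivity
    push_cast
    rw [div_mul_eq_mul_div, one_mul, le_div_iff₀ h3]
    calc 8 * ((C₂ : ℝ) * 2 ^ s) * K * 2 ^ (t / 2) = C₂ * (8 * 2 ^ s * K * 2 ^ (t / 2)) := by ring
      _ ≤ C₂ * 2 ^ t := by gcongr

/-- the error made by replacing the point by the reference point -/
noncomputable def ome (m : ℕ) (L : ℝ) (c k N : ℕ) : ℝ :=
  m * 2 ^ c * L * (2 / (kap * (N : ℝ) ^ 2)) * 2 ^ k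

lemma ome_nonneg {m : ℕ} {L : ℝ} (hL : 0 ≤ L) (c k N : ℕ) : 0 ≤ ome m L c k N := by
  have := kap_pos
  unfold ome
  positivity

lemma ome_le {m a₁ a₃ a₄ : ℕ} (h : ParOK m a₁ a₃ a₄) (hm : 1 ≤ m) {L : ℝ} {u k K : ℕ}
    (hu : 32 * m * L / kap ≤ 2 ^ u) (hk : u ≤ k / a₁) (hL : 0 ≤ L)
    (hK : K ≤ 2 ^ (2 * (k / a₃) + 2 * (k / a₄))) :
    16 * (K : ℝ) * ome m L (k / a₃) k (N0 a₁ k) ≤ 1 := by
  obtain ⟨i1, i2, i3, i4⟩ := par_ineq h k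
  have hkp := kap_pos
  simp only [N0, sE, tE, ome]
  set s := k / a₁
  set t := k / 8
  set D := k / a₄
  set c := k / a₃
  have i2' : 8 * c ≤ D := by
    refine le_trans (Nat.mul_le_mul_right _ ?_) i2
    omega
  have hNR : (((2 ^ (k - s - t) : ℕ) : ℝ)) ^ 2 = 2 ^ (2 * (k - s - t)) := by
    push_cast
    rw [← pow_mul, mul_comm]
  rw [hNR]
  have hKR : (K : ℝ) ≤ 2 ^ (2 * c + 2 * D) := by exact_mod_cast hK
  have e1 : 16 * (K : ℝ) * (m * 2 ^ c * L * (2 / (kap * 2 ^ (2 * (k - s - t)))) * 2 ^ k) =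
      (32 * m * L / kap) * K * 2 ^ c * 2 ^ k / 2 ^ (2 * (k - s - t)) := by
    field_simp
    ring
  rw [e1, div_le_one (by positivity)]
  have h0 : 0 ≤ 32 * m * L / kap := by positivity
  calc (32 * m * L / kap) * K * 2 ^ c * 2 ^ k ≤ 2 ^ u * 2 ^ (2 * c + 2 * D) * 2 ^ c * 2 ^ k := by
        gcongr
    _ = 2 ^ (u + (2 * c + 2 * D) + c + k) := by rw [← pow_add, ← pow_add, ← pow_add]
    _ ≤ 2 ^ (2 * (k - s - t)) := pow_le_pow_right₀ (by norm_num) (by omega)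

/-! ### Lipschitz estimates -/

lemma dt_lip {m : ℕ} {y : ℝ → Fin m → ℝ} {L s l : ℝ} (hy : LipOn y L s l) {mm : Fin m → ℕ}
    {M : ℕ} (hmm : ∀ i, mm i ≤ M) {x x' : ℝ} (hx : x ∈ Icc s (s + l)) (hx' : x' ∈ Icc s (s + l)) :
    |dt mm (y x) - dt mm (y x')| ≤ m * M * L * |x - x'| := by
  unfold dt
  rw [← Finset.sum_sub_distrib]
  calc |∑ i, ((mm i : ℝ) * y x i - mm i * y x' i)| ≤ ∑ i, |(mm i : ℝ) * y x i - mm i * y x' i| :=
        Finset.abs_sum_le_sum_abs _ _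
    _ ≤ ∑ _i : Fin m, (M : ℝ) * (L * |x - x'|) := by
        refine Finset.sum_le_sum fun i _ => ?_
        rw [← mul_sub, abs_mul, abs_of_nonneg (by positivity : (0 : ℝ) ≤ mm i)]
        have h1 : (mm i : ℝ) ≤ M := by exact_mod_cast hmm i
        have h2 := hy x hx x' hx' i
        have h3 : (0 : ℝ) ≤ mm i := by positivity
        calc (mm i : ℝ) * |y x i - y x' i| ≤ mm i * (L * |x - x'|) := by gcongr
          _ ≤ M * (L * |x - x'|) := by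
              refine mul_le_mul_of_nonneg_right h1 ?_
              exact (abs_nonneg _).trans h2
    _ = m * M * L * |x - x'| := by
        rw [Finset.sum_const, Finset.card_univ, Fintype.card_fin, nsmul_eq_mul]
        ring

lemma close_pts {c : ℤ × ℤ} {N : ℕ} (hN : 1 ≤ N) (h1 : kap * N ≤ c.1) {x x' : ℝ}
    (hx : |(c.1 : ℝ) * x - c.2| ≤ 1 / N) (hx' : |(c.1 : ℝ) * x' - c.2| ≤ 1 / N) :
    |x - x'| ≤ 2 / (kap * (N : ℝ) ^ 2) := by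
  have hkp := kap_pos
  have hN0 : (0 : ℝ) < N := by positivity
  have hc : (0 : ℝ) < c.1 := lt_of_lt_of_le (by positivity) h1
  have h2 : (c.1 : ℝ) * |x - x'| ≤ 2 / N := by
    have h5 : (c.1 : ℝ) * |x - x'| = |(c.1 : ℝ) * (x - x')| := by
      rw [abs_mul, abs_of_pos hc]
    rw [h5]
    have : (c.1 : ℝ) * (x - x') = (c.1 * x - c.2) - (c.1 * x' - c.2) := by ring
    rw [this]
    refine (abs_sub _ _).trans ?_
    calc _ ≤ 1 / (N : ℝ) + 1 / N := add_le_add hx hx'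
      _ = 2 / N := by ring
  have h3 : kap * N * |x - x'| ≤ 2 / N :=
    (mul_le_mul_of_nonneg_right h1 (abs_nonneg _)).trans h2
  rw [le_div_iff₀ (by positivity)]
  have h4 : kap * N * |x - x'| * N ≤ 2 / N * N := by gcongr
  rw [div_mul_cancel₀ _ hN0.ne'] at h4
  linarith

lemma shift_bound {m : ℕ} {y : ℝ → Fin m → ℝ} {L s l : ℝ} (hL : 0 ≤ L) (hy : LipOn y L s l)
    {mm : Fin m → ℕ} {cc k N : ℕ} (hmm : ∀ i, mm i ≤ 2 ^ cc) {x x' : ℝ}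
    (hx : x ∈ Icc s (s + l)) (hx' : x' ∈ Icc s (s + l)) {c : ℤ × ℤ} (hN : 1 ≤ N)
    (h1 : kap * N ≤ c.1) (hc : |(c.1 : ℝ) * x - c.2| ≤ 1 / N)
    (hc' : |(c.1 : ℝ) * x' - c.2| ≤ 1 / N) {b : ℝ} (hb : |b| ≤ 2 ^ k) :
    |(dt mm (y x) - dt mm (y x')) * b| ≤ ome m L cc k N := by
  have h2 := dt_lip hy hmm hx hx'
  have h3 := close_pts hN h1 hc hc'
  rw [abs_mul]
  unfold ome
  refine mul_le_mul ?_ hb (abs_nonneg _) ?_
  · refine h2.trans ?_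
    push_cast
    gcongr
  · have := kap_pos
    positivity

end Pool.Agent.Helper982_KG.Case2
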