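import Mathlib
import Pool.Agent.Helper982_KG.Case2a

/-!
# Case II of the pair correlation bound: number of codes over one coarse rational
-/

open MeasureTheory Set Finset

namespace Pool.Agent.Helper982_KG.Case2

/-- points of the double event with code `(c, A, B)` -/
def Pt {m : ℕ} (a₁ k k' : ℕ) (mm mm' : Fin m → ℕ) (δ δ' : ℝ) (y : ℝ → Fin m → ℝ) (s l : ℝ)
    (C₀ C₂ : ℕ) (comp : ℤ × ℤ → ℤ × ℤ) (c : ℤ × ℤ) (A B : M4) (x : ℝ) : Prop :=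
  x ∈ Icc s (s + l) ∧ Two a₁ k k' mm mm' δ δ' y x ∧
    BaseData C₀ C₂ comp (N0 a₁ k') (tE k') (sE a₁ k') x c A B

lemma n0_mul {m a₁ a₃ a₄ : ℕ} (h : ParOK m a₁ a₃ a₄) (k : ℕ) :
    N0 a₁ k * 2 ^ tE k * 2 ^ sE a₁ k = 2 ^ k := by
  obtain ⟨i1, i2, i3, i4⟩ := par_ineq h k
  simp only [N0, sE, tE]
  rw [← pow_add, ← pow_add]
  congr 1
  omega

lemma n0_mul' {m a₁ a₃ a₄ : ℕ} (h : ParOK m a₁ a₃ a₄) (k : ℕ) :
    N0 a₁ k * 2 ^ tE k = N1 a₁ k := by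
  obtain ⟨i1, i2, i3, i4⟩ := par_ineq h k
  simp only [N0, N1, sE, tE]
  rw [← pow_add]
  congr 1
  omega

lemma n0_mulR {m a₁ a₃ a₄ : ℕ} (h : ParOK m a₁ a₃ a₄) (k : ℕ) :
    ((N0 a₁ k : ℕ) : ℝ) * 2 ^ tE k * 2 ^ sE a₁ k = 2 ^ k := by
  exact_mod_cast n0_mul h k

lemma n0_pos (a₁ k : ℕ) : 1 ≤ N0 a₁ k := Nat.one_le_two_pow

/-- the Diophantine condition at the first row `c` -/
lemma dio_at {m : ℕ} {κ₁ : ℝ} {N W : ℕ} {x : ℝ} {yx : Fin m → ℝ} (hD : Dio κ₁ N W x yx)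
    {c : ℤ × ℤ} (h0 : 1 ≤ c.1) (h1 : kap * N ≤ c.1) (h2 : c.1 ≤ N)
    (hc : |(c.1 : ℝ) * x - c.2| ≤ 1 / N) :
    ∀ w : Fin m → ℤ, w ≠ 0 → (∀ i, |w i| ≤ W) → Far κ₁ ((c.1 : ℝ) * ∑ i, (w i : ℝ) * yx i) := by
  intro w hw hwb
  have hcast : ((c.1.toNat : ℕ) : ℝ) = (c.1 : ℝ) := by
    have : ((c.1.toNat : ℕ) : ℤ) = c.1 := Int.toNat_of_nonneg (by omega)
    exact_mod_cast this
  have h := hD c.1.toNat (by rw [hcast]; exact h1) (by omega)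
    ⟨c.2, by rw [hcast]; exact hc⟩ w hw hwb
  rw [hcast] at h
  exact h

lemma dioTwo_of {m : ℕ} {mm mm' : Fin m → ℕ} (hind : ∃ i i', mm i * mm' i' ≠ mm i' * mm' i)
    {M : ℕ} (hmm : ∀ i, mm i ≤ M) (hmm' : ∀ i, mm' i ≤ M) {K₁ W : ℕ} (hW : 2 * K₁ * M ≤ W)
    {κ₁ b b' : ℝ} {yx : Fin m → ℝ}
    (hfar : ∀ w : Fin m → ℤ, w ≠ 0 → (∀ i, |w i| ≤ W) → Far κ₁ (b * ∑ i, (w i : ℝ) * yx i)) :
    DioTwo K₁ κ₁ (dt mm yx * b, dt mm yx * b') (dt mm' yx * b, dt mm' yx * b') := by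
  intro k hk h1 h2
  left
  have hw : (fun i => k.1 * (mm i : ℤ) + k.2 * (mm' i : ℤ)) ≠ 0 := by
    intro h0
    obtain ⟨i, i', hii⟩ := hind
    have e1 : k.1 * (mm i : ℤ) + k.2 * (mm' i : ℤ) = 0 := congrFun h0 i
    have e2 : k.1 * (mm i' : ℤ) + k.2 * (mm' i' : ℤ) = 0 := congrFun h0 i'
    have hne : (mm i : ℤ) * mm' i' - mm i' * mm' i ≠ 0 := by
      intro h
      apply hii
      have : (mm i : ℤ) * mm' i' = mm i' * mm' i := by linarith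
      exact_mod_cast this
    have f1 : k.1 * ((mm i : ℤ) * mm' i' - mm i' * mm' i) = 0 := by
      linear_combination (mm' i' : ℤ) * e1 - (mm' i : ℤ) * e2
    have f2 : k.2 * ((mm i : ℤ) * mm' i' - mm i' * mm' i) = 0 := by
      linear_combination (mm i : ℤ) * e2 - (mm i' : ℤ) * e1
    apply hk
    refine Prod.ext ?_ ?_
    · exact (mul_eq_zero.1 f1).resolve_right hne
    · exact (mul_eq_zero.1 f2).resolve_right hne
  have hb : ∀ i, |(fun i => k.1 * (mm i : ℤ) + k.2 * (mm' i : ℤ)) i| ≤ W := by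
    intro i
    have g1 : ((mm i : ℕ) : ℤ) ≤ M := by exact_mod_cast hmm i
    have g2 : ((mm' i : ℕ) : ℤ) ≤ M := by exact_mod_cast hmm' i
    have gW : 2 * (K₁ : ℤ) * M ≤ W := by exact_mod_cast hW
    calc |k.1 * (mm i : ℤ) + k.2 * (mm' i : ℤ)| ≤ |k.1 * (mm i : ℤ)| + |k.2 * (mm' i : ℤ)| :=
          abs_add_le _ _
      _ = |k.1| * (mm i : ℤ) + |k.2| * (mm' i : ℤ) := by
          rw [abs_mul, abs_mul, Nat.abs_cast, Nat.abs_cast]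
      _ ≤ K₁ * M + K₁ * M := by gcongr
      _ = 2 * K₁ * M := by ring
      _ ≤ W := gW
  have h := hfar _ hw hb
  have e : (k.1 : ℝ) * (dt mm yx * b) + k.2 * (dt mm' yx * b) =
      b * ∑ i, (((fun i => k.1 * (mm i : ℤ) + k.2 * (mm' i : ℤ)) i : ℤ) : ℝ) * yx i := by
    unfold dt
    push_cast
    rw [Finset.mul_sum, Finset.sum_mul, Finset.sum_mul, Finset.mul_sum, Finset.mul_sum,
      ← Finset.sum_add_distrib]
    refine Finset.sum_congr rfl fun i _ => ?_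
    ring
  show Far κ₁ ((k.1 : ℝ) * (dt mm yx * b) + k.2 * (dt mm' yx * b))
  rw [e]
  exact h

lemma dioOne_of {m : ℕ} (hm : 1 ≤ m) {m0 : Fin m → ℕ} (h1 : ∀ i, 1 ≤ m0 i)
    {M : ℕ} (hM : ∀ i, m0 i ≤ M) {K₁ W : ℕ} (hW : K₁ * M ≤ W) {κ₁ b b' : ℝ} {yx : Fin m → ℝ}
    (hfar : ∀ w : Fin m → ℤ, w ≠ 0 → (∀ i, |w i| ≤ W) → Far κ₁ (b * ∑ i, (w i : ℝ) * yx i)) :
    DioOne K₁ κ₁ (dt m0 yx * b, dt m0 yx * b') := by
  intro k hk1 hk2
  left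
  have hw : (fun i => (k : ℤ) * (m0 i : ℤ)) ≠ 0 := by
    intro h0
    have e1 : (k : ℤ) * (m0 ⟨0, hm⟩ : ℤ) = 0 := congrFun h0 ⟨0, hm⟩
    have h2 := h1 ⟨0, hm⟩
    have : k * m0 ⟨0, hm⟩ = 0 := by exact_mod_cast e1
    rcases Nat.mul_eq_zero.1 this with h | h <;> omega
  have hb : ∀ i, |(fun i => (k : ℤ) * (m0 i : ℤ)) i| ≤ W := by
    intro i
    have g : k * m0 i ≤ W := (Nat.mul_le_mul hk2 (hM i)).trans hW
    show |(k : ℤ) * (m0 i : ℤ)| ≤ W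
    rw [abs_mul, Nat.abs_cast, Nat.abs_cast]
    exact_mod_cast g
  have h := hfar _ hw hb
  have e : (k : ℝ) * (dt m0 yx * b) =
      b * ∑ i, (((fun i => (k : ℤ) * (m0 i : ℤ)) i : ℤ) : ℝ) * yx i := by
    unfold dt
    push_cast
    rw [Finset.mul_sum, Finset.sum_mul, Finset.mul_sum]
    refine Finset.sum_congr rfl fun i _ => ?_
    ring
  show Far κ₁ ((k : ℝ) * (dt m0 yx * b))
  rw [e]
  exact h

lemma decomp {m : ℕ} (hm : 1 ≤ m) {mm mm' : Fin m → ℕ} (h1 : ∀ i, 1 ≤ mm i)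
    (h1' : ∀ i, 1 ≤ mm' i) (hdep : ∀ i i', mm i * mm' i' = mm i' * mm' i) :
    ∃ (j j' : ℕ) (m0 : Fin m → ℕ), 1 ≤ j ∧ 1 ≤ j' ∧ Nat.Coprime j j' ∧
      (∀ i, mm i = j * m0 i) ∧ (∀ i, mm' i = j' * m0 i) := by
  set i0 : Fin m := ⟨0, hm⟩
  have hg : 0 < Nat.gcd (mm i0) (mm' i0) := Nat.gcd_pos_of_pos_left _ (h1 i0)
  set g := Nat.gcd (mm i0) (mm' i0) with hgdef
  obtain ⟨j, hj⟩ : g ∣ mm i0 := Nat.gcd_dvd_left _ _
  obtain ⟨j', hj'⟩ : g ∣ mm' i0 := Nat.gcd_dvd_right _ _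
  have hj1 : 1 ≤ j := by
    rcases Nat.eq_zero_or_pos j with h | h
    · rw [h, mul_zero] at hj
      have := h1 i0
      omega
    · exact h
  have hj1' : 1 ≤ j' := by
    rcases Nat.eq_zero_or_pos j' with h | h
    · rw [h, mul_zero] at hj'
      have := h1' i0
      omega
    · exact h
  have hcop : Nat.Coprime j j' := by
    have h := Nat.coprime_div_gcd_div_gcd (m := mm i0) (n := mm' i0) hg
    rw [← hgdef] at h
    rwa [hj, hj', Nat.mul_div_cancel_left _ hg, Nat.mul_div_cancel_left _ hg] at h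
  have hkey : ∀ i, j * mm' i = mm i * j' := by
    intro i
    have h := hdep i0 i
    rw [hj, hj'] at h
    have : g * (j * mm' i) = g * (mm i * j') := by
      calc g * (j * mm' i) = g * j * mm' i := by ring
        _ = mm i * (g * j') := h
        _ = _ := by ring
    exact Nat.eq_of_mul_eq_mul_left hg this
  have hdvd : ∀ i, j ∣ mm i := by
    intro i
    have : j ∣ mm i * j' := ⟨mm' i, (hkey i).symm⟩
    exact hcop.dvd_of_dvd_mul_right this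
  refine ⟨j, j', fun i => mm i / j, hj1, hj1', hcop, ?_, ?_⟩
  · intro i
    rw [Nat.mul_div_cancel' (hdvd i)]
  · intro i
    have h2 := hkey i
    have h3 : mm i = j * (mm i / j) := (Nat.mul_div_cancel' (hdvd i)).symm
    apply Nat.eq_of_mul_eq_mul_left hj1
    calc j * mm' i = mm i * j' := h2
      _ = (j * (mm i / j)) * j' := by rw [← h3]
      _ = j * (j' * (mm i / j)) := by ring

lemma tau_facts {a₄ k k' : ℕ} {δ δ' : ℝ} (hd : dOK a₄ k δ) (hd' : dOK a₄ k' δ') (hkk : k ≤ k')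
    (h8 : 8 * 4 ^ k' * δ < (2 : ℝ) ^ k) :
    0 < 2 * 2 ^ k * δ' + 2 * 2 ^ k' * δ ∧ 2 * 2 ^ k * δ' + 2 * 2 ^ k' * δ < 1 ∧
      1 ≤ (2 * 2 ^ k * δ' + 2 * 2 ^ k' * δ) * ((2 : ℝ) ^ k / 2 ^ k') *
        ((2 ^ (2 * (k' / a₄)) : ℕ) : ℝ) := by
  have hX0 : (0 : ℝ) < 2 ^ k := by positivity
  have hX'0 : (0 : ℝ) < 2 ^ k' := by positivity
  have hδ0 : 0 < δ := lt_of_lt_of_le (by positivity) hd.1
  have hδ0' : 0 < δ' := lt_of_lt_of_le (by positivity) hd'.1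
  have hXX : (2 : ℝ) ^ k ≤ 2 ^ k' := pow_le_pow_right₀ (by norm_num) hkk
  refine ⟨by positivity, ?_, ?_⟩
  · have h1 : 2 * 2 ^ k * δ' ≤ (1 / 8 : ℝ) := by
      calc 2 * 2 ^ k * δ' ≤ 2 * 2 ^ k' * (1 / 2 ^ (k' + 4)) := by
            gcongr
            exact hd'.2
        _ = 1 / 8 := by
            rw [pow_add]
            field_simp
            norm_num
    have h2 : 2 * 2 ^ k' * δ ≤ (1 / 4 : ℝ) := by
      have h4 : (4 : ℝ) ^ k' = 2 ^ k' * 2 ^ k' := by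
        rw [← mul_pow]; norm_num
      rw [h4] at h8
      have h5 : 2 ^ k' * (8 * 2 ^ k' * δ) < 2 ^ k' * (1 : ℝ) := by
        calc 2 ^ k' * (8 * 2 ^ k' * δ) = 8 * (2 ^ k' * 2 ^ k') * δ := by ring
          _ < 2 ^ k := h8
          _ ≤ 2 ^ k' * 1 := by rw [mul_one]; exact hXX
      have h6 := lt_of_mul_lt_mul_left h5 hX'0.le
      linarith
    linarith
  · have h1 : 2 / (2 : ℝ) ^ (k / a₄) ≤ (2 * 2 ^ k * δ' + 2 * 2 ^ k' * δ) * ((2 : ℝ) ^ k / 2 ^ k') := by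
      have h2 : (2 * 2 ^ k' * δ) * ((2 : ℝ) ^ k / 2 ^ k') = 2 * 2 ^ k * δ := by
        field_simp
      have h3 : 2 / (2 : ℝ) ^ (k / a₄) ≤ 2 * 2 ^ k * δ := by
        calc 2 / (2 : ℝ) ^ (k / a₄) = 2 * 2 ^ k * (1 / 2 ^ (k + k / a₄)) := by
              rw [pow_add]; field_simp
          _ ≤ 2 * 2 ^ k * δ := by
              gcongr
              exact hd.1
      rw [add_mul, h2]
      have h4 : 0 ≤ 2 * 2 ^ k * δ' * ((2 : ℝ) ^ k / 2 ^ k') := by positivity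
      linarith
    have h5 : k / a₄ ≤ 2 * (k' / a₄) := by
      have := Nat.div_le_div_right (c := a₄) hkk
      omega
    have h6 : (2 : ℝ) ^ (k / a₄) ≤ ((2 ^ (2 * (k' / a₄)) : ℕ) : ℝ) := by
      push_cast
      exact pow_le_pow_right₀ (by norm_num) h5
    calc (1 : ℝ) ≤ 2 / (2 : ℝ) ^ (k / a₄) * 2 ^ (k / a₄) := by
          rw [div_mul_cancel₀ _ (by positivity)]; norm_num
      _ ≤ _ := by gcongr

end Pool.Agent.Helper982_KG.Case2
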