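import Mathlib
import Pool.Agent.Helper982_KG.Case2b

/-!
# Case II of the pair correlation bound: number of codes over one coarse rational (continued)
-/

open MeasureTheory Set Finset

namespace Pool.Agent.Helper982_KG.Case2

/-- what the two orbit counts need to know about one point -/
lemma base_facts {C₀ C₂ : ℕ} {comp : ℤ × ℤ → ℤ × ℤ} {N t s : ℕ} {x : ℝ} {c : ℤ × ℤ} {A B : M4}
    (hB : BaseData C₀ C₂ comp N t s x c A B) {k' : ℕ} (hX : (N : ℝ) * 2 ^ t * 2 ^ s = 2 ^ k') :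
    |((iact A (iact B (c.1, (comp c).1))).1 : ℝ)| ≤ 2 ^ k' ∧
    |((iact A (iact B (c.1, (comp c).1))).2 : ℝ)| ≤ 2 ^ k' := by
  obtain ⟨-, -, -, -, -, -, -, -, -, hb1, hb1', hb2, hb2', -, -⟩ := hB
  rw [hX] at hb1 hb1' hb2'
  constructor
  · rw [abs_of_nonneg]
    · exact hb1'
    · exact (mul_pos kap_pos (by positivity)).le.trans hb1
  · rw [abs_of_nonneg]
    · exact hb2'
    · exact_mod_cast hb2

/-- in the case `m = 0` there is nothing to count -/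
lemma empty_zero {m a₁ a₃ a₄ k k' : ℕ} {mm mm' : Fin m → ℕ} {δ δ' : ℝ} {y : ℝ → Fin m → ℝ}
    {s l : ℝ} {C₀ C₂ : ℕ} {comp : ℤ × ℤ → ℤ × ℤ} {c : ℤ × ℤ} {A B : M4} {x : ℝ}
    (hm : m = 0) (hpar : ParOK m a₁ a₃ a₄) (hC₂ : 1 ≤ C₂) (hkk : k ≤ k')
    (hne : ¬ (k = k' ∧ mm = mm')) (hd : dOK a₄ k δ) (hd' : dOK a₄ k' δ')
    (h8 : 8 * 4 ^ k' * δ < (2 : ℝ) ^ k) (hP : Pt a₁ k k' mm mm' δ δ' y s l C₀ C₂ comp c A B x) :
    False := by
  subst hm
  obtain ⟨-, hT, hB⟩ := hP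
  obtain ⟨p, q, p', q', D⟩ := pt_data hC₂ hT hB (n0_mulR hpar k') h8 hd'.2
  obtain ⟨ht0, ht1, -⟩ := tau_facts hd hd' hkk h8
  have hdet := hB.2.2.2.2.2.2.2.2.1
  set b := iact A (iact B (c.1, (comp c).1))
  set a := iact A (iact B (c.2, (comp c).2))
  have hw := D.wd
  have z1 : dt mm (y x) = 0 := by simp [dt]
  have z2 : dt mm' (y x) = 0 := by simp [dt]
  rw [z1, z2] at hw
  simp only [zero_mul, zero_add] at hw
  have hlt := lt_of_le_of_lt hw ht1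
  have hI : |(b.1 * p + a.1 * q) * (b.2 * p' + a.2 * q') -
      (b.2 * p + a.2 * q) * (b.1 * p' + a.1 * q')| < 1 := by exact_mod_cast hlt
  have h0 : (b.1 * p + a.1 * q) * (b.2 * p' + a.2 * q') -
      (b.2 * p + a.2 * q) * (b.1 * p' + a.1 * q') = 0 := Int.abs_lt_one_iff.1 hI
  have hid : p * q' = q * p' := by
    have : (b.1 * a.2 - a.1 * b.2) * (p * q' - q * p') = 0 := by
      linear_combination h0
    rw [hdet] at this
    linarith
  have hq := eq_of_wedge D.g1 D.g2 hid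
  apply hne
  have h1 := D.q2
  have h2 := D.q3
  rw [hq] at h1
  have h3 : 2 ^ k' < 2 ^ (k + 1) := lt_of_le_of_lt h2 h1
  have h4 := (Nat.pow_lt_pow_iff_right (by norm_num : 1 < 2)).1 h3
  exact ⟨by omega, Subsingleton.elim _ _⟩

lemma count_c (hO1 : S_O1) (hO2 : S_O2) {m a₁ a₃ a₄ : ℕ} {L : ℝ} (hpar : ParOK m a₁ a₃ a₄)
    (hL : 0 ≤ L) (C₀ C₂ : ℕ) (comp : ℤ × ℤ → ℤ × ℤ) (hC₂ : 1 ≤ C₂) :
    ∃ C : ℝ, 0 < C ∧ ∃ k₀ : ℕ, ∀ (s l : ℝ) (y : ℝ → Fin m → ℝ), LipOn y L s l →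
    ∀ k k' : ℕ, k₀ ≤ k → k ≤ k' → ∀ mm mm' : Fin m → ℕ, MOK a₃ k mm → MOK a₃ k' mm' →
    ¬ (k = k' ∧ mm = mm') →
    ∀ δ δ' : ℝ, dOK a₄ k δ → dOK a₄ k' δ' → 8 * 4 ^ k' * δ < (2 : ℝ) ^ k →
    ∀ (c : ℤ × ℤ) (S : Finset (M4 × M4)),
      (∀ p ∈ S, ∃ x, Pt a₁ k k' mm mm' δ δ' y s l C₀ C₂ comp c p.1 p.2 x) →
    (S.card : ℝ) ≤ C * (2 * 2 ^ k * δ' + 2 * 2 ^ k' * δ) * ((2 : ℝ) ^ k / 2 ^ k') *
      ((C₂ * 2 ^ sE a₁ k' : ℕ) : ℝ) ^ 2 * ((C₂ * 2 ^ tE k' : ℕ) : ℝ) ^ 2 := by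
  obtain ⟨Ca, hCa, hO1⟩ := hO1 C₀ (2 * C₂ + 1)
  obtain ⟨Cb, hCb, hO2⟩ := hO2 C₀ (2 * C₂ + 1)
  obtain ⟨u₂, hu₂⟩ := pow_unbounded_of_one_lt (32 * m * L / kap) (by norm_num : (1 : ℝ) < 2)
  have hu : C₂ ≤ 2 ^ C₂ := Nat.lt_two_pow_self.le
  refine ⟨Ca + Cb, by positivity, a₁ * (2 * (C₂ + 8) + u₂), ?_⟩
  intro s l y hy k k' hk₀ hkk mm mm' hmm hmm' hne δ δ' hd hd' h8 c S hS
  obtain ⟨ht0, ht1, ht2⟩ := tau_facts hd hd' hkk h8
  have ha1 : 0 < a₁ := by have := hpar.1; omega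
  have hk1 : 2 * (C₂ + 8) + u₂ ≤ k' / a₁ := by
    rw [Nat.le_div_iff_mul_le ha1, mul_comm]
    exact hk₀.trans hkk
  have hr0 : (0 : ℝ) < (2 : ℝ) ^ k / 2 ^ k' := by positivity
  have hr1 : (2 : ℝ) ^ k / 2 ^ k' ≤ 1 := by
    rw [div_le_one (by positivity)]
    exact pow_le_pow_right₀ (by norm_num) hkk
  have hc3 : k / a₃ ≤ k' / a₃ := Nat.div_le_div_right hkk
  have hMM : ∀ i, mm i ≤ 2 ^ (k' / a₃) := fun i =>
    (hmm i).2.trans (Nat.pow_le_pow_right (by norm_num) hc3)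
  have hMM' : ∀ i, mm' i ≤ 2 ^ (k' / a₃) := fun i => (hmm' i).2
  set F : ℝ := ((C₂ * 2 ^ sE a₁ k' : ℕ) : ℝ) ^ 2 * ((C₂ * 2 ^ tE k' : ℕ) : ℝ) ^ 2 with hF
  set τ : ℝ := 2 * 2 ^ k * δ' + 2 * 2 ^ k' * δ with hτ
  set r : ℝ := (2 : ℝ) ^ k / 2 ^ k' with hr
  have hF0 : 0 ≤ F := by positivity
  -- empty set
  rcases S.eq_empty_or_nonempty with hSe | ⟨p₀, hp₀⟩
  · rw [hSe]
    simp only [Finset.card_empty, Nat.cast_zero]
    positivity
  rcases Nat.eq_zero_or_pos m with hm0 | hm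
  · obtain ⟨x, hx⟩ := hS p₀ hp₀
    exact (empty_zero hm0 hpar hC₂ hkk hne hd hd' h8 hx).elim
  obtain ⟨x₀, hx₀I, hx₀T, hx₀B⟩ := hS p₀ hp₀
  obtain ⟨i1, i2, i3, i4⟩ := par_ineq hpar k'
  have i2' : 8 * (k' / a₃) ≤ k' / a₄ := by
    refine le_trans (Nat.mul_le_mul_right _ ?_) i2
    omega
  -- the Diophantine condition at `x₀`
  obtain ⟨-, -, hc1, hc2, hc3', hcx₀, -, -, -⟩ := hx₀B
  have hfar := dio_at hx₀T.2.2.1.2.2.2 hc1 hc2 (by exact_mod_cast hc3') hcx₀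
  have hK : ∀ K : ℕ, K ≤ 2 ^ (2 * (k' / a₃) + 2 * (k' / a₄)) →
      16 * (K : ℝ) * ome m L (k' / a₃) k' (N0 a₁ k') ≤ 1 := fun K hK =>
    ome_le hpar hm hu₂.le (by omega) hL hK
  have hbox : ∀ K : ℕ, 1 ≤ K → K ≤ 2 ^ (2 * (k' / a₃) + 2 * (k' / a₄)) →
      BoxHyp (C₂ * 2 ^ sE a₁ k') (C₂ * 2 ^ tE k') K (2 ^ (2 * sE a₁ k'))
        (1 / 2 ^ (tE k' / 2)) := fun K h1 h2 => boxhyp hpar hm hC₂ hu (by omega) h1 h2
  set ω := ome m L (k' / a₃) k' (N0 a₁ k') with hω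
  have hω0 : 0 ≤ ω := ome_nonneg hL _ _ _
  by_cases hdep : ∀ i i', mm i * mm' i' = mm i' * mm' i
  · -- rank one
    obtain ⟨j, j', m0, hj, hj', hcop, hmj, hmj'⟩ :=
      decomp hm (fun i => (hmm i).1) (fun i => (hmm' i).1) hdep
    have hm0 : ∀ i, 1 ≤ m0 i := by
      intro i
      rcases Nat.eq_zero_or_pos (m0 i) with h | h
      · have h1 := (hmm i).1
        rw [hmj i, h, mul_zero] at h1
        omega
      · exact h
    have hjM : j ≤ 2 ^ (k' / a₃) := by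
      have h1 := hMM ⟨0, hm⟩
      rw [hmj] at h1
      exact (Nat.le_mul_of_pos_right _ (hm0 _)).trans h1
    have hjM' : j' ≤ 2 ^ (k' / a₃) := by
      have h1 := hMM' ⟨0, hm⟩
      rw [hmj'] at h1
      exact (Nat.le_mul_of_pos_right _ (hm0 _)).trans h1
    have hm0M : ∀ i, m0 i ≤ 2 ^ (k' / a₃) := by
      intro i
      have h1 := hMM i
      rw [hmj] at h1
      exact (Nat.le_mul_of_pos_left _ hj).trans h1
    have hdt : ∀ yx : Fin m → ℝ, dt mm yx = j * dt m0 yx := by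
      intro yx
      unfold dt
      rw [Finset.mul_sum]
      refine Finset.sum_congr rfl fun i _ => ?_
      rw [hmj i]
      push_cast
      ring
    have hdt' : ∀ yx : Fin m → ℝ, dt mm' yx = j' * dt m0 yx := by
      intro yx
      unfold dt
      rw [Finset.mul_sum]
      refine Finset.sum_congr rfl fun i _ => ?_
      rw [hmj' i]
      push_cast
      ring
    set Lg : ℕ := 2 ^ (2 * (k' / a₄)) with hLg
    have hKK : j * j' * Lg ≤ 2 ^ (2 * (k' / a₃) + 2 * (k' / a₄)) := by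
      calc j * j' * Lg ≤ 2 ^ (k' / a₃) * 2 ^ (k' / a₃) * 2 ^ (2 * (k' / a₄)) := by gcongr
        _ = _ := by rw [← pow_add, ← pow_add]; congr 1; ring
    have hK1 : 1 ≤ j * j' * Lg := by
      have : 0 < Lg := by positivity
      exact Nat.mul_pos (Nat.mul_pos hj hj') this
    have hdio : DioOne (2 ^ (2 * sE a₁ k')) (1 / 2 ^ (tE k' / 2))
        (dt m0 (y x₀) * (c.1 : ℝ), dt m0 (y x₀) * ((comp c).1 : ℝ)) := by
      refine dioOne_of hm hm0 hm0M ?_ hfar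
      rw [← pow_add]
      refine Nat.pow_le_pow_right (by norm_num) ?_
      simp only [sE]
      omega
    have hωK : ω ≤ 1 / (4 * ((j : ℝ) * j' * Lg)) := by
      have h1 := hK _ hKK
      push_cast at h1
      have hpos : (0 : ℝ) < j * j' * Lg := by
        have : 0 < j * j' * Lg := hK1
        exact_mod_cast this
      rw [le_div_iff₀ (by positivity)]
      nlinarith [mul_nonneg hpos.le hω0]
    have hmain := hO1 (C₂ * 2 ^ sE a₁ k') (C₂ * 2 ^ tE k') j j' Lg (2 ^ (2 * sE a₁ k'))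
      (1 / 2 ^ (tE k' / 2)) _ r τ ω hj hj' hcop (hbox _ hK1 hKK) hdio hr0 hr1 ht0 ht1.le
      (by exact_mod_cast ht2) hω0 hωK S ?_
    · calc (S.card : ℝ) ≤ Ca * τ * r * ((C₂ * 2 ^ sE a₁ k' : ℕ) : ℝ) ^ 2 *
            ((C₂ * 2 ^ tE k' : ℕ) : ℝ) ^ 2 := hmain
        _ ≤ _ := by
            have : 0 ≤ τ := ht0.le
            gcongr
            linarith
    · intro p hp
      obtain ⟨x, hxI, hxT, hxB⟩ := hS p hp
      obtain ⟨pf, qf, pg, qg, D⟩ := pt_data hC₂ hxT hxB (n0_mulR hpar k') h8 hd'.2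
      obtain ⟨hb1, hb2⟩ := base_facts hxB (n0_mulR hpar k')
      have hdet := hxB.2.2.2.2.2.2.2.2.1
      have hcx := hxB.2.2.2.2.2.1
      have hact1 := act_mul p.1 p.2 (dt m0 (y x₀)) (c.1, (comp c).1)
      refine ⟨hxB.1, hxB.2.1, ?_⟩
      rw [hact1]
      set b := iact p.1 (iact p.2 (c.1, (comp c).1)) with hb
      set a := iact p.1 (iact p.2 (c.2, (comp c).2)) with ha
      refine ⟨(dt mm (y x) * b.1 + ((b.1 * pf + a.1 * qf : ℤ) : ℝ),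
        dt mm (y x) * b.2 + ((b.2 * pf + a.2 * qf : ℤ) : ℝ)),
        (dt mm' (y x) * b.1 + ((b.1 * pg + a.1 * qg : ℤ) : ℝ),
        dt mm' (y x) * b.2 + ((b.2 * pg + a.2 * qg : ℤ) : ℝ)),
        (b.1 * pf + a.1 * qf, b.2 * pf + a.2 * qf), (b.1 * pg + a.1 * qg, b.2 * pg + a.2 * qg),
        D.v1, D.v2, D.w1, D.w2, D.wd, ?_, ?_, ?_, ?_, ?_⟩
      · have h := shift_bound hL hy hMM hx₀I hxI (n0_pos a₁ k') hc2 hcx₀ hcx hb1
        refine le_trans (le_of_eq ?_) h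
        rw [hdt (y x₀)]
        congr 1
        simp only
        ring
      · have h := shift_bound hL hy hMM hx₀I hxI (n0_pos a₁ k') hc2 hcx₀ hcx hb2
        refine le_trans (le_of_eq ?_) h
        rw [hdt (y x₀)]
        congr 1
        simp only
        ring
      · have h := shift_bound hL hy hMM' hx₀I hxI (n0_pos a₁ k') hc2 hcx₀ hcx hb1
        refine le_trans (le_of_eq ?_) h
        rw [hdt' (y x₀)]
        congr 1
        simp only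
        ring
      · have h := shift_bound hL hy hMM' hx₀I hxI (n0_pos a₁ k') hc2 hcx₀ hcx hb2
        refine le_trans (le_of_eq ?_) h
        rw [hdt' (y x₀)]
        congr 1
        simp only
        ring
      · by_contra hcon
        push Not at hcon
        obtain ⟨hjj, hqq⟩ := no_prop hdet D.g1 D.g2 hj hcon.1 hcon.2
        apply hne
        have h1 := D.q2
        have h2 := D.q3
        rw [hqq] at h1
        have h3 : 2 ^ k' < 2 ^ (k + 1) := lt_of_le_of_lt h2 h1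
        have h4 := (Nat.pow_lt_pow_iff_right (by norm_num : 1 < 2)).1 h3
        refine ⟨by omega, ?_⟩
        funext i
        rw [hmj i, hmj' i, hjj]
  · -- rank two
    push Not at hdep
    set K : ℕ := 2 ^ (2 * (k' / a₄)) with hKdef
    have hKK : K ≤ 2 ^ (2 * (k' / a₃) + 2 * (k' / a₄)) :=
      Nat.pow_le_pow_right (by norm_num) (by omega)
    have hK1 : 1 ≤ K := Nat.one_le_two_pow
    have hdio : DioTwo (2 ^ (2 * sE a₁ k')) (1 / 2 ^ (tE k' / 2))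
        (dt mm (y x₀) * (c.1 : ℝ), dt mm (y x₀) * ((comp c).1 : ℝ))
        (dt mm' (y x₀) * (c.1 : ℝ), dt mm' (y x₀) * ((comp c).1 : ℝ)) := by
      refine dioTwo_of hdep hMM hMM' ?_ hfar
      calc 2 * 2 ^ (2 * sE a₁ k') * 2 ^ (k' / a₃) = 2 ^ (1 + 2 * sE a₁ k' + k' / a₃) := by
            rw [pow_add, pow_add, pow_one]
        _ ≤ 2 ^ (3 * sE a₁ k') := Nat.pow_le_pow_right (by norm_num) (by simp only [sE]; omega)
    have hωK : ω ≤ 1 / (16 * (K : ℝ)) := by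
      have h1 := hK _ hKK
      rw [le_div_iff₀ (by positivity)]
      linarith
    have hmain := hO2 (C₂ * 2 ^ sE a₁ k') (C₂ * 2 ^ tE k') K (2 ^ (2 * sE a₁ k'))
      (1 / 2 ^ (tE k' / 2)) _ _ r τ ω (hbox _ hK1 hKK) hdio hr0 hr1 ht0 ht1.le
      ht2 hω0 hωK S ?_
    · calc (S.card : ℝ) ≤ Cb * τ * r * ((C₂ * 2 ^ sE a₁ k' : ℕ) : ℝ) ^ 2 *
            ((C₂ * 2 ^ tE k' : ℕ) : ℝ) ^ 2 := hmain
        _ ≤ _ := by
            have : 0 ≤ τ := ht0.le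
            gcongr
            linarith
    · intro p hp
      obtain ⟨x, hxI, hxT, hxB⟩ := hS p hp
      obtain ⟨pf, qf, pg, qg, D⟩ := pt_data hC₂ hxT hxB (n0_mulR hpar k') h8 hd'.2
      obtain ⟨hb1, hb2⟩ := base_facts hxB (n0_mulR hpar k')
      have hcx := hxB.2.2.2.2.2.1
      have hact1 := act_mul p.1 p.2 (dt mm (y x₀)) (c.1, (comp c).1)
      have hact2 := act_mul p.1 p.2 (dt mm' (y x₀)) (c.1, (comp c).1)
      refine ⟨hxB.1, hxB.2.1, ?_⟩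
      rw [hact1, hact2]
      set b := iact p.1 (iact p.2 (c.1, (comp c).1)) with hb
      set a := iact p.1 (iact p.2 (c.2, (comp c).2)) with ha
      refine ⟨(dt mm (y x) * b.1 + ((b.1 * pf + a.1 * qf : ℤ) : ℝ),
        dt mm (y x) * b.2 + ((b.2 * pf + a.2 * qf : ℤ) : ℝ)),
        (dt mm' (y x) * b.1 + ((b.1 * pg + a.1 * qg : ℤ) : ℝ),
        dt mm' (y x) * b.2 + ((b.2 * pg + a.2 * qg : ℤ) : ℝ)),
        D.v1, D.v2, D.w1, D.w2, D.wd, ⟨⟨-(b.1 * pf + a.1 * qf), ?_⟩, ⟨-(b.2 * pf + a.2 * qf), ?_⟩⟩,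
        ⟨⟨-(b.1 * pg + a.1 * qg), ?_⟩, ⟨-(b.2 * pg + a.2 * qg), ?_⟩⟩⟩
      · have h := shift_bound hL hy hMM hx₀I hxI (n0_pos a₁ k') hc2 hcx₀ hcx hb1
        refine le_trans (le_of_eq ?_) h
        congr 1
        push_cast
        ring
      · have h := shift_bound hL hy hMM hx₀I hxI (n0_pos a₁ k') hc2 hcx₀ hcx hb2
        refine le_trans (le_of_eq ?_) h
        congr 1
        push_cast
        ring
      · have h := shift_bound hL hy hMM' hx₀I hxI (n0_pos a₁ k') hc2 hcx₀ hcx hb1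
        refine le_trans (le_of_eq ?_) h
        congr 1
        push_cast
        ring
      · have h := shift_bound hL hy hMM' hx₀I hxI (n0_pos a₁ k') hc2 hcx₀ hcx hb2
        refine le_trans (le_of_eq ?_) h
        congr 1
        push_cast
        ring

end Pool.Agent.Helper982_KG.Case2
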