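import Mathlib
import Pool.Agent.Helper982_KG.Case2c

/-!
# Case II of the pair correlation bound
-/

open MeasureTheory Set Finset

namespace Pool.Agent.Helper982_KG.Case2

lemma nat_mul_ofReal (n : ℕ) (V : ℝ) :
    (n : ENNReal) * ENNReal.ofReal V = ENNReal.ofReal (n * V) := by
  rw [ENNReal.ofReal_mul (by positivity), ENNReal.ofReal_natCast]

lemma vol_pack {n : ℕ} {T : Set ℝ} {c : Fin n → ℝ} {w : ℝ}
    (hT : T ⊆ ⋃ i, Icc (c i) (c i + w)) : volume T ≤ ENNReal.ofReal (n * w) := by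
  calc volume T ≤ volume (⋃ i, Icc (c i) (c i + w)) := measure_mono hT
    _ ≤ ∑ i : Fin n, volume (Icc (c i) (c i + w)) := measure_iUnion_fintype_le _ _
    _ = ∑ _i : Fin n, ENNReal.ofReal w := by
        refine Finset.sum_congr rfl fun i _ => ?_
        rw [Real.volume_Icc]
        congr 1
        ring
    _ = ENNReal.ofReal (n * w) := by
        rw [Finset.sum_const, Finset.card_univ, Fintype.card_fin, nsmul_eq_mul,
          ENNReal.ofReal_mul (by positivity), ENNReal.ofReal_natCast]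

/-- the interval attached to a code -/
lemma code_interval {C₀ C₂ : ℕ} {comp : ℤ × ℤ → ℤ × ℤ} {N t s : ℕ} {c : ℤ × ℤ} {A B : M4}
    {k' : ℕ} (hX : (N : ℝ) * 2 ^ t * 2 ^ s = 2 ^ k') :
    ∃ α : ℝ, ∀ x, BaseData C₀ C₂ comp N t s x c A B → α ≤ x ∧ x ≤ α + 2 / kap / 4 ^ k' := by
  set b : ℝ := ((iact A (iact B (c.1, (comp c).1))).1 : ℝ) with hb
  set a : ℝ := ((iact A (iact B (c.2, (comp c).2))).1 : ℝ) with ha
  refine ⟨a / b - 1 / (2 ^ k' * b), fun x hx => ?_⟩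
  obtain ⟨-, -, -, -, -, -, -, -, -, hb1, -, -, -, he1, -⟩ := hx
  rw [hX] at hb1 he1
  have hkp := kap_pos
  have hX' : (0 : ℝ) < 2 ^ k' := by positivity
  have hb0 : 0 < b := lt_of_lt_of_le (by positivity) hb1
  have h4 : (4 : ℝ) ^ k' = 2 ^ k' * 2 ^ k' := by
    rw [← mul_pow]; norm_num
  rw [abs_le] at he1
  have e1 : a - 1 / 2 ^ k' ≤ b * x := by linarith [he1.1]
  have e2 : b * x ≤ a + 1 / 2 ^ k' := by linarith [he1.2]
  constructor
  · have : a / b - 1 / (2 ^ k' * b) = (a - 1 / 2 ^ k') / b := by field_simp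
    rw [this, div_le_iff₀ hb0]
    linarith
  · have h5 : x ≤ (a + 1 / 2 ^ k') / b := by
      rw [le_div_iff₀ hb0]
      linarith
    have h6 : (a + 1 / 2 ^ k') / b = a / b - 1 / (2 ^ k' * b) + 2 / (2 ^ k' * b) := by
      field_simp
      ring
    have h7 : 2 / (2 ^ k' * b) ≤ 2 / kap / 4 ^ k' := by
      rw [div_div, h4]
      apply div_le_div_of_nonneg_left (by norm_num) (by positivity)
      calc kap * (2 ^ k' * 2 ^ k') = 2 ^ k' * (kap * 2 ^ k') := by ring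
        _ ≤ 2 ^ k' * b := by gcongr
    linarith

/-- the coarse rationals near `[s, s + l]` -/
noncomputable def CF (N : ℕ) (s l : ℝ) : Finset (ℤ × ℤ) :=
  (Finset.Icc (1 : ℤ) N).biUnion fun b =>
    (Finset.Icc ⌈(b : ℝ) * s - 1⌉ ⌊(b : ℝ) * (s + l) + 1⌋).image fun a => (b, a)

lemma mem_CF {N : ℕ} {s l x : ℝ} {c : ℤ × ℤ} (hN : 1 ≤ N) (hx : x ∈ Icc s (s + l))
    (h1 : 1 ≤ c.1) (h2 : c.1 ≤ N) (hc : |(c.1 : ℝ) * x - c.2| ≤ 1 / N) : c ∈ CF N s l := by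
  unfold CF
  rw [Finset.mem_biUnion]
  refine ⟨c.1, Finset.mem_Icc.2 ⟨h1, h2⟩, ?_⟩
  rw [Finset.mem_image]
  refine ⟨c.2, ?_, rfl⟩
  have hN' : (1 : ℝ) / N ≤ 1 := by
    rw [div_le_one (by positivity)]
    exact_mod_cast hN
  have hc' := abs_le.1 (hc.trans hN')
  have hc1 : (0 : ℝ) ≤ c.1 := by
    have : (0 : ℤ) ≤ c.1 := by omega
    exact_mod_cast this
  have m1 : (c.1 : ℝ) * s ≤ c.1 * x := mul_le_mul_of_nonneg_left hx.1 hc1
  have m2 : (c.1 : ℝ) * x ≤ c.1 * (s + l) := mul_le_mul_of_nonneg_left hx.2 hc1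
  rw [Finset.mem_Icc]
  constructor
  · rw [Int.ceil_le]
    linarith [hc'.2]
  · rw [Int.le_floor]
    linarith [hc'.1]

lemma card_CF {N : ℕ} {s l : ℝ} (hl : 0 < l) (hN : 1 ≤ (N : ℝ) * l) :
    ((CF N s l).card : ℝ) ≤ 4 * (N : ℝ) ^ 2 * l := by
  have h1 : ((CF N s l).card : ℝ) ≤ ∑ b ∈ Finset.Icc (1 : ℤ) N,
      (((Finset.Icc ⌈(b : ℝ) * s - 1⌉ ⌊(b : ℝ) * (s + l) + 1⌋).card : ℕ) : ℝ) := by
    have : (CF N s l).card ≤ ∑ b ∈ Finset.Icc (1 : ℤ) N,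
        (Finset.Icc ⌈(b : ℝ) * s - 1⌉ ⌊(b : ℝ) * (s + l) + 1⌋).card := by
      refine Finset.card_biUnion_le.trans ?_
      exact Finset.sum_le_sum fun b _ => Finset.card_image_le
    exact_mod_cast this
  have h2 : ∀ b ∈ Finset.Icc (1 : ℤ) N,
      (((Finset.Icc ⌈(b : ℝ) * s - 1⌉ ⌊(b : ℝ) * (s + l) + 1⌋).card : ℕ) : ℝ) ≤ N * l + 3 := by
    intro b hb
    rw [Finset.mem_Icc] at hb
    have hb1 : (b : ℝ) ≤ N := by exact_mod_cast hb.2
    have hb2 : (b : ℝ) * l ≤ N * l := mul_le_mul_of_nonneg_right hb1 hl.le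
    rw [Int.card_Icc]
    have h3 : (((⌊(b : ℝ) * (s + l) + 1⌋ + 1 - ⌈(b : ℝ) * s - 1⌉).toNat : ℕ) : ℝ) =
        ((max (⌊(b : ℝ) * (s + l) + 1⌋ + 1 - ⌈(b : ℝ) * s - 1⌉) 0 : ℤ) : ℝ) := by
      rw [← Int.toNat_eq_max]
      norm_cast
    rw [h3, Int.cast_max]
    refine max_le ?_ ?_
    · push_cast
      have f1 := Int.floor_le ((b : ℝ) * (s + l) + 1)
      have f2 := Int.le_ceil ((b : ℝ) * s - 1)
      nlinarith
    · simp only [Int.cast_zero]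
      linarith
  calc ((CF N s l).card : ℝ) ≤ _ := h1
    _ ≤ ∑ _b ∈ Finset.Icc (1 : ℤ) N, ((N : ℝ) * l + 3) := Finset.sum_le_sum h2
    _ = N * (N * l + 3) := by
        rw [Finset.sum_const, Int.card_Icc, nsmul_eq_mul]
        simp
    _ ≤ 4 * (N : ℝ) ^ 2 * l := by
        have : (0 : ℝ) ≤ N := by positivity
        nlinarith

theorem case2 (hO1 : S_O1) (hO2 : S_O2) (hBa : S_BASES) (hPa : S_PACK) : S_CASE2 := by
  classical
  intro m a₁ a₃ a₄ L hpar hL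
  obtain ⟨C₀, C₂, comp, hC₀, hC₂, hbase⟩ := hBa
  obtain ⟨Cc, hCc, k₁, hcount⟩ := count_c hO1 hO2 hpar hL C₀ C₂ comp hC₂
  have hkp := kap_pos
  have ha3 : 2 ≤ a₃ := by
    obtain ⟨h1, h2, h3⟩ := hpar
    nlinarith
  obtain ⟨n, k₂, hpack⟩ := hPa m a₃ L (2 / kap) ha3 hL (by positivity)
  refine ⟨64 * n * Cc * (C₂ : ℝ) ^ 4 + 1, by positivity, fun l hl0 hl1 => ?_⟩
  obtain ⟨u, hu⟩ := pow_unbounded_of_one_lt (1 / l) (by norm_num : (1 : ℝ) < 2)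
  refine ⟨max (max k₁ k₂) (2 * u), ?_⟩
  intro s y hy k k' hk₀ hkk mm mm' hmm hmm' hne δ δ' hd hd' h8
  have hk1 : k₁ ≤ k := (le_max_left _ _).trans ((le_max_left _ _).trans hk₀)
  have hk2 : k₂ ≤ k := (le_max_right _ _).trans ((le_max_left _ _).trans hk₀)
  have hk3 : 2 * u ≤ k := (le_max_right _ _).trans hk₀
  have hδ0 : 0 < δ := lt_of_lt_of_le (by positivity) hd.1
  have hδ0' : 0 < δ' := lt_of_lt_of_le (by positivity) hd'.1
  have hX0 : (0 : ℝ) < 2 ^ k := by positivity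
  have hX'0 : (0 : ℝ) < 2 ^ k' := by positivity
  set N := N0 a₁ k' with hN
  have hN1 : 1 ≤ N := n0_pos a₁ k'
  have hNX : (N : ℝ) * 2 ^ tE k' * 2 ^ sE a₁ k' = 2 ^ k' := n0_mulR hpar k'
  have hNl : 1 ≤ (N : ℝ) * l := by
    obtain ⟨i1, i2, i3, i4⟩ := par_ineq hpar k'
    have h1 : (2 : ℝ) ^ u ≤ N := by
      have : 2 ^ u ≤ N := by
        rw [hN]
        simp only [N0, sE, tE]
        exact Nat.pow_le_pow_right (by norm_num) (by omega)
      exact_mod_cast this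
    have h2 : 1 / l ≤ N := hu.le.trans h1
    rwa [div_le_iff₀ hl0] at h2
  -- the codes
  set P : ℤ × ℤ → M4 × M4 → Set ℝ := fun c p =>
    {x | Pt a₁ k k' mm mm' δ δ' y s l C₀ C₂ comp c p.1 p.2 x} with hP
  set S : ℤ × ℤ → Finset (M4 × M4) := fun c =>
    ((GG C₀ (C₂ * 2 ^ sE a₁ k')) ×ˢ (GG C₀ (C₂ * 2 ^ tE k'))).filter
      (fun p => ∃ x, x ∈ P c p) with hS
  set V : ℝ := 4 * n * min (δ / 2 ^ k) (δ' / 2 ^ k') with hV
  have hV0 : 0 ≤ V := by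
    have : 0 ≤ min (δ / 2 ^ k) (δ' / 2 ^ k') := le_min (by positivity) (by positivity)
    positivity
  have hsub : {x | x ∈ Icc s (s + l) ∧ Two a₁ k k' mm mm' δ δ' y x} ⊆
      ⋃ c ∈ CF N s l, ⋃ p ∈ S c, P c p := by
    rintro x ⟨hxI, hxT⟩
    obtain ⟨hE2, hE1, hE0, -⟩ := hxT.2.2.1
    have hb := hbase N (tE k') (sE a₁ k') x hN1 hE0 (by rw [hN, n0_mul' hpar]; exact hE1)
      (by rw [hN, n0_mul hpar]; exact hE2)
    obtain ⟨c, A, B, hB⟩ := hb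
    have hPx : Pt a₁ k k' mm mm' δ δ' y s l C₀ C₂ comp c A B x := ⟨hxI, hxT, hB⟩
    rw [Set.mem_iUnion₂]
    refine ⟨c, mem_CF hN1 hxI hB.2.2.1 ?_ hB.2.2.2.2.2.1, ?_⟩
    · exact_mod_cast hB.2.2.2.2.1
    · rw [Set.mem_iUnion₂]
      refine ⟨(A, B), ?_, hPx⟩
      rw [hS, Finset.mem_filter, Finset.mem_product]
      exact ⟨⟨hB.1, hB.2.1⟩, ⟨x, hPx⟩⟩
  -- measure of one code
  have hvol : ∀ c p, volume (P c p) ≤ ENNReal.ofReal V := by
    intro c p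
    obtain ⟨α, hα⟩ := code_interval (C₀ := C₀) (C₂ := C₂) (comp := comp) (c := c)
      (A := p.1) (B := p.2) hNX
    have h44 : (4 : ℝ) ^ k ≤ 4 ^ k' := pow_le_pow_right₀ (by norm_num) hkk
    have hsm : 2 / kap / (4 : ℝ) ^ k' ≤ 2 / kap / 4 ^ k := by gcongr
    have hv1 : volume (P c p) ≤ ENNReal.ofReal (n * (4 * δ / 2 ^ k)) := by
      obtain ⟨cc, hcc⟩ := hpack s l y hy k hk2 mm hmm δ hδ0 hd.2 α
      refine vol_pack (c := cc) (Set.Subset.trans ?_ hcc)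
      rintro x ⟨hxI, hxT, hxB⟩
      obtain ⟨g1, g2⟩ := hα x hxB
      exact ⟨hxI, g1, g2.trans (by linarith), hxT.1.1, hxT.2.1⟩
    have hv2 : volume (P c p) ≤ ENNReal.ofReal (n * (4 * δ' / 2 ^ k')) := by
      obtain ⟨cc, hcc⟩ := hpack s l y hy k' (hk2.trans hkk) mm' hmm' δ' hδ0' hd'.2 α
      refine vol_pack (c := cc) (Set.Subset.trans ?_ hcc)
      rintro x ⟨hxI, hxT, hxB⟩
      obtain ⟨g1, g2⟩ := hα x hxB
      exact ⟨hxI, g1, g2, hxT.2.2.1.1, hxT.2.2.2⟩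
    rcases min_choice (δ / 2 ^ k) (δ' / 2 ^ k') with h | h
    · rw [hV, h]
      refine hv1.trans (le_of_eq ?_)
      congr 1
      ring
    · rw [hV, h]
      refine hv2.trans (le_of_eq ?_)
      congr 1
      ring
  -- number of codes
  set τ : ℝ := 2 * 2 ^ k * δ' + 2 * 2 ^ k' * δ with hτ
  set Bd : ℝ := Cc * τ * ((2 : ℝ) ^ k / 2 ^ k') *
      ((C₂ * 2 ^ sE a₁ k' : ℕ) : ℝ) ^ 2 * ((C₂ * 2 ^ tE k' : ℕ) : ℝ) ^ 2 with hBd
  have hBd0 : 0 ≤ Bd := by positivity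
  have hcard : ∀ c, ((S c).card : ℝ) ≤ Bd := by
    intro c
    refine hcount s l y hy k k' hk1 hkk mm mm' hmm hmm' hne δ δ' hd hd' h8 c (S c) ?_
    intro p hp
    rw [hS, Finset.mem_filter] at hp
    exact hp.2
  have hCF := card_CF (s := s) hl0 hNl
  calc volume {x | x ∈ Icc s (s + l) ∧ Two a₁ k k' mm mm' δ δ' y x}
      ≤ volume (⋃ c ∈ CF N s l, ⋃ p ∈ S c, P c p) := measure_mono hsub
    _ ≤ ∑ c ∈ CF N s l, volume (⋃ p ∈ S c, P c p) := measure_biUnion_finset_le _ _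
    _ ≤ ∑ c ∈ CF N s l, ENNReal.ofReal (Bd * V) := by
        refine Finset.sum_le_sum fun c _ => ?_
        calc volume (⋃ p ∈ S c, P c p) ≤ ∑ p ∈ S c, volume (P c p) :=
              measure_biUnion_finset_le _ _
          _ ≤ ∑ p ∈ S c, ENNReal.ofReal V := Finset.sum_le_sum fun p _ => hvol c p
          _ = ENNReal.ofReal ((S c).card * V) := by
              rw [Finset.sum_const, nsmul_eq_mul, nat_mul_ofReal]
          _ ≤ ENNReal.ofReal (Bd * V) :=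
              ENNReal.ofReal_le_ofReal (mul_le_mul_of_nonneg_right (hcard c) hV0)
    _ = ENNReal.ofReal ((CF N s l).card * (Bd * V)) := by
        rw [Finset.sum_const, nsmul_eq_mul, nat_mul_ofReal]
    _ ≤ ENNReal.ofReal ((64 * n * Cc * (C₂ : ℝ) ^ 4 + 1) * l * (2 ^ k * δ) * (2 ^ k' * δ')) := by
        refine ENNReal.ofReal_le_ofReal ?_
        have hmin1 : min (δ / 2 ^ k) (δ' / 2 ^ k') ≤ δ / 2 ^ k := min_le_left _ _
        have hmin2 : min (δ / 2 ^ k) (δ' / 2 ^ k') ≤ δ' / 2 ^ k' := min_le_right _ _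
        set w : ℝ := min (δ / 2 ^ k) (δ' / 2 ^ k') with hw
        have hw0 : 0 ≤ w := le_min (by positivity) (by positivity)
        have hτw : τ * w ≤ 4 * δ * δ' := by
          have e1 : 2 * 2 ^ k * δ' * w ≤ 2 * δ * δ' := by
            calc 2 * 2 ^ k * δ' * w ≤ 2 * 2 ^ k * δ' * (δ / 2 ^ k) := by gcongr
              _ = 2 * δ * δ' := by field_simp
          have e2 : 2 * 2 ^ k' * δ * w ≤ 2 * δ * δ' := by
            calc 2 * 2 ^ k' * δ * w ≤ 2 * 2 ^ k' * δ * (δ' / 2 ^ k') := by gcongr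
              _ = 2 * δ * δ' := by field_simp
          rw [hτ, add_mul]
          linarith
        have hBV : Bd * V = 4 * n * Cc * (C₂ : ℝ) ^ 4 * (2 ^ tE k' * 2 ^ sE a₁ k') ^ 2 *
            ((2 : ℝ) ^ k / 2 ^ k') * (τ * w) := by
          rw [hBd, hV]
          push_cast
          ring
        rw [hBV]
        calc ((CF N s l).card : ℝ) * (4 * n * Cc * (C₂ : ℝ) ^ 4 *
              (2 ^ tE k' * 2 ^ sE a₁ k') ^ 2 * ((2 : ℝ) ^ k / 2 ^ k') * (τ * w))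
            ≤ (4 * (N : ℝ) ^ 2 * l) * (4 * n * Cc * (C₂ : ℝ) ^ 4 *
              (2 ^ tE k' * 2 ^ sE a₁ k') ^ 2 * ((2 : ℝ) ^ k / 2 ^ k') * (4 * δ * δ')) := by
              have : 0 ≤ τ * w := by positivity
              gcongr
          _ = 64 * n * Cc * (C₂ : ℝ) ^ 4 * l * ((N : ℝ) * 2 ^ tE k' * 2 ^ sE a₁ k') ^ 2 *
              ((2 : ℝ) ^ k / 2 ^ k') * (δ * δ') := by ring
          _ = (64 * n * Cc * (C₂ : ℝ) ^ 4) * l * (2 ^ k * δ) * (2 ^ k' * δ') := by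
              rw [hNX]
              field_simp
          _ ≤ (64 * n * Cc * (C₂ : ℝ) ^ 4 + 1) * l * (2 ^ k * δ) * (2 ^ k' * δ') := by
              gcongr
              linarith

end Pool.Agent.Helper982_KG.Case2
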