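import Mathlib
import Pool.Agent.Helper982_KG.Stmts

/-!
# Critical points are negligible

At almost every zero of the derivative of a `C^l` map all the derivatives up to order `l` vanish.
-/

open MeasureTheory Set

namespace Pool.Agent.Helper982_KG.Crit

/-- a real function has zero derivative at almost every one of its zeros -/
lemma scalar {d : ℕ} (h : (Fin d → ℝ) → ℝ) (V : Set (Fin d → ℝ)) (hV : IsOpen V)
    (hd : DifferentiableOn ℝ h V) :
    ∀ᵐ x ∂(volume.restrict V), h x = 0 → fderiv ℝ h x = 0 := by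
  rcases Nat.eq_zero_or_pos d with rfl | hdpos
  · refine Filter.Eventually.of_forall fun x _ => ?_
    ext v
    have hv : v = 0 := Subsingleton.elim _ _
    rw [hv, map_zero, map_zero]
  · set e₁ : Fin d → ℝ := fun _ => 1 with he₁
    have he₁0 : e₁ ≠ 0 := by
      intro h0
      have := congrFun h0 ⟨0, hdpos⟩
      simp [he₁] at this
    set Z : Set (Fin d → ℝ) := V ∩ h ⁻¹' {0} with hZ
    have hZm : MeasurableSet Z := by
      have h1 : IsOpen (V ∩ h ⁻¹' {0}ᶜ) :=
        hd.continuousOn.isOpen_inter_preimage hV isOpen_compl_singleton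
      have h2 : Z = V \ (V ∩ h ⁻¹' {0}ᶜ) := by
        ext x
        simp only [hZ, mem_inter_iff, mem_preimage, mem_singleton_iff, mem_sdiff, mem_compl_iff]
        tauto
      rw [h2]
      exact hV.measurableSet.diff h1.measurableSet
    have happ : ApproximatesLinearOn (fun x => h x • e₁) (0 : (Fin d → ℝ) →L[ℝ] (Fin d → ℝ)) Z 0 := by
      intro x hx y hy
      have h1 : h x = 0 := hx.2
      have h2 : h y = 0 := hy.2
      simp [h1, h2]
    have key := happ.norm_fderiv_sub_le (volume : Measure (Fin d → ℝ)) hZm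
      (fun x => (fderiv ℝ h x).smulRight e₁) (by
        intro x hx
        have h1 : HasFDerivAt h (fderiv ℝ h x) x :=
          ((hd x hx.1).differentiableAt (hV.mem_nhds hx.1)).hasFDerivAt
        exact (h1.smul_const e₁).hasFDerivWithinAt)
    rw [ae_restrict_iff' hZm] at key
    rw [ae_restrict_iff' hV.measurableSet]
    filter_upwards [key] with x hx hxV h0
    have h1 := hx ⟨hxV, h0⟩
    rw [sub_zero] at h1
    have h2 : (fderiv ℝ h x).smulRight e₁ = 0 := by
      have : ‖(fderiv ℝ h x).smulRight e₁‖₊ = 0 := le_antisymm h1 zero_le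
      exact nnnorm_eq_zero.mp this
    ext v
    have h3 := congrArg (fun L : (Fin d → ℝ) →L[ℝ] (Fin d → ℝ) => L v ⟨0, hdpos⟩) h2
    simpa [he₁] using h3

/-- the same for maps into a finite dimensional space -/
lemma vec {d : ℕ} {W : Type*} [NormedAddCommGroup W] [NormedSpace ℝ W] [FiniteDimensional ℝ W]
    (F : (Fin d → ℝ) → W) (V : Set (Fin d → ℝ)) (hV : IsOpen V) (hd : DifferentiableOn ℝ F V) :
    ∀ᵐ x ∂(volume.restrict V), F x = 0 → fderiv ℝ F x = 0 := by
  let b := Module.finBasis ℝ W
  have h1 : ∀ i, ∀ᵐ x ∂(volume.restrict V),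
      ((b.coord i).toContinuousLinearMap (F x)) = 0 →
        fderiv ℝ (fun x => (b.coord i).toContinuousLinearMap (F x)) x = 0 := by
    intro i
    exact scalar _ V hV ((b.coord i).toContinuousLinearMap.differentiable.comp_differentiableOn hd)
  have h2 := ae_all_iff.mpr h1
  filter_upwards [h2, ae_restrict_mem hV.measurableSet] with x hx hxV h0
  have hdx : DifferentiableAt ℝ F x := (hd x hxV).differentiableAt (hV.mem_nhds hxV)
  ext v
  apply b.ext_elem
  intro i
  have h3 := hx i (by rw [h0]; simp)
  have h4 : fderiv ℝ (fun x => (b.coord i).toContinuousLinearMap (F x)) x =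
      ((b.coord i).toContinuousLinearMap).comp (fderiv ℝ F x) :=
    (((b.coord i).toContinuousLinearMap.hasFDerivAt).comp x hdx.hasFDerivAt).fderiv
  rw [h4] at h3
  have h5 := congrArg (fun L : (Fin d → ℝ) →L[ℝ] ℝ => L v) h3
  simpa using h5

instance fin_multilinear (d n k : ℕ) :
    FiniteDimensional ℝ (ContinuousMultilinearMap ℝ (fun _ : Fin k => (Fin d → ℝ)) (Fin n → ℝ)) :=
  FiniteDimensional.of_injective
    (ContinuousMultilinearMap.toMultilinearMapLinear (R' := ℝ) (A := ℝ))
    ContinuousMultilinearMap.toMultilinearMap_injective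

theorem crit : S_CRIT := by
  intro d n l f V hl hV hf
  have step : ∀ k : ℕ, 1 ≤ k → k ≤ l →
      ∀ᵐ x ∂(volume.restrict V), fderiv ℝ f x = 0 → iteratedFDeriv ℝ k f x = 0 := by
    intro k hk
    induction k, hk using Nat.le_induction with
    | base =>
      intro _
      refine Filter.Eventually.of_forall fun x hx => ?_
      rw [← norm_eq_zero, norm_iteratedFDeriv_one, hx, norm_zero]
    | succ k hk ih =>
      intro hkl
      have h1 := ih (by omega)
      have h2 : DifferentiableOn ℝ (iteratedFDeriv ℝ k f) V := by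
        intro x hx
        have hx' : ContDiffAt ℝ l f x := hf.contDiffAt (hV.mem_nhds hx)
        exact (hx'.differentiableAt_iteratedFDeriv (by exact_mod_cast hkl)).differentiableWithinAt
      have h3 := vec (iteratedFDeriv ℝ k f) V hV h2
      filter_upwards [h1, h3] with x hx1 hx3 h0
      have h4 := hx3 (hx1 h0)
      have h6 : ‖fderiv ℝ (iteratedFDeriv ℝ k f) x‖ = 0 := norm_eq_zero.mpr h4
      rw [norm_fderiv_iteratedFDeriv] at h6
      exact norm_eq_zero.mp h6
  have h5 : ∀ k : ℕ, ∀ᵐ x ∂(volume.restrict V), 1 ≤ k → k ≤ l →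
      fderiv ℝ f x = 0 → iteratedFDeriv ℝ k f x = 0 := by
    intro k
    by_cases hk : 1 ≤ k ∧ k ≤ l
    · filter_upwards [step k hk.1 hk.2] with x hx _ _
      exact hx
    · refine Filter.Eventually.of_forall fun x h1 h2 => absurd ⟨h1, h2⟩ hk
  filter_upwards [ae_all_iff.mpr h5] with x hx h0 k hk1 hk2
  exact hx k hk1 hk2 h0

end Pool.Agent.Helper982_KG.Crit
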