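import Pool.Agent.Helper982_KG.Stmts

/-!
# MP_99fd1a_nt, part DIV (helper297): divergence of the sum over the index set
-/

set_option autoImplicit false

open MeasureTheory Set Finset

namespace Pool.Agent.Helper982_KG.Div

/-! ### Convergence of the sum of the small terms -/

lemma pow_div_le (N : ℕ) (hN : 1 ≤ N) (k : ℕ) :
    ((1 : ℝ) / 2) ^ (k / N) ≤ 2 * (1 - 1 / (2 * N)) ^ k := by
  have hN0 : (1 : ℝ) ≤ N := by exact_mod_cast hN
  set ρ : ℝ := 1 - 1 / (2 * N) with hρ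
  have h1 : 1 / (2 * (N : ℝ)) ≤ 1 / 2 := one_div_le_one_div_of_le (by norm_num) (by linarith)
  have hρ0 : 0 < ρ := by rw [hρ]; linarith
  have hρ1 : ρ ≤ 1 := by
    rw [hρ]
    have : 0 < 1 / (2 * (N : ℝ)) := by positivity
    linarith
  have hb : (1 : ℝ) / 2 ≤ ρ ^ N := by
    have h2 := one_add_mul_le_pow (a := -(1 / (2 * (N : ℝ)))) (by linarith) N
    have h3 : 1 + (N : ℝ) * -(1 / (2 * (N : ℝ))) = 1 / 2 := by
      field_simp
      norm_num
    rw [h3] at h2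
    rw [hρ, sub_eq_add_neg]
    exact h2
  have h4 : ρ ^ k = ρ ^ (N * (k / N)) * ρ ^ (k % N) := by
    rw [← pow_add]
    congr 1
    exact (Nat.div_add_mod k N).symm
  have h5 : (1 : ℝ) / 2 ≤ ρ ^ (k % N) :=
    hb.trans (pow_le_pow_of_le_one hρ0.le hρ1 (Nat.mod_lt k hN).le)
  calc ((1 : ℝ) / 2) ^ (k / N) ≤ (ρ ^ N) ^ (k / N) := pow_le_pow_left₀ (by norm_num) hb _
    _ = ρ ^ (N * (k / N)) := (pow_mul _ _ _).symm
    _ = ρ ^ (N * (k / N)) * 1 := (mul_one _).symm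
    _ ≤ ρ ^ (N * (k / N)) * (2 * ρ ^ (k % N)) :=
        mul_le_mul_of_nonneg_left (by linarith) (pow_nonneg hρ0.le _)
    _ = 2 * ρ ^ k := by rw [h4]; ring

lemma summable_w (m a₃ a₄ : ℕ) (h4 : 1 ≤ a₄) (h3 : 4 * (m + 1) * a₄ ≤ a₃) :
    Summable (fun k : ℕ => ((2 : ℝ) ^ (k / a₃)) ^ m * (1 / 2) ^ (k / a₄)) := by
  have hN : 1 ≤ 2 * a₄ := by omega
  have hN' : (1 : ℝ) ≤ ((2 * a₄ : ℕ) : ℝ) := by exact_mod_cast hN
  have hs : Summable (fun k : ℕ => 2 * (1 - 1 / (2 * ((2 * a₄ : ℕ) : ℝ))) ^ k) := by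
    refine Summable.mul_left _ (summable_geometric_of_lt_one ?_ ?_)
    · have : 1 / (2 * ((2 * a₄ : ℕ) : ℝ)) ≤ 1 := by
        rw [div_le_one (by positivity)]
        linarith
      linarith
    · have : 0 < 1 / (2 * ((2 * a₄ : ℕ) : ℝ)) := by positivity
      linarith
  refine Summable.of_nonneg_of_le (fun k => by positivity) (fun k => ?_) hs
  refine le_trans ?_ (pow_div_le (2 * a₄) hN k)
  have h5 : k / (4 * (m + 1) * a₄) = (k / a₄) / (4 * (m + 1)) := by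
    rw [Nat.div_div_eq_div_mul, mul_comm]
  have h6 : k / a₃ ≤ (k / a₄) / (4 * (m + 1)) := by
    rw [← h5]
    exact Nat.div_le_div_left h3 (by positivity)
  have h7 : k / (2 * a₄) = (k / a₄) / 2 := by
    rw [Nat.div_div_eq_div_mul, mul_comm]
  obtain ⟨q, hq⟩ : ∃ q, k / a₄ = q := ⟨_, rfl⟩
  rw [hq] at h5 h6 h7
  rw [hq]
  have h8 : (k / a₃) * m + q / 2 ≤ q := by
    have h9 : (q / (4 * (m + 1))) * (4 * (m + 1)) ≤ q := Nat.div_mul_le_self _ _
    have h10 : (k / a₃) * m ≤ (q / (4 * (m + 1))) * m := Nat.mul_le_mul_right m h6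
    have h11 : 2 * ((q / (4 * (m + 1))) * m) ≤ q := by nlinarith
    have h13 : 2 * (k / a₃ * m) ≤ q := by linarith
    omega
  rw [h7, ← pow_mul]
  have h12 : (2 : ℝ) ^ (k / a₃ * m) * (1 / 2) ^ q =
      (2 : ℝ) ^ (k / a₃ * m) * ((1 / 2) ^ (k / a₃ * m) * (1 / 2) ^ (q - k / a₃ * m)) := by
    rw [← pow_add]
    congr 2
    omega
  rw [h12, ← mul_assoc, ← mul_pow, mul_one_div_cancel (by norm_num : (2 : ℝ) ≠ 0), one_pow, one_mul]
  exact pow_le_pow_of_le_one (by norm_num) (by norm_num) (by omega)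

/-- the sum of the small terms over a finite set of indices -/
lemma sum_small (m a₃ a₄ : ℕ) (h4 : 1 ≤ a₄) (h3 : 4 * (m + 1) * a₄ ≤ a₃) :
    ∃ B : ℝ, ∀ T : Finset (ℕ × (Fin m → ℕ)), (∀ p ∈ T, MOK a₃ p.1 p.2) →
      ∑ p ∈ T, ((1 : ℝ) / 2) ^ (p.1 / a₄) ≤ B := by
  classical
  refine ⟨∑' k : ℕ, ((2 : ℝ) ^ (k / a₃)) ^ m * (1 / 2) ^ (k / a₄), fun T hT => ?_⟩
  have hs := summable_w m a₃ a₄ h4 h3
  refine le_trans ?_ (hs.sum_le_tsum (T.image Prod.fst) fun k _ => by positivity)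
  rw [← Finset.sum_fiberwise_of_maps_to (t := T.image Prod.fst) (g := Prod.fst)
    (fun p hp => Finset.mem_image_of_mem _ hp)]
  refine Finset.sum_le_sum fun k _ => ?_
  have h1 : ∀ p ∈ T.filter (fun p => p.1 = k), ((1 : ℝ) / 2) ^ (p.1 / a₄) = (1 / 2) ^ (k / a₄) := by
    intro p hp
    rw [(Finset.mem_filter.1 hp).2]
  rw [Finset.sum_congr rfl h1, Finset.sum_const, nsmul_eq_mul]
  refine mul_le_mul_of_nonneg_right ?_ (by positivity)
  have h2 : (T.filter (fun p => p.1 = k)).card ≤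
      (Fintype.piFinset (fun _ : Fin m => Finset.Icc 1 (2 ^ (k / a₃)))).card := by
    refine Finset.card_le_card_of_injOn Prod.snd ?_ ?_
    · intro p hp
      have hp' := Finset.mem_filter.1 hp
      rw [Finset.mem_coe, Fintype.mem_piFinset]
      intro i
      have h5 := hT p hp'.1 i
      rw [hp'.2] at h5
      exact Finset.mem_Icc.2 h5
    · intro p hp p' hp' h
      have e1 := (Finset.mem_filter.1 hp).2
      have e2 := (Finset.mem_filter.1 hp').2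
      exact Prod.ext (e1.trans e2.symm) h
  have h5 : (Fintype.piFinset (fun _ : Fin m => Finset.Icc 1 (2 ^ (k / a₃)))).card =
      (2 ^ (k / a₃)) ^ m := by
    rw [Fintype.card_piFinset]
    simp
  rw [h5] at h2
  exact_mod_cast h2

/-! ### The dyadic blocks -/

lemma sum_log (c : ℕ) : ∑ n ∈ Finset.Ico 1 (2 ^ (c + 1)), ((1 : ℝ) / 2) ^ Nat.log 2 n = c + 1 := by
  induction c with
  | zero =>
    have : Finset.Ico 1 (2 ^ (0 + 1)) = {1} := rfl
    rw [this, Finset.sum_singleton]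
    norm_num
  | succ c ih =>
    rw [← Finset.sum_Ico_consecutive _ (m := 1) (n := 2 ^ (c + 1)) (k := 2 ^ (c + 1 + 1))
      Nat.one_le_two_pow (Nat.pow_le_pow_right (by norm_num) (by omega)), ih]
    have h1 : ∀ n ∈ Finset.Ico (2 ^ (c + 1)) (2 ^ (c + 1 + 1)),
        ((1 : ℝ) / 2) ^ Nat.log 2 n = (1 / 2) ^ (c + 1) := by
      intro n hn
      rw [Finset.mem_Ico] at hn
      rw [Nat.log_eq_of_pow_le_of_lt_pow hn.1 hn.2]
    rw [Finset.sum_congr rfl h1, Finset.sum_const, Nat.card_Ico, nsmul_eq_mul]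
    have h2 : 2 ^ (c + 1 + 1) - 2 ^ (c + 1) = 2 ^ (c + 1) := by
      rw [pow_succ 2 (c + 1)]
      omega
    rw [h2]
    push_cast
    rw [← mul_pow]
    norm_num

variable {m : ℕ}

/-- `∑ ⌊log₂ m_i⌋` -/
def Lam (mm : Fin m → ℕ) : ℕ := ∑ i, Nat.log 2 (mm i)

/-- the block -/
def Pc (m c : ℕ) : Finset (Fin m → ℕ) := Fintype.piFinset (fun _ => Finset.Ico 1 (2 ^ (c + 1)))

lemma mem_Pc {c : ℕ} {mm : Fin m → ℕ} : mm ∈ Pc m c ↔ ∀ i, 1 ≤ mm i ∧ mm i < 2 ^ (c + 1) := by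
  unfold Pc
  rw [Fintype.mem_piFinset]
  exact forall_congr' fun i => Finset.mem_Ico

lemma Lam_le {c : ℕ} {mm : Fin m → ℕ} (h : mm ∈ Pc m c) : Lam mm ≤ m * c := by
  unfold Lam
  rw [mem_Pc] at h
  have h1 : ∀ i ∈ (Finset.univ : Finset (Fin m)), Nat.log 2 (mm i) ≤ c := by
    intro i _
    have := Nat.log_lt_of_lt_pow (by have := (h i).1; omega) (h i).2
    omega
  refine (Finset.sum_le_card_nsmul _ _ _ h1).trans (le_of_eq ?_)
  simp

lemma prod_le (mm : Fin m → ℕ) : (∏ i, (mm i : ℝ)) ≤ 2 ^ (Lam mm + m) := by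
  have h1 : (2 : ℝ) ^ (Lam mm + m) = ∏ i : Fin m, (2 : ℝ) ^ (Nat.log 2 (mm i) + 1) := by
    rw [Finset.prod_pow_eq_pow_sum, Finset.sum_add_distrib]
    congr 1
    unfold Lam
    simp
  rw [h1]
  refine Finset.prod_le_prod (fun i _ => Nat.cast_nonneg _) fun i _ => ?_
  exact_mod_cast (Nat.lt_pow_succ_log_self (by norm_num) (mm i)).le

/-- the truncated function -/
noncomputable def ph (ψ : ℝ → ℝ) (x : ℝ) : ℝ := min (ψ x) (1 / (8 * x))

lemma ph_anti {ψ : ℝ → ℝ} (h : AntitoneOn ψ (Ioi 0)) {x y : ℝ} (hx : 0 < x) (hxy : x ≤ y) :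
    ph ψ y ≤ ph ψ x := by
  unfold ph
  refine min_le_min (h hx (hx.trans_le hxy) hxy) ?_
  exact one_div_le_one_div_of_le (by linarith) (by linarith)

lemma ph_pos {ψ : ℝ → ℝ} (h : ∀ x, 0 < x → 0 < ψ x) {x : ℝ} (hx : 0 < x) : 0 < ph ψ x :=
  lt_min (h x hx) (by positivity)

lemma dl_eq (ψ : ℝ → ℝ) (k : ℕ) (mm : Fin m → ℕ) :
    dl ψ k mm = ph ψ (2 ^ (k + 1) * ∏ i, (mm i : ℝ)) := rfl

/-- the indices attached to `j` -/
def Tj (m b j : ℕ) : Finset (ℕ × (Fin m → ℕ)) :=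
  (Pc m (j / b)).map ⟨fun mm => (j - Lam mm, mm), fun _ _ h => congrArg Prod.snd h⟩

lemma mem_Tj {b j : ℕ} {p : ℕ × (Fin m → ℕ)} (h : p ∈ Tj m b j) :
    p.2 ∈ Pc m (j / b) ∧ p.1 = j - Lam p.2 := by
  unfold Tj at h
  rw [Finset.mem_map] at h
  obtain ⟨mm, h1, rfl⟩ := h
  exact ⟨h1, rfl⟩

lemma sum_Tj {ψ : ℝ → ℝ} (hanti : AntitoneOn ψ (Ioi 0)) {b j : ℕ}
    (hb : m ≤ b) :
    (((j / b : ℕ) : ℝ) + 1) ^ m * (2 ^ j * ph ψ (2 ^ (j + m + 1))) ≤
      ∑ p ∈ Tj m b j, 2 ^ p.1 * dl ψ p.1 p.2 := by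
  unfold Tj
  rw [Finset.sum_map]
  change _ ≤ ∑ mm ∈ Pc m (j / b), 2 ^ (j - Lam mm) * dl ψ (j - Lam mm) mm
  have h1 : ∀ mm ∈ Pc m (j / b), (∏ i, ((1 : ℝ) / 2) ^ Nat.log 2 (mm i)) *
      (2 ^ j * ph ψ (2 ^ (j + m + 1))) ≤ 2 ^ (j - Lam mm) * dl ψ (j - Lam mm) mm := by
    intro mm hmm
    have hL : Lam mm ≤ j := by
      refine (Lam_le hmm).trans ?_
      calc m * (j / b) ≤ b * (j / b) := Nat.mul_le_mul_right _ hb
        _ ≤ j := Nat.mul_div_le j b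
    have e1 : (∏ i, ((1 : ℝ) / 2) ^ Nat.log 2 (mm i)) * 2 ^ j = 2 ^ (j - Lam mm) := by
      rw [Finset.prod_pow_eq_pow_sum]
      change ((1 : ℝ) / 2) ^ (Lam mm) * 2 ^ j = 2 ^ (j - Lam mm)
      have : (2 : ℝ) ^ j = 2 ^ (Lam mm) * 2 ^ (j - Lam mm) := by
        rw [← pow_add]
        congr 1
        omega
      rw [this, ← mul_assoc, ← mul_pow]
      norm_num
    rw [← mul_assoc, e1]
    refine mul_le_mul_of_nonneg_left ?_ (by positivity)
    rw [dl_eq]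
    have hprod : (0 : ℝ) < ∏ i, (mm i : ℝ) :=
      Finset.prod_pos fun i _ => by exact_mod_cast (mem_Pc.1 hmm i).1
    refine ph_anti hanti (by positivity) ?_
    calc (2 : ℝ) ^ (j - Lam mm + 1) * ∏ i, (mm i : ℝ)
        ≤ 2 ^ (j - Lam mm + 1) * 2 ^ (Lam mm + m) :=
          mul_le_mul_of_nonneg_left (prod_le mm) (by positivity)
      _ = 2 ^ (j + m + 1) := by
          rw [← pow_add]
          congr 1
          omega
  refine le_trans (le_of_eq ?_) (Finset.sum_le_sum h1)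
  rw [← Finset.sum_mul]
  congr 1
  have h2 := Finset.prod_univ_sum (fun _ : Fin m => Finset.Ico 1 (2 ^ (j / b + 1)))
    (fun _ n => ((1 : ℝ) / 2) ^ Nat.log 2 n)
  simp only [sum_log, Finset.prod_const, Finset.card_univ, Fintype.card_fin] at h2
  exact h2

/-! ### Condensation -/

lemma cond_range {ψ : ℝ → ℝ} (hpos : ∀ x, 0 < x → 0 < ψ x) (hanti : AntitoneOn ψ (Ioi 0)) (m n : ℕ) :
    ∑ h ∈ Finset.range (2 ^ n - 1), Real.log (h + 1) ^ m * ψ (h + 1) ≤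
      ∑ i ∈ Finset.range n, ((i : ℝ) + 1) ^ m * (2 ^ i * ψ (2 ^ i)) := by
  induction n with
  | zero => simp
  | succ n ih =>
    have h0 : 1 ≤ 2 ^ n := Nat.one_le_two_pow
    have h1 : 2 ^ (n + 1) - 1 = (2 ^ n - 1) + 2 ^ n := by
      rw [pow_succ]
      omega
    rw [h1, Finset.range_eq_Ico, ← Finset.sum_Ico_consecutive _ (Nat.zero_le _)
      (Nat.le_add_right (2 ^ n - 1) (2 ^ n)), ← Finset.range_eq_Ico, Finset.sum_range_succ]
    refine add_le_add ih ?_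
    have h2 : ∀ h ∈ (Finset.Ico (2 ^ n - 1) (2 ^ n - 1 + 2 ^ n) : Finset ℕ),
        Real.log (h + 1) ^ m * ψ (h + 1) ≤ ((n : ℝ) + 1) ^ m * ψ (2 ^ n) := by
      intro h hh
      rw [Finset.mem_Ico] at hh
      have h3 : 2 ^ n ≤ h + 1 := by omega
      have h4 : h + 1 ≤ 2 ^ (n + 1) := by
        rw [pow_succ]
        omega
      have h3' : (2 : ℝ) ^ n ≤ h + 1 := by exact_mod_cast h3
      have h4' : (h : ℝ) + 1 ≤ 2 ^ (n + 1) := by exact_mod_cast h4
      have h5 : 0 ≤ Real.log ((h : ℝ) + 1) := Real.log_nonneg (by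
        have := Nat.cast_nonneg (α := ℝ) h
        linarith)
      have h6 : Real.log ((h : ℝ) + 1) ≤ n + 1 := by
        refine (Real.log_le_log (by positivity) h4').trans ?_
        rw [Real.log_pow]
        push_cast
        have h7 : Real.log 2 ≤ 1 := by
          have := Real.log_two_lt_d9
          linarith
        have h8 : (0 : ℝ) ≤ (n : ℝ) + 1 := by positivity
        nlinarith
      refine mul_le_mul (pow_le_pow_left₀ h5 h6 m) (hanti ?_ ?_ h3') (hpos _ (by positivity)).le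
        (by positivity)
      · exact Set.mem_Ioi.2 (by positivity)
      · exact Set.mem_Ioi.2 (by positivity)
    refine (Finset.sum_le_card_nsmul _ _ _ h2).trans (le_of_eq ?_)
    rw [Nat.card_Ico, nsmul_eq_mul]
    have h9 : 2 ^ n - 1 + 2 ^ n - (2 ^ n - 1) = 2 ^ n := by omega
    rw [h9]
    push_cast
    ring

lemma summable_of_cond {ψ : ℝ → ℝ} (hpos : ∀ x, 0 < x → 0 < ψ x) (hanti : AntitoneOn ψ (Ioi 0))
    (m : ℕ) (hs : Summable (fun i : ℕ => ((i : ℝ) + 1) ^ m * (2 ^ i * ψ (2 ^ i)))) :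
    Summable (fun h : ℕ => Real.log (h + 1) ^ m * ψ (h + 1)) := by
  have hnn : ∀ h : ℕ, 0 ≤ Real.log ((h : ℝ) + 1) ^ m * ψ (h + 1) := fun h =>
    mul_nonneg (pow_nonneg (Real.log_nonneg (by
      have := Nat.cast_nonneg (α := ℝ) h
      linarith)) _) (hpos _ (by positivity)).le
  refine summable_of_sum_range_le (c := ∑' i : ℕ, ((i : ℝ) + 1) ^ m * (2 ^ i * ψ (2 ^ i))) hnn
    fun n => ?_
  have h1 : n ≤ 2 ^ n - 1 := by
    have := Nat.lt_two_pow_self (n := n)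
    omega
  refine (Finset.sum_le_sum_of_subset_of_nonneg (Finset.range_mono h1)
    fun _ _ _ => hnn _).trans ?_
  refine (cond_range hpos hanti m n).trans ?_
  exact hs.sum_le_tsum _ fun i _ => by
    have := hpos (2 ^ i) (by positivity)
    positivity

/-- the truncation does not matter -/
lemma summable_of_trunc {ψ : ℝ → ℝ} (hpos : ∀ x, 0 < x → 0 < ψ x)
    (m : ℕ) (hs : Summable (fun i : ℕ => ((i : ℝ) + 1) ^ m * (2 ^ i * ph ψ (2 ^ i)))) :
    Summable (fun i : ℕ => ((i : ℝ) + 1) ^ m * (2 ^ i * ψ (2 ^ i))) := by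
  have h1 : ∀ᶠ i : ℕ in Filter.atTop, ((i : ℝ) + 1) ^ m * (2 ^ i * ph ψ (2 ^ i)) < 1 / 8 :=
    hs.tendsto_atTop_zero.eventually (gt_mem_nhds (by norm_num))
  obtain ⟨i₀, hi₀⟩ := Filter.eventually_atTop.1 h1
  rw [← summable_nat_add_iff i₀] at hs ⊢
  refine hs.congr fun i => ?_
  have h2 := hi₀ (i + i₀) (by omega)
  have h3 : (1 : ℝ) ≤ (((i + i₀ : ℕ) : ℝ) + 1) ^ m := one_le_pow₀ (by
    have := Nat.cast_nonneg (α := ℝ) (i + i₀)
    linarith)
  have h4 : 0 < (2 : ℝ) ^ (i + i₀) * ph ψ (2 ^ (i + i₀)) :=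
    mul_pos (by positivity) (ph_pos hpos (by positivity))
  have h5 : (2 : ℝ) ^ (i + i₀) * ph ψ (2 ^ (i + i₀)) < 1 / 8 :=
    lt_of_le_of_lt (le_mul_of_one_le_left h4.le h3) h2
  congr 2
  unfold ph at h5 ⊢
  rcases le_total (ψ (2 ^ (i + i₀))) (1 / (8 * 2 ^ (i + i₀))) with h6 | h6
  · exact min_eq_left h6
  · exfalso
    rw [min_eq_right h6] at h5
    have h7 : (2 : ℝ) ^ (i + i₀) * (1 / (8 * 2 ^ (i + i₀))) = 1 / 8 := by
      field_simp
    linarith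

theorem div : S_DIV := by
  classical
  intro m a₃ a₄ ψ h4 h3 hpos hanti hns k₀ M
  by_contra hcon
  push Not at hcon
  obtain ⟨Bs, hBs⟩ := sum_small m a₃ a₄ h4 h3
  -- bounds for all finite sums
  have hall : ∀ T : Finset (ℕ × (Fin m → ℕ)), (∀ p ∈ T, k₀ ≤ p.1 ∧ MOK a₃ p.1 p.2) →
      ∑ p ∈ T, 2 ^ p.1 * dl ψ p.1 p.2 ≤ M + Bs := by
    intro T hT
    rw [← Finset.sum_filter_add_sum_filter_not T (fun p => 1 / (2 : ℝ) ^ (p.1 + p.1 / a₄) ≤
      dl ψ p.1 p.2)]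
    refine add_le_add ?_ ?_
    · refine (hcon _ fun p hp => ?_).le
      rw [Finset.mem_filter] at hp
      obtain ⟨h5, h6⟩ := hT p hp.1
      refine ⟨h5, h6, hp.2, ?_⟩
      rw [dl_eq]
      unfold ph
      refine (min_le_right _ _).trans ?_
      have h7 : (1 : ℝ) ≤ ∏ i, (p.2 i : ℝ) := by
        have : 1 ≤ ∏ i, p.2 i := Finset.one_le_prod' fun i _ => (h6 i).1
        exact_mod_cast this
      refine one_div_le_one_div_of_le (by positivity) ?_
      have h8 : (2 : ℝ) ^ (p.1 + 4) = 8 * (2 ^ (p.1 + 1) * 1) := by ring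
      rw [h8]
      refine mul_le_mul_of_nonneg_left ?_ (by norm_num)
      exact mul_le_mul_of_nonneg_left h7 (by positivity)
    · refine le_trans (Finset.sum_le_sum fun p hp => ?_)
        (hBs (T.filter (fun p => ¬ 1 / (2 : ℝ) ^ (p.1 + p.1 / a₄) ≤ dl ψ p.1 p.2))
          fun p hp => (hT p (Finset.mem_filter.1 hp).1).2)
      have h5 := (Finset.mem_filter.1 hp).2
      push Not at h5
      calc (2 : ℝ) ^ p.1 * dl ψ p.1 p.2 ≤ 2 ^ p.1 * (1 / 2 ^ (p.1 + p.1 / a₄)) :=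
            mul_le_mul_of_nonneg_left h5.le (by positivity)
        _ = (1 / 2) ^ (p.1 / a₄) := by
            rw [pow_add, one_div_pow]
            field_simp
  -- the blocks
  set b : ℕ := 2 * (a₃ + m) with hb
  have ha3 : 1 ≤ a₃ := by nlinarith
  have hb1 : 1 ≤ b := by omega
  set j₀ : ℕ := 2 * a₃ + 2 * k₀ with hj₀
  have hTj : ∀ j, j₀ ≤ j → ∀ p ∈ Tj m b j, k₀ ≤ p.1 ∧ MOK a₃ p.1 p.2 := by
    intro j hj p hp
    obtain ⟨hp1, hp2⟩ := mem_Tj hp
    have h5 : b * (j / b) ≤ j := Nat.mul_div_le j b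
    have h6 := Lam_le hp1
    set c := j / b with hc
    have h7 : 2 * (a₃ * c) + 2 * (m * c) ≤ j := by
      rw [hb] at h5
      nlinarith
    refine ⟨?_, fun i => ?_⟩
    · rw [hp2]
      omega
    · rw [mem_Pc] at hp1
      refine ⟨(hp1 i).1, (hp1 i).2.le.trans (Nat.pow_le_pow_right (by norm_num) ?_)⟩
      rw [Nat.le_div_iff_mul_le (by omega), hp2]
      have h8 : (c + 1) * a₃ = a₃ * c + a₃ := by ring
      rw [h8]
      omega
  have hdisj : ∀ j j' : ℕ, j₀ ≤ j → j₀ ≤ j' → j ≠ j' → Disjoint (Tj m b j) (Tj m b j') := by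
    intro j j' hj hj' hne
    rw [Finset.disjoint_left]
    intro p hp hp'
    obtain ⟨h5, h6⟩ := mem_Tj hp
    obtain ⟨h5', h6'⟩ := mem_Tj hp'
    have h7 := Lam_le h5
    have h7' := Lam_le h5'
    have h8 : m * (j / b) ≤ j :=
      (Nat.mul_le_mul_right _ (by omega : m ≤ b)).trans (Nat.mul_div_le j b)
    have h8' : m * (j' / b) ≤ j' :=
      (Nat.mul_le_mul_right _ (by omega : m ≤ b)).trans (Nat.mul_div_le j' b)
    omega
  -- summability
  have hsum1 : Summable (fun i : ℕ => ((((i + j₀) / b : ℕ) : ℝ) + 1) ^ m *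
      (2 ^ (i + j₀) * ph ψ (2 ^ (i + j₀ + m + 1)))) := by
    refine summable_of_sum_range_le (c := M + Bs) (fun i => ?_) fun n => ?_
    · exact mul_nonneg (by positivity) (mul_nonneg (by positivity)
        (ph_pos hpos (by positivity)).le)
    · have h5 : ∑ i ∈ Finset.range n, ((((i + j₀) / b : ℕ) : ℝ) + 1) ^ m *
          (2 ^ (i + j₀) * ph ψ (2 ^ (i + j₀ + m + 1))) ≤
          ∑ i ∈ Finset.range n, ∑ p ∈ Tj m b (i + j₀), 2 ^ p.1 * dl ψ p.1 p.2 :=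
        Finset.sum_le_sum fun i _ => sum_Tj hanti (by omega)
      refine h5.trans ?_
      rw [← Finset.sum_biUnion (fun i _ i' _ hne => hdisj _ _ (by omega) (by omega) (by omega))]
      refine hall _ fun p hp => ?_
      rw [Finset.mem_biUnion] at hp
      obtain ⟨i, _, hi⟩ := hp
      exact hTj _ (by omega) p hi
  -- comparison
  have hsum2 : Summable (fun i : ℕ => (((i + (j₀ + m + 1) : ℕ) : ℝ) + 1) ^ m *
      (2 ^ (i + (j₀ + m + 1)) * ph ψ (2 ^ (i + (j₀ + m + 1))))) := by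
    refine Summable.of_nonneg_of_le (fun i => ?_) (fun i => ?_)
      (hsum1.mul_left ((((m + 3) * b : ℕ) : ℝ) ^ m * 2 ^ (m + 1)))
    · exact mul_nonneg (by positivity) (mul_nonneg (by positivity)
        (ph_pos hpos (by positivity)).le)
    · have e1 : i + (j₀ + m + 1) = i + j₀ + m + 1 := by ring
      rw [e1]
      have h5 : (((i + j₀ + m + 1 : ℕ) : ℝ) + 1) ≤ (((m + 3) * b : ℕ) : ℝ) *
          ((((i + j₀) / b : ℕ) : ℝ) + 1) := by
        have h6 : i + j₀ < b * ((i + j₀) / b + 1) := Nat.lt_mul_div_succ _ hb1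
        have h7 : i + j₀ + m + 1 + 1 ≤ (m + 3) * b * ((i + j₀) / b + 1) := by
          set w := b * ((i + j₀) / b + 1) with hw
          have h8 : (m + 3) * b * ((i + j₀) / b + 1) = (m + 3) * w := by
            rw [hw]
            ring
          rw [h8]
          have h9 : 1 ≤ w := by omega
          nlinarith
        exact_mod_cast h7
      have h10 : (((i + j₀ + m + 1 : ℕ) : ℝ) + 1) ^ m ≤ (((m + 3) * b : ℕ) : ℝ) ^ m *
          ((((i + j₀) / b : ℕ) : ℝ) + 1) ^ m := by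
        rw [← mul_pow]
        exact pow_le_pow_left₀ (by positivity) h5 m
      have h11 : 0 ≤ ph ψ (2 ^ (i + j₀ + m + 1)) := (ph_pos hpos (by positivity)).le
      calc (((i + j₀ + m + 1 : ℕ) : ℝ) + 1) ^ m *
            (2 ^ (i + j₀ + m + 1) * ph ψ (2 ^ (i + j₀ + m + 1)))
          ≤ ((((m + 3) * b : ℕ) : ℝ) ^ m * ((((i + j₀) / b : ℕ) : ℝ) + 1) ^ m) *
            (2 ^ (i + j₀ + m + 1) * ph ψ (2 ^ (i + j₀ + m + 1))) :=
            mul_le_mul_of_nonneg_right h10 (mul_nonneg (by positivity) h11)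
        _ = (((m + 3) * b : ℕ) : ℝ) ^ m * 2 ^ (m + 1) *
            (((((i + j₀) / b : ℕ) : ℝ) + 1) ^ m *
              (2 ^ (i + j₀) * ph ψ (2 ^ (i + j₀ + m + 1)))) := by
            rw [show i + j₀ + m + 1 = (i + j₀) + (m + 1) by ring, pow_add]
            ring
  have hsum3 := (summable_nat_add_iff (f := fun i : ℕ => ((i : ℝ) + 1) ^ m *
    (2 ^ i * ph ψ (2 ^ i))) (j₀ + m + 1)).1 hsum2
  exact hns (summable_of_cond hpos hanti m (summable_of_trunc hpos m hsum3))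

end Pool.Agent.Helper982_KG.Div
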