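import Pool.Agent.Helper982_KG.Stmts
import Pool.Agent.H510R2.Div

/-!
# Additive energy of the matrices of determinant one (part ENERGY)
-/

set_option autoImplicit false

open Finset

namespace Pool.Agent.Helper982_KG.Energy

/-- matrices of determinant one in the box -/
noncomputable def BX (R : ℕ) : Finset M4 :=
  ((Finset.Icc (-(R : ℤ)) R) ×ˢ (Finset.Icc (-(R : ℤ)) R) ×ˢ (Finset.Icc (-(R : ℤ)) R) ×ˢ
    (Finset.Icc (-(R : ℤ)) R)).filter (fun g => g.1 * g.2.2.2 - g.2.1 * g.2.2.1 = 1)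

theorem mem_BX {R : ℕ} {g : M4} : g ∈ BX R ↔ (|g.1| ≤ R ∧ |g.2.1| ≤ R ∧ |g.2.2.1| ≤ R ∧
    |g.2.2.2| ≤ R) ∧ g.1 * g.2.2.2 - g.2.1 * g.2.2.1 = 1 := by
  unfold BX
  simp only [mem_filter, mem_product, mem_Icc, abs_le]

theorem GG_sub (C₀ R : ℕ) : GG C₀ R ⊆ BX R := by
  intro g hg
  unfold GG at hg
  unfold BX
  rw [mem_filter] at hg ⊢
  exact ⟨hg.1, hg.2.1⟩

/-- the number of representations -/
noncomputable def rr (R : ℕ) (g : M4) : ℕ := ((BX R).filter (fun A => A + g ∈ BX R)).card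

/-- transport along a symmetry -/
theorem rr_le (R : ℕ) (g : M4) (T : M4 → M4) (hT : Function.Injective T)
    (hadd : ∀ A, T (A + g) = T A + T g) (hB : ∀ A, A ∈ BX R → T A ∈ BX R) :
    rr R g ≤ rr R (T g) := by
  unfold rr
  refine card_le_card_of_injOn T ?_ hT.injOn
  intro A hA
  have hA' := mem_filter.1 (mem_coe.1 hA)
  exact mem_coe.2 (mem_filter.2 ⟨hB A hA'.1, by rw [← hadd]; exact hB _ hA'.2⟩)

/-- the first symmetry -/
def s1 (g : M4) : M4 := (g.2.2.2, g.2.1, g.2.2.1, g.1)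

/-- the second symmetry -/
def s2 (g : M4) : M4 := (g.2.2.1, g.2.2.2, -g.1, -g.2.1)

theorem rr_s1 (R : ℕ) (g : M4) : rr R g ≤ rr R (s1 g) := by
  refine rr_le R g s1 ?_ (fun A => rfl) ?_
  · rintro ⟨a, b, c, d⟩ ⟨a', b', c', d'⟩ h
    simp only [s1, Prod.mk.injEq] at h
    simp only [Prod.mk.injEq]
    tauto
  · rintro ⟨a, b, c, d⟩ h
    rw [mem_BX] at h ⊢
    simp only [s1] at h ⊢
    refine ⟨by tauto, by linarith [h.2]⟩

theorem rr_s2 (R : ℕ) (g : M4) : rr R g ≤ rr R (s2 g) := by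
  refine rr_le R g s2 ?_ (fun A => ?_) ?_
  · rintro ⟨a, b, c, d⟩ ⟨a', b', c', d'⟩ h
    simp only [s2, Prod.mk.injEq, neg_inj] at h
    simp only [Prod.mk.injEq]
    tauto
  · simp only [s2, Prod.mk_add_mk, Prod.fst_add, Prod.snd_add, neg_add]
  · rintro ⟨a, b, c, d⟩ h
    rw [mem_BX] at h ⊢
    simp only [s2, abs_neg] at h ⊢
    refine ⟨by tauto, by linarith [h.2]⟩

/-- the quadratic polynomial -/
def NN (g : M4) (w : ℤ) : ℤ :=
  g.2.2.2 * (-(g.1 * g.2.2.2 - g.2.1 * g.2.2.1) * w - g.1 * w ^ 2 - g.2.2.2) +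
    (-g.2.2.1) * (-g.2.1) * w ^ 2

/-- the solutions `(y, z)` for given `w` -/
noncomputable def TT (R : ℕ) (g : M4) (w : ℤ) : Finset (ℤ × ℤ) :=
  ((Finset.Icc (-(R : ℤ)) R) ×ˢ (Finset.Icc (-(R : ℤ)) R)).filter fun q =>
    (g.2.2.2 * q.1 + (-g.2.1) * w) * (g.2.2.2 * q.2 + (-g.2.2.1) * w) = NN g w

theorem fib_le (R : ℕ) (g : M4) (hg : g.2.2.2 ≠ 0) (w : ℤ) :
    (((BX R).filter (fun A => A + g ∈ BX R)).filter (fun A => A.2.2.2 = w)).card ≤
      (TT R g w).card := by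
  refine card_le_card_of_injOn (fun A => (A.2.1, A.2.2.1)) ?_ ?_
  · rintro ⟨x, y, z, w'⟩ hA
    simp only [coe_filter, Set.mem_ofPred_eq, mem_filter] at hA
    obtain ⟨⟨h1, h2⟩, rfl⟩ := hA
    obtain ⟨α, β, γ, δ⟩ := g
    rw [mem_BX] at h1 h2
    simp only [Prod.mk_add_mk] at h1 h2 hg
    obtain ⟨⟨b1, b2, b3, b4⟩, h1⟩ := h1
    obtain ⟨-, h2⟩ := h2
    rw [abs_le] at b2 b3
    refine mem_coe.2 (mem_filter.2 ⟨mem_product.2 ⟨mem_Icc.2 b2, mem_Icc.2 b3⟩, ?_⟩)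
    simp only [NN]
    have e1 : δ * x = -(α * δ - β * γ) + γ * y + β * z - α * w' := by linear_combination h2 - h1
    have e2 : x * w' = 1 + y * z := by linear_combination h1
    linear_combination δ * w' * e1 - δ ^ 2 * e2
  · rintro ⟨x, y, z, w'⟩ hA ⟨x', y', z', w''⟩ hA' heq
    simp only [coe_filter, Set.mem_ofPred_eq, mem_filter] at hA hA'
    obtain ⟨⟨h1, h2⟩, rfl⟩ := hA
    obtain ⟨⟨h1', h2'⟩, h3⟩ := hA'
    simp only [Prod.mk.injEq] at heq
    obtain ⟨rfl, rfl⟩ := heq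
    subst h3
    obtain ⟨α, β, γ, δ⟩ := g
    rw [mem_BX] at h1 h2 h1' h2'
    simp only [Prod.mk_add_mk] at h1 h2 h1' h2' hg
    have e1 : δ * (x - x') = 0 := by
      linear_combination h2.2 - h1.2 - (h2'.2 - h1'.2)
    rcases mul_eq_zero.1 e1 with h | h
    · exact absurd h hg
    · have : x = x' := by linarith
      rw [this]

theorem TT_ne (R : ℕ) (g : M4) (hg : g.2.2.2 ≠ 0) (w : ℤ) (hN : NN g w ≠ 0) :
    (TT R g w).card ≤ 2 * (NN g w).natAbs.divisors.card := by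
  have h1 : (TT R g w).card ≤ (((NN g w).natAbs.divisors.image (fun d : ℕ => (d : ℤ))) ∪
      ((NN g w).natAbs.divisors.image (fun d : ℕ => -(d : ℤ)))).card := by
    refine card_le_card_of_injOn (fun q => g.2.2.2 * q.1 + (-g.2.1) * w) ?_ ?_
    · rintro ⟨y, z⟩ hq
      simp only [coe_filter, TT, Set.mem_ofPred_eq] at hq
      have hdvd : g.2.2.2 * y + (-g.2.1) * w ∣ NN g w := ⟨_, hq.2.symm⟩
      have hd2 : (g.2.2.2 * y + (-g.2.1) * w).natAbs ∈ (NN g w).natAbs.divisors :=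
        Nat.mem_divisors.2 ⟨Int.natAbs_dvd_natAbs.2 hdvd, by simpa using hN⟩
      simp only [coe_union, coe_image, Set.mem_union, Set.mem_image, mem_coe]
      rcases Int.natAbs_eq (g.2.2.2 * y + (-g.2.1) * w) with h | h
      · exact Or.inl ⟨_, hd2, h.symm⟩
      · exact Or.inr ⟨_, hd2, h.symm⟩
    · rintro ⟨y, z⟩ hq ⟨y', z'⟩ hq' heq
      simp only [coe_filter, TT, Set.mem_ofPred_eq] at hq hq' heq
      have e1 : g.2.2.2 * (y - y') = 0 := by linear_combination heq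
      have hy : y = y' := by
        rcases mul_eq_zero.1 e1 with h | h
        · exact absurd h hg
        · linarith
      subst hy
      have hu : g.2.2.2 * y + (-g.2.1) * w ≠ 0 := by
        intro h0
        apply hN
        rw [← hq.2, h0, zero_mul]
      have e2 : (g.2.2.2 * y + (-g.2.1) * w) * (g.2.2.2 * (z - z')) = 0 := by
        linear_combination hq.2 - hq'.2
      rcases mul_eq_zero.1 e2 with h | h
      · exact absurd h hu
      · rcases mul_eq_zero.1 h with h | h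
        · exact absurd h hg
        · have : z = z' := by linarith
          rw [this]
  refine h1.trans ((card_union_le _ _).trans ?_)
  have h2 := card_image_le (s := (NN g w).natAbs.divisors) (f := fun d : ℕ => (d : ℤ))
  have h3 := card_image_le (s := (NN g w).natAbs.divisors) (f := fun d : ℕ => -(d : ℤ))
  omega

theorem card_Icc_R (R : ℕ) : (Finset.Icc (-(R : ℤ)) R).card = 2 * R + 1 := by
  rw [Int.card_Icc]; omega

theorem TT_zero (R : ℕ) (g : M4) (hg : g.2.2.2 ≠ 0) (w : ℤ) (hN : NN g w = 0) :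
    (TT R g w).card ≤ 2 * (2 * R + 1) := by
  have hsub : TT R g w ⊆
      (((Finset.Icc (-(R : ℤ)) R) ×ˢ (Finset.Icc (-(R : ℤ)) R)).filter fun q =>
        g.2.2.2 * q.1 + (-g.2.1) * w = 0) ∪
      (((Finset.Icc (-(R : ℤ)) R) ×ˢ (Finset.Icc (-(R : ℤ)) R)).filter fun q =>
        g.2.2.2 * q.2 + (-g.2.2.1) * w = 0) := by
    intro q hq
    simp only [TT, mem_filter] at hq
    rw [hN] at hq
    rw [mem_union, mem_filter, mem_filter]
    rcases mul_eq_zero.1 hq.2 with h | h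
    · exact Or.inl ⟨hq.1, h⟩
    · exact Or.inr ⟨hq.1, h⟩
  have h1 : (((Finset.Icc (-(R : ℤ)) R) ×ˢ (Finset.Icc (-(R : ℤ)) R)).filter fun q =>
        g.2.2.2 * q.1 + (-g.2.1) * w = 0).card ≤ 2 * R + 1 := by
    rw [← card_Icc_R R]
    refine card_le_card_of_injOn (fun q => q.2) ?_ ?_
    · rintro ⟨y, z⟩ hq
      simp only [coe_filter, Set.mem_ofPred_eq, mem_product] at hq
      exact mem_coe.2 hq.1.2
    · rintro ⟨y, z⟩ hq ⟨y', z'⟩ hq' heq
      simp only [coe_filter, Set.mem_ofPred_eq] at hq hq' heq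
      have e1 : g.2.2.2 * (y - y') = 0 := by linear_combination hq.2 - hq'.2
      rcases mul_eq_zero.1 e1 with h | h
      · exact absurd h hg
      · have : y = y' := by linarith
        rw [this, heq]
  have h2 : (((Finset.Icc (-(R : ℤ)) R) ×ˢ (Finset.Icc (-(R : ℤ)) R)).filter fun q =>
        g.2.2.2 * q.2 + (-g.2.2.1) * w = 0).card ≤ 2 * R + 1 := by
    rw [← card_Icc_R R]
    refine card_le_card_of_injOn (fun q => q.1) ?_ ?_
    · rintro ⟨y, z⟩ hq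
      simp only [coe_filter, Set.mem_ofPred_eq, mem_product] at hq
      exact mem_coe.2 hq.1.1
    · rintro ⟨y, z⟩ hq ⟨y', z'⟩ hq' heq
      simp only [coe_filter, Set.mem_ofPred_eq] at hq hq' heq
      have e1 : g.2.2.2 * (z - z') = 0 := by linear_combination hq.2 - hq'.2
      rcases mul_eq_zero.1 e1 with h | h
      · exact absurd h hg
      · have : z = z' := by linarith
        rw [this, heq]
  refine (card_le_card hsub).trans ((card_union_le _ _).trans ?_)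
  omega

theorem roots_le (R : ℕ) (g : M4) (hg : g.2.2.2 ≠ 0) :
    ((Finset.Icc (-(R : ℤ)) R).filter (fun w => NN g w = 0)).card ≤ 2 := by
  by_contra hcon
  push Not at hcon
  obtain ⟨a, ha, b, hb, c, hc, hab, hac, hbc⟩ := two_lt_card.1 hcon
  have ea := (mem_filter.1 ha).2
  have eb := (mem_filter.1 hb).2
  have ec := (mem_filter.1 hc).2
  obtain ⟨g1, g2, g3, g4⟩ := g
  simp only [NN] at ea eb ec hg
  set D := g1 * g4 - g2 * g3 with hD
  have k1 : (a - b) * ((-g4 * g1 + g2 * g3) * (a + b) - g4 * D) = 0 := by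
    linear_combination ea - eb
  have k2 : (a - c) * ((-g4 * g1 + g2 * g3) * (a + c) - g4 * D) = 0 := by
    linear_combination ea - ec
  have k1' : (-g4 * g1 + g2 * g3) * (a + b) - g4 * D = 0 :=
    (mul_eq_zero.1 k1).resolve_left (sub_ne_zero.2 hab)
  have k2' : (-g4 * g1 + g2 * g3) * (a + c) - g4 * D = 0 :=
    (mul_eq_zero.1 k2).resolve_left (sub_ne_zero.2 hac)
  have k3 : (-g4 * g1 + g2 * g3) * (b - c) = 0 := by linear_combination k1' - k2'
  have k4 : -g4 * g1 + g2 * g3 = 0 := (mul_eq_zero.1 k3).resolve_right (sub_ne_zero.2 hbc)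
  rw [k4] at k1'
  have k5 : g4 ^ 2 = 0 := by linear_combination -ea + a ^ 2 * k4 + a * k1'
  exact hg (pow_eq_zero_iff (two_ne_zero)|>.1 k5)

theorem NN_le (R : ℕ) (g : M4) (w : ℤ) (hR : 1 ≤ R) (hw : |w| ≤ R) (h1 : |g.1| ≤ 2 * R)
    (h2 : |g.2.1| ≤ 2 * R) (h3 : |g.2.2.1| ≤ 2 * R) (h4 : |g.2.2.2| ≤ 2 * R) :
    |NN g w| ≤ 28 * (R : ℤ) ^ 4 := by
  obtain ⟨a, b, c, d⟩ := g
  simp only [NN] at *
  have hR' : (1 : ℤ) ≤ R := by exact_mod_cast hR
  have e : d * (-(a * d - b * c) * w - a * w ^ 2 - d) + (-c) * (-b) * w ^ 2 =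
      -(a * d * d * w) + b * c * d * w - a * d * w ^ 2 - d ^ 2 + b * c * w ^ 2 := by ring
  rw [e]
  have n0 : (0 : ℤ) ≤ R := by linarith
  have m2 : ∀ {p q P Q : ℤ}, |p| ≤ P → |q| ≤ Q → |p * q| ≤ P * Q := by
    intro p q P Q hp hq
    rw [abs_mul]
    exact mul_le_mul hp hq (abs_nonneg _) ((abs_nonneg _).trans hp)
  have t1 : |a * d * d * w| ≤ 2 * R * (2 * R) * (2 * R) * R := m2 (m2 (m2 h1 h4) h4) hw
  have t2 : |b * c * d * w| ≤ 2 * R * (2 * R) * (2 * R) * R := m2 (m2 (m2 h2 h3) h4) hw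
  have hw2 : |w ^ 2| ≤ (R : ℤ) * R := by rw [sq]; exact m2 hw hw
  have t3 : |a * d * w ^ 2| ≤ 2 * R * (2 * R) * (R * R) := m2 (m2 h1 h4) hw2
  have t4 : |d ^ 2| ≤ (2 * R : ℤ) * (2 * R) := by rw [sq]; exact m2 h4 h4
  have t5 : |b * c * w ^ 2| ≤ 2 * R * (2 * R) * (R * R) := m2 (m2 h2 h3) hw2
  rw [abs_le] at *
  have hR2 : (R : ℤ) ^ 2 ≤ (R : ℤ) ^ 4 := pow_le_pow_right₀ hR' (by norm_num)
  constructor <;> nlinarith [t1.1, t1.2, t2.1, t2.2, t3.1, t3.2, t4.1, t4.2, t5.1, t5.2]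

/-- the main bound, for one nonvanishing coefficient -/
theorem core : ∃ C : ℝ, 0 < C ∧ ∀ (R : ℕ) (g : M4), 1 ≤ R → g.2.2.2 ≠ 0 →
    (rr R g : ℝ) ≤ C * (R : ℝ) ^ ((9 : ℝ) / 5) := by
  obtain ⟨Cd, hCd, hdiv⟩ := Pool.Agent.H510R2.divisor_bound (1 / 5) (by norm_num)
  refine ⟨3 * (2 * Cd * (28 : ℝ) ^ ((1 : ℝ) / 5)) + 12, by positivity, fun R g hR hg => ?_⟩
  have hR1 : (1 : ℝ) ≤ R := by exact_mod_cast hR
  have hR0 : (0 : ℝ) < R := by linarith
  rcases Finset.eq_empty_or_nonempty ((BX R).filter (fun A => A + g ∈ BX R)) with hS | hS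
  · rw [rr, hS, card_empty]
    push_cast
    positivity
  obtain ⟨A, hA⟩ := hS
  have hA' := mem_filter.1 hA
  have hA1 := (mem_BX.1 hA'.1).1
  have hA2 := (mem_BX.1 hA'.2).1
  have hsub : ∀ u v : ℤ, |u| ≤ R → |u + v| ≤ R → |v| ≤ 2 * R := by
    intro u v h1 h2
    rw [abs_le] at *
    constructor <;> linarith [h1.1, h1.2, h2.1, h2.2]
  have g1 : |g.1| ≤ 2 * R := hsub _ _ hA1.1 hA2.1
  have g2 : |g.2.1| ≤ 2 * R := hsub _ _ hA1.2.1 hA2.2.1
  have g3 : |g.2.2.1| ≤ 2 * R := hsub _ _ hA1.2.2.1 hA2.2.2.1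
  have g4 : |g.2.2.2| ≤ 2 * R := hsub _ _ hA1.2.2.2 hA2.2.2.2
  -- the bound for one `w`
  have hT : ∀ w ∈ Finset.Icc (-(R : ℤ)) R, ((TT R g w).card : ℝ) ≤
      2 * Cd * (28 : ℝ) ^ ((1 : ℝ) / 5) * (R : ℝ) ^ ((4 : ℝ) / 5) +
        (if NN g w = 0 then 2 * (2 * (R : ℝ) + 1) else 0) := by
    intro w hw
    split_ifs with hN
    · have := TT_zero R g hg w hN
      have h2 : ((TT R g w).card : ℝ) ≤ 2 * (2 * (R : ℝ) + 1) := by exact_mod_cast this
      have h3 : 0 ≤ 2 * Cd * (28 : ℝ) ^ ((1 : ℝ) / 5) * (R : ℝ) ^ ((4 : ℝ) / 5) := by positivity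
      linarith
    · have h1 := TT_ne R g hg w hN
      have h2 := hdiv (NN g w).natAbs (Int.natAbs_pos.2 hN)
      have h3 : ((NN g w).natAbs : ℝ) ≤ 28 * (R : ℝ) ^ 4 := by
        have h4 := NN_le R g w hR (abs_le.2 (mem_Icc.1 hw)) g1 g2 g3 g4
        have h5 : ((NN g w).natAbs : ℤ) ≤ 28 * (R : ℤ) ^ 4 := by
          rw [Int.natCast_natAbs]
          exact h4
        have h6 : (NN g w).natAbs ≤ 28 * R ^ 4 := by
          zify
          rw [← Int.natCast_natAbs]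
          exact h5
        exact_mod_cast h6
      have h4 : ((NN g w).natAbs : ℝ) ^ ((1 : ℝ) / 5) ≤
          (28 : ℝ) ^ ((1 : ℝ) / 5) * (R : ℝ) ^ ((4 : ℝ) / 5) := by
        calc ((NN g w).natAbs : ℝ) ^ ((1 : ℝ) / 5) ≤ (28 * (R : ℝ) ^ 4) ^ ((1 : ℝ) / 5) :=
              Real.rpow_le_rpow (by positivity) h3 (by norm_num)
          _ = (28 : ℝ) ^ ((1 : ℝ) / 5) * (R : ℝ) ^ ((4 : ℝ) / 5) := by
              rw [Real.mul_rpow (by norm_num) (by positivity), ← Real.rpow_natCast (R : ℝ) 4,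
                ← Real.rpow_mul hR0.le]
              norm_num
      have h5 : ((TT R g w).card : ℝ) ≤ 2 * ((NN g w).natAbs.divisors.card : ℝ) := by
        exact_mod_cast h1
      rw [add_zero]
      calc ((TT R g w).card : ℝ) ≤ 2 * ((NN g w).natAbs.divisors.card : ℝ) := h5
        _ ≤ 2 * (Cd * ((28 : ℝ) ^ ((1 : ℝ) / 5) * (R : ℝ) ^ ((4 : ℝ) / 5))) := by
            have := h2.trans (mul_le_mul_of_nonneg_left h4 hCd.le)
            linarith
        _ = _ := by ring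
  have hsum : (rr R g : ℝ) ≤ ∑ w ∈ Finset.Icc (-(R : ℤ)) R, ((TT R g w).card : ℝ) := by
    have h1 : rr R g = ∑ w ∈ Finset.Icc (-(R : ℤ)) R,
        (((BX R).filter (fun A => A + g ∈ BX R)).filter (fun A => A.2.2.2 = w)).card := by
      refine card_eq_sum_card_fiberwise fun A hA => ?_
      have := (mem_BX.1 (mem_filter.1 (mem_coe.1 hA)).1).1.2.2.2
      exact mem_coe.2 (mem_Icc.2 (abs_le.1 this))
    rw [h1]
    push_cast
    exact sum_le_sum fun w _ => by exact_mod_cast fib_le R g hg w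
  have hfin : ∑ w ∈ Finset.Icc (-(R : ℤ)) R, ((TT R g w).card : ℝ) ≤
      (2 * (R : ℝ) + 1) * (2 * Cd * (28 : ℝ) ^ ((1 : ℝ) / 5) * (R : ℝ) ^ ((4 : ℝ) / 5)) +
        2 * (2 * (2 * (R : ℝ) + 1)) := by
    refine (sum_le_sum hT).trans ?_
    rw [sum_add_distrib, sum_const, card_Icc_R, nsmul_eq_mul]
    push_cast
    refine add_le_add le_rfl ?_
    rw [← sum_filter, sum_const, nsmul_eq_mul]
    have := roots_le R g hg
    have h2 : ((((Finset.Icc (-(R : ℤ)) R).filter (fun w => NN g w = 0)).card : ℕ) : ℝ) ≤ 2 := by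
      exact_mod_cast this
    exact mul_le_mul_of_nonneg_right h2 (by positivity)
  refine (hsum.trans hfin).trans ?_
  have e1 : (R : ℝ) ^ ((9 : ℝ) / 5) = R * (R : ℝ) ^ ((4 : ℝ) / 5) := by
    rw [show ((9 : ℝ) / 5) = 1 + 4 / 5 by norm_num, Real.rpow_add hR0, Real.rpow_one]
  have e2 : (1 : ℝ) ≤ (R : ℝ) ^ ((4 : ℝ) / 5) := Real.one_le_rpow hR1 (by norm_num)
  rw [e1]
  set P := (R : ℝ) ^ ((4 : ℝ) / 5) with hP
  set Q := 2 * Cd * (28 : ℝ) ^ ((1 : ℝ) / 5) with hQ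
  have hQ0 : 0 < Q := by positivity
  have hP0 : 0 < P := by positivity
  have i1 : (2 * (R : ℝ) + 1) * (Q * P) ≤ 3 * R * (Q * P) :=
    mul_le_mul_of_nonneg_right (by linarith) (by positivity)
  have i2 : 2 * (2 * (2 * (R : ℝ) + 1)) ≤ 12 * (R * P) := by nlinarith
  nlinarith

theorem rr_bound : ∃ C : ℝ, 0 < C ∧ ∀ (R : ℕ) (g : M4), 1 ≤ R → g ≠ 0 →
    (rr R g : ℝ) ≤ C * (R : ℝ) ^ ((9 : ℝ) / 5) := by
  obtain ⟨C, hC, h⟩ := core
  refine ⟨C, hC, fun R g hR hg => ?_⟩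
  by_cases h4 : g.2.2.2 = 0
  · by_cases h1 : g.1 = 0
    · by_cases h2 : g.2.1 = 0
      · have h3 : g.2.2.1 ≠ 0 := by
          intro h3
          apply hg
          obtain ⟨a, b, c, d⟩ := g
          simp only at h1 h2 h3 h4
          rw [h1, h2, h3, h4]
          rfl
        have k1 : (rr R g : ℝ) ≤ rr R (s1 (s2 g)) := by
          exact_mod_cast (rr_s2 R g).trans (rr_s1 R (s2 g))
        exact k1.trans (h R _ hR h3)
      · have k1 : (rr R g : ℝ) ≤ rr R (s2 g) := by exact_mod_cast rr_s2 R g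
        exact k1.trans (h R _ hR (neg_ne_zero.2 h2))
    · have k1 : (rr R g : ℝ) ≤ rr R (s1 g) := by exact_mod_cast rr_s1 R g
      exact k1.trans (h R _ hR h1)
  · exact h R g hR h4

theorem energy (_ : S_ROW) (hcard : S_CARD) : S_ENERGY := by
  intro C₀
  obtain ⟨C, hC, hrr⟩ := rr_bound
  refine ⟨((2 * (C₀ : ℝ) + 1) * 9) ^ 2 * (C + 1), by positivity, fun R hR => ?_⟩
  have hR1 : (1 : ℝ) ≤ R := by exact_mod_cast hR
  have hR0 : (0 : ℝ) < R := by linarith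
  set G := GG C₀ R with hG
  set S := (G ×ˢ G ×ˢ G ×ˢ G).filter (fun p => p.1 + p.2.1 = p.2.2.1 + p.2.2.2) with hS
  have h1 : S.card = ∑ b ∈ G ×ˢ G, (S.filter (fun p => (p.1, p.2.2.1) = b)).card := by
    refine card_eq_sum_card_fiberwise fun p hp => ?_
    have := (mem_filter.1 (mem_coe.1 hp)).1
    simp only [mem_product] at this
    exact mem_coe.2 (mem_product.2 ⟨this.1, this.2.2.1⟩)
  have h2 : ∀ b ∈ G ×ˢ G, ((S.filter (fun p => (p.1, p.2.2.1) = b)).card : ℝ) ≤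
      C * (R : ℝ) ^ ((9 : ℝ) / 5) + (if b.1 = b.2 then (G.card : ℝ) else 0) := by
    rintro ⟨a, c⟩ hb
    have hinj : Set.InjOn (fun p : M4 × M4 × M4 × M4 => p.2.1)
        (S.filter (fun p => (p.1, p.2.2.1) = (a, c)) : Finset (M4 × M4 × M4 × M4)) := by
      rintro ⟨p1, p2, p3, p4⟩ hp ⟨q1, q2, q3, q4⟩ hq heq
      have hp' := mem_filter.1 (mem_coe.1 hp)
      have hq' := mem_filter.1 (mem_coe.1 hq)
      have hp2 := (mem_filter.1 hp'.1).2
      have hq2 := (mem_filter.1 hq'.1).2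
      have hp3 := Prod.mk.inj hp'.2
      have hq3 := Prod.mk.inj hq'.2
      simp only at hp2 hq2 heq hp3 hq3
      obtain ⟨e1, e2⟩ := hp3
      obtain ⟨e3, e4⟩ := hq3
      rw [e1, e2] at hp2
      rw [e3, e4, ← heq] at hq2
      have : p4 = q4 := add_left_cancel (hp2.symm.trans hq2)
      rw [e1, e2, e3, e4, heq, this]
    have hmem : ∀ p ∈ S.filter (fun p => (p.1, p.2.2.1) = (a, c)),
        p.2.1 ∈ G ∧ p.2.1 + (a - c) ∈ G := by
      rintro ⟨p1, p2, p3, p4⟩ hp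
      have hp' := mem_filter.1 hp
      have hp2 := mem_filter.1 hp'.1
      have hp3 := Prod.mk.inj hp'.2
      have hp4 := hp2.1
      simp only [mem_product] at hp4
      simp only at hp3 hp2
      obtain ⟨e1, e2⟩ := hp3
      refine ⟨hp4.2.1, ?_⟩
      have : p2 + (a - c) = p4 := by
        have := hp2.2
        rw [e1, e2] at this
        rw [← add_sub_assoc, add_comm p2 a, this, add_sub_cancel_left]
      rw [this]
      exact hp4.2.2.2
    have hnn : 0 ≤ C * (R : ℝ) ^ ((9 : ℝ) / 5) := by positivity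
    split_ifs with hac
    · have k1 : (S.filter (fun p => (p.1, p.2.2.1) = (a, c))).card ≤ G.card :=
        card_le_card_of_injOn _ (fun p hp => mem_coe.2 (hmem p (mem_coe.1 hp)).1) hinj
      have k2 : ((S.filter (fun p => (p.1, p.2.2.1) = (a, c))).card : ℝ) ≤ G.card := by
        exact_mod_cast k1
      linarith
    · rw [add_zero]
      have k1 : (S.filter (fun p => (p.1, p.2.2.1) = (a, c))).card ≤ rr R (a - c) := by
        refine card_le_card_of_injOn _ (fun p hp => ?_) hinj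
        have := hmem p (mem_coe.1 hp)
        exact mem_coe.2 (mem_filter.2 ⟨GG_sub _ _ this.1, GG_sub _ _ this.2⟩)
      have k2 : ((S.filter (fun p => (p.1, p.2.2.1) = (a, c))).card : ℝ) ≤ rr R (a - c) := by
        exact_mod_cast k1
      exact k2.trans (hrr R _ hR (sub_ne_zero.2 hac))
  have h3 : (S.card : ℝ) ≤ (G.card : ℝ) ^ 2 * (C * (R : ℝ) ^ ((9 : ℝ) / 5)) + (G.card : ℝ) ^ 2 := by
    rw [h1]
    push_cast
    refine (sum_le_sum h2).trans ?_
    rw [sum_add_distrib, sum_const, card_product, nsmul_eq_mul]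
    push_cast
    refine add_le_add (le_of_eq (by ring)) ?_
    rw [sum_product]
    simp only [sum_ite_eq]
    rw [sum_congr rfl fun x hx => if_pos hx, sum_const, nsmul_eq_mul]
    exact le_of_eq (by ring)
  have h4 : (G.card : ℝ) ≤ (2 * (C₀ : ℝ) + 1) * 9 * (R : ℝ) ^ 2 := by
    have := hcard C₀ R
    have h5 : (G.card : ℝ) ≤ (2 * (C₀ : ℝ) + 1) * (2 * (R : ℝ) + 1) ^ 2 := by exact_mod_cast this
    have h6 : (2 * (R : ℝ) + 1) ^ 2 ≤ 9 * (R : ℝ) ^ 2 := by nlinarith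
    have h7 : 0 ≤ 2 * (C₀ : ℝ) + 1 := by positivity
    nlinarith [mul_le_mul_of_nonneg_left h6 h7]
  have h5 : (G.card : ℝ) ^ 2 ≤ ((2 * (C₀ : ℝ) + 1) * 9) ^ 2 * (R : ℝ) ^ 4 := by
    calc (G.card : ℝ) ^ 2 ≤ ((2 * (C₀ : ℝ) + 1) * 9 * (R : ℝ) ^ 2) ^ 2 :=
          pow_le_pow_left₀ (by positivity) h4 2
      _ = _ := by ring
  have e1 : (R : ℝ) ^ ((29 : ℝ) / 5) = (R : ℝ) ^ 4 * (R : ℝ) ^ ((9 : ℝ) / 5) := by
    rw [show ((29 : ℝ) / 5) = (4 : ℕ) + 9 / 5 by norm_num, Real.rpow_add hR0, Real.rpow_natCast]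
  have e2 : (1 : ℝ) ≤ (R : ℝ) ^ ((9 : ℝ) / 5) := Real.one_le_rpow hR1 (by norm_num)
  calc (S.card : ℝ) ≤ (G.card : ℝ) ^ 2 * (C * (R : ℝ) ^ ((9 : ℝ) / 5)) + (G.card : ℝ) ^ 2 := h3
    _ ≤ (G.card : ℝ) ^ 2 * ((C + 1) * (R : ℝ) ^ ((9 : ℝ) / 5)) := by
        nlinarith [mul_le_mul_of_nonneg_left e2 (sq_nonneg (G.card : ℝ))]
    _ ≤ (((2 * (C₀ : ℝ) + 1) * 9) ^ 2 * (R : ℝ) ^ 4) * ((C + 1) * (R : ℝ) ^ ((9 : ℝ) / 5)) :=
        mul_le_mul_of_nonneg_right h5 (by positivity)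
    _ = _ := by rw [e1]; ring

end Pool.Agent.Helper982_KG.Energy
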