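import Pool.Agent.Helper982_KG.COPR

open MeasureTheory Set Finset

namespace Pool.Agent.Helper982_KG.FIRST

/-- `h` is `Λ`-Lipschitz on `[s, s + l]` -/
def LipH (h : ℝ → ℝ) (Λ s l : ℝ) : Prop :=
  ∀ x ∈ Set.Icc s (s + l), ∀ x' ∈ Set.Icc s (s + l), |h x - h x'| ≤ Λ * |x - x'|

/-- the strip of one form -/
def Sg (h : ℝ → ℝ) (s l δ : ℝ) (F : ℤ × ℕ) : Set ℝ :=
  {x | x ∈ Set.Icc s (s + l) ∧ |(F.1 : ℝ) + (F.2 : ℝ) * x + h x| < δ}

theorem LipH.cont {h : ℝ → ℝ} {Λ s l : ℝ} (hh : LipH h Λ s l) :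
    ContinuousOn h (Set.Icc s (s + l)) := by
  have : LipschitzOnWith (Real.toNNReal Λ) h (Set.Icc s (s + l)) := by
    refine LipschitzOnWith.of_dist_le_mul fun x hx y hy => ?_
    rw [Real.dist_eq, Real.dist_eq]
    refine (hh x hx y hy).trans ?_
    exact mul_le_mul_of_nonneg_right (Real.le_coe_toNNReal Λ) (abs_nonneg _)
  exact this.continuousOn

theorem Sg_meas {h : ℝ → ℝ} {Λ s l : ℝ} (hl : 0 ≤ l) (hh : LipH h Λ s l) (δ : ℝ) (F : ℤ × ℕ) :
    MeasurableSet (Sg h s l δ F) := by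
  have hle : s ≤ s + l := by linarith
  have hc : Continuous (fun x => h (Set.projIcc s (s + l) hle x)) :=
    hh.cont.comp_continuous (continuous_subtype_val.comp continuous_projIcc)
      (fun x => (Set.projIcc s (s + l) hle x).2)
  have he : Sg h s l δ F = Set.Icc s (s + l) ∩
      {x | |(F.1 : ℝ) + (F.2 : ℝ) * x + h (Set.projIcc s (s + l) hle x)| < δ} := by
    ext x
    constructor
    · rintro ⟨h1, h2⟩
      refine ⟨h1, ?_⟩
      show |(F.1 : ℝ) + (F.2 : ℝ) * x + h (Set.projIcc s (s + l) hle x)| < δ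
      rw [Set.projIcc_of_mem hle h1]
      exact h2
    · rintro ⟨h1, h2⟩
      refine ⟨h1, ?_⟩
      have h3 : |(F.1 : ℝ) + (F.2 : ℝ) * x + h (Set.projIcc s (s + l) hle x)| < δ := h2
      rw [Set.projIcc_of_mem hle h1] at h3
      exact h3
  rw [he]
  refine measurableSet_Icc.inter (IsOpen.measurableSet ?_)
  exact isOpen_lt (((continuous_const.add (continuous_const.mul continuous_id)).add hc).abs)
    continuous_const

/-- lower bound for one strip -/
theorem Sg_low {h : ℝ → ℝ} {Λ s l δ : ℝ} (hl : 0 ≤ l) (hh : LipH h Λ s l) (hΛ : 0 ≤ Λ) (hδ : 0 < δ)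
    {p : ℤ} {q : ℕ} (hq : 1 ≤ q) (h1 : (p : ℝ) + q * s + h s ≤ -δ)
    (h2 : δ ≤ (p : ℝ) + q * (s + l) + h (s + l)) :
    ENNReal.ofReal (2 * δ / (q + Λ)) ≤ volume (Sg h s l δ (p, q)) := by
  have hle : s ≤ s + l := by linarith
  have hq0 : (1 : ℝ) ≤ q := by exact_mod_cast hq
  have hqΛ : 0 < (q : ℝ) + Λ := by linarith
  have hgc : ContinuousOn (fun x => (p : ℝ) + q * x + h x) (Set.Icc s (s + l)) :=
    ((continuous_const.add (continuous_const.mul continuous_id)).continuousOn).add hh.cont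
  obtain ⟨x₀, hx₀, hx₀'⟩ := intermediate_value_Icc hle hgc
    (show (0 : ℝ) ∈ Set.Icc ((p : ℝ) + q * s + h s) ((p : ℝ) + q * (s + l) + h (s + l)) from
      ⟨by linarith, by linarith⟩)
  simp only at hx₀'
  have hLip : ∀ x ∈ Set.Icc s (s + l), ∀ x' ∈ Set.Icc s (s + l),
      |((p : ℝ) + q * x + h x) - ((p : ℝ) + q * x' + h x')| ≤ (q + Λ) * |x - x'| := by
    intro x hx x' hx'
    have a1 := hh x hx x' hx'
    have e : ((p : ℝ) + q * x + h x) - ((p : ℝ) + q * x' + h x') = q * (x - x') + (h x - h x') := by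
      ring
    rw [e]
    refine (abs_add_le _ _).trans ?_
    rw [abs_mul, abs_of_pos (by linarith : (0 : ℝ) < q)]
    linarith
  set ρ := δ / ((q : ℝ) + Λ) with hρ
  have hρδ : ((q : ℝ) + Λ) * ρ = δ := by rw [hρ]; field_simp
  have hsub : Set.Ioo (x₀ - ρ) (x₀ + ρ) ⊆ Sg h s l δ (p, q) := by
    intro x hx
    have hxI : x ∈ Set.Icc s (s + l) := by
      constructor
      · by_contra hc
        push Not at hc
        have a1 := hLip x₀ hx₀ s ⟨le_rfl, hle⟩
        rw [abs_of_nonneg (by linarith [hx₀.1] : 0 ≤ x₀ - s)] at a1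
        have a2 : x₀ - s < ρ := by linarith [hx.1]
        have a3 : (q + Λ) * (x₀ - s) < (q + Λ) * ρ := by gcongr
        have a4 := le_abs_self (((p : ℝ) + q * x₀ + h x₀) - ((p : ℝ) + q * s + h s))
        linarith
      · by_contra hc
        push Not at hc
        have a1 := hLip (s + l) ⟨hle, le_rfl⟩ x₀ hx₀
        rw [abs_of_nonneg (by linarith [hx₀.2] : 0 ≤ s + l - x₀)] at a1
        have a2 : s + l - x₀ < ρ := by linarith [hx.2]
        have a3 : (q + Λ) * (s + l - x₀) < (q + Λ) * ρ := by gcongr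
        have a4 := le_abs_self (((p : ℝ) + q * (s + l) + h (s + l)) - ((p : ℝ) + q * x₀ + h x₀))
        linarith
    refine ⟨hxI, ?_⟩
    have a1 := hLip x hxI x₀ hx₀
    rw [hx₀', sub_zero] at a1
    refine a1.trans_lt ?_
    have a2 : |x - x₀| < ρ := by
      rw [abs_lt]; constructor <;> linarith [hx.1, hx.2]
    calc (q + Λ) * |x - x₀| < (q + Λ) * ρ := by gcongr
      _ = δ := hρδ
  have hv : volume (Set.Ioo (x₀ - ρ) (x₀ + ρ)) = ENNReal.ofReal (2 * δ / (q + Λ)) := by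
    rw [Real.volume_Ioo]
    congr 1
    rw [hρ]; ring
  rw [← hv]
  exact measure_mono hsub

/-- upper bound for one strip -/
theorem Sg_up {h : ℝ → ℝ} {Λ s l δ : ℝ} (hh : LipH h Λ s l) {q : ℕ} (p : ℤ) {w : ℝ}
    (hδ : 0 < δ) (hw : 2 * δ ≤ w * (q - Λ)) (hqΛ : 0 < (q : ℝ) - Λ) :
    volume (Sg h s l δ (p, q)) ≤ ENNReal.ofReal w := by
  have hw0 : 0 ≤ w := by
    by_contra hc
    push Not at hc
    nlinarith
  refine (Real.volume_le_diam _).trans ?_
  refine Metric.ediam_le fun x hx y hy => ?_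
  rw [edist_dist]
  refine ENNReal.ofReal_le_ofReal ?_
  rw [Real.dist_eq]
  have h1 := hx.2
  have h2 := hy.2
  simp only at h1 h2
  have a1 := hh x hx.1 y hy.1
  have e : (q : ℝ) * (x - y) = (((p : ℝ) + q * x + h x) - ((p : ℝ) + q * y + h y)) - (h x - h y) := by
    ring
  have a2 : (q : ℝ) * |x - y| ≤ 2 * δ + Λ * |x - y| := by
    have : |(q : ℝ) * (x - y)| ≤ (δ + δ) + Λ * |x - y| := by
      rw [e]
      refine (abs_sub _ _).trans (add_le_add ((abs_sub _ _).trans ?_) a1)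
      linarith
    rw [abs_mul, Nat.abs_cast] at this
    linarith
  by_contra hc
  push Not at hc
  have : w * (q - Λ) < |x - y| * (q - Λ) := by gcongr
  nlinarith

/-- multiplicity bound -/
theorem mult_le {ι : Type*} (T : Finset ι) (S : ι → Set ℝ) (hS : ∀ F ∈ T, MeasurableSet (S F))
    (U : Set ℝ) (hU : ∀ F ∈ T, S F ⊆ U) (n : ℕ) [∀ x F, Decidable (x ∈ S F)]
    (hn : ∀ x, (T.filter (fun F => x ∈ S F)).card ≤ n) :
    ∑ F ∈ T, volume (S F) ≤ n * volume U := by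
  classical
  have h1 : ∑ F ∈ T, volume (S F) = ∫⁻ x, ∑ F ∈ T, (S F).indicator (fun _ => (1 : ENNReal)) x := by
    rw [lintegral_finsetSum' _ (fun F hF => (measurable_const.indicator (hS F hF)).aemeasurable)]
    refine Finset.sum_congr rfl fun F hF => ?_
    rw [lintegral_indicator (hS F hF)]
    simp
  have hmeas : MeasurableSet (⋃ F ∈ T, S F) := Finset.measurableSet_biUnion T hS
  have h2 : ∀ x, ∑ F ∈ T, (S F).indicator (fun _ => (1 : ENNReal)) x ≤
      (⋃ F ∈ T, S F).indicator (fun _ => (n : ENNReal)) x := by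
    intro x
    have h3 : ∑ F ∈ T, (S F).indicator (fun _ => (1 : ENNReal)) x =
        ((T.filter (fun F => x ∈ S F)).card : ENNReal) := by
      rw [Finset.card_filter]
      push_cast
      refine Finset.sum_congr rfl fun F _ => ?_
      by_cases hx : x ∈ S F <;> simp [hx]
    rw [h3]
    by_cases hx : x ∈ ⋃ F ∈ T, S F
    · rw [Set.indicator_of_mem hx]
      exact_mod_cast hn x
    · rw [Set.indicator_of_notMem hx]
      have : T.filter (fun F => x ∈ S F) = ∅ := by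
        rw [Finset.filter_eq_empty_iff]
        intro F hF hxF
        exact hx (Set.mem_biUnion hF hxF)
      rw [this]; simp
  rw [h1]
  refine (lintegral_mono h2).trans ?_
  rw [lintegral_indicator hmeas]
  simp only [lintegral_const, Measure.restrict_apply, MeasurableSet.univ, Set.univ_inter]
  gcongr
  exact Set.iUnion₂_subset hU

/-- number of forms meeting a neighbourhood of a rational -/
theorem count_V {h : ℝ → ℝ} {Λ s l δ : ℝ} (hh : LipH h Λ s l) {X N : ℕ} (hN : 1 ≤ N) (hNX : N ≤ X)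
    (hΛ0 : 0 ≤ Λ) (hΛ : Λ ≤ X / 1000) {a : ℤ} {b : ℕ} (hb : 1 ≤ b) (hab : Int.gcd a b = 1)
    (hbN : b ≤ N) (hδ : b * δ ≤ 1) (T : Finset (ℤ × ℕ))
    (hT : ∀ F ∈ T, X ≤ F.2 ∧ F.2 < 2 * X ∧ ∃ x ∈ Sg h s l δ F, |(b : ℝ) * x - a| ≤ 1 / N) :
    (T.card : ℝ) ≤ 24 * X ^ 2 / (N * b) := by
  have hN0 : (0 : ℝ) < N := by exact_mod_cast hN
  have hb0 : (0 : ℝ) < b := by exact_mod_cast hb
  have hNX' : (N : ℝ) ≤ X := by exact_mod_cast hNX
  have hbX' : (b : ℝ) ≤ X := by exact_mod_cast hbN.trans hNX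
  have hX0 : (0 : ℝ) < X := hN0.trans_le hNX'
  rcases T.eq_empty_or_nonempty with hE | ⟨F₀, hF₀⟩
  · rw [hE]; simp; positivity
  obtain ⟨_, _, z, hz, hz2⟩ := hT F₀ hF₀
  set y : ℝ := b * h z with hy
  set Dd : ℝ := 1 + 2 * X / N + 2 * Λ / N with hDd
  have hv : ∀ F ∈ T, |((b * F.1 + F.2 * a : ℤ) : ℝ) + y| ≤ Dd := by
    intro F hF
    obtain ⟨hq1, hq2, x, hx, hx2⟩ := hT F hF
    have hq2' : (F.2 : ℝ) ≤ 2 * X := by exact_mod_cast hq2.le
    have e : ((b * F.1 + F.2 * a : ℤ) : ℝ) + y = b * ((F.1 : ℝ) + F.2 * x + h x) -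
        F.2 * (b * x - a) + b * (h z - h x) := by
      rw [hy]; push_cast; ring
    rw [e]
    have a1 : |(b : ℝ) * ((F.1 : ℝ) + F.2 * x + h x)| ≤ 1 := by
      rw [abs_mul, Nat.abs_cast]
      refine le_trans ?_ hδ
      exact mul_le_mul_of_nonneg_left hx.2.le hb0.le
    have a2 : |(F.2 : ℝ) * (b * x - a)| ≤ 2 * X / N := by
      rw [abs_mul, Nat.abs_cast]
      calc (F.2 : ℝ) * |(b : ℝ) * x - a| ≤ (2 * X) * (1 / N) := by gcongr
        _ = 2 * X / N := by ring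
    have a3 : |(b : ℝ) * (h z - h x)| ≤ 2 * Λ / N := by
      rw [abs_mul, Nat.abs_cast]
      have b1 := hh z hz.1 x hx.1
      have b2 : (b : ℝ) * |z - x| ≤ 2 / N := by
        have : |(b : ℝ) * (z - x)| ≤ 1 / N + 1 / N := by
          have e2 : (b : ℝ) * (z - x) = (b * z - a) - (b * x - a) := by ring
          rw [e2]
          exact (abs_sub _ _).trans (add_le_add hz2 hx2)
        rw [abs_mul, Nat.abs_cast] at this
        have e3 : (1 : ℝ) / N + 1 / N = 2 / N := by ring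
        rwa [e3] at this
      calc (b : ℝ) * |h z - h x| ≤ b * (Λ * |z - x|) := by gcongr
        _ = Λ * (b * |z - x|) := by ring
        _ ≤ Λ * (2 / N) := by gcongr
        _ = 2 * Λ / N := by ring
    calc |(b : ℝ) * ((F.1 : ℝ) + F.2 * x + h x) - F.2 * (b * x - a) + b * (h z - h x)|
        ≤ |(b : ℝ) * ((F.1 : ℝ) + F.2 * x + h x) - F.2 * (b * x - a)| + |(b : ℝ) * (h z - h x)| :=
          abs_add_le _ _
      _ ≤ (|(b : ℝ) * ((F.1 : ℝ) + F.2 * x + h x)| + |(F.2 : ℝ) * (b * x - a)|) +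
          |(b : ℝ) * (h z - h x)| := by gcongr; exact abs_sub _ _
      _ ≤ Dd := by rw [hDd]; linarith
  have hcard : T.card ≤ ((Finset.Icc ⌈-y - Dd⌉ ⌊-y + Dd⌋) ×ˢ
      (Finset.Icc (X / b) (2 * X / b))).card := by
    refine Finset.card_le_card_of_injOn (fun F => (b * F.1 + F.2 * a, F.2 / b)) ?_ ?_
    · intro F hF
      have h1 := hv F hF
      obtain ⟨hq1, hq2, _⟩ := hT F hF
      rw [abs_le] at h1
      simp only [Finset.coe_product, Set.mem_prod, Finset.coe_Icc, Set.mem_Icc]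
      refine ⟨⟨Int.ceil_le.2 (by linarith), Int.le_floor.2 (by linarith)⟩, ?_, ?_⟩
      · exact Nat.div_le_div_right hq1
      · exact Nat.div_le_div_right hq2.le
    · intro F hF F' hF' heq
      have h1 : (b : ℤ) * F.1 + F.2 * a = b * F'.1 + F'.2 * a := congrArg Prod.fst heq
      have h2 : F.2 / b = F'.2 / b := congrArg Prod.snd heq
      have h3 : (b : ℤ) ∣ ((F'.2 : ℤ) - F.2) * a := ⟨F.1 - F'.1, by linarith⟩
      have h4 : (b : ℤ) ∣ (F'.2 : ℤ) - F.2 := by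
        refine Int.dvd_of_dvd_mul_left_of_gcd_one h3 ?_
        rw [Int.gcd_comm]; exact hab
      have h5 : F.2 ≡ F'.2 [MOD b] := (Nat.modEq_iff_dvd).2 h4
      have h6 : F.2 = F'.2 := by
        rw [← Nat.div_add_mod F.2 b, ← Nat.div_add_mod F'.2 b, h2, h5]
      have h7 : F.1 = F'.1 := by
        rw [h6] at h1
        have hb' : (b : ℤ) ≠ 0 := by exact_mod_cast (by omega : b ≠ 0)
        exact mul_left_cancel₀ hb' (by linarith)
      exact Prod.ext h7 h6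
  have hDd0 : 0 ≤ Dd := by rw [hDd]; positivity
  have c1 : ((Finset.Icc ⌈-y - Dd⌉ ⌊-y + Dd⌋).card : ℝ) ≤ 8 * X / N := by
    rw [Int.card_Icc]
    have a1 := Int.le_ceil (-y - Dd)
    have a2 := Int.floor_le (-y + Dd)
    have a3 : (((⌊-y + Dd⌋ + 1 - ⌈-y - Dd⌉).toNat : ℤ) : ℝ) ≤ 2 * Dd + 1 := by
      rw [Int.toNat_eq_max, Int.cast_max]
      refine max_le ?_ (by push_cast; linarith)
      push_cast
      linarith
    have a4 : (((⌊-y + Dd⌋ + 1 - ⌈-y - Dd⌉).toNat : ℕ) : ℝ) ≤ 2 * Dd + 1 := by exact_mod_cast a3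
    refine a4.trans ?_
    rw [hDd, le_div_iff₀ hN0]
    have e : (2 * (1 + 2 * X / N + 2 * Λ / N) + 1) * N = 3 * N + 4 * X + 4 * Λ := by
      field_simp; ring
    rw [e]
    linarith
  have c2 : ((Finset.Icc (X / b) (2 * X / b)).card : ℝ) ≤ 3 * X / b := by
    rw [Nat.card_Icc]
    have a1 : ((2 * X / b : ℕ) : ℝ) ≤ 2 * X / b := by
      have := Nat.cast_div_le (α := ℝ) (m := 2 * X) (n := b)
      push_cast at this
      exact this
    have a2 : (X : ℝ) / b < ((X / b : ℕ) : ℝ) + 1 := by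
      rw [div_lt_iff₀ hb0]
      have := Nat.lt_div_mul_add (a := X) (b := b) (by omega)
      have h8 : X < (X / b + 1) * b := by nlinarith
      exact_mod_cast h8
    have a3 : ((2 * X / b + 1 - X / b : ℕ) : ℝ) ≤ 2 * X / b + 1 - ((X / b : ℕ) : ℝ) := by
      have h9 : X / b ≤ 2 * X / b + 1 := (Nat.div_le_div_right (by omega)).trans (Nat.le_succ _)
      rw [Nat.cast_sub h9]
      push_cast
      linarith
    refine a3.trans ?_
    have a4 : (1 : ℝ) ≤ X / b := by rw [le_div_iff₀ hb0]; linarith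
    have e1 : (2 : ℝ) * X / b = 2 * (X / b) := by ring
    have e2 : (3 : ℝ) * X / b = 3 * (X / b) := by ring
    rw [e1, e2]
    linarith
  calc (T.card : ℝ) ≤ (((Finset.Icc ⌈-y - Dd⌉ ⌊-y + Dd⌋) ×ˢ
      (Finset.Icc (X / b) (2 * X / b))).card : ℝ) := by exact_mod_cast hcard
    _ = ((Finset.Icc ⌈-y - Dd⌉ ⌊-y + Dd⌋).card : ℝ) * ((Finset.Icc (X / b) (2 * X / b)).card : ℝ) := by
        rw [Finset.card_product]; push_cast; rfl
    _ ≤ (8 * X / N) * (3 * X / b) := by gcongr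
    _ = 24 * X ^ 2 / (N * b) := by ring

theorem kap_pos : 0 < kap := by unfold kap; norm_num

theorem kap_le : kap ≤ 1 := by unfold kap; norm_num

/-- contribution of the points not in `EE N` -/
theorem bad_sum {h : ℝ → ℝ} {Λ s l δ : ℝ} (hl : 0 ≤ l) (hh : LipH h Λ s l) {X N j : ℕ}
    (hN : N = 2 ^ j) (hNX : N ≤ X) (hΛ0 : 0 ≤ Λ) (hΛ : Λ ≤ X / 1000) (hδ0 : 0 < δ)
    (hδ : X * δ ≤ 1) (hj : 3 * (1 + (j : ℝ)) ≤ kap * l * N) (T : Finset (ℤ × ℕ))
    (hT : ∀ F ∈ T, X ≤ F.2 ∧ F.2 < 2 * X) :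
    ∑ F ∈ T, volume (Sg h s l δ F ∩ {x | ¬ EE N x}) ≤
      ENNReal.ofReal (144 * kap * (l * (X * δ))) := by
  classical
  have hN1 : 1 ≤ N := by rw [hN]; exact Nat.one_le_two_pow
  have hN0 : (0 : ℝ) < N := by exact_mod_cast hN1
  have hNX' : (N : ℝ) ≤ X := by exact_mod_cast hNX
  have hX0 : (0 : ℝ) < X := hN0.trans_le hNX'
  have hkap := kap_pos
  set Bs := Finset.Icc 1 ⌊kap * N⌋₊ with hBs
  have hBsle : (⌊kap * N⌋₊ : ℝ) ≤ kap * N := Nat.floor_le (by positivity)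
  have hBsN : ⌊kap * N⌋₊ ≤ N := by
    have : (⌊kap * N⌋₊ : ℝ) ≤ N := hBsle.trans (by nlinarith [kap_le])
    exact_mod_cast this
  let As : ℕ → Finset ℤ := fun b => (Finset.Icc ⌈(b : ℝ) * s - 1 / N⌉ ⌊(b : ℝ) * (s + l) + 1 / N⌋).filter
    (fun a => Int.gcd a b = 1)
  let V : ℕ → ℤ → Set ℝ := fun b a => {x | |(b : ℝ) * x - a| ≤ 1 / N}
  have hcov : ∀ F, Sg h s l δ F ∩ {x | ¬ EE N x} ⊆ ⋃ b ∈ Bs, ⋃ a ∈ As b, (Sg h s l δ F ∩ V b a) := by
    rintro F x ⟨hx, hxE⟩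
    have hxE' : ¬ EE N x := hxE
    unfold EE at hxE'
    push Not at hxE'
    obtain ⟨b, hb1, hb2, a, hba⟩ := hxE'
    have hg0 : Int.gcd a b ≠ 0 := by
      intro h0
      have := (Int.gcd_eq_zero_iff.1 h0).2
      omega
    obtain ⟨g, hg⟩ : ∃ g : ℕ, g = Int.gcd a b := ⟨_, rfl⟩
    have hgpos : 0 < g := by omega
    obtain ⟨a', ha'⟩ : (g : ℤ) ∣ a := by rw [hg]; exact Int.gcd_dvd_left _ _
    obtain ⟨b', hb'⟩ : g ∣ b := by
      have : ((g : ℕ) : ℤ) ∣ (b : ℤ) := by rw [hg]; exact Int.gcd_dvd_right _ _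
      exact_mod_cast this
    have hcop : Int.gcd a' b' = 1 := by
      have h1 : Int.gcd a b = g * Int.gcd a' b' := by
        rw [ha', hb']
        push_cast
        rw [Int.gcd_mul_left]
        simp
      rw [← hg] at h1
      have h2 : g * Int.gcd a' b' = g * 1 := by omega
      exact Nat.eq_of_mul_eq_mul_left hgpos h2
    have hb'1 : 1 ≤ b' := by
      rcases Nat.eq_zero_or_pos b' with h0 | h0
      · rw [h0] at hb'; omega
      · exact h0
    have hb'b : b' ≤ b := by rw [hb']; exact Nat.le_mul_of_pos_left _ hgpos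
    have hgr : (1 : ℝ) ≤ g := by exact_mod_cast hgpos
    have hVx : |(b' : ℝ) * x - a'| ≤ 1 / N := by
      have e : (b : ℝ) * x - a = g * ((b' : ℝ) * x - a') := by
        rw [ha', hb']; push_cast; ring
      rw [e, abs_mul, Nat.abs_cast] at hba
      refine le_trans ?_ hba
      exact le_mul_of_one_le_left (abs_nonneg _) hgr
    refine Set.mem_biUnion (x := b') ?_ (Set.mem_biUnion (x := a') ?_ ⟨hx, hVx⟩)
    · rw [hBs]
      refine Finset.mem_coe.2 (Finset.mem_Icc.2 ⟨hb'1, Nat.le_floor ?_⟩)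
      have : (b' : ℝ) ≤ b := by exact_mod_cast hb'b
      linarith
    · refine Finset.mem_coe.2 (Finset.mem_filter.2 ⟨Finset.mem_Icc.2 ⟨?_, ?_⟩, hcop⟩)
      · rw [abs_le] at hVx
        refine Int.ceil_le.2 ?_
        have : (b' : ℝ) * s ≤ b' * x := by gcongr; exact hx.1.1
        linarith [hVx.2]
      · rw [abs_le] at hVx
        refine Int.le_floor.2 ?_
        have : (b' : ℝ) * x ≤ b' * (s + l) := by gcongr; exact hx.1.2
        linarith [hVx.1]
  have hone : ∀ b ∈ Bs, ∀ a ∈ As b, ∑ F ∈ T, volume (Sg h s l δ F ∩ V b a) ≤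
      ENNReal.ofReal (72 * (X * δ) / (N * b)) := by
    intro b hb a ha
    have hb1 := (Finset.mem_Icc.1 hb).1
    have hb2 := (Finset.mem_Icc.1 hb).2
    have hb0 : (0 : ℝ) < b := by exact_mod_cast hb1
    have hbX : (b : ℝ) ≤ X := by exact_mod_cast (hb2.trans hBsN).trans hNX
    set T' := T.filter (fun F => (Sg h s l δ F ∩ V b a).Nonempty) with hT'
    have h1 : ∑ F ∈ T, volume (Sg h s l δ F ∩ V b a) =
        ∑ F ∈ T', volume (Sg h s l δ F ∩ V b a) := by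
      rw [hT', Finset.sum_filter]
      refine Finset.sum_congr rfl fun F _ => ?_
      split_ifs with hne
      · rfl
      · rw [Set.not_nonempty_iff_eq_empty.1 hne]; simp
    have h2 : (T'.card : ℝ) ≤ 24 * X ^ 2 / (N * b) := by
      refine count_V (δ := δ) hh hN1 hNX hΛ0 hΛ hb1 (Finset.mem_filter.1 ha).2 (hb2.trans hBsN) ?_ T' ?_
      · calc (b : ℝ) * δ ≤ X * δ := by gcongr
          _ ≤ 1 := hδ
      · intro F hF
        rw [hT', Finset.mem_filter] at hF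
        obtain ⟨x, hx⟩ := hF.2
        exact ⟨(hT F hF.1).1, (hT F hF.1).2, x, hx.1, hx.2⟩
    rw [h1]
    have h3 : ∀ F ∈ T', volume (Sg h s l δ F ∩ V b a) ≤ ENNReal.ofReal (3 * δ / X) := by
      intro F hF
      have hFT := hT F (Finset.mem_filter.1 hF).1
      have hq : (X : ℝ) ≤ F.2 := by exact_mod_cast hFT.1
      refine (measure_mono Set.inter_subset_left).trans ?_
      refine Sg_up (q := F.2) hh F.1 hδ0 ?_ (by linarith)
      rw [div_mul_eq_mul_div, le_div_iff₀ hX0]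
      nlinarith
    refine (Finset.sum_le_sum h3).trans ?_
    rw [Finset.sum_const, nsmul_eq_mul, ← ENNReal.ofReal_natCast, ← ENNReal.ofReal_mul (by positivity)]
    refine ENNReal.ofReal_le_ofReal ?_
    calc (T'.card : ℝ) * (3 * δ / X) ≤ 24 * X ^ 2 / (N * b) * (3 * δ / X) := by gcongr
      _ = 72 * (X * δ) / (N * b) := by field_simp; ring
  have hA : ∀ b ∈ Bs, ((As b).card : ℝ) ≤ b * l + 3 := by
    intro b _
    refine le_trans (Nat.cast_le.2 (Finset.card_filter_le _ _)) ?_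
    rw [Int.card_Icc]
    have a1 := Int.le_ceil ((b : ℝ) * s - 1 / N)
    have a2 := Int.floor_le ((b : ℝ) * (s + l) + 1 / N)
    have a5 : (1 : ℝ) / N ≤ 1 := by
      rw [div_le_one hN0]; exact_mod_cast hN1
    have a3 : (((⌊(b : ℝ) * (s + l) + 1 / N⌋ + 1 - ⌈(b : ℝ) * s - 1 / N⌉).toNat : ℤ) : ℝ) ≤
        b * l + 3 := by
      rw [Int.toNat_eq_max, Int.cast_max]
      refine max_le ?_ (by push_cast; positivity)
      push_cast
      nlinarith
    exact_mod_cast a3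
  calc ∑ F ∈ T, volume (Sg h s l δ F ∩ {x | ¬ EE N x})
      ≤ ∑ F ∈ T, ∑ b ∈ Bs, ∑ a ∈ As b, volume (Sg h s l δ F ∩ V b a) := by
        refine Finset.sum_le_sum fun F _ => ?_
        refine (measure_mono (hcov F)).trans ?_
        refine (measure_biUnion_finset_le _ _).trans ?_
        exact Finset.sum_le_sum fun b _ => measure_biUnion_finset_le _ _
    _ = ∑ b ∈ Bs, ∑ a ∈ As b, ∑ F ∈ T, volume (Sg h s l δ F ∩ V b a) := by
        rw [Finset.sum_comm]
        refine Finset.sum_congr rfl fun b _ => ?_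
        rw [Finset.sum_comm]
    _ ≤ ∑ b ∈ Bs, ∑ a ∈ As b, ENNReal.ofReal (72 * (X * δ) / (N * b)) := by
        exact Finset.sum_le_sum fun b hb => Finset.sum_le_sum fun a ha => hone b hb a ha
    _ ≤ ∑ b ∈ Bs, ENNReal.ofReal ((b * l + 3) * (72 * (X * δ) / (N * b))) := by
        refine Finset.sum_le_sum fun b hb => ?_
        rw [Finset.sum_const, nsmul_eq_mul, ← ENNReal.ofReal_natCast,
          ← ENNReal.ofReal_mul (by positivity)]
        refine ENNReal.ofReal_le_ofReal ?_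
        have := hA b hb
        gcongr
    _ = ENNReal.ofReal (∑ b ∈ Bs, (b * l + 3) * (72 * (X * δ) / (N * b))) := by
        rw [ENNReal.ofReal_sum_of_nonneg]
        intro b _
        positivity
    _ ≤ ENNReal.ofReal (144 * kap * (l * (X * δ))) := by
        refine ENNReal.ofReal_le_ofReal ?_
        have e1 : ∀ b ∈ Bs, ((b : ℝ) * l + 3) * (72 * (X * δ) / (N * b)) =
            72 * (X * δ) / N * (l + 3 * (1 / (b : ℝ))) := by
          intro b hb
          have hb1 := (Finset.mem_Icc.1 hb).1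
          have hb0 : (0 : ℝ) < b := by exact_mod_cast hb1
          field_simp
        rw [Finset.sum_congr rfl e1, ← Finset.mul_sum, Finset.sum_add_distrib, ← Finset.mul_sum,
          Finset.sum_const, nsmul_eq_mul]
        have hc : (Bs.card : ℝ) ≤ kap * N := by
          rw [hBs, Nat.card_Icc]
          simpa using hBsle
        have hinv : ∑ b ∈ Bs, (1 : ℝ) / (b : ℝ) ≤ 1 + j :=
          COPR.sum_inv_pow j ⌊kap * N⌋₊ (by rw [← hN]; exact hBsN)
        have h5 : (Bs.card : ℝ) * l + 3 * ∑ b ∈ Bs, (1 : ℝ) / (b : ℝ) ≤ 2 * (kap * N * l) := by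
          have : (Bs.card : ℝ) * l ≤ kap * N * l := by gcongr
          nlinarith
        calc 72 * (X * δ) / N * ((Bs.card : ℝ) * l + 3 * ∑ b ∈ Bs, (1 : ℝ) / (b : ℝ))
            ≤ 72 * (X * δ) / N * (2 * (kap * N * l)) := by gcongr
          _ = 144 * kap * (l * (X * δ)) := by field_simp; ring

theorem nat_aux (X Q Q' c : ℕ) (hX : 0 < X) (hQ : X ≤ Q) (hlt : Q < Q')
    (hdiv : (Q - X) * c / X = (Q' - X) * c / X) : (Q' - Q) * c < X := by
  have d1 := Nat.div_mul_le_self ((Q - X) * c) X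
  have d2 := Nat.lt_div_mul_add (a := (Q' - X) * c) (b := X) hX
  rw [← hdiv] at d2
  have d3 : (Q' - X) * c < (Q - X) * c + X := by omega
  obtain ⟨u, rfl⟩ := Nat.exists_eq_add_of_le hQ
  obtain ⟨v, rfl⟩ := Nat.exists_eq_add_of_le hlt.le
  have e1 : X + u + v - X = u + v := by omega
  have e2 : X + u - X = u := by omega
  have e3 : X + u + v - (X + u) = v := by omega
  rw [e1, e2, Nat.add_mul] at d3
  rw [e3]
  omega

/-- multiplicity of the forms at a point of `EE (2 ^ k)` -/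
theorem mult_pt {h : ℝ → ℝ} {s l δ : ℝ} {X : ℕ} (hX : 1 ≤ X) (hδ0 : 0 < δ) (hδ : 16 * (X * δ) ≤ 1)
    (T : Finset (ℤ × ℕ)) (hT : ∀ F ∈ T, X ≤ F.2 ∧ F.2 < 2 * X) (x : ℝ) (hx : EE X x)
    (hTx : ∀ F ∈ T, x ∈ Sg h s l δ F) : T.card ≤ 65536 := by
  have hX0 : (0 : ℝ) < X := by exact_mod_cast hX
  have hcard : T.card ≤ (Finset.range 65536).card := by
    refine Finset.card_le_card_of_injOn (fun F => (F.2 - X) * 65536 / X) ?_ ?_
    · intro F hF
      obtain ⟨h1, h2⟩ := hT F hF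
      simp only [Finset.coe_range, Set.mem_Iio]
      rw [Nat.div_lt_iff_lt_mul (by omega)]
      have : F.2 - X < X := by omega
      nlinarith
    · intro F hF F' hF' heq
      have hF1 := hT F hF
      have hF2 := hT F' hF'
      have a1 := (hTx F hF).2
      have a2 := (hTx F' hF').2
      have hδ1 : 2 * δ < 1 / (X : ℝ) := by
        rw [lt_div_iff₀ hX0]; nlinarith
      have hδ2 : 2 * δ < 1 := by
        have : (1 : ℝ) ≤ X := by exact_mod_cast hX
        nlinarith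
      -- a general contradiction for two different values of q
      have gen : ∀ (P P' : ℤ) (Q Q' : ℕ), X ≤ Q → X ≤ Q' → |(P : ℝ) + (Q : ℝ) * x + h x| < δ →
          |(P' : ℝ) + (Q' : ℝ) * x + h x| < δ → (Q - X) * 65536 / X = (Q' - X) * 65536 / X →
          ¬ Q < Q' := by
        intro P P' Q Q' hQ hQ' b1 b2 hdiv hlt
        have c1 : (Q' - Q) * 65536 < X := by
          exact nat_aux X Q Q' 65536 hX hQ hlt hdiv
        have c2 : ((Q' - Q : ℕ) : ℝ) < kap * X := by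
          have : ((Q' - Q : ℕ) : ℝ) * 65536 < X := by exact_mod_cast c1
          unfold kap
          linarith
        have c3 := hx (Q' - Q) (by omega) c2 (-(P' - P))
        rw [Nat.cast_sub hlt.le] at c3
        have e : ((Q' : ℝ) - Q) * x - ((-(P' - P) : ℤ) : ℝ) =
            ((P' : ℝ) + Q' * x + h x) - ((P : ℝ) + Q * x + h x) := by
          push_cast; ring
        rw [e] at c3
        have c4 := (abs_sub ((P' : ℝ) + Q' * x + h x) ((P : ℝ) + Q * x + h x)).trans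
          (add_le_add b2.le b1.le)
        linarith
      have h1 := gen F.1 F'.1 F.2 F'.2 hF1.1 hF2.1 a1 a2 heq
      have h2 := gen F'.1 F.1 F'.2 F.2 hF2.1 hF1.1 a2 a1 heq.symm
      have h3 : F.2 = F'.2 := by omega
      have h4 : F.1 = F'.1 := by
        rw [h3] at a1
        have c4 := (abs_sub ((F'.1 : ℝ) + F'.2 * x + h x) ((F.1 : ℝ) + F'.2 * x + h x)).trans
          (add_le_add a2.le a1.le)
        have e : ((F'.1 : ℝ) + F'.2 * x + h x) - ((F.1 : ℝ) + F'.2 * x + h x) =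
            ((F'.1 - F.1 : ℤ) : ℝ) := by push_cast; ring
        rw [e] at c4
        have c5 : |((F'.1 - F.1 : ℤ) : ℝ)| < 1 := by linarith
        have c6 : |F'.1 - F.1| < 1 := by exact_mod_cast c5
        have c7 := Int.abs_lt_one_iff.1 c6
        omega
      exact Prod.ext h4 h3
  simpa using hcard

theorem EE_meas (N : ℕ) : MeasurableSet {x : ℝ | EE N x} := by
  have : {x : ℝ | EE N x} = ⋂ (b : ℕ) (_ : 1 ≤ b) (_ : (b : ℝ) < kap * N) (a : ℤ),
      {x : ℝ | 1 / (N : ℝ) < |(b : ℝ) * x - a|} := by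
    ext x
    simp only [Set.mem_iInter]
    rfl
  rw [this]
  refine MeasurableSet.iInter fun b => MeasurableSet.iInter fun _ => MeasurableSet.iInter fun _ =>
    MeasurableSet.iInter fun a => ?_
  exact (isOpen_lt continuous_const (by fun_prop)).measurableSet

/-- the abstract first moment estimate -/
theorem core {h : ℝ → ℝ} {Λ s l δ : ℝ} (hl0 : 0 < l) (hl1 : l ≤ 1) (hh : LipH h Λ s l)
    {X j₁ j₂ j₃ : ℕ} (hX : X = 2 ^ j₁) (h2 : 2 ^ j₂ ≤ X) (h3 : 2 ^ j₃ ≤ X)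
    (hΛ0 : 0 ≤ Λ) (hΛ : Λ ≤ X / 1000) (hδ0 : 0 < δ) (hδ : 16 * (X * δ) ≤ 1)
    (hj₁ : 3 * (1 + (j₁ : ℝ)) ≤ kap * l * X) (hj₂ : 3 * (1 + (j₂ : ℝ)) ≤ kap * l * (2 ^ j₂ : ℕ))
    (hj₃ : 3 * (1 + (j₃ : ℝ)) ≤ kap * l * (2 ^ j₃ : ℕ)) (hXl : 200 ≤ X * l)
    (hcop : ∀ (α : ℕ → ℤ) (M : ℕ → ℕ),
      (∀ q : ℕ, X ≤ q → q < 2 * X → |(M q : ℝ) - q * l| ≤ q * l / 50) →
      (1 / 10 : ℝ) * (X : ℝ) ^ 2 * l ≤ ∑ q ∈ Finset.Ico X (2 * X),
        ((((Finset.Ico (α q) (α q + M q)).filter (fun p => Int.gcd p q = 1)).card : ℕ) : ℝ)) :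
    ENNReal.ofReal (1 / 1000000 * l * (X * δ)) ≤
      volume {x | x ∈ Set.Icc s (s + l) ∧ EE X x ∧ EE (2 ^ j₂) x ∧ EE (2 ^ j₃) x ∧
        ∃ (p : ℤ) (q : ℕ), X ≤ q ∧ q < 2 * X ∧ Int.gcd p q = 1 ∧
          |(p : ℝ) + (q : ℝ) * x + h x| < δ} := by
  classical
  have hX1 : 1 ≤ X := by rw [hX]; exact Nat.one_le_two_pow
  have hX0 : (0 : ℝ) < X := by exact_mod_cast hX1
  have hkap := kap_pos
  have hδ1 : δ ≤ 1 / 16 := by
    have : (1 : ℝ) ≤ X := by exact_mod_cast hX1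
    nlinarith
  have hs : s ∈ Set.Icc s (s + l) := ⟨le_rfl, by linarith⟩
  have hsl : s + l ∈ Set.Icc s (s + l) := ⟨by linarith, le_rfl⟩
  let α : ℕ → ℤ := fun q => ⌈δ - (q * (s + l) + h (s + l))⌉
  let M : ℕ → ℕ := fun q => (⌊-δ - (q * s + h s)⌋ + 1 - α q).toNat
  have hhsl : |h (s + l) - h s| ≤ Λ * l := by
    have := hh (s + l) hsl s hs
    have e : s + l - s = l := by ring
    rwa [e, abs_of_pos hl0] at this
  rw [abs_le] at hhsl
  have hMint : ∀ q : ℕ, X ≤ q → (0 : ℤ) ≤ ⌊-δ - (q * s + h s)⌋ + 1 - α q ∧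
      |((⌊-δ - (q * s + h s)⌋ + 1 - α q : ℤ) : ℝ) - q * l| ≤ q * l / 50 := by
    intro q hq
    have hq' : (X : ℝ) ≤ q := by exact_mod_cast hq
    have a1 := Int.floor_le (-δ - (q * s + h s))
    have a2 := Int.lt_floor_add_one (-δ - (q * s + h s))
    have a3 := Int.le_ceil (δ - (q * (s + l) + h (s + l)))
    have a4 := Int.ceil_lt_add_one (δ - (q * (s + l) + h (s + l)))
    have hql : 200 ≤ (q : ℝ) * l := hXl.trans (by gcongr)
    have hΛl : Λ * l ≤ q * l / 1000 := by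
      have : Λ ≤ q / 1000 := by linarith
      calc Λ * l ≤ q / 1000 * l := by gcongr
        _ = q * l / 1000 := by ring
    have hb : |((⌊-δ - (q * s + h s)⌋ + 1 - α q : ℤ) : ℝ) - q * l| ≤ q * l / 50 := by
      have e : ((α q : ℤ) : ℝ) = (⌈δ - (q * (s + l) + h (s + l))⌉ : ℝ) := rfl
      push_cast
      rw [e, abs_le]
      constructor <;> nlinarith
    refine ⟨?_, hb⟩
    rw [abs_le] at hb
    have : (0 : ℝ) ≤ ((⌊-δ - (q * s + h s)⌋ + 1 - α q : ℤ) : ℝ) := by linarith [hb.1]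
    exact_mod_cast this
  have hM : ∀ q : ℕ, X ≤ q → q < 2 * X → |(M q : ℝ) - q * l| ≤ q * l / 50 := by
    intro q hq _
    obtain ⟨b1, b2⟩ := hMint q hq
    have : ((M q : ℤ)) = ⌊-δ - (q * s + h s)⌋ + 1 - α q := Int.toNat_of_nonneg b1
    have h4 : (M q : ℝ) = ((⌊-δ - (q * s + h s)⌋ + 1 - α q : ℤ) : ℝ) := by
      rw [← this]; push_cast; rfl
    rw [h4]
    exact b2
  have hcop' := hcop α M hM
  -- the finite set of forms
  let T₀ : Finset (Σ _ : ℕ, ℤ) := (Finset.Ico X (2 * X)).sigma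
    (fun q => (Finset.Ico (α q) (α q + M q)).filter (fun p => Int.gcd p q = 1))
  let T : Finset (ℤ × ℕ) := T₀.image (fun z => (z.2, z.1))
  have hTmem : ∀ F, F ∈ T ↔ (X ≤ F.2 ∧ F.2 < 2 * X) ∧
      (α F.2 ≤ F.1 ∧ F.1 < α F.2 + M F.2) ∧ Int.gcd F.1 F.2 = 1 := by
    intro F
    simp only [T, T₀, Finset.mem_image, Finset.mem_sigma, Finset.mem_Ico, Finset.mem_filter]
    constructor
    · rintro ⟨z, hz, rfl⟩
      exact hz
    · intro hF
      exact ⟨⟨F.2, F.1⟩, hF, rfl⟩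
  have hTcard : (1 / 10 : ℝ) * (X : ℝ) ^ 2 * l ≤ T.card := by
    refine hcop'.trans (le_of_eq ?_)
    have e1 : T.card = T₀.card := by
      refine Finset.card_image_of_injective _ ?_
      rintro ⟨a, b⟩ ⟨c, d⟩ hab
      simp only [Prod.mk.injEq] at hab
      obtain ⟨rfl, rfl⟩ := hab
      rfl
    rw [e1, Finset.card_sigma]
    push_cast
    rfl
  have hT : ∀ F ∈ T, X ≤ F.2 ∧ F.2 < 2 * X := fun F hF => ((hTmem F).1 hF).1
  set G : Set ℝ := {x | EE X x} ∩ ({x | EE (2 ^ j₂) x} ∩ {x | EE (2 ^ j₃) x}) with hG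
  have hGm : MeasurableSet G := (EE_meas X).inter ((EE_meas _).inter (EE_meas _))
  set Q : ℝ := l * (X * δ) with hQ
  have hQ0 : 0 < Q := by positivity
  set U : Set ℝ := {x | x ∈ Set.Icc s (s + l) ∧ EE X x ∧ EE (2 ^ j₂) x ∧ EE (2 ^ j₃) x ∧
        ∃ (p : ℤ) (q : ℕ), X ≤ q ∧ q < 2 * X ∧ Int.gcd p q = 1 ∧
          |(p : ℝ) + (q : ℝ) * x + h x| < δ} with hU
  -- lower bound
  have hlow : ENNReal.ofReal (99 / 1000 * Q) ≤ ∑ F ∈ T, volume (Sg h s l δ F) := by
    have h4 : ∀ F ∈ T, ENNReal.ofReal (99 / 100 * (δ / X)) ≤ volume (Sg h s l δ F) := by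
      intro F hF
      obtain ⟨⟨q1, q2⟩, ⟨p1, p2⟩, _⟩ := (hTmem F).1 hF
      have hq1 : (X : ℝ) ≤ F.2 := by exact_mod_cast q1
      have hq2 : (F.2 : ℝ) ≤ 2 * X := by exact_mod_cast q2.le
      have b1 : δ - (F.2 * (s + l) + h (s + l)) ≤ (F.1 : ℝ) := by
        refine (Int.le_ceil _).trans ?_
        exact_mod_cast p1
      have b2 : (F.1 : ℝ) ≤ -δ - (F.2 * s + h s) := by
        have hMq : ((M F.2 : ℕ) : ℤ) = ⌊-δ - ((F.2 : ℕ) * s + h s)⌋ + 1 - α F.2 :=
          Int.toNat_of_nonneg (hMint F.2 q1).1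
        have : F.1 ≤ ⌊-δ - ((F.2 : ℕ) * s + h s)⌋ := by
          rw [hMq] at p2
          linarith
        exact Int.le_floor.1 this
      have := Sg_low (p := F.1) (q := F.2) hl0.le hh hΛ0 hδ0 (by omega) (by linarith) (by linarith)
      refine le_trans (ENNReal.ofReal_le_ofReal ?_) this
      rw [le_div_iff₀ (by linarith)]
      have e : 99 / 100 * (δ / (X : ℝ)) * ((F.2 : ℝ) + Λ) = (99 / 100 * δ) * (((F.2 : ℝ) + Λ) / X) := by
        ring
      rw [e]
      have b3 : ((F.2 : ℝ) + Λ) / X ≤ 2001 / 1000 := by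
        rw [div_le_iff₀ hX0]; linarith
      have b4 : (99 / 100 * δ) * (((F.2 : ℝ) + Λ) / X) ≤ (99 / 100 * δ) * (2001 / 1000) := by gcongr
      linarith
    refine le_trans ?_ (Finset.sum_le_sum h4)
    rw [Finset.sum_const, nsmul_eq_mul, ← ENNReal.ofReal_natCast, ← ENNReal.ofReal_mul (by positivity)]
    refine ENNReal.ofReal_le_ofReal ?_
    calc 99 / 1000 * Q = (1 / 10 : ℝ) * (X : ℝ) ^ 2 * l * (99 / 100 * (δ / X)) := by
          rw [hQ]; field_simp; ring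
      _ ≤ T.card * (99 / 100 * (δ / X)) := by gcongr
  -- splitting
  have hsplit : ∑ F ∈ T, volume (Sg h s l δ F) ≤ ∑ F ∈ T, volume (Sg h s l δ F ∩ G) +
      (∑ F ∈ T, volume (Sg h s l δ F ∩ {x | ¬ EE X x}) +
        (∑ F ∈ T, volume (Sg h s l δ F ∩ {x | ¬ EE (2 ^ j₂) x}) +
          ∑ F ∈ T, volume (Sg h s l δ F ∩ {x | ¬ EE (2 ^ j₃) x}))) := by
    rw [← Finset.sum_add_distrib, ← Finset.sum_add_distrib, ← Finset.sum_add_distrib]
    refine Finset.sum_le_sum fun F _ => ?_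
    have hc : Sg h s l δ F ⊆ (Sg h s l δ F ∩ G) ∪ ((Sg h s l δ F ∩ {x | ¬ EE X x}) ∪
        ((Sg h s l δ F ∩ {x | ¬ EE (2 ^ j₂) x}) ∪ (Sg h s l δ F ∩ {x | ¬ EE (2 ^ j₃) x}))) := by
      intro x hx
      by_cases e1 : EE X x
      · by_cases e2 : EE (2 ^ j₂) x
        · by_cases e3 : EE (2 ^ j₃) x
          · exact Or.inl ⟨hx, e1, e2, e3⟩
          · exact Or.inr (Or.inr (Or.inr ⟨hx, e3⟩))
        · exact Or.inr (Or.inr (Or.inl ⟨hx, e2⟩))
      · exact Or.inr (Or.inl ⟨hx, e1⟩)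
    refine (measure_mono hc).trans ?_
    refine (measure_union_le _ _).trans (add_le_add le_rfl ?_)
    refine (measure_union_le _ _).trans (add_le_add le_rfl ?_)
    exact measure_union_le _ _
  have hXδ : (X : ℝ) * δ ≤ 1 := by nlinarith [mul_pos hX0 hδ0]
  have B1 := bad_sum hl0.le hh hX le_rfl hΛ0 hΛ hδ0 hXδ hj₁ T hT
  have B2 := bad_sum hl0.le hh rfl h2 hΛ0 hΛ hδ0 hXδ hj₂ T hT
  have B3 := bad_sum hl0.le hh rfl h3 hΛ0 hΛ hδ0 hXδ hj₃ T hT
  have hmult : ∑ F ∈ T, volume (Sg h s l δ F ∩ G) ≤ (65536 : ℕ) * volume U := by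
    refine mult_le T (fun F => Sg h s l δ F ∩ G) (fun F _ => (Sg_meas hl0.le hh δ F).inter hGm) U
      ?_ 65536 ?_
    · rintro F hF x ⟨hx, hx1, hx2, hx3⟩
      exact ⟨hx.1, hx1, hx2, hx3, F.1, F.2, (hT F hF).1, (hT F hF).2, ((hTmem F).1 hF).2.2, hx.2⟩
    · intro x
      rcases (T.filter (fun F => x ∈ Sg h s l δ F ∩ G)).eq_empty_or_nonempty with hE | ⟨F, hF⟩
      · rw [hE]; simp
      · have hxE : EE X x := ((Finset.mem_filter.1 hF).2.2).1
        refine mult_pt (h := h) (s := s) (l := l) hX1 hδ0 hδ _ ?_ x hxE ?_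
        · intro F hF
          exact hT F (Finset.mem_filter.1 hF).1
        · intro F hF
          exact (Finset.mem_filter.1 hF).2.1
  have hfinal : ENNReal.ofReal (99 / 1000 * Q) ≤ (65536 : ℕ) * volume U +
      (ENNReal.ofReal (144 * kap * Q) + (ENNReal.ofReal (144 * kap * Q) +
        ENNReal.ofReal (144 * kap * Q))) :=
    (hlow.trans hsplit).trans (add_le_add hmult (add_le_add B1 (add_le_add B2 B3)))
  have hUfin : volume U ≠ ⊤ := by
    refine ne_top_of_le_ne_top ?_ (measure_mono (show U ⊆ Set.Icc s (s + l) from fun x hx => hx.1))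
    rw [Real.volume_Icc]
    exact ENNReal.ofReal_ne_top
  rw [← ENNReal.ofReal_toReal hUfin] at hfinal ⊢
  rw [← ENNReal.ofReal_natCast, ← ENNReal.ofReal_mul (by positivity),
    ← ENNReal.ofReal_add (by positivity) (by positivity),
    ← ENNReal.ofReal_add (by positivity) (by positivity),
    ← ENNReal.ofReal_add (by positivity) (by positivity),
    ENNReal.ofReal_le_ofReal_iff (by positivity)] at hfinal
  refine ENNReal.ofReal_le_ofReal ?_
  have e : 1 / 1000000 * l * (X * δ) = 1 / 1000000 * Q := by rw [hQ]; ring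
  rw [e]
  unfold kap at hfinal
  push_cast at hfinal
  linarith

/-- `2 ^ n` grows -/
theorem nat_le_pow (n : ℕ) : (n : ℝ) ≤ 2 ^ n := by
  exact_mod_cast (Nat.lt_two_pow_self (n := n)).le

theorem first : S_COPR → S_FIRST := by
  intro hcopr m a₁ a₃ a₄ L hP hL
  refine ⟨1 / 1000000, by norm_num, fun l hl0 hl1 => ?_⟩
  obtain ⟨k₁, hk₁⟩ := hcopr l hl0 hl1
  have hkap := kap_pos
  obtain ⟨k₂, hk₂⟩ := COPR.exists_k0 3 (kap * l) (by positivity)
  obtain ⟨k₃, hk₃⟩ := exists_nat_ge (1000 * (m * L))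
  obtain ⟨k₄, hk₄⟩ := exists_nat_ge (200 / l)
  refine ⟨k₁ + 2 * k₂ + 2 * k₃ + k₄ + 2, fun s y hy k hk mm hmm δ hδ => ?_⟩
  obtain ⟨hP1, hP2, hP3⟩ := hP
  have hX2 : (2 : ℕ) ^ (k + 1) = 2 * 2 ^ k := by rw [pow_succ]; ring
  have hX0 : (0 : ℝ) < 2 ^ k := by positivity
  have hδ0 : 0 < δ := lt_of_lt_of_le (by positivity) hδ.1
  have hδ16 : 16 * (((2 ^ k : ℕ) : ℝ) * δ) ≤ 1 := by
    have h1 := hδ.2
    rw [le_div_iff₀ (by positivity)] at h1
    push_cast
    calc 16 * ((2 : ℝ) ^ k * δ) = δ * 2 ^ (k + 4) := by rw [pow_add]; norm_num; ring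
      _ ≤ 1 := h1
  set Λ : ℝ := m * 2 ^ (k / 2) * L with hΛ
  have hΛ0 : 0 ≤ Λ := by positivity
  have hLip : LipH (fun x => dt mm (y x)) Λ s l := by
    intro x hx x' hx'
    have e : dt mm (y x) - dt mm (y x') = ∑ i, (mm i : ℝ) * (y x i - y x' i) := by
      unfold dt
      rw [← Finset.sum_sub_distrib]
      refine Finset.sum_congr rfl fun i _ => ?_
      ring
    show |dt mm (y x) - dt mm (y x')| ≤ Λ * |x - x'|
    rw [e]
    refine (Finset.abs_sum_le_sum_abs _ _).trans ?_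
    have h1 : ∀ i ∈ (Finset.univ : Finset (Fin m)), |(mm i : ℝ) * (y x i - y x' i)| ≤
        2 ^ (k / 2) * (L * |x - x'|) := by
      intro i _
      rw [abs_mul, Nat.abs_cast]
      have h2 := hy x hx x' hx' i
      have h3 : (mm i : ℝ) ≤ 2 ^ (k / 2) := by
        have h4 : mm i ≤ 2 ^ (k / 2) := by
          refine (hmm i).2.trans (Nat.pow_le_pow_right (by norm_num) ?_)
          refine Nat.div_le_div_left ?_ (by norm_num)
          nlinarith
        exact_mod_cast h4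
      gcongr
    refine (Finset.sum_le_sum h1).trans ?_
    rw [Finset.sum_const, Finset.card_univ, Fintype.card_fin, nsmul_eq_mul, hΛ]
    exact le_of_eq (by ring)
  have hΛX : Λ ≤ ((2 ^ k : ℕ) : ℝ) / 1000 := by
    have h1 : (1000 * (m * L)) ≤ 2 ^ (k / 2) := by
      have h2 : (k₃ : ℝ) ≤ ((k / 2 : ℕ) : ℝ) := by
        have : k₃ ≤ k / 2 := by omega
        exact_mod_cast this
      exact (hk₃.trans h2).trans (nat_le_pow _)
    rw [le_div_iff₀ (by norm_num)]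
    have h3 : (2 : ℝ) ^ (k / 2) * 2 ^ (k / 2) ≤ 2 ^ k := by
      rw [← pow_add]
      exact pow_le_pow_right₀ (by norm_num) (by omega)
    push_cast
    calc Λ * 1000 = (1000 * (m * L)) * 2 ^ (k / 2) := by rw [hΛ]; ring
      _ ≤ 2 ^ (k / 2) * 2 ^ (k / 2) := by gcongr
      _ ≤ 2 ^ k := h3
  have hjj : ∀ j : ℕ, k / 2 ≤ j → 3 * (1 + (j : ℝ)) ≤ kap * l * ((2 ^ j : ℕ) : ℝ) := by
    intro j hj
    have := hk₂ j (by omega)
    push_cast
    linarith
  have hsE : sE a₁ k ≤ k / 64 := by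
    unfold sE
    exact Nat.div_le_div_left hP1 (by norm_num)
  have hXl : 200 ≤ ((2 ^ k : ℕ) : ℝ) * l := by
    have h1 : (k₄ : ℝ) ≤ (k : ℝ) := by exact_mod_cast (by omega : k₄ ≤ k)
    have h2 : 200 / l ≤ 2 ^ k := (hk₄.trans h1).trans (nat_le_pow k)
    rw [div_le_iff₀ hl0] at h2
    push_cast
    exact h2
  have hmain := core (h := fun x => dt mm (y x)) (X := 2 ^ k) (j₁ := k) (j₂ := k - sE a₁ k)
    (j₃ := k - sE a₁ k - tE k) hl0 hl1 hLip rfl
    (Nat.pow_le_pow_right (by norm_num) (by omega)) (Nat.pow_le_pow_right (by norm_num) (by omega))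
    hΛ0 hΛX hδ0 hδ16 (hjj k (by omega)) (hjj _ (by omega))
    (hjj _ (by unfold tE; omega)) hXl (by
      intro α M hM
      have := hk₁ k (by omega) α M (by rw [hX2]; exact hM)
      rw [hX2] at this
      have e : (4 : ℝ) ^ k = (((2 ^ k : ℕ) : ℝ)) ^ 2 := by
        push_cast
        rw [← pow_mul, mul_comm, pow_mul]; norm_num
      rw [e] at this
      exact this)
  push_cast at hmain
  have e2 : {x | x ∈ Set.Icc s (s + l) ∧ EE (2 ^ k) x ∧ EE (N1 a₁ k) x ∧ EE (N0 a₁ k) x ∧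
        Ev k mm δ x (y x)} = {x | x ∈ Set.Icc s (s + l) ∧ EE (2 ^ k) x ∧ EE (2 ^ (k - sE a₁ k)) x ∧
        EE (2 ^ (k - sE a₁ k - tE k)) x ∧
        ∃ (p : ℤ) (q : ℕ), 2 ^ k ≤ q ∧ q < 2 * 2 ^ k ∧ Int.gcd p q = 1 ∧
          |(p : ℝ) + (q : ℝ) * x + dt mm (y x)| < δ} := by
    unfold Ev N1 N0
    rw [hX2]
  rw [e2]
  exact hmain

end Pool.Agent.Helper982_KG.FIRST
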