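import Mathlib
import Pool.Agent.Helper982_KG.Stmts

/-!
# Kernels and first counts in `SL₂(ℤ)`
-/

set_option autoImplicit false

open MeasureTheory Set Finset

namespace Pool.Agent.Helper982_KG.KER

theorem e_add (s t : ℝ) : e (s + t) = e s * e t := by
  unfold e
  rw [← Complex.exp_add]
  congr 1
  push_cast
  ring

theorem e_zero : e 0 = 1 := by simp [e]

theorem e_int (k : ℤ) : e k = 1 := by
  unfold e
  rw [Complex.exp_eq_one_iff]
  exact ⟨k, by push_cast; ring⟩

theorem e_norm (t : ℝ) : ‖e t‖ = 1 := by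
  unfold e
  exact Complex.norm_exp_ofReal_mul_I _

theorem e_neg (t : ℝ) : e (-t) = (starRingEnd ℂ) (e t) := by
  unfold e
  rw [← Complex.exp_conj, map_mul, Complex.conj_ofReal, Complex.conj_I]
  congr 1
  push_cast
  ring

theorem e_re (t : ℝ) : (e t).re = Real.cos (2 * Real.pi * t) := by
  unfold e
  exact Complex.exp_ofReal_mul_I_re _

theorem e_sub_int (t : ℝ) (k : ℤ) : e (t - k) = e t := by
  have h := e_add (t - k) k
  rw [e_int, mul_one] at h
  rw [← h]
  congr 1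
  ring

theorem sum_Icc_eq (K : ℕ) (f : ℤ → ℂ) :
    ∑ k ∈ Finset.Icc (-(K : ℤ)) K, f k = ∑ k ∈ Finset.range (2 * K + 1), f ((k : ℤ) - K) := by
  symm
  refine Finset.sum_bij' (fun k _ => (k : ℤ) - K) (fun k _ => (k + K).toNat) ?_ ?_ ?_ ?_ ?_
  · intro a ha
    rw [Finset.mem_range] at ha
    rw [Finset.mem_Icc]
    omega
  · intro a ha
    rw [Finset.mem_Icc] at ha
    rw [Finset.mem_range]
    omega
  · intro a ha
    simp
  · intro a ha
    rw [Finset.mem_Icc] at ha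
    omega
  · intro a ha
    rfl

theorem fej : S_FEJ := by
  intro K t
  induction K with
  | zero => simp
  | succ K ih =>
    have hE : ∀ a b : ℝ, e (a * t) * (starRingEnd ℂ) (e (b * t)) = e ((a - b) * t) := by
      intro a b
      rw [← e_neg, ← e_add]
      congr 1
      ring
    set A := ∑ k ∈ Finset.range K, e (k * t) with hA
    have h1 : ((‖∑ k ∈ Finset.range (K + 1), e (k * t)‖ ^ 2 : ℝ) : ℂ) =
        ((‖A‖ ^ 2 : ℝ) : ℂ) + (A * (starRingEnd ℂ) (e (K * t)) + e (K * t) * (starRingEnd ℂ) A + 1) := by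
      rw [Finset.sum_range_succ, ← hA]
      have hn : ∀ z : ℂ, ((‖z‖ ^ 2 : ℝ) : ℂ) = z * (starRingEnd ℂ) z := by
        intro z
        rw [Complex.mul_conj, Complex.normSq_eq_norm_sq]
      rw [hn, hn, map_add]
      have h2 : e (K * t) * (starRingEnd ℂ) (e (K * t)) = 1 := by
        rw [hE]; simp [e_zero]
      linear_combination h2
    have h2 : A * (starRingEnd ℂ) (e (K * t)) + e (K * t) * (starRingEnd ℂ) A + 1 =
        ∑ k ∈ Finset.Icc (-(K : ℤ)) K, e (k * t) := by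
      rw [sum_Icc_eq]
      have e1 : 2 * K + 1 = K + (K + 1) := by ring
      rw [e1, Finset.sum_range_add, Finset.sum_range_succ']
      have e2 : A * (starRingEnd ℂ) (e (K * t)) =
          ∑ k ∈ Finset.range K, e ((((k : ℤ) - K : ℤ) : ℝ) * t) := by
        rw [hA, Finset.sum_mul]
        refine Finset.sum_congr rfl fun k _ => ?_
        rw [hE]
        push_cast
        rfl
      have e3 : e (K * t) * (starRingEnd ℂ) A =
          ∑ k ∈ Finset.range K, e (((((K + (k + 1) : ℕ) : ℤ) - K : ℤ) : ℝ) * t) := by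
        rw [hA, map_sum, Finset.mul_sum, ← Finset.sum_range_reflect]
        refine Finset.sum_congr rfl fun k hk => ?_
        rw [Finset.mem_range] at hk
        rw [hE]
        congr 2
        have : ((K - 1 - k : ℕ) : ℝ) = (K : ℝ) - 1 - k := by
          rw [Nat.sub_sub, Nat.cast_sub (by omega)]
          push_cast
          ring
        rw [this]
        push_cast
        ring
      rw [e2, e3]
      have e4 : e (((((K + 0 : ℕ) : ℤ) - K : ℤ) : ℝ) * t) = 1 := by
        simp [e_zero]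
      rw [e4]
      ring
    have h3 : ∑ k ∈ Finset.Ioo (-((K + 1 : ℕ) : ℤ)) ((K + 1 : ℕ) : ℤ),
        (((((K + 1 : ℕ) : ℝ) - |(k : ℝ)| : ℝ)) : ℂ) * e (k * t) =
        ∑ k ∈ Finset.Ioo (-(K : ℤ)) K, (((K : ℝ) - |(k : ℝ)| : ℝ) : ℂ) * e (k * t) +
        ∑ k ∈ Finset.Icc (-(K : ℤ)) K, e (k * t) := by
      have e1 : Finset.Ioo (-((K + 1 : ℕ) : ℤ)) ((K + 1 : ℕ) : ℤ) = Finset.Icc (-(K : ℤ)) K := by
        ext x
        rw [Finset.mem_Ioo, Finset.mem_Icc]
        push_cast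
        omega
      have e2 : ∑ k ∈ Finset.Ioo (-(K : ℤ)) K, (((K : ℝ) - |(k : ℝ)| : ℝ) : ℂ) * e (k * t) =
          ∑ k ∈ Finset.Icc (-(K : ℤ)) K, (((K : ℝ) - |(k : ℝ)| : ℝ) : ℂ) * e (k * t) := by
        apply Finset.sum_subset Finset.Ioo_subset_Icc_self
        intro x hx hx'
        rw [Finset.mem_Icc] at hx
        rw [Finset.mem_Ioo] at hx'
        have : |(x : ℝ)| = K := by
          have h5 : x = K ∨ x = -(K : ℤ) := by omega
          rcases h5 with h5 | h5 <;> rw [h5] <;> simp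
        rw [this]
        simp
      rw [e1, e2, ← Finset.sum_add_distrib]
      refine Finset.sum_congr rfl fun k _ => ?_
      push_cast
      ring
    rw [h1, h3, ih, h2]

theorem sum_sq (K : ℕ) (c : ℝ) : ∑ k ∈ Finset.range K, (2 * (k : ℝ) - c) ^ 2 =
    4 * ((K - 1) * K * (2 * K - 1) / 6) - 4 * c * (K * (K - 1) / 2) + K * c ^ 2 := by
  induction K with
  | zero => simp
  | succ K ih =>
    rw [Finset.sum_range_succ, ih]
    push_cast
    ring

theorem flow : S_FLOW := by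
  intro K t hK ⟨n, hn⟩
  have hK0 : (0 : ℝ) < K := by exact_mod_cast hK
  set θ := t - n with hθ
  have h1 : ∑ k ∈ Finset.range K, e (k * t) = ∑ k ∈ Finset.range K, e (k * θ) := by
    refine Finset.sum_congr rfl fun k _ => ?_
    have := e_sub_int (k * t) (k * n)
    rw [← this]
    congr 1
    push_cast
    rw [hθ]
    ring
  rw [h1]
  have h2 : (e (-((K - 1) / 2 * θ)) * ∑ k ∈ Finset.range K, e (k * θ)).re =
      ∑ k ∈ Finset.range K, Real.cos (Real.pi * (2 * k - (K - 1)) * θ) := by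
    rw [Finset.mul_sum, Complex.re_sum]
    refine Finset.sum_congr rfl fun k _ => ?_
    rw [← e_add, e_re]
    congr 1
    ring
  have h3 : ‖∑ k ∈ Finset.range K, e (k * θ)‖ =
      ‖e (-((K - 1) / 2 * θ)) * ∑ k ∈ Finset.range K, e (k * θ)‖ := by
    rw [norm_mul, e_norm, one_mul]
  rw [h3]
  refine le_trans ?_ (Complex.re_le_norm _)
  rw [h2]
  have h4 : ∀ k ∈ Finset.range K, 1 - Real.pi ^ 2 * (2 * (k : ℝ) - (K - 1)) ^ 2 * θ ^ 2 / 2 ≤
      Real.cos (Real.pi * (2 * k - (K - 1)) * θ) := by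
    intro k _
    have := Real.one_sub_sq_div_two_le_cos (x := Real.pi * (2 * k - (K - 1)) * θ)
    have e1 : (Real.pi * (2 * (k : ℝ) - (K - 1)) * θ) ^ 2 =
      Real.pi ^ 2 * (2 * (k : ℝ) - (K - 1)) ^ 2 * θ ^ 2 := by ring
    rw [e1] at this
    exact this
  refine le_trans ?_ (Finset.sum_le_sum h4)
  have h5 : ∑ k ∈ Finset.range K, (1 - Real.pi ^ 2 * (2 * (k : ℝ) - (K - 1)) ^ 2 * θ ^ 2 / 2) =
      K - Real.pi ^ 2 * θ ^ 2 / 2 * ∑ k ∈ Finset.range K, (2 * (k : ℝ) - (K - 1)) ^ 2 := by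
    rw [Finset.sum_sub_distrib, Finset.mul_sum]
    congr 1
    · simp
    · refine Finset.sum_congr rfl fun k _ => ?_
      ring
  rw [h5, sum_sq]
  have h6 : θ ^ 2 ≤ 1 / (4 * K ^ 2) := by
    have h7 : |θ| ^ 2 ≤ (1 / (2 * K)) ^ 2 := by gcongr
    rw [sq_abs] at h7
    refine h7.trans (le_of_eq ?_)
    field_simp
    norm_num
  have h7 : 4 * (((K : ℝ) - 1) * K * (2 * K - 1) / 6) - 4 * (K - 1) * (K * (K - 1) / 2) +
      K * (K - 1) ^ 2 = K * (K ^ 2 - 1) / 3 := by ring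
  rw [h7]
  have hpi : Real.pi ^ 2 ≤ 10 := by
    have h8 := Real.pi_lt_d2
    have h9 := Real.pi_pos
    nlinarith
  have h8 : Real.pi ^ 2 * θ ^ 2 / 2 * (K * (K ^ 2 - 1) / 3) ≤ 10 * (1 / (4 * K ^ 2)) / 2 * (K * K ^ 2 / 3) := by
    have hK1 : (1 : ℝ) ≤ K := by exact_mod_cast hK
    have h10 : 0 ≤ (K : ℝ) ^ 2 - 1 := by nlinarith
    have h11 : (K : ℝ) ^ 2 - 1 ≤ K ^ 2 := by linarith
    gcongr
  have h9 : 10 * (1 / (4 * (K : ℝ) ^ 2)) / 2 * (K * K ^ 2 / 3) = 10 / 24 * K := by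
    field_simp
    norm_num
  rw [h9] at h8
  linarith

theorem e_far {κ₁ t : ℝ} (hκ : 0 < κ₁) (h : Far κ₁ t) : 4 * κ₁ ≤ ‖e t - 1‖ := by
  set n := round t with hn
  set θ := t - n with hθ
  have h1 : e t = e θ := by rw [hθ, e_sub_int]
  have h2 : |θ| ≤ 1 / 2 := abs_sub_round t
  have h3 : κ₁ ≤ |θ| := h n
  have h4 : ‖e t - 1‖ ^ 2 = 2 - 2 * Real.cos (2 * Real.pi * θ) := by
    rw [h1, ← Complex.normSq_eq_norm_sq, Complex.normSq_apply]
    have hre : (e θ - 1).re = Real.cos (2 * Real.pi * θ) - 1 := by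
      rw [Complex.sub_re, e_re, Complex.one_re]
    have him : (e θ - 1).im = Real.sin (2 * Real.pi * θ) := by
      rw [Complex.sub_im, Complex.one_im, sub_zero]
      unfold e
      exact Complex.exp_ofReal_mul_I_im _
    rw [hre, him]
    have := Real.sin_sq_add_cos_sq (2 * Real.pi * θ)
    nlinarith
  have h5 : |2 * Real.pi * θ| ≤ Real.pi := by
    rw [abs_mul, abs_of_pos (by positivity)]
    have := Real.pi_pos
    nlinarith
  have h6 := Real.cos_le_one_sub_mul_cos_sq h5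
  have h7 : 2 / Real.pi ^ 2 * (2 * Real.pi * θ) ^ 2 = 8 * θ ^ 2 := by
    have := Real.pi_pos.ne'
    field_simp
    ring
  rw [h7] at h6
  have h8 : (4 * κ₁) ^ 2 ≤ ‖e t - 1‖ ^ 2 := by
    rw [h4]
    have h9 : κ₁ ^ 2 ≤ θ ^ 2 := by
      rw [← sq_abs θ]
      gcongr
    nlinarith
  exact (pow_le_pow_iff_left₀ (by positivity) (norm_nonneg _) two_ne_zero).1 h8

theorem geo : S_GEO := by
  intro κ₁ t R hκ h
  have h1 := e_far hκ h
  have h2 : (e t - 1) * ∑ k ∈ Finset.Icc (-(R : ℤ)) R, e (k * t) =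
      e ((R + 1) * t) - e (-(R * t)) := by
    have h3 : ∀ n : ℕ, (e t - 1) * ∑ k ∈ Finset.range n, e ((((k : ℤ) - R : ℤ) : ℝ) * t) =
        e (((n : ℝ) - R) * t) - e (-(R * t)) := by
      intro n
      induction n with
      | zero =>
        simp
      | succ n ih =>
        rw [Finset.sum_range_succ, mul_add, ih]
        have e1 : e (((n + 1 : ℕ) - (R : ℝ)) * t) = e t * e (((n : ℝ) - R) * t) := by
          rw [← e_add]
          congr 1
          push_cast
          ring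
        rw [e1]
        push_cast
        ring
    rw [sum_Icc_eq, h3]
    congr 2
    push_cast
    ring
  have h3 : ‖e ((R + 1) * t) - e (-(R * t))‖ ≤ 2 := by
    refine (norm_sub_le _ _).trans ?_
    rw [e_norm, e_norm]
    norm_num
  rw [← h2, norm_mul] at h3
  rw [le_div_iff₀ (by positivity)]
  have h4 := norm_nonneg (∑ k ∈ Finset.Icc (-(R : ℤ)) R, e (k * t))
  nlinarith

theorem mem_GG {C₀ R : ℕ} {g : M4} : g ∈ GG C₀ R ↔ (|g.1| ≤ R ∧ |g.2.1| ≤ R ∧ |g.2.2.1| ≤ R ∧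
    |g.2.2.2| ≤ R) ∧ g.1 * g.2.2.2 - g.2.1 * g.2.2.1 = 1 ∧ (R : ℤ) ≤ C₀ * max |g.1| |g.2.1| := by
  unfold GG
  rw [Finset.mem_filter, Finset.mem_product, Finset.mem_product, Finset.mem_product,
    Finset.mem_Icc, Finset.mem_Icc, Finset.mem_Icc, Finset.mem_Icc]
  simp only [abs_le]

theorem row_aux {a m R C : ℤ} (hm : 0 < m) (hR : R ≤ C * m) (ha : |a| ≤ R) :
    0 ≤ (a + R) / m ∧ (a + R) / m ≤ 2 * C := by
  rw [abs_le] at ha
  constructor
  · exact Int.ediv_nonneg (by linarith) hm.le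
  · apply Int.ediv_le_of_le_mul hm
    linarith

theorem row_inj {a b m R : ℤ} (hm : 0 < m) (hd : m ∣ a - b) (h : (a + R) / m = (b + R) / m) :
    a = b := by
  obtain ⟨c, hc⟩ := hd
  have h1 : a + R = (b + R) + m * c := by linarith
  rw [h1, Int.add_mul_ediv_left _ _ hm.ne'] at h
  have h2 : c = 0 := by linarith
  rw [h2] at hc
  linarith

theorem row : S_ROW := by
  intro C₀ R r
  set S := (GG C₀ R).filter (fun g => (g.1, g.2.1) = r) with hS
  have hmem : ∀ g ∈ S, (|r.1| ≤ R ∧ |r.2| ≤ R ∧ |g.2.2.1| ≤ R ∧ |g.2.2.2| ≤ R) ∧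
      r.1 * g.2.2.2 - r.2 * g.2.2.1 = 1 ∧ (R : ℤ) ≤ C₀ * max |r.1| |r.2| ∧ g.1 = r.1 ∧
      g.2.1 = r.2 := by
    intro g hg
    rw [hS, Finset.mem_filter, mem_GG] at hg
    obtain ⟨⟨h1, h2, h3⟩, h4⟩ := hg
    rw [← h4]
    exact ⟨h1, h2, h3, rfl, rfl⟩
  have hcop : ∀ g ∈ S, IsCoprime r.1 r.2 := by
    intro g hg
    obtain ⟨_, h, _⟩ := hmem g hg
    exact ⟨g.2.2.2, -g.2.2.1, by linear_combination h⟩
  have hcard : (Finset.Icc (0 : ℤ) (2 * C₀)).card = 2 * C₀ + 1 := by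
    rw [Int.card_Icc]
    omega
  rw [← hcard]
  by_cases hmax : |r.2| ≤ |r.1|
  · apply Finset.card_le_card_of_injOn (fun g => (g.2.2.1 + R) / |r.1|)
    · intro g hg
      obtain ⟨h1, h2, h3, _⟩ := hmem g hg
      have h0 : 0 < |r.1| := by
        rw [abs_pos]
        intro h0
        rw [h0, abs_zero] at hmax
        have : r.2 = 0 := abs_eq_zero.1 (le_antisymm hmax (abs_nonneg _))
        rw [h0, this] at h2
        simp at h2
      rw [max_eq_left hmax] at h3
      rw [Finset.coe_Icc, Set.mem_Icc]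
      exact row_aux h0 h3 h1.2.2.1
    · intro g hg g' hg' h
      obtain ⟨h1, h2, h3, h4, h5⟩ := hmem g hg
      obtain ⟨h1', h2', h3', h4', h5'⟩ := hmem g' hg'
      have h0 : 0 < |r.1| := by
        rw [abs_pos]
        intro h0
        rw [h0, abs_zero] at hmax
        have : r.2 = 0 := abs_eq_zero.1 (le_antisymm hmax (abs_nonneg _))
        rw [h0, this] at h2
        simp at h2
      have hd : |r.1| ∣ g.2.2.1 - g'.2.2.1 := by
        rw [abs_dvd]
        apply (hcop g hg).dvd_of_dvd_mul_left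
        exact ⟨g.2.2.2 - g'.2.2.2, by linear_combination h2' - h2⟩
      have h6 := row_inj h0 hd h
      have h7 : g.2.2.2 = g'.2.2.2 := by
        rw [h6] at h2
        have : r.1 * (g.2.2.2 - g'.2.2.2) = 0 := by linear_combination h2 - h2'
        rcases mul_eq_zero.1 this with h8 | h8
        · rw [h8, abs_zero] at h0
          exact absurd h0 (lt_irrefl _)
        · linarith
      exact Prod.ext (h4.trans h4'.symm) (Prod.ext (h5.trans h5'.symm) (Prod.ext h6 h7))
  · push Not at hmax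
    apply Finset.card_le_card_of_injOn (fun g => (g.2.2.2 + R) / |r.2|)
    · intro g hg
      obtain ⟨h1, h2, h3, _⟩ := hmem g hg
      have h0 : 0 < |r.2| := (abs_nonneg _).trans_lt hmax
      rw [max_eq_right hmax.le] at h3
      rw [Finset.coe_Icc, Set.mem_Icc]
      exact row_aux h0 h3 h1.2.2.2
    · intro g hg g' hg' h
      obtain ⟨h1, h2, h3, h4, h5⟩ := hmem g hg
      obtain ⟨h1', h2', h3', h4', h5'⟩ := hmem g' hg'
      have h0 : 0 < |r.2| := (abs_nonneg _).trans_lt hmax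
      have hd : |r.2| ∣ g.2.2.2 - g'.2.2.2 := by
        rw [abs_dvd]
        apply (hcop g hg).symm.dvd_of_dvd_mul_left
        exact ⟨g.2.2.1 - g'.2.2.1, by linear_combination h2 - h2'⟩
      have h6 := row_inj h0 hd h
      have h7 : g.2.2.1 = g'.2.2.1 := by
        rw [h6] at h2
        have : r.2 * (g.2.2.1 - g'.2.2.1) = 0 := by linear_combination h2' - h2
        rcases mul_eq_zero.1 this with h8 | h8
        · rw [h8, abs_zero] at h0
          exact absurd h0 (lt_irrefl _)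
        · linarith
      exact Prod.ext (h4.trans h4'.symm) (Prod.ext (h5.trans h5'.symm) (Prod.ext h7 h6))

theorem card : S_CARD := by
  intro C₀ R
  set T : Finset (ℤ × ℤ) := (Finset.Icc (-(R : ℤ)) R) ×ˢ (Finset.Icc (-(R : ℤ)) R) with hT
  have h1 : T.card = (2 * R + 1) ^ 2 := by
    rw [hT, Finset.card_product, Int.card_Icc, sq]
    congr 1 <;> omega
  rw [← h1]
  apply Finset.card_le_mul_card_image_of_maps_to (f := fun g : M4 => (g.1, g.2.1))
  · intro g hg
    rw [mem_GG] at hg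
    rw [hT, Finset.mem_product, Finset.mem_Icc, Finset.mem_Icc]
    exact ⟨abs_le.1 hg.1.1, abs_le.1 hg.1.2.1⟩
  · intro r _
    exact row C₀ R r

end Pool.Agent.Helper982_KG.KER
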