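import Mathlib
import Pool.Agent.Helper982_KG.Defs
import Pool.Agent.Helper982_KG.Stmts

/-!
# KS: Kochen-Stone and Lebesgue density

JOB FOR MP_99fd1a_nt (divergence multiplicative Khintchine-Groshev, helper982).  Full paper proof: table papers, id 120.
How to work: copy `Pool/Agent/Helper982_KG/Defs.lean` and `Stmts.lean` from origin/main to the same paths under
`/workdir/pool`, `lake build Pool.Agent.Helper982_KG.Stmts`, put this file at `/workdir/pool/Pool/Agent/Helper982_KG/Ks.lean`.
Read the definitions used (Defs.lean, Stmts.lean).  Prove the TARGET(s) without changing any statement; hypotheses `S_XXX` are the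
statements of other parts (Props of Stmts.lean) and are simply given.  Keep auxiliary lemmas in the namespace below.
Return the full file text in jobs.result.  If a statement is false or something is missing, say so in jobs.note and message
helper982 at once.

PROOF.
TARGET 1: for a finite T of good indices with rank >= k0 and W = sum w >= 1: Chung-Erdos (sum mu E_i)^2 <= mu(union E_i) sum_{i,j} mu(E_i n E_j) (Cauchy-Schwarz for the counting function; the library
has it: Pool/Agent/R335/MK/CE.lean, theorem chung).  The double sum is <= C V W^2+C V W <= 2 C V W^2, so mu(union over good i with rank >= k0) >= c^2 V/(2C).  These unions decrease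
in k0, mu is finite, their intersection is the set in the statement (tendsto_measure_iInter_atTop ...).
TARGET 2: Lebesgue density theorem for the complement of W (Besicovitch.ae_tendsto_measure_inter_div or IsUnifLocDoublingMeasure.ae_tendsto_measure_inter_div): at a.e. point u of W^c the ratio
vol(W^c n closedBall u r)/vol(closedBall u r) tends to 1, so vol(W n closedBall u r)/vol(closedBall u r) tends to 0 (W measurable), contradiction with the hypothesis.
-/

set_option autoImplicit false

open MeasureTheory Set Finset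

namespace Pool.Agent.Helper982_KG.Ks

theorem ks_chung {Ω : Type*} [MeasurableSpace Ω] {μ : Measure Ω} [IsFiniteMeasure μ] {ι : Type*}
    (s : Finset ι) (A : ι → Set Ω) (hA : ∀ i ∈ s, MeasurableSet (A i)) :
    (∑ i ∈ s, μ.real (A i)) ^ 2 ≤
      (∑ i ∈ s, ∑ j ∈ s, μ.real (A i ∩ A j)) * μ.real (⋃ i ∈ s, A i) := by
  classical
  set U := ⋃ i ∈ s, A i with hU
  have hUm : MeasurableSet U := Finset.measurableSet_biUnion _ fun i hi => hA i hi
  set Z : Ω → ℝ := fun x => ∑ i ∈ s, (A i).indicator (fun _ => (1 : ℝ)) x with hZ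
  have hZint : Integrable Z μ :=
    integrable_finsetSum _ fun i hi => (integrable_const _).indicator (hA i hi)
  have hZ1 : ∫ x, Z x ∂μ = ∑ i ∈ s, μ.real (A i) := by
    rw [hZ, integral_finsetSum _ fun i hi => (integrable_const _).indicator (hA i hi)]
    refine sum_congr rfl fun i hi => ?_
    rw [integral_indicator_const _ (hA i hi)]
    simp
  have hZZ : ∀ x, Z x ^ 2 = ∑ i ∈ s, ∑ j ∈ s, (A i ∩ A j).indicator (fun _ => (1 : ℝ)) x := by
    intro x
    rw [hZ, sq, Finset.sum_mul_sum]
    refine sum_congr rfl fun i _ => sum_congr rfl fun j _ => ?_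
    by_cases h1 : x ∈ A i <;> by_cases h2 : x ∈ A j <;> simp [h1, h2]
  have hZ2int : Integrable (fun x => Z x ^ 2) μ := by
    simp_rw [hZZ]
    exact integrable_finsetSum _ fun i hi => integrable_finsetSum _ fun j hj =>
      (integrable_const _).indicator ((hA i hi).inter (hA j hj))
  have hZ2 : ∫ x, Z x ^ 2 ∂μ = ∑ i ∈ s, ∑ j ∈ s, μ.real (A i ∩ A j) := by
    simp_rw [hZZ]
    rw [integral_finsetSum _ fun i hi => integrable_finsetSum _ fun j hj =>
      (integrable_const _).indicator ((hA i hi).inter (hA j hj))]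
    refine sum_congr rfl fun i hi => ?_
    rw [integral_finsetSum _ fun j hj =>
      (integrable_const _).indicator ((hA i hi).inter (hA j hj))]
    refine sum_congr rfl fun j hj => ?_
    rw [integral_indicator_const _ ((hA i hi).inter (hA j hj))]
    simp
  set S := ∑ i ∈ s, μ.real (A i) with hS
  set Q := ∑ i ∈ s, ∑ j ∈ s, μ.real (A i ∩ A j) with hQ
  set u := μ.real U with hu
  have hquad : ∀ t : ℝ, 0 ≤ u * (t * t) + (-2 * S) * t + Q := by
    intro t
    have h1 : ∀ x, 0 ≤ Z x ^ 2 + ((-2 * t) * Z x + U.indicator (fun _ => t ^ 2) x) := by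
      intro x
      by_cases hx : x ∈ U
      · rw [Set.indicator_of_mem hx]
        nlinarith [sq_nonneg (Z x - t)]
      · rw [Set.indicator_of_notMem hx]
        have h2 : Z x = 0 := by
          rw [hZ]
          apply sum_eq_zero
          intro i hi
          apply Set.indicator_of_notMem
          intro hxi
          exact hx (Set.mem_biUnion hi hxi)
        rw [h2]
        simp
    have h2 : 0 ≤ ∫ x, (Z x ^ 2 + ((-2 * t) * Z x + U.indicator (fun _ => t ^ 2) x)) ∂μ :=
      integral_nonneg h1
    have i1 : Integrable (fun x => (-2 * t) * Z x) μ := hZint.const_mul _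
    have i2 : Integrable (U.indicator (fun _ => t ^ 2)) μ := (integrable_const _).indicator hUm
    have i3 : Integrable (fun x => (-2 * t) * Z x + U.indicator (fun _ => t ^ 2) x) μ := i1.add i2
    rw [integral_add hZ2int i3, integral_add i1 i2, integral_const_mul, hZ1, hZ2,
      integral_indicator_const _ hUm, smul_eq_mul] at h2
    linarith
  have h3 := discrim_le_zero hquad
  unfold discrim at h3
  nlinarith

/-- TARGET 1 -/
theorem limsup_lower {α : Type*} [MeasurableSpace α] (μ : Measure α) [IsFiniteMeasure μ]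
    {ι : Type*} [Countable ι] (rank : ι → ℕ) (good : ι → Prop) (E : ι → Set α) (w : ι → ℝ)
    (c C V : ℝ) (hc : 0 < c) (hC : 0 < C) (hV : 0 ≤ V) (hw : ∀ i, good i → 0 ≤ w i)
    (hm : ∀ i, good i → MeasurableSet (E i))
    (hlow : ∀ i, good i → c * V * w i ≤ (μ (E i)).toReal)
    (hup : ∀ i, good i → (μ (E i)).toReal ≤ C * V * w i)
    (hpair : ∀ i j, good i → good j → i ≠ j → (μ (E i ∩ E j)).toReal ≤ C * V * w i * w j)
    (hdiv : ∀ (k₀ : ℕ) (M : ℝ), ∃ T : Finset ι, (∀ i ∈ T, good i ∧ k₀ ≤ rank i) ∧ M ≤ ∑ i ∈ T, w i) :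
    c ^ 2 / (2 * C) * V ≤ (μ {x | ∀ k₀ : ℕ, ∃ i, good i ∧ k₀ ≤ rank i ∧ x ∈ E i}).toReal := by
  classical
  rcases hV.eq_or_lt with hV0 | hV0
  · rw [← hV0, mul_zero]
    exact ENNReal.toReal_nonneg
  let U : ℕ → Set α := fun k => ⋃ i, ⋃ (_ : good i ∧ k ≤ rank i), E i
  have hUm : ∀ k, MeasurableSet (U k) := fun k =>
    MeasurableSet.iUnion fun i => MeasurableSet.iUnion fun hi => hm i hi.1
  have hUlow : ∀ k, c ^ 2 / (2 * C) * V ≤ (μ (U k)).toReal := by
    intro k
    obtain ⟨T, hT, hM⟩ := hdiv k 1
    set W := ∑ i ∈ T, w i with hW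
    have hch := ks_chung (μ := μ) T E fun i hi => hm i (hT i hi).1
    have h1 : c * V * W ≤ ∑ i ∈ T, μ.real (E i) := by
      rw [hW, Finset.mul_sum]
      exact Finset.sum_le_sum fun i hi => hlow i (hT i hi).1
    have h2 : ∑ i ∈ T, ∑ j ∈ T, μ.real (E i ∩ E j) ≤ C * V * W + C * V * W ^ 2 := by
      have h3 : ∀ i ∈ T, ∑ j ∈ T, μ.real (E i ∩ E j) ≤ C * V * w i + C * V * w i * W := by
        intro i hi
        have h4 : ∀ j ∈ T, μ.real (E i ∩ E j) ≤
            (if i = j then C * V * w i else 0) + C * V * w i * w j := by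
          intro j hj
          have hwi := hw i (hT i hi).1
          have hwj := hw j (hT j hj).1
          by_cases hij : i = j
          · rw [if_pos hij, ← hij, inter_self]
            have h5 := hup i (hT i hi).1
            have h6 : 0 ≤ C * V * w i * w i := by positivity
            have h7 : μ.real (E i) = (μ (E i)).toReal := rfl
            rw [h7]
            linarith
          · rw [if_neg hij, zero_add]
            exact hpair i j (hT i hi).1 (hT j hj).1 hij
        refine (Finset.sum_le_sum h4).trans ?_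
        rw [Finset.sum_add_distrib, Finset.sum_ite_eq, if_pos hi, ← Finset.mul_sum]
      refine (Finset.sum_le_sum h3).trans ?_
      rw [Finset.sum_add_distrib, ← Finset.mul_sum, ← Finset.sum_mul, ← Finset.mul_sum]
      apply le_of_eq
      ring
    have h3 : μ.real (⋃ i ∈ T, E i) ≤ (μ (U k)).toReal := by
      refine measureReal_mono ?_ (measure_ne_top _ _)
      refine iUnion₂_subset fun i hi => ?_
      exact subset_iUnion_of_subset i (subset_iUnion_of_subset (hT i hi) subset_rfl)
    have hW1 : 1 ≤ W := hM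
    have h4 : (c * V * W) ^ 2 ≤ (2 * C * V * W ^ 2) * (μ (U k)).toReal := by
      have h5 : (c * V * W) ^ 2 ≤ (∑ i ∈ T, μ.real (E i)) ^ 2 := by
        apply pow_le_pow_left₀ _ h1
        positivity
      have h6 : C * V * W + C * V * W ^ 2 ≤ 2 * C * V * W ^ 2 := by
        have : C * V * W ≤ C * V * W ^ 2 := by
          apply mul_le_mul_of_nonneg_left _ (by positivity)
          nlinarith
        linarith
      refine h5.trans (hch.trans ?_)
      apply mul_le_mul (h2.trans h6) h3 measureReal_nonneg (by positivity)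
    have h7 : c ^ 2 / (2 * C) * V = (c * V * W) ^ 2 / (2 * C * V * W ^ 2) := by
      field_simp
    rw [h7, div_le_iff₀ (by positivity)]
    linarith
  have hset : {x | ∀ k₀ : ℕ, ∃ i, good i ∧ k₀ ≤ rank i ∧ x ∈ E i} = ⋂ k, U k := by
    ext x
    simp only [Set.mem_ofPred_eq, mem_iInter, U, mem_iUnion]
    constructor
    · intro h k
      obtain ⟨i, h1, h2, h3⟩ := h k
      exact ⟨i, ⟨h1, h2⟩, h3⟩
    · intro h k
      obtain ⟨i, ⟨h1, h2⟩, h3⟩ := h k
      exact ⟨i, h1, h2, h3⟩
  rw [hset]
  have hanti : Antitone U := by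
    intro k l hkl
    refine iUnion_subset fun i => iUnion_subset fun hi => ?_
    exact subset_iUnion_of_subset i (subset_iUnion_of_subset ⟨hi.1, hkl.trans hi.2⟩ subset_rfl)
  have hlim := tendsto_measure_iInter_atTop (μ := μ) (fun k => (hUm k).nullMeasurableSet) hanti
    ⟨0, measure_ne_top _ _⟩
  have hlim2 := (ENNReal.tendsto_toReal (measure_ne_top μ (⋂ k, U k))).comp hlim
  exact ge_of_tendsto' hlim2 hUlow

/-- TARGET 2 -/
theorem dens {D : ℕ} (W : Set (Fin D → ℝ)) (hW : MeasurableSet W) (u₀ : Fin D → ℝ) (ρ c : ℝ)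
    (hc : 0 < c) (h : ∀ u ∈ Metric.ball u₀ ρ, ∃ r₀ : ℝ, 0 < r₀ ∧ ∀ r : ℝ, 0 < r → r < r₀ →
      ENNReal.ofReal c * volume (Metric.closedBall u r) ≤ volume (W ∩ Metric.closedBall u r)) :
    ∀ᵐ u ∂(volume.restrict (Metric.ball u₀ ρ)), u ∈ W := by
  have h1 := Besicovitch.ae_tendsto_measure_inter_div_of_measurableSet
    (volume : Measure (Fin D → ℝ)) hW
  rw [ae_restrict_iff' Metric.isOpen_ball.measurableSet]
  filter_upwards [h1] with u hu hub
  by_contra hnW
  rw [indicator_of_notMem hnW] at hu
  obtain ⟨r₀, hr₀, hr⟩ := h u hub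
  have h2 : ∀ᶠ r in nhdsWithin (0 : ℝ) (Ioi 0), ENNReal.ofReal c ≤
      volume (W ∩ Metric.closedBall u r) / volume (Metric.closedBall u r) := by
    filter_upwards [Ioo_mem_nhdsGT hr₀] with r hr1
    rw [ENNReal.le_div_iff_mul_le]
    · exact hr r hr1.1 hr1.2
    · left
      exact (Metric.measure_closedBall_pos volume u hr1.1).ne'
    · left
      exact measure_closedBall_lt_top.ne
  have h3 := ge_of_tendsto hu h2
  rw [nonpos_iff_eq_zero, ENNReal.ofReal_eq_zero] at h3
  linarith

end Pool.Agent.Helper982_KG.Ks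

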