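import Mathlib
import Pool.Agent.Helper982_KG.Defs
import Pool.Agent.Helper982_KG.Stmts

/-!
# LOCAL: elementary lemmas (Lipschitz bound, lines in a cube, infinitely many solutions)
-/

set_option autoImplicit false

open MeasureTheory Set Finset

namespace Pool.Agent.Helper982_KG.Local

theorem lips {d m l : ℕ} {Y : (Fin (d + 1) → ℝ) → (Fin m → ℝ)} {u₀ : Fin (d + 1) → ℝ} {ρ : ℝ}
    (hρ : 0 < ρ) (hY : ContDiffOn ℝ l Y (Metric.ball u₀ ρ)) (hN : NDn l Y u₀) :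
    ∃ ρ₂ : ℝ, 0 < ρ₂ ∧ ρ₂ < ρ ∧ ContinuousOn Y (Metric.closedBall u₀ ρ₂) ∧ ∃ L : ℝ, 0 ≤ L ∧
      ∀ u ∈ Metric.closedBall u₀ ρ₂, ∀ v ∈ Metric.closedBall u₀ ρ₂, ∀ i,
        |Y u i - Y v i| ≤ L * ‖u - v‖ := by
  rcases Nat.eq_zero_or_pos m with hm | hm
  · subst hm
    refine ⟨ρ / 2, by linarith, by linarith, ?_, 0, le_refl _, fun u _ v _ i => i.elim0⟩
    exact (continuous_of_const (fun x y => Subsingleton.elim _ _)).continuousOn
  · have hl : 1 ≤ l := by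
      obtain ⟨k, hk1, hkl, -⟩ := hN (fun _ => 1) (by
        intro h
        have := congrFun h ⟨0, hm⟩
        simp at this)
      omega
    have h1 : ContDiffAt ℝ 1 Y u₀ :=
      (hY.contDiffAt (Metric.ball_mem_nhds _ hρ)).of_le (by exact_mod_cast hl)
    obtain ⟨K, t, ht, hK⟩ := h1.exists_lipschitzOnWith
    obtain ⟨ε, hε, hεt⟩ := Metric.mem_nhds_iff.1 ht
    have hsub : Metric.closedBall u₀ (min ε ρ / 2) ⊆ t := by
      refine subset_trans (Metric.closedBall_subset_ball ?_) hεt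
      have : min ε ρ ≤ ε := min_le_left _ _
      have : 0 < min ε ρ := lt_min hε hρ
      linarith
    refine ⟨min ε ρ / 2, by have := lt_min hε hρ; linarith, ?_, ?_, K, K.2, ?_⟩
    · have : min ε ρ ≤ ρ := min_le_right _ _
      linarith
    · exact hK.continuousOn.mono hsub
    · intro u hu v hv i
      have := hK.dist_le_mul u (hsub hu) v (hsub hv)
      rw [dist_eq_norm, dist_eq_norm] at this
      refine le_trans ?_ this
      rw [← Real.norm_eq_abs]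
      exact norm_le_pi_norm (Y u - Y v) i

theorem cons_mem {d : ℕ} {u : Fin (d + 1) → ℝ} {r x : ℝ} {u' : Fin d → ℝ} (hr : 0 ≤ r)
    (hx : x ∈ Icc (u 0 - r) (u 0 + r)) (hu' : u' ∈ Metric.closedBall (Fin.tail u) r) :
    (Fin.cons x u' : Fin (d + 1) → ℝ) ∈ Metric.closedBall u r := by
  rw [Metric.mem_closedBall, dist_pi_le_iff hr]
  intro i
  refine Fin.cases ?_ (fun j => ?_) i
  · simp only [Fin.cons_zero, Real.dist_eq]
    rw [abs_le]; constructor <;> [linarith [hx.1]; linarith [hx.2]]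
  · simp only [Fin.cons_succ]
    rw [Metric.mem_closedBall, dist_pi_le_iff hr] at hu'
    exact hu' j

theorem cons_sub {d : ℕ} (x x' : ℝ) (u' : Fin d → ℝ) :
    ‖(Fin.cons x u' : Fin (d + 1) → ℝ) - Fin.cons x' u'‖ ≤ |x - x'| := by
  rw [pi_norm_le_iff_of_nonneg (abs_nonneg _)]
  intro i
  refine Fin.cases ?_ (fun j => ?_) i
  · simp
  · simp

theorem line_lip {d m : ℕ} {Y : (Fin (d + 1) → ℝ) → (Fin m → ℝ)} {K : Set (Fin (d + 1) → ℝ)} {L : ℝ}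
    (hL : 0 ≤ L) (hlip : ∀ u ∈ K, ∀ v ∈ K, ∀ i, |Y u i - Y v i| ≤ L * ‖u - v‖)
    {u : Fin (d + 1) → ℝ} {r : ℝ} (hr : 0 ≤ r) (hK : Metric.closedBall u r ⊆ K) {u' : Fin d → ℝ}
    (hu' : u' ∈ Metric.closedBall (Fin.tail u) r) :
    LipOn (fun x => Y (Fin.cons x u')) L (u 0 - r) (2 * r) := by
  intro x hx x' hx' i
  have e : u 0 - r + 2 * r = u 0 + r := by ring
  rw [e] at hx hx'
  refine (hlip _ (hK (cons_mem hr hx hu')) _ (hK (cons_mem hr hx' hu')) i).trans ?_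
  exact mul_le_mul_of_nonneg_left (cons_sub x x' u') hL

/-- the limsup set gives infinitely many solutions -/
theorem inf_sol {d m : ℕ} {Y : (Fin (d + 1) → ℝ) → (Fin m → ℝ)} {u : Fin (d + 1) → ℝ} {ψ : ℝ → ℝ}
    {a₃ : ℕ} (hanti : AntitoneOn ψ (Ioi 0))
    (h : ∀ k₀ : ℕ, ∃ i : ℕ × (Fin m → ℕ), MOK a₃ i.1 i.2 ∧ k₀ ≤ i.1 ∧
      Ev i.1 i.2 (dl ψ i.1 i.2) (u 0) (Y u)) :
    {z : ℤ × ℕ × (Fin m → ℕ) | 1 ≤ z.2.1 ∧ (∀ i, 1 ≤ z.2.2 i) ∧
      |(z.1 : ℝ) + z.2.1 * u 0 + dt z.2.2 (Y u)| < ψ (z.2.1 * ∏ i, (z.2.2 i : ℝ))}.Infinite := by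
  intro hfin
  obtain ⟨Q, hQ⟩ := (hfin.image (fun z => z.2.1)).bddAbove
  obtain ⟨⟨k, mm⟩, hM, hk, p, q, hq1, hq2, -, hlt⟩ := h (Q + 1)
  simp only at hM hk hq1 hq2 hlt
  have hPi : (0 : ℝ) < ∏ i, (mm i : ℝ) :=
    Finset.prod_pos (fun i _ => by exact_mod_cast (hM i).1)
  have h2k : Q + 1 < 2 ^ k := lt_of_le_of_lt hk Nat.lt_two_pow_self
  have hq0 : 1 ≤ q := by omega
  have hz : ((p, q, mm) : ℤ × ℕ × (Fin m → ℕ)) ∈
      {z : ℤ × ℕ × (Fin m → ℕ) | 1 ≤ z.2.1 ∧ (∀ i, 1 ≤ z.2.2 i) ∧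
      |(z.1 : ℝ) + z.2.1 * u 0 + dt z.2.2 (Y u)| < ψ (z.2.1 * ∏ i, (z.2.2 i : ℝ))} := by
    refine ⟨hq0, fun i => (hM i).1, ?_⟩
    refine hlt.trans_le ((min_le_left _ _).trans ?_)
    apply hanti
    · exact mem_Ioi.2 (mul_pos (by exact_mod_cast hq0) hPi)
    · exact mem_Ioi.2 (mul_pos (by positivity) hPi)
    · refine mul_le_mul_of_nonneg_right ?_ hPi.le
      exact_mod_cast hq2.le
  have := hQ ⟨_, hz, rfl⟩
  simp only at this
  omega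

end Pool.Agent.Helper982_KG.Local
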