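import Mathlib
import Pool.Agent.Helper982_KG.Defs
import Pool.Agent.Helper982_KG.Stmts

/-!
# LOCAL, parameters: choice of `a₁` and comparison of the exceptional set with the main term
-/

set_option autoImplicit false

open MeasureTheory Set Finset

namespace Pool.Agent.Helper982_KG.Local

theorem ev_pow (b x : ℝ) (hb : 1 < b) : ∃ k₀ : ℕ, ∀ k : ℕ, k₀ ≤ k → x ≤ b ^ k := by
  obtain ⟨n, hn⟩ := pow_unbounded_of_one_lt x hb
  exact ⟨n, fun k hk => hn.le.trans (pow_le_pow_right₀ hb.le hk)⟩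

/-- choice of the parameters and the two numerical facts needed for the exceptional set -/
theorem param (m : ℕ) (η C : ℝ) (hη : 0 < η) (hC : 0 < C) :
    ∃ a₁ a₃ a₄ : ℕ, ParOK m a₁ a₃ a₄ ∧ ∀ ε : ℝ, 0 < ε → ∃ k₀ : ℕ, ∀ k, k₀ ≤ k →
      C * ((2 ^ (3 * sE a₁ k) : ℕ) : ℝ) ≤ (N0 a₁ k : ℝ) * (1 / (2 : ℝ) ^ (tE k / 2)) ^ 2 ∧
      C * (((2 ^ (3 * sE a₁ k) : ℕ) : ℝ)) ^ m * (1 / (2 : ℝ) ^ (tE k / 2)) ^ η ≤
        ε * (1 / (2 : ℝ) ^ (k / a₄)) := by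
  obtain ⟨n, hn⟩ := exists_nat_ge ((3 * m + 1) * 32 / η)
  set a₁ : ℕ := max 64 n with ha₁
  have h64 : 64 ≤ a₁ := le_max_left _ _
  have ha₁n : ((3 * m + 1) * 32 / η : ℝ) ≤ a₁ := hn.trans (by exact_mod_cast le_max_right _ _)
  refine ⟨a₁, 4 * (m + 1) * (2000 * a₁), 2000 * a₁, ⟨h64, le_refl _, le_refl _⟩, ?_⟩
  intro ε hε
  obtain ⟨k₁, hk₁⟩ := ev_pow (2 : ℝ) C (by norm_num)
  have hb2 : (1 : ℝ) < (2 : ℝ) ^ (η / 32) := Real.one_lt_rpow (by norm_num) (by positivity)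
  obtain ⟨k₂, hk₂⟩ := ev_pow ((2 : ℝ) ^ (η / 32)) (C * 2 ^ (2 * η) / ε) hb2
  refine ⟨max (2 * k₁) k₂, fun k hk => ?_⟩
  have hk1 := hk₁ (k / 2) (by have := (le_max_left (2 * k₁) k₂).trans hk; omega)
  have hk2 := hk₂ k ((le_max_right _ _).trans hk)
  have hs : sE a₁ k ≤ k / 64 := Nat.div_le_div_left h64 (by norm_num)
  have ha₁pos : (0 : ℝ) < a₁ := by exact_mod_cast (by omega : 0 < a₁)
  constructor
  · -- first inequality
    have h1 : (2 : ℝ) ^ (3 * sE a₁ k) * 2 ^ (k / 2) ≤ (N0 a₁ k : ℝ) * (1 / (2 : ℝ) ^ (tE k / 2)) ^ 2 := by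
      have : (1 / (2 : ℝ) ^ (tE k / 2)) ^ 2 = 1 / 2 ^ (2 * (tE k / 2)) := by
        rw [one_div, one_div, inv_pow, ← pow_mul, mul_comm]
      rw [this, mul_one_div, le_div_iff₀ (by positivity), N0]
      push_cast
      rw [← pow_add, ← pow_add]
      apply pow_le_pow_right₀ (by norm_num)
      unfold tE
      omega
    push_cast
    calc C * (2 : ℝ) ^ (3 * sE a₁ k) ≤ 2 ^ (k / 2) * 2 ^ (3 * sE a₁ k) := by gcongr
      _ = 2 ^ (3 * sE a₁ k) * 2 ^ (k / 2) := mul_comm _ _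
      _ ≤ _ := h1
  · -- second inequality
    have e1 : (((2 ^ (3 * sE a₁ k) : ℕ) : ℝ)) ^ m = (2 : ℝ) ^ ((3 * sE a₁ k * m : ℕ) : ℝ) := by
      rw [Real.rpow_natCast]; push_cast; rw [← pow_mul]
    have e2 : (1 / (2 : ℝ) ^ (tE k / 2)) ^ η = (2 : ℝ) ^ (-(((tE k / 2 : ℕ) : ℝ) * η)) := by
      rw [one_div, ← Real.rpow_natCast, ← Real.rpow_neg (by norm_num), ← Real.rpow_mul (by norm_num)]
      congr 1; ring
    have e3 : 1 / (2 : ℝ) ^ (k / (2000 * a₁)) = (2 : ℝ) ^ (-((k / (2000 * a₁) : ℕ) : ℝ)) := by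
      rw [one_div, ← Real.rpow_natCast, ← Real.rpow_neg (by norm_num)]
    rw [e1, e2, e3]
    have hkey : ((3 * sE a₁ k * m : ℕ) : ℝ) + -(((tE k / 2 : ℕ) : ℝ) * η) + ((k / (2000 * a₁) : ℕ) : ℝ) ≤
        2 * η - η / 32 * k := by
      have hs' : ((sE a₁ k : ℕ) : ℝ) ≤ k / a₁ := Nat.cast_div_le
      have hd : ((k / (2000 * a₁) : ℕ) : ℝ) ≤ k / a₁ := by
        refine Nat.cast_div_le.trans ?_
        push_cast
        gcongr
        linarith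
      have ht : (k : ℝ) / 16 - 2 ≤ ((tE k / 2 : ℕ) : ℝ) := by
        have : k ≤ 16 * (tE k / 2) + 32 := by unfold tE; omega
        have : (k : ℝ) ≤ 16 * ((tE k / 2 : ℕ) : ℝ) + 32 := by exact_mod_cast this
        linarith
      have hka : (3 * m + 1) * ((k : ℝ) / a₁) ≤ η / 32 * k := by
        have h3 : (3 * m + 1) * 32 ≤ a₁ * η := by
          rw [div_le_iff₀ hη] at ha₁n; exact ha₁n
        have h4 : (3 * m + 1) * ((k : ℝ) / a₁) = ((3 * m + 1) * 32) * k / (32 * a₁) := by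
          field_simp
        rw [h4, div_le_iff₀ (by positivity)]
        calc ((3 * m + 1) * 32) * (k : ℝ) ≤ (a₁ * η) * k := by gcongr
          _ = η / 32 * k * (32 * a₁) := by ring
      push_cast at *
      have ht' : ((k : ℝ) / 16 - 2) * η ≤ ((tE k / 2 : ℕ) : ℝ) * η := by gcongr
      have hm' : (3 * (sE a₁ k : ℝ) * m) ≤ 3 * (k / a₁) * m := by gcongr
      nlinarith
    rw [mul_assoc, ← Real.rpow_add (by norm_num)]
    have h5 : (2 : ℝ) ^ (((3 * sE a₁ k * m : ℕ) : ℝ) + -(((tE k / 2 : ℕ) : ℝ) * η)) ≤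
        2 ^ (2 * η) / ((2 : ℝ) ^ (η / 32)) ^ k * 2 ^ (-((k / (2000 * a₁) : ℕ) : ℝ)) := by
      rw [← Real.rpow_natCast, ← Real.rpow_mul (by norm_num), ← Real.rpow_sub (by norm_num),
        ← Real.rpow_add (by norm_num)]
      apply Real.rpow_le_rpow_of_exponent_le (by norm_num)
      linarith
    have h6 : C * (2 ^ (2 * η) / ((2 : ℝ) ^ (η / 32)) ^ k) ≤ ε := by
      rw [← mul_div_assoc, div_le_iff₀ (by positivity)]
      rw [div_le_iff₀ hε] at hk2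
      linarith
    calc C * (2 : ℝ) ^ (((3 * sE a₁ k * m : ℕ) : ℝ) + -(((tE k / 2 : ℕ) : ℝ) * η))
        ≤ C * (2 ^ (2 * η) / ((2 : ℝ) ^ (η / 32)) ^ k * 2 ^ (-((k / (2000 * a₁) : ℕ) : ℝ))) := by gcongr
      _ = C * (2 ^ (2 * η) / ((2 : ℝ) ^ (η / 32)) ^ k) * 2 ^ (-((k / (2000 * a₁) : ℕ) : ℝ)) := by ring
      _ ≤ ε * 2 ^ (-((k / (2000 * a₁) : ℕ) : ℝ)) := by gcongr

end Pool.Agent.Helper982_KG.Local
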