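import Mathlib
import Pool.Agent.Helper982_KG.Defs
import Pool.Agent.Helper982_KG.Stmts

/-!
# SLICE: Fubini on cubes and measurability (helper680 for helper982)
-/

set_option autoImplicit false

open MeasureTheory Set Finset

namespace Pool.Agent.Helper982_KG.Slice

theorem mem_cb {d : ℕ} {u : Fin (d + 1) → ℝ} {r : ℝ} (hr : 0 < r) (x : ℝ) (y : Fin d → ℝ) :
    (Fin.cons x y : Fin (d + 1) → ℝ) ∈ Metric.closedBall u r ↔
      x ∈ Icc (u 0 - r) (u 0 + r) ∧ y ∈ Metric.closedBall (Fin.tail u) r := by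
  rw [Metric.mem_closedBall, Metric.mem_closedBall, dist_pi_le_iff hr.le, dist_pi_le_iff hr.le,
    Fin.forall_fin_succ]
  simp only [Fin.cons_zero, Fin.cons_succ, Fin.tail, Real.dist_eq, Set.mem_Icc, abs_le]
  constructor
  · rintro ⟨⟨h1, h2⟩, h3⟩
    exact ⟨⟨by linarith, by linarith⟩, h3⟩
  · rintro ⟨⟨h1, h2⟩, h3⟩
    exact ⟨⟨by linarith, by linarith⟩, h3⟩

theorem fub {d : ℕ} (E : Set (Fin (d + 1) → ℝ)) (hE : MeasurableSet E) (u : Fin (d + 1) → ℝ)
    (r : ℝ) (hr : 0 < r) : volume (E ∩ Metric.closedBall u r) =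
      ∫⁻ y in Metric.closedBall (Fin.tail u) r,
        volume {x : ℝ | x ∈ Icc (u 0 - r) (u 0 + r) ∧ (Fin.cons x y : Fin (d + 1) → ℝ) ∈ E} := by
  have hS : MeasurableSet (E ∩ Metric.closedBall u r) := hE.inter measurableSet_closedBall
  have h1 := (volume_preserving_piFinSuccAbove (fun _ : Fin (d + 1) => ℝ) 0).symm
  have h2 := h1.measure_preimage hS.nullMeasurableSet
  rw [← h2, Measure.volume_eq_prod, Measure.prod_apply_symm (h1.measurable hS),
    ← lintegral_indicator measurableSet_closedBall]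
  refine lintegral_congr fun y => ?_
  have h3 : ∀ x : ℝ, (MeasurableEquiv.piFinSuccAbove (fun _ : Fin (d + 1) => ℝ) 0).symm (x, y) =
      (Fin.cons x y : Fin (d + 1) → ℝ) := by
    intro x
    exact Fin.insertNth_zero' (β := ℝ) x y
  by_cases hy : y ∈ Metric.closedBall (Fin.tail u) r
  · rw [indicator_of_mem hy]
    congr 1
    ext x
    simp only [Set.mem_preimage, mem_inter_iff, Set.mem_ofPred_eq, h3, mem_cb hr]
    tauto
  · rw [indicator_of_notMem hy]
    have : (fun x : ℝ => (x, y)) ⁻¹' ((MeasurableEquiv.piFinSuccAbove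
        (fun _ : Fin (d + 1) => ℝ) 0).symm ⁻¹' (E ∩ Metric.closedBall u r)) = ∅ := by
      ext x
      simp only [Set.mem_preimage, mem_inter_iff, h3, mem_cb hr, mem_empty_iff_false, iff_false]
      tauto
    rw [this, measure_empty]

/-- TARGET 1 -/
theorem slice_le {d : ℕ} (E : Set (Fin (d + 1) → ℝ)) (hE : MeasurableSet E) (u : Fin (d + 1) → ℝ)
    (r : ℝ) (hr : 0 < r) (a : ENNReal)
    (h : ∀ u' ∈ Metric.closedBall (Fin.tail u) r,
      volume {x : ℝ | x ∈ Icc (u 0 - r) (u 0 + r) ∧ (Fin.cons x u' : Fin (d + 1) → ℝ) ∈ E} ≤ a) :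
    volume (E ∩ Metric.closedBall u r) ≤ a * ENNReal.ofReal ((2 * r) ^ d) := by
  rw [fub E hE u r hr]
  refine (setLIntegral_mono' measurableSet_closedBall h).trans ?_
  rw [setLIntegral_const, Real.volume_pi_closedBall _ hr.le, Fintype.card_fin]

/-- TARGET 2 -/
theorem slice_ge {d : ℕ} (E : Set (Fin (d + 1) → ℝ)) (hE : MeasurableSet E) (u : Fin (d + 1) → ℝ)
    (r : ℝ) (hr : 0 < r) (a : ENNReal)
    (h : ∀ u' ∈ Metric.closedBall (Fin.tail u) r,
      a ≤ volume {x : ℝ | x ∈ Icc (u 0 - r) (u 0 + r) ∧ (Fin.cons x u' : Fin (d + 1) → ℝ) ∈ E}) :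
    a * ENNReal.ofReal ((2 * r) ^ d) ≤ volume (E ∩ Metric.closedBall u r) := by
  rw [fub E hE u r hr]
  refine le_trans ?_ (setLIntegral_mono' measurableSet_closedBall h)
  rw [setLIntegral_const, Real.volume_pi_closedBall _ hr.le, Fintype.card_fin]

section M

variable {α : Type} [MeasurableSpace α] {x : α → ℝ}

theorem m_lt {f g : α → ℝ} (hf : Measurable f) (hg : Measurable g) :
    Measurable fun u => f u < g u := measurableSet_setOfPred.1 (measurableSet_lt hf hg)

theorem m_le {f g : α → ℝ} (hf : Measurable f) (hg : Measurable g) :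
    Measurable fun u => f u ≤ g u := measurableSet_setOfPred.1 (measurableSet_le hf hg)

theorem m_EE (hx : Measurable x) (N : ℕ) : Measurable fun u => EE N (x u) := by
  unfold EE
  refine Measurable.forall fun b => ?_
  refine measurable_const.imp ?_
  refine measurable_const.imp ?_
  refine Measurable.forall fun a => ?_
  exact m_lt measurable_const (by fun_prop)

theorem m_Far {t : α → ℝ} (ht : Measurable t) (κ₁ : ℝ) : Measurable fun u => Far κ₁ (t u) := by
  unfold Far
  refine Measurable.forall fun k => ?_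
  exact m_le measurable_const (by fun_prop)

variable {m : ℕ} {y : α → Fin m → ℝ}

theorem m_Dio (hx : Measurable x) (hy : Measurable y) (κ₁ : ℝ) (N W : ℕ) :
    Measurable fun u => Dio κ₁ N W (x u) (y u) := by
  unfold Dio
  refine Measurable.forall fun b => ?_
  refine measurable_const.imp ?_
  refine measurable_const.imp ?_
  refine Measurable.imp ?_ ?_
  · refine Measurable.exists fun a => ?_
    exact m_le (by fun_prop) measurable_const
  · refine Measurable.forall fun w => ?_
    refine measurable_const.imp ?_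
    refine measurable_const.imp ?_
    refine m_Far ?_ κ₁
    refine measurable_const.mul ?_
    refine Finset.measurable_sum _ fun i _ => ?_
    exact measurable_const.mul ((measurable_pi_apply i).comp hy)

theorem m_Ev (hx : Measurable x) (hy : Measurable y) (k : ℕ) (mm : Fin m → ℕ) (δ : ℝ) :
    Measurable fun u => Ev k mm δ (x u) (y u) := by
  unfold Ev
  refine Measurable.exists fun p => ?_
  refine Measurable.exists fun q => ?_
  refine measurable_const.and ?_
  refine measurable_const.and ?_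
  refine measurable_const.and ?_
  refine m_lt ?_ measurable_const
  have h1 : Measurable fun u => dt mm (y u) := by
    unfold dt
    refine Finset.measurable_sum _ fun i _ => ?_
    exact measurable_const.mul ((measurable_pi_apply i).comp hy)
  have h2 : Measurable fun u => (p : ℝ) + (q : ℝ) * x u + dt mm (y u) :=
    (measurable_const.add (measurable_const.mul hx)).add h1
  exact continuous_abs.measurable.comp h2

theorem m_Gd (hx : Measurable x) (hy : Measurable y) (a₁ k : ℕ) :
    Measurable fun u => Gd a₁ k (x u) (y u) := by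
  unfold Gd
  exact (m_EE hx _).and ((m_EE hx _).and ((m_EE hx _).and (m_Dio hx hy _ _ _)))

end M

/-- TARGET 3 -/
theorem meas {d m : ℕ} (Y : (Fin (d + 1) → ℝ) → (Fin m → ℝ)) (K : Set (Fin (d + 1) → ℝ))
    (hK : IsClosed K) (hY : ContinuousOn Y K) (a₁ k : ℕ) (mm : Fin m → ℕ) (δ : ℝ) :
    MeasurableSet {u | u ∈ K ∧ Gd a₁ k (u 0) (Y u) ∧ Ev k mm δ (u 0) (Y u)} ∧
    MeasurableSet {u | u ∈ K ∧ EE (2 ^ k) (u 0) ∧ EE (N1 a₁ k) (u 0) ∧ EE (N0 a₁ k) (u 0) ∧
      Ev k mm δ (u 0) (Y u)} := by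
  classical
  let Y' : (Fin (d + 1) → ℝ) → (Fin m → ℝ) := K.piecewise Y (fun _ => 0)
  have hY' : Measurable Y' :=
    ContinuousOn.measurable_piecewise hY continuousOn_const hK.measurableSet
  have hYK : ∀ u ∈ K, Y u = Y' u := fun u hu => (piecewise_eq_of_mem K Y (fun _ => 0) hu).symm
  have hx : Measurable fun u : Fin (d + 1) → ℝ => u 0 := measurable_pi_apply 0
  constructor
  · have h1 : MeasurableSet {u | Gd a₁ k (u 0) (Y' u) ∧ Ev k mm δ (u 0) (Y' u)} :=
      measurableSet_setOfPred.2 ((m_Gd hx hY' a₁ k).and (m_Ev hx hY' k mm δ))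
    convert hK.measurableSet.inter h1 using 1
    ext u
    simp only [Set.mem_ofPred_eq, mem_inter_iff]
    constructor
    · rintro ⟨hu, h⟩
      rw [hYK u hu] at h
      exact ⟨hu, h⟩
    · rintro ⟨hu, h⟩
      rw [← hYK u hu] at h
      exact ⟨hu, h⟩
  · have h1 : MeasurableSet {u : Fin (d + 1) → ℝ | EE (2 ^ k) (u 0) ∧ EE (N1 a₁ k) (u 0) ∧
        EE (N0 a₁ k) (u 0) ∧ Ev k mm δ (u 0) (Y' u)} :=
      measurableSet_setOfPred.2 ((m_EE hx _).and ((m_EE hx _).and ((m_EE hx _).and
        (m_Ev hx hY' k mm δ))))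
    convert hK.measurableSet.inter h1 using 1
    ext u
    simp only [Set.mem_ofPred_eq, mem_inter_iff]
    constructor
    · rintro ⟨hu, h⟩
      rw [hYK u hu] at h
      exact ⟨hu, h⟩
    · rintro ⟨hu, h⟩
      rw [← hYK u hu] at h
      exact ⟨hu, h⟩

end Pool.Agent.Helper982_KG.Slice
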