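import Mathlib
import Pool.Agent.Helper982_KG.Defs
import Pool.Agent.Helper982_KG.Stmts
import Pool.Agent.Helper982_KG.Ks
import Pool.Agent.Helper982_KG.Slice
import Pool.Agent.Helper982_KG.LocalPar
import Pool.Agent.Helper982_KG.LocalA

/-!
# LOCAL: the local theorem from the estimates on lines
-/

set_option autoImplicit false

open MeasureTheory Set Finset

namespace Pool.Agent.Helper982_KG.Local

/-- the event in `ℝ^(d+1)` -/
def EvS {d m : ℕ} (Y : (Fin (d + 1) → ℝ) → (Fin m → ℝ)) (K : Set (Fin (d + 1) → ℝ)) (a₁ : ℕ)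
    (ψ : ℝ → ℝ) (i : ℕ × (Fin m → ℕ)) : Set (Fin (d + 1) → ℝ) :=
  {u | u ∈ K ∧ Gd a₁ i.1 (u 0) (Y u) ∧ Ev i.1 i.2 (dl ψ i.1 i.2) (u 0) (Y u)}

theorem vol_cb {d : ℕ} (u : Fin (d + 1) → ℝ) {r : ℝ} (hr : 0 < r) :
    volume (Metric.closedBall u r) = ENNReal.ofReal ((2 * r) ^ (d + 1)) := by
  rw [Real.volume_pi_closedBall _ hr.le]
  simp

theorem local_of (hF : S_FIRST) (hU : S_UP) (hP : S_PAIR) (hB : S_BAD) (hD : S_DIV) : S_LOCAL := by
  intro d m l Y u₀ ρ hρ hY hN ψ hψ hanti hdiv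
  obtain ⟨ρ₁, hρ₁, hρ₁ρ, η, hη, Cb, hCb, hbad⟩ := hB d m l Y u₀ ρ hρ hY hN
  obtain ⟨ρ₂, hρ₂, hρ₂ρ, hcont, L, hL, hlip⟩ := lips hρ₁
    (hY.mono (Metric.ball_subset_ball hρ₁ρ)) hN
  set K : Set (Fin (d + 1) → ℝ) := Metric.closedBall u₀ ρ₂ with hK
  have hKc : IsClosed K := Metric.isClosed_closedBall
  obtain ⟨a₁, a₃, a₄, hpar, hnum⟩ := param m η Cb hη hCb
  have ha₃ : 2 ≤ a₃ := by
    obtain ⟨h1, h2, h3⟩ := hpar
    nlinarith [Nat.zero_le (m * a₄)]
  have ha₄ : 1 ≤ a₄ := by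
    obtain ⟨h1, h2, h3⟩ := hpar
    omega
  obtain ⟨c, hc, hF'⟩ := hF m a₁ a₃ a₄ L hpar hL
  obtain ⟨CU, hCU, hU'⟩ := hU m a₃ L ha₃ hL
  obtain ⟨CP, hCP, hP'⟩ := hP m a₁ a₃ a₄ L hpar hL
  set C : ℝ := max CU CP with hCdef
  have hC : 0 < C := lt_max_of_lt_left hCU
  -- the events
  set E : ℕ × (Fin m → ℕ) → Set (Fin (d + 1) → ℝ) := EvS Y K a₁ ψ with hE
  have hEm : ∀ i, MeasurableSet (E i) := fun i => (Slice.meas Y K hKc hcont a₁ i.1 i.2 _).1
  set w : ℕ × (Fin m → ℕ) → ℝ := fun i => 2 ^ i.1 * dl ψ i.1 i.2 with hw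
  -- estimates on a cube
  have hcube : ∀ (u : Fin (d + 1) → ℝ) (r : ℝ), 0 < r → r ≤ 1 / 2 → Metric.closedBall u r ⊆ K →
      ∃ k₀ : ℕ, ∀ i : ℕ × (Fin m → ℕ), k₀ ≤ i.1 → MOK a₃ i.1 i.2 → dOK a₄ i.1 (dl ψ i.1 i.2) →
        (c / 2 * (2 * r) ^ (d + 1) * w i ≤ (volume (E i ∩ Metric.closedBall u r)).toReal ∧
        (volume (E i ∩ Metric.closedBall u r)).toReal ≤ C * (2 * r) ^ (d + 1) * w i ∧
        ∀ j : ℕ × (Fin m → ℕ), k₀ ≤ j.1 → MOK a₃ j.1 j.2 → dOK a₄ j.1 (dl ψ j.1 j.2) → i ≠ j →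
          (volume ((E i ∩ E j) ∩ Metric.closedBall u r)).toReal ≤
            C * (2 * r) ^ (d + 1) * w i * w j) := by
    intro u r hr hr2 hsub
    have h2r : 0 < 2 * r := by linarith
    have h2r1 : 2 * r ≤ 1 := by linarith
    obtain ⟨kF, hkF⟩ := hF' (2 * r) h2r h2r1
    obtain ⟨kU, hkU⟩ := hU' (2 * r) h2r h2r1
    obtain ⟨kP, hkP⟩ := hP' (2 * r) h2r h2r1
    have hVpos : 0 < (2 * r) ^ (d + 1) := by positivity
    obtain ⟨kN, hkN⟩ := hnum (c / 2 * (2 * r) ^ (d + 1)) (by positivity)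
    have hend : u 0 - r + 2 * r = u 0 + r := by ring
    refine ⟨max (max kF kU) (max kP kN), fun i hi hM hδ => ?_⟩
    have hiF : kF ≤ i.1 := (le_max_left _ _).trans ((le_max_left _ _).trans hi)
    have hiU : kU ≤ i.1 := (le_max_right _ _).trans ((le_max_left _ _).trans hi)
    have hiP : kP ≤ i.1 := (le_max_left _ _).trans ((le_max_right _ _).trans hi)
    have hiN : kN ≤ i.1 := (le_max_right _ _).trans ((le_max_right _ _).trans hi)
    have hδ0 : 0 < dl ψ i.1 i.2 := lt_of_lt_of_le (by positivity) hδ.1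
    have hw0 : 0 < w i := by simp only [hw]; positivity
    refine ⟨?_, ?_, ?_⟩
    · -- lower bound
      set E' : Set (Fin (d + 1) → ℝ) := {u | u ∈ K ∧ EE (2 ^ i.1) (u 0) ∧ EE (N1 a₁ i.1) (u 0) ∧
        EE (N0 a₁ i.1) (u 0) ∧ Ev i.1 i.2 (dl ψ i.1 i.2) (u 0) (Y u)} with hE'
      have hE'm : MeasurableSet E' := (Slice.meas Y K hKc hcont a₁ i.1 i.2 _).2
      have hlo : ENNReal.ofReal (c * (2 * r) * (2 ^ i.1 * dl ψ i.1 i.2)) *
          ENNReal.ofReal ((2 * r) ^ d) ≤ volume (E' ∩ Metric.closedBall u r) := by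
        refine Slice.slice_ge E' hE'm u r hr _ (fun u' hu' => ?_)
        refine (hkF (u 0 - r) _ (line_lip hL hlip hr.le hsub hu') i.1 hiF i.2 hM _ hδ).trans
          (measure_mono ?_)
        rintro x ⟨hx, h1, h2, h3, h4⟩
        rw [hend] at hx
        refine ⟨hx, hsub (cons_mem hr.le hx hu'), ?_, ?_, ?_, ?_⟩
        · simpa using h1
        · simpa using h2
        · simpa using h3
        · simpa using h4
      have hθ : (0 : ℝ) < 1 / 2 ^ (tE i.1 / 2) := by positivity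
      have hθ1 : (1 : ℝ) / 2 ^ (tE i.1 / 2) ≤ 1 := by
        rw [div_le_one (by positivity)]
        exact one_le_pow₀ (by norm_num)
      have hb := hbad (N0 a₁ i.1) (2 ^ (3 * sE a₁ i.1)) (1 / 2 ^ (tE i.1 / 2))
        Nat.one_le_two_pow hθ hθ1 (hkN i.1 hiN).1
      have hincl : E' ∩ Metric.closedBall u r ⊆ (E i ∩ Metric.closedBall u r) ∪
          {u | u ∈ Metric.ball u₀ ρ₁ ∧ ¬ Dio (1 / 2 ^ (tE i.1 / 2)) (N0 a₁ i.1)
            (2 ^ (3 * sE a₁ i.1)) (u 0) (Y u)} := by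
        rintro v ⟨⟨hvK, h1, h2, h3, h4⟩, hvB⟩
        by_cases hdio : Dio (1 / 2 ^ (tE i.1 / 2)) (N0 a₁ i.1) (2 ^ (3 * sE a₁ i.1)) (v 0) (Y v)
        · exact Or.inl ⟨⟨hvK, ⟨h1, h2, h3, hdio⟩, h4⟩, hvB⟩
        · refine Or.inr ⟨Metric.mem_ball.2 ((Metric.mem_closedBall.1 hvK).trans_lt hρ₂ρ), hdio⟩
      have htot := hlo.trans ((measure_mono hincl).trans ((measure_union_le _ _).trans
        (add_le_add_right hb _)))
      have hfinE : volume (E i ∩ Metric.closedBall u r) ≠ ⊤ :=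
        ((measure_mono inter_subset_right).trans_lt measure_closedBall_lt_top).ne
      have hreal : c * (2 * r) * (2 ^ i.1 * dl ψ i.1 i.2) * (2 * r) ^ d ≤
          (volume (E i ∩ Metric.closedBall u r)).toReal +
            Cb * ((2 ^ (3 * sE a₁ i.1) : ℕ) : ℝ) ^ m * (1 / (2 : ℝ) ^ (tE i.1 / 2)) ^ η := by
        have h := ENNReal.toReal_mono (ENNReal.add_ne_top.2 ⟨hfinE, ENNReal.ofReal_ne_top⟩) htot
        rw [ENNReal.toReal_mul, ENNReal.toReal_ofReal (by positivity),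
          ENNReal.toReal_ofReal (by positivity), ENNReal.toReal_add hfinE ENNReal.ofReal_ne_top,
          ENNReal.toReal_ofReal (by positivity)] at h
        exact h
      have hsmall := (hkN i.1 hiN).2
      have hwlow : 1 / (2 : ℝ) ^ (i.1 / a₄) ≤ w i := by
        simp only [hw]
        have h1 := hδ.1
        rw [pow_add] at h1
        calc 1 / (2 : ℝ) ^ (i.1 / a₄) = 2 ^ i.1 * (1 / (2 ^ i.1 * 2 ^ (i.1 / a₄))) := by
              field_simp
          _ ≤ _ := by gcongr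
      have h7 : c / 2 * (2 * r) ^ (d + 1) * (1 / (2 : ℝ) ^ (i.1 / a₄)) ≤
          c / 2 * (2 * r) ^ (d + 1) * w i := by gcongr
      have h8 : c * (2 * r) * (2 ^ i.1 * dl ψ i.1 i.2) * (2 * r) ^ d =
          c * (2 * r) ^ (d + 1) * w i := by simp only [hw]; ring
      rw [h8] at hreal
      have h9 : c * (2 * r) ^ (d + 1) * w i = c / 2 * (2 * r) ^ (d + 1) * w i +
          c / 2 * (2 * r) ^ (d + 1) * w i := by ring
      linarith
    · -- upper bound
      have hup : volume (E i ∩ Metric.closedBall u r) ≤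
          ENNReal.ofReal (CU * (2 * r) * (2 ^ i.1 * dl ψ i.1 i.2)) *
            ENNReal.ofReal ((2 * r) ^ d) := by
        refine Slice.slice_le (E i) (hEm i) u r hr _ (fun u' hu' => ?_)
        refine (measure_mono ?_).trans (hkU (u 0 - r) _ (line_lip hL hlip hr.le hsub hu') i.1 hiU
          i.2 hM _ hδ0 hδ.2)
        rintro x ⟨hx, hxK, hxG, hxE⟩
        rw [← hend] at hx
        refine ⟨hx, ?_, ?_⟩
        · simpa using hxG.1
        · simpa using hxE
      have h := ENNReal.toReal_mono (ENNReal.mul_ne_top ENNReal.ofReal_ne_top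
        ENNReal.ofReal_ne_top) hup
      rw [ENNReal.toReal_mul, ENNReal.toReal_ofReal (by positivity),
        ENNReal.toReal_ofReal (by positivity)] at h
      refine h.trans ?_
      have e1 : CU * (2 * r) * (2 ^ i.1 * dl ψ i.1 i.2) * (2 * r) ^ d =
        CU * (2 * r) ^ (d + 1) * w i := by simp only [hw]; ring
      rw [e1]
      have : CU ≤ C := le_max_left _ _
      gcongr
    · -- pairs
      intro j hj hMj hδj hij
      have hjP : kP ≤ j.1 := (le_max_left _ _).trans ((le_max_right _ _).trans hj)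
      have hδj0 : 0 < dl ψ j.1 j.2 := lt_of_lt_of_le (by positivity) hδj.1
      have hwj0 : 0 < w j := by simp only [hw]; positivity
      have hne : ¬ (i.1 = j.1 ∧ i.2 = j.2) := fun h => hij (Prod.ext h.1 h.2)
      have hup : volume ((E i ∩ E j) ∩ Metric.closedBall u r) ≤
          ENNReal.ofReal (CP * (2 * r) * (2 ^ i.1 * dl ψ i.1 i.2) * (2 ^ j.1 * dl ψ j.1 j.2)) *
            ENNReal.ofReal ((2 * r) ^ d) := by
        refine Slice.slice_le (E i ∩ E j) ((hEm i).inter (hEm j)) u r hr _ (fun u' hu' => ?_)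
        refine (measure_mono ?_).trans (hkP (u 0 - r) _ (line_lip hL hlip hr.le hsub hu') i.1 j.1
          hiP hjP i.2 j.2 hM hMj hne _ _ hδ hδj)
        rintro x ⟨hx, ⟨hxK, hxG, hxE⟩, hxK', hxG', hxE'⟩
        rw [← hend] at hx
        refine ⟨hx, ?_, ?_, ?_, ?_⟩
        · simpa using hxG
        · simpa using hxE
        · simpa using hxG'
        · simpa using hxE'
      have h := ENNReal.toReal_mono (ENNReal.mul_ne_top ENNReal.ofReal_ne_top
        ENNReal.ofReal_ne_top) hup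
      rw [ENNReal.toReal_mul, ENNReal.toReal_ofReal (by positivity),
        ENNReal.toReal_ofReal (by positivity)] at h
      refine h.trans ?_
      have e1 : CP * (2 * r) * (2 ^ i.1 * dl ψ i.1 i.2) * (2 ^ j.1 * dl ψ j.1 j.2) * (2 * r) ^ d =
        CP * (2 * r) ^ (d + 1) * w i * w j := by simp only [hw]; ring
      rw [e1]
      have : CP ≤ C := le_max_right _ _
      gcongr
  -- the limsup set
  set Wl : Set (Fin (d + 1) → ℝ) := {u | ∀ k₁ : ℕ, ∃ i : ℕ × (Fin m → ℕ),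
    (MOK a₃ i.1 i.2 ∧ dOK a₄ i.1 (dl ψ i.1 i.2)) ∧ k₁ ≤ i.1 ∧ u ∈ E i} with hWl
  have hWm : MeasurableSet Wl := by
    have : Wl = ⋂ k₁ : ℕ, ⋃ i : ℕ × (Fin m → ℕ), ⋃ (_ : (MOK a₃ i.1 i.2 ∧
        dOK a₄ i.1 (dl ψ i.1 i.2)) ∧ k₁ ≤ i.1), E i := by
      ext v
      simp only [hWl, Set.mem_setOf_eq, Set.mem_iInter, Set.mem_iUnion]
      constructor
      · intro h k₁
        obtain ⟨i, h1, h2, h3⟩ := h k₁
        exact ⟨i, ⟨h1, h2⟩, h3⟩
      · intro h k₁
        obtain ⟨i, ⟨h1, h2⟩, h3⟩ := h k₁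
        exact ⟨i, h1, h2, h3⟩
    rw [this]
    exact MeasurableSet.iInter fun k₁ => MeasurableSet.iUnion fun i => MeasurableSet.iUnion
      fun _ => hEm i
  set cd : ℝ := (c / 2) ^ 2 / (2 * C) with hcd
  have hcd0 : 0 < cd := by positivity
  have hdens := Ks.dens Wl hWm u₀ ρ₂ cd hcd0 (fun u hu => by
    have hpos : 0 < ρ₂ - dist u u₀ := sub_pos.2 hu
    refine ⟨min (1 / 2) (ρ₂ - dist u u₀), lt_min (by norm_num) hpos, fun r hr0 hr1 => ?_⟩
    have hr2 : r ≤ 1 / 2 := hr1.le.trans (min_le_left _ _)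
    have hsub : Metric.closedBall u r ⊆ K := by
      apply Metric.closedBall_subset_closedBall'
      have := hr1.le.trans (min_le_right _ _)
      linarith
    obtain ⟨k₀, hk₀⟩ := hcube u r hr0 hr2 hsub
    haveI : IsFiniteMeasure (volume.restrict (Metric.closedBall u r)) :=
      ⟨by rw [Measure.restrict_apply_univ]; exact measure_closedBall_lt_top⟩
    have hks := Ks.limsup_lower (volume.restrict (Metric.closedBall u r))
      (fun i : ℕ × (Fin m → ℕ) => i.1)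
      (fun i => k₀ ≤ i.1 ∧ MOK a₃ i.1 i.2 ∧ dOK a₄ i.1 (dl ψ i.1 i.2)) E w (c / 2) C
      ((2 * r) ^ (d + 1)) (by positivity) hC (by positivity)
      (fun i hi => by
        have : 0 < dl ψ i.1 i.2 := lt_of_lt_of_le (by positivity) hi.2.2.1
        simp only [hw]; positivity)
      (fun i _ => hEm i)
      (fun i hi => by
        rw [Measure.restrict_apply (hEm i)]
        exact (hk₀ i hi.1 hi.2.1 hi.2.2).1)
      (fun i hi => by
        rw [Measure.restrict_apply (hEm i)]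
        exact (hk₀ i hi.1 hi.2.1 hi.2.2).2.1)
      (fun i j hi hj hij => by
        rw [Measure.restrict_apply ((hEm i).inter (hEm j))]
        exact (hk₀ i hi.1 hi.2.1 hi.2.2).2.2 j hj.1 hj.2.1 hj.2.2 hij)
      (fun k₁ M => by
        obtain ⟨T, hT, hTM⟩ := hD m a₃ a₄ ψ ha₄ hpar.2.2 hψ hanti hdiv (max k₀ k₁) M
        refine ⟨T, fun i hi => ?_, hTM⟩
        obtain ⟨h1, h2, h3⟩ := hT i hi
        exact ⟨⟨(le_max_left _ _).trans h1, h2, h3⟩, (le_max_right _ _).trans h1⟩)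
    have hfin : volume (Wl ∩ Metric.closedBall u r) ≠ ⊤ :=
      ((measure_mono inter_subset_right).trans_lt measure_closedBall_lt_top).ne
    rw [vol_cb u hr0, ← ENNReal.ofReal_mul hcd0.le, ENNReal.ofReal_le_iff_le_toReal hfin]
    refine hks.trans ?_
    rw [Measure.restrict_apply' Metric.isClosed_closedBall.measurableSet]
    refine ENNReal.toReal_mono hfin (measure_mono ?_)
    rintro v ⟨hv, hvB⟩
    refine ⟨fun k₁ => ?_, hvB⟩
    obtain ⟨i, ⟨h0, h1⟩, h2, h3⟩ := hv k₁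
    exact ⟨i, h1, h2, h3⟩)
  refine ⟨ρ₂, hρ₂, ?_⟩
  filter_upwards [hdens] with u hu
  refine inf_sol (a₃ := a₃) hanti (fun k₁ => ?_)
  obtain ⟨i, ⟨h1, h1'⟩, h2, h3⟩ := hu k₁
  exact ⟨i, h1, h2, h3.2.2⟩

end Pool.Agent.Helper982_KG.Local
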