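import Mathlib
import Pool.Agent.Helper982_KG.Stmts
import Pool.Agent.Helper982_KG.KER

/-!
# Pairs of matrices with the same image of an integer vector
-/

set_option autoImplicit false

open MeasureTheory Set Finset

namespace Pool.Agent.Helper982_KG.MULT

open Pool.Agent.Helper982_KG.KER (mem_GG row_inj)

/-- integer points on a line in a box, one coordinate -/
theorem line_aux (R K h : ℕ) (g a b c : ℤ) (hg : 0 < g) (hgK : g ≤ K) (hab : IsCoprime a b)
    (h1 : 1 ≤ h) (hh : (h : ℤ) ≤ g * |a|) (S : Finset (ℤ × ℤ))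
    (hS : ∀ v ∈ S, |v.1| ≤ R ∧ |v.2| ≤ R ∧ a * v.2 - b * v.1 = c) :
    S.card ≤ 2 * R * K / h + 1 := by
  have ha : 0 < |a| := by
    have : (0 : ℤ) < g * |a| := lt_of_lt_of_le (by exact_mod_cast h1) hh
    exact (pos_iff_pos_of_mul_pos this).1 hg
  have hcard : ∀ q : ℕ, (Finset.Icc (0 : ℤ) (q : ℤ)).card = q + 1 := by
    intro q
    rw [Int.card_Icc]
    omega
  rw [← hcard]
  apply Finset.card_le_card_of_injOn (fun v => (v.1 + R) / |a|)
  · intro v hv
    obtain ⟨h2, h3, h4⟩ := hS v hv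
    rw [abs_le] at h2
    rw [Finset.coe_Icc, Set.mem_Icc]
    have hq0 : 0 ≤ (v.1 + R) / |a| := Int.ediv_nonneg (by linarith) ha.le
    refine ⟨hq0, ?_⟩
    have h5 : |a| * ((v.1 + R) / |a|) ≤ 2 * R := (Int.mul_ediv_self_le ha.ne').trans (by linarith)
    have h6 : ((v.1 + R) / |a|) * h ≤ 2 * R * K := by
      calc ((v.1 + R) / |a|) * h ≤ ((v.1 + R) / |a|) * (g * |a|) :=
            mul_le_mul_of_nonneg_left hh hq0
        _ = g * (|a| * ((v.1 + R) / |a|)) := by ring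
        _ ≤ g * (2 * R) := mul_le_mul_of_nonneg_left h5 hg.le
        _ ≤ K * (2 * R) := mul_le_mul_of_nonneg_right hgK (by positivity)
        _ = 2 * R * K := by ring
    push_cast
    exact (Int.le_ediv_iff_mul_le (by exact_mod_cast h1)).2 h6
  · intro v hv v' hv' h
    obtain ⟨h2, h3, h4⟩ := hS v hv
    obtain ⟨h2', h3', h4'⟩ := hS v' hv'
    have hd : |a| ∣ v.1 - v'.1 := by
      rw [abs_dvd]
      apply hab.dvd_of_dvd_mul_left
      exact ⟨v.2 - v'.2, by linear_combination h4' - h4⟩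
    have h5 := row_inj ha hd h
    have h6 : a * (v.2 - v'.2) = 0 := by
      rw [h5] at h4
      linear_combination h4 - h4'
    rcases mul_eq_zero.1 h6 with h7 | h7
    · rw [h7, abs_zero] at ha
      exact absurd ha (lt_irrefl _)
    · exact Prod.ext h5 (by linarith)

/-- integer points on a line in a box -/
theorem line (R K h : ℕ) (u : ℤ × ℤ) (c : ℤ) (hc : c ≠ 0) (hcK : |c| ≤ K) (h1 : 1 ≤ h)
    (hh : (h : ℤ) ≤ max |u.1| |u.2|) (S : Finset (ℤ × ℤ))
    (hS : ∀ v ∈ S, |v.1| ≤ R ∧ |v.2| ≤ R ∧ u.1 * v.2 - u.2 * v.1 = c) :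
    S.card ≤ 2 * R * K / h + 1 := by
  rcases S.eq_empty_or_nonempty with h0 | ⟨v0, hv0⟩
  · rw [h0]; simp
  set g : ℤ := (Int.gcd u.1 u.2 : ℤ) with hg
  obtain ⟨a, ha⟩ : g ∣ u.1 := Int.gcd_dvd_left ..
  obtain ⟨b, hb⟩ : g ∣ u.2 := Int.gcd_dvd_right ..
  have hg0 : 0 < g := by
    rcases (Int.natCast_nonneg (Int.gcd u.1 u.2)).lt_or_eq with h2 | h2
    · exact h2
    · exfalso
      have h3 : g = 0 := h2.symm
      rw [h3, zero_mul] at ha hb
      rw [ha, hb] at hh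
      simp at hh
      omega
  have hgc : g ∣ c := by
    obtain ⟨_, _, h4⟩ := hS v0 hv0
    rw [← h4]
    exact dvd_sub (Dvd.dvd.mul_right ⟨a, ha⟩ _) (Dvd.dvd.mul_right ⟨b, hb⟩ _)
  have hgK : g ≤ K := by
    have h2 : g ≤ |c| := Int.le_of_dvd (abs_pos.2 hc) ((dvd_abs _ _).2 hgc)
    exact h2.trans hcK
  have hab : IsCoprime a b := by
    have h2 := Int.gcd_eq_gcd_ab u.1 u.2
    refine ⟨Int.gcdA u.1 u.2, Int.gcdB u.1 u.2, ?_⟩
    apply mul_left_cancel₀ hg0.ne'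
    calc g * (Int.gcdA u.1 u.2 * a + Int.gcdB u.1 u.2 * b)
        = (g * a) * Int.gcdA u.1 u.2 + (g * b) * Int.gcdB u.1 u.2 := by ring
      _ = u.1 * Int.gcdA u.1 u.2 + u.2 * Int.gcdB u.1 u.2 := by rw [← ha, ← hb]
      _ = g * 1 := by rw [← h2]; ring
  obtain ⟨c', hc'⟩ := hgc
  have hS' : ∀ v ∈ S, |v.1| ≤ R ∧ |v.2| ≤ R ∧ a * v.2 - b * v.1 = c' := by
    intro v hv
    obtain ⟨h2, h3, h4⟩ := hS v hv
    refine ⟨h2, h3, ?_⟩
    apply mul_left_cancel₀ hg0.ne'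
    rw [← hc', ← h4]
    conv_rhs => rw [ha, hb]
    ring
  have e1 : |u.1| = g * |a| := by rw [ha, abs_mul, abs_of_pos hg0]
  have e2 : |u.2| = g * |b| := by rw [hb, abs_mul, abs_of_pos hg0]
  rcases le_total |u.2| |u.1| with h5 | h5
  · rw [max_eq_left h5, e1] at hh
    exact line_aux R K h g a b c' hg0 hgK hab h1 hh S hS'
  · rw [max_eq_right h5, e2] at hh
    have h6 := line_aux R K h g b a (-c') hg0 hgK hab.symm h1 hh (S.image Prod.swap) (by
      intro v hv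
      rw [Finset.mem_image] at hv
      obtain ⟨v', hv', rfl⟩ := hv
      obtain ⟨h7, h8, h9⟩ := hS' v' hv'
      exact ⟨h8, h7, by simp only [Prod.fst_swap, Prod.snd_swap]; linarith⟩)
    rwa [Finset.card_image_of_injective _ Prod.swap_injective] at h6

/-- number of matrices with a given image of `w` -/
theorem fib (C₀ R K h : ℕ) (w u : ℤ × ℤ) (hw : w ≠ 0) (hw1 : |w.1| ≤ K) (hw2 : |w.2| ≤ K)
    (h1 : 1 ≤ h) (hh : (h : ℤ) ≤ max |u.1| |u.2|) :
    ((GG C₀ R).filter (fun g => tact g w = u)).card ≤ 2 * R * K / h + 1 := by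
  set S := (GG C₀ R).filter (fun g => tact g w = u) with hS
  have hmem : ∀ g ∈ S, (|g.1| ≤ R ∧ |g.2.1| ≤ R ∧ |g.2.2.1| ≤ R ∧ |g.2.2.2| ≤ R) ∧
      g.1 * g.2.2.2 - g.2.1 * g.2.2.1 = 1 ∧ g.1 * w.1 + g.2.2.1 * w.2 = u.1 ∧
      g.2.1 * w.1 + g.2.2.2 * w.2 = u.2 := by
    intro g hg
    rw [hS, Finset.mem_filter, mem_GG] at hg
    obtain ⟨⟨h2, h3, _⟩, h4⟩ := hg
    rw [← h4]
    exact ⟨h2, h3, rfl, rfl⟩
  by_cases h0 : w.1 = 0
  · have h0' : w.2 ≠ 0 := fun h2 => hw (Prod.ext h0 h2)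
    have hinj : Set.InjOn (fun g : M4 => (g.1, g.2.1)) S := by
      intro g hg g' hg' h
      obtain ⟨_, _, h3, h4⟩ := hmem g hg
      obtain ⟨_, _, h3', h4'⟩ := hmem g' hg'
      simp only [Prod.mk.injEq] at h
      rw [h0] at h3 h4 h3' h4'
      have e1 : g.2.2.1 = g'.2.2.1 := mul_right_cancel₀ h0' (by linarith)
      have e2 : g.2.2.2 = g'.2.2.2 := mul_right_cancel₀ h0' (by linarith)
      exact Prod.ext h.1 (Prod.ext h.2 (Prod.ext e1 e2))
    rw [← Finset.card_image_of_injOn hinj]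
    apply line R K h u (-w.2) (neg_ne_zero.2 h0') (by rwa [abs_neg]) h1 hh
    intro v hv
    rw [Finset.mem_image] at hv
    obtain ⟨g, hg, rfl⟩ := hv
    obtain ⟨h2, h3, h4, h5⟩ := hmem g hg
    refine ⟨h2.1, h2.2.1, ?_⟩
    simp only
    rw [← h4, ← h5, h0]
    linear_combination (-w.2) * h3
  · have hinj : Set.InjOn (fun g : M4 => (g.2.2.1, g.2.2.2)) S := by
      intro g hg g' hg' h
      obtain ⟨_, _, h3, h4⟩ := hmem g hg
      obtain ⟨_, _, h3', h4'⟩ := hmem g' hg'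
      simp only [Prod.mk.injEq] at h
      rw [h.1] at h3
      rw [h.2] at h4
      have e1 : g.1 = g'.1 := mul_right_cancel₀ h0 (by linarith)
      have e2 : g.2.1 = g'.2.1 := mul_right_cancel₀ h0 (by linarith)
      exact Prod.ext e1 (Prod.ext e2 (Prod.ext h.1 h.2))
    rw [← Finset.card_image_of_injOn hinj]
    apply line R K h u w.1 h0 hw1 h1 hh
    intro v hv
    rw [Finset.mem_image] at hv
    obtain ⟨g, hg, rfl⟩ := hv
    obtain ⟨h2, h3, h4, h5⟩ := hmem g hg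
    refine ⟨h2.2.2.1, h2.2.2.2, ?_⟩
    simp only
    rw [← h4, ← h5]
    linear_combination w.1 * h3

theorem tact_ne {C₀ R : ℕ} {g : M4} (hg : g ∈ GG C₀ R) {w : ℤ × ℤ} (hw : w ≠ 0) :
    1 ≤ max |(tact g w).1| |(tact g w).2| := by
  rw [mem_GG] at hg
  obtain ⟨_, h, _⟩ := hg
  by_contra hcon
  push Not at hcon
  have h1 : |(tact g w).1| < 1 := (le_max_left _ _).trans_lt hcon
  have h2 : |(tact g w).2| < 1 := (le_max_right _ _).trans_lt hcon
  rw [Int.abs_lt_one_iff] at h1 h2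
  unfold tact at h1 h2
  simp only at h1 h2
  apply hw
  have e1 : w.1 = 0 := by linear_combination (-w.1) * h + g.2.2.2 * h1 - g.2.2.1 * h2
  have e2 : w.2 = 0 := by linear_combination (-w.2) * h + g.1 * h2 - g.2.1 * h1
  exact Prod.ext e1 e2

theorem mult : S_CARD → S_MULT := by
  intro hcard C₀
  refine ⟨81 + 27 * (2 * C₀ + 1), by positivity, ?_⟩
  intro R K hR hK w hw hw1 hw2
  have hR1 : (1 : ℝ) ≤ R := by exact_mod_cast hR
  have hK1 : (1 : ℝ) ≤ K := by exact_mod_cast hK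
  have hR0 : (0 : ℝ) < R := by linarith
  set H : ℕ := ⌊(R : ℝ) ^ ((2 : ℝ) / 5)⌋₊ with hH
  have hH1 : (H : ℝ) ≤ (R : ℝ) ^ ((2 : ℝ) / 5) := Nat.floor_le (by positivity)
  have hH2 : (R : ℝ) ^ ((2 : ℝ) / 5) < H + 1 := Nat.lt_floor_add_one _
  have hR25 : (1 : ℝ) ≤ (R : ℝ) ^ ((2 : ℝ) / 5) := Real.one_le_rpow hR1 (by norm_num)
  -- the number of pairs as a sum
  have hsum : (((GG C₀ R) ×ˢ (GG C₀ R)).filter (fun p => tact p.1 w = tact p.2 w)).card =
      ∑ g ∈ GG C₀ R, ((GG C₀ R).filter (fun g' => tact g' w = tact g w)).card := by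
    rw [Finset.card_filter, Finset.sum_product]
    refine Finset.sum_congr rfl fun g _ => ?_
    rw [Finset.card_filter]
    refine Finset.sum_congr rfl fun g' _ => ?_
    simp only [eq_comm]
  rw [hsum]
  push_cast
  rw [← Finset.sum_filter_add_sum_filter_not (GG C₀ R)
    (fun g => max |(tact g w).1| |(tact g w).2| ≤ (H : ℤ))]
  have hcast : ∀ h : ℕ, 1 ≤ h → ((2 * R * K / h + 1 : ℕ) : ℝ) ≤ 2 * R * K / h + 1 := by
    intro h _
    push_cast
    have := Nat.cast_div_le (α := ℝ) (m := 2 * R * K) (n := h)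
    push_cast at this
    linarith
  -- small images
  have hsmall : ∀ g ∈ GG C₀ R,
      (((GG C₀ R).filter (fun g' => tact g' w = tact g w)).card : ℝ) ≤ 3 * (R * K) := by
    intro g hg
    have h1 := fib C₀ R K 1 w (tact g w) hw hw1 hw2 le_rfl (by simpa using tact_ne hg hw)
    have h2 := (Nat.cast_le (α := ℝ)).2 h1
    refine h2.trans ((hcast 1 le_rfl).trans ?_)
    have : (1 : ℝ) ≤ R * K := by nlinarith
    push_cast
    rw [div_one]
    nlinarith
  have hs1 : ∑ g ∈ (GG C₀ R).filter (fun g => max |(tact g w).1| |(tact g w).2| ≤ (H : ℤ)),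
      (((GG C₀ R).filter (fun g' => tact g' w = tact g w)).card : ℝ) ≤
      (3 * (R * K)) * (3 * (R * K) * (2 * H + 1) ^ 2) := by
    have hc1 : (((GG C₀ R).filter
        (fun g => max |(tact g w).1| |(tact g w).2| ≤ (H : ℤ))).card : ℝ) ≤
        3 * (R * K) * (2 * H + 1) ^ 2 := by
      set T : Finset (ℤ × ℤ) := (Finset.Icc (-(H : ℤ)) H) ×ˢ (Finset.Icc (-(H : ℤ)) H) with hT
      have h1 : T.card = (2 * H + 1) ^ 2 := by
        rw [hT, Finset.card_product, Int.card_Icc, sq]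
        congr 1 <;> omega
      have h2 : ((GG C₀ R).filter
        (fun g => max |(tact g w).1| |(tact g w).2| ≤ (H : ℤ))).card ≤ (3 * (R * K)) * T.card := by
        apply Finset.card_le_mul_card_image_of_maps_to (f := fun g : M4 => tact g w)
        · intro g hg
          rw [Finset.mem_filter] at hg
          rw [hT, Finset.mem_product, Finset.mem_Icc, Finset.mem_Icc]
          exact ⟨abs_le.1 ((le_max_left _ _).trans hg.2), abs_le.1 ((le_max_right _ _).trans hg.2)⟩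
        · intro u _
          rcases (((GG C₀ R).filter
            (fun g => max |(tact g w).1| |(tact g w).2| ≤ (H : ℤ))).filter
              (fun g => tact g w = u)).eq_empty_or_nonempty with h3 | ⟨g, hg⟩
          · rw [h3]; simp
          · rw [Finset.mem_filter, Finset.mem_filter] at hg
            have h4 := hsmall g hg.1.1
            rw [hg.2] at h4
            have h5 : (((GG C₀ R).filter
              (fun g => max |(tact g w).1| |(tact g w).2| ≤ (H : ℤ))).filter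
              (fun g => tact g w = u)).card ≤ ((GG C₀ R).filter (fun g' => tact g' w = u)).card :=
              Finset.card_le_card (Finset.filter_subset_filter _ (Finset.filter_subset _ _))
            exact h5.trans (by exact_mod_cast h4)
      rw [h1] at h2
      exact_mod_cast h2
    calc _ ≤ ∑ g ∈ (GG C₀ R).filter (fun g => max |(tact g w).1| |(tact g w).2| ≤ (H : ℤ)),
          (3 * ((R : ℝ) * K)) :=
          Finset.sum_le_sum fun g hg => hsmall g (Finset.mem_filter.1 hg).1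
      _ = (3 * ((R : ℝ) * K)) * (((GG C₀ R).filter
          (fun g => max |(tact g w).1| |(tact g w).2| ≤ (H : ℤ))).card : ℝ) := by
          rw [Finset.sum_const, nsmul_eq_mul, mul_comm]
      _ ≤ _ := by gcongr
  -- large images
  have hs2 : ∑ g ∈ (GG C₀ R).filter (fun g => ¬ max |(tact g w).1| |(tact g w).2| ≤ (H : ℤ)),
      (((GG C₀ R).filter (fun g' => tact g' w = tact g w)).card : ℝ) ≤
      (3 * K * (R : ℝ) ^ ((3 : ℝ) / 5)) * ((2 * C₀ + 1) * (2 * R + 1) ^ 2) := by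
    have hl : ∀ g ∈ (GG C₀ R).filter (fun g => ¬ max |(tact g w).1| |(tact g w).2| ≤ (H : ℤ)),
        (((GG C₀ R).filter (fun g' => tact g' w = tact g w)).card : ℝ) ≤
          3 * K * (R : ℝ) ^ ((3 : ℝ) / 5) := by
      intro g hg
      rw [Finset.mem_filter] at hg
      have h1 := fib C₀ R K (H + 1) w (tact g w) hw hw1 hw2 (by omega) (by
        push_cast
        have := hg.2
        omega)
      have h2 := (Nat.cast_le (α := ℝ)).2 h1
      refine h2.trans ((hcast (H + 1) (by omega)).trans ?_)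
      have h3 : (2 * R * K : ℝ) / ((H + 1 : ℕ) : ℝ) ≤ 2 * K * (R : ℝ) ^ ((3 : ℝ) / 5) := by
        rw [div_le_iff₀ (by positivity)]
        have h4 : (R : ℝ) = (R : ℝ) ^ ((3 : ℝ) / 5) * (R : ℝ) ^ ((2 : ℝ) / 5) := by
          rw [← Real.rpow_add hR0]; norm_num
        calc (2 * R * K : ℝ) = 2 * K * (R : ℝ) ^ ((3 : ℝ) / 5) * (R : ℝ) ^ ((2 : ℝ) / 5) := by
              rw [mul_assoc (2 * (K : ℝ)), ← h4]; ring
          _ ≤ 2 * K * (R : ℝ) ^ ((3 : ℝ) / 5) * ((H + 1 : ℕ) : ℝ) := by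
              push_cast
              gcongr
      have h5 : (1 : ℝ) ≤ (R : ℝ) ^ ((3 : ℝ) / 5) := Real.one_le_rpow hR1 (by norm_num)
      have h6 : (1 : ℝ) ≤ K * (R : ℝ) ^ ((3 : ℝ) / 5) := by nlinarith
      linarith
    calc _ ≤ ∑ g ∈ (GG C₀ R).filter (fun g => ¬ max |(tact g w).1| |(tact g w).2| ≤ (H : ℤ)),
          (3 * K * (R : ℝ) ^ ((3 : ℝ) / 5)) := Finset.sum_le_sum hl
      _ = (3 * K * (R : ℝ) ^ ((3 : ℝ) / 5)) * (((GG C₀ R).filter
          (fun g => ¬ max |(tact g w).1| |(tact g w).2| ≤ (H : ℤ))).card : ℝ) := by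
          rw [Finset.sum_const, nsmul_eq_mul, mul_comm]
      _ ≤ _ := by
          have h7 : (((GG C₀ R).filter
            (fun g => ¬ max |(tact g w).1| |(tact g w).2| ≤ (H : ℤ))).card : ℝ) ≤
            (2 * C₀ + 1) * (2 * R + 1) ^ 2 := by
            have h8 := (Finset.card_filter_le (GG C₀ R)
              (fun g => ¬ max |(tact g w).1| |(tact g w).2| ≤ (H : ℤ))).trans (hcard C₀ R)
            exact_mod_cast h8
          gcongr
  refine (add_le_add hs1 hs2).trans ?_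
  have hR145 : (R : ℝ) ^ ((14 : ℝ) / 5) = R ^ 2 * ((R : ℝ) ^ ((2 : ℝ) / 5)) ^ 2 := by
    rw [← Real.rpow_natCast, ← Real.rpow_natCast, ← Real.rpow_mul hR0.le, ← Real.rpow_add hR0]
    norm_num
  have hR35 : (R : ℝ) ^ ((3 : ℝ) / 5) ≤ ((R : ℝ) ^ ((2 : ℝ) / 5)) ^ 2 := by
    rw [← Real.rpow_natCast, ← Real.rpow_mul hR0.le]
    exact Real.rpow_le_rpow_of_exponent_le hR1 (by norm_num)
  rw [hR145]
  set ρ := (R : ℝ) ^ ((2 : ℝ) / 5) with hρ
  have hρ0 : 0 < ρ := by positivity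
  have hH3 : (2 * (H : ℝ) + 1) ^ 2 ≤ 9 * ρ ^ 2 := by
    have : (2 * (H : ℝ) + 1) ^ 2 ≤ (3 * ρ) ^ 2 := by
      gcongr
      linarith
    linarith [this, (by ring : (3 * ρ) ^ 2 = 9 * ρ ^ 2)]
  have hR9 : (2 * (R : ℝ) + 1) ^ 2 ≤ 9 * R ^ 2 := by
    have : (2 * (R : ℝ) + 1) ^ 2 ≤ (3 * R) ^ 2 := by
      gcongr
      linarith
    linarith [this, (by ring : (3 * (R : ℝ)) ^ 2 = 9 * R ^ 2)]
  have t1 : 3 * ((R : ℝ) * K) * (3 * (R * K) * (2 * H + 1) ^ 2) ≤
      81 * ((K : ℝ) ^ 3 * (R ^ 2 * ρ ^ 2)) := by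
    calc 3 * ((R : ℝ) * K) * (3 * (R * K) * (2 * H + 1) ^ 2)
        ≤ 3 * ((R : ℝ) * K) * (3 * (R * K) * (9 * ρ ^ 2)) := by gcongr
      _ = 81 * ((K : ℝ) ^ 2 * (R ^ 2 * ρ ^ 2)) := by ring
      _ ≤ _ := by
          have : (K : ℝ) ^ 2 ≤ K ^ 3 := pow_le_pow_right₀ hK1 (by norm_num)
          gcongr
  have t2 : 3 * (K : ℝ) * (R : ℝ) ^ ((3 : ℝ) / 5) * ((2 * C₀ + 1) * (2 * R + 1) ^ 2) ≤
      27 * (2 * C₀ + 1) * ((K : ℝ) ^ 3 * (R ^ 2 * ρ ^ 2)) := by
    calc 3 * (K : ℝ) * (R : ℝ) ^ ((3 : ℝ) / 5) * ((2 * C₀ + 1) * (2 * R + 1) ^ 2)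
        ≤ 3 * (K : ℝ) * ρ ^ 2 * ((2 * C₀ + 1) * (9 * R ^ 2)) := by gcongr
      _ = 27 * (2 * C₀ + 1) * ((K : ℝ) ^ 1 * (R ^ 2 * ρ ^ 2)) := by ring
      _ ≤ _ := by
          have : (K : ℝ) ^ 1 ≤ K ^ 3 := pow_le_pow_right₀ hK1 (by norm_num)
          gcongr
  calc _ ≤ _ := add_le_add t1 t2
    _ = _ := by ring

end Pool.Agent.Helper982_KG.MULT
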