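import Pool.Agent.Helper982_KG.Stmts

/-!
# Part ORB2: the counting lemma and the orbit count of rank two
-/

open MeasureTheory Set Finset

namespace Pool.Agent.Helper982_KG.ORB2

/-! ### The counting lemma -/

theorem strip (x c : ℤ) (Y h : ℕ) (hx : x.natAbs = h) (h1 : 1 ≤ h) (F : Finset ℤ)
    (hF : ∀ v ∈ F, |x * v - c| ≤ Y) : F.card ≤ 2 * Y / h + 1 := by
  rcases F.eq_empty_or_nonempty with rfl | hne
  · simp
  have hm := F.min'_mem hne
  have hM := F.max'_mem hne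
  have hsub : F ⊆ Finset.Icc (F.min' hne) (F.max' hne) :=
    fun v hv => Finset.mem_Icc.2 ⟨F.min'_le v hv, F.le_max' v hv⟩
  have hcard := Finset.card_le_card hsub
  rw [Int.card_Icc] at hcard
  have hmM : F.min' hne ≤ F.max' hne := F.min'_le _ hM
  generalize F.min' hne = m at *
  generalize F.max' hne = M at *
  have h2 : |x| * (M - m) ≤ 2 * Y := by
    have h3 := abs_le.1 (hF M hM)
    have h4 := abs_le.1 (hF m hm)
    have h5 : |x * (M - m)| ≤ 2 * Y := by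
      have h6 : x * (M - m) = (x * M - c) - (x * m - c) := by ring
      rw [h6, abs_le]
      constructor <;> linarith [h3.1, h3.2, h4.1, h4.2]
    rwa [abs_mul, abs_of_nonneg (by linarith : 0 ≤ M - m)] at h5
  have h5 : (M - m).toNat * h ≤ 2 * Y := by
    have h6 : (((M - m).toNat * h : ℕ) : ℤ) ≤ ((2 * Y : ℕ) : ℤ) := by
      push_cast
      rw [Int.toNat_of_nonneg (by linarith), ← hx, Int.natCast_natAbs]
      linarith [mul_comm (M - m) |x|]
    exact_mod_cast h6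
  have h6 : (M - m).toNat ≤ 2 * Y / h := (Nat.le_div_iff_mul_le h1).2 h5
  omega

theorem fib (al : ℤ × ℤ) (Q Y h : ℕ) (h1 : 1 ≤ h) (hal : max al.1.natAbs al.2.natAbs = h)
    (T : Finset (ℤ × ℤ)) (hT : ∀ V ∈ T, |V.1| ≤ Q ∧ |V.2| ≤ Q ∧
      |al.1 * V.2 - al.2 * V.1| ≤ Y) :
    T.card ≤ (2 * Q + 1) * (2 * Y / h + 1) := by
  classical
  have hIcc : (Finset.Icc (-(Q : ℤ)) Q).card = 2 * Q + 1 := by
    rw [Int.card_Icc]; omega
  rcases le_total al.1.natAbs al.2.natAbs with hle | hle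
  · rw [max_eq_right hle] at hal
    have h2 := Finset.card_le_mul_card_image (f := Prod.snd) T (2 * Y / h + 1) (by
      intro u _
      have h3 : (T.filter (fun V => V.2 = u)).card =
          ((T.filter (fun V => V.2 = u)).image Prod.fst).card := by
        rw [Finset.card_image_of_injOn]
        intro V hV V' hV' he
        have hV := (Finset.mem_filter.1 hV).2
        have hV' := (Finset.mem_filter.1 hV').2
        exact Prod.ext he (hV.trans hV'.symm)
      rw [h3]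
      apply strip al.2 (al.1 * u) Y h hal h1
      intro v hv
      obtain ⟨V, hV, rfl⟩ := Finset.mem_image.1 hv
      obtain ⟨hVT, hVu⟩ := Finset.mem_filter.1 hV
      have h4 := (hT V hVT).2.2
      rw [← hVu, ← abs_neg]
      convert h4 using 2
      ring)
    have h5 : T.image Prod.snd ⊆ Finset.Icc (-(Q : ℤ)) Q := by
      intro u hu
      obtain ⟨V, hV, rfl⟩ := Finset.mem_image.1 hu
      exact Finset.mem_Icc.2 (abs_le.1 (hT V hV).2.1)
    have h6 := Finset.card_le_card h5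
    rw [hIcc] at h6
    calc T.card ≤ (2 * Y / h + 1) * (T.image Prod.snd).card := h2
      _ ≤ (2 * Y / h + 1) * (2 * Q + 1) := Nat.mul_le_mul_left _ h6
      _ = _ := mul_comm _ _
  · rw [max_eq_left hle] at hal
    have h2 := Finset.card_le_mul_card_image (f := Prod.fst) T (2 * Y / h + 1) (by
      intro u _
      have h3 : (T.filter (fun V => V.1 = u)).card =
          ((T.filter (fun V => V.1 = u)).image Prod.snd).card := by
        rw [Finset.card_image_of_injOn]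
        intro V hV V' hV' he
        have hV := (Finset.mem_filter.1 hV).2
        have hV' := (Finset.mem_filter.1 hV').2
        exact Prod.ext (hV.trans hV'.symm) he
      rw [h3]
      apply strip al.1 (al.2 * u) Y h hal h1
      intro v hv
      obtain ⟨V, hV, rfl⟩ := Finset.mem_image.1 hv
      obtain ⟨hVT, hVu⟩ := Finset.mem_filter.1 hV
      have h4 := (hT V hVT).2.2
      rw [← hVu]
      exact h4)
    have h5 : T.image Prod.fst ⊆ Finset.Icc (-(Q : ℤ)) Q := by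
      intro u hu
      obtain ⟨V, hV, rfl⟩ := Finset.mem_image.1 hu
      exact Finset.mem_Icc.2 (abs_le.1 (hT V hV).1)
    have h6 := Finset.card_le_card h5
    rw [hIcc] at h6
    calc T.card ≤ (2 * Y / h + 1) * (T.image Prod.fst).card := h2
      _ ≤ (2 * Y / h + 1) * (2 * Q + 1) := Nat.mul_le_mul_left _ h6
      _ = _ := mul_comm _ _

theorem count : S_COUNT := by
  classical
  intro P Q Y S hS
  set hh : (ℤ × ℤ) × (ℤ × ℤ) → ℕ := fun p => max p.1.1.natAbs p.1.2.natAbs with hhd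
  have hmaps : ∀ p ∈ S, hh p ∈ Finset.Icc 1 P := by
    intro p hp
    obtain ⟨h0, h1, h2, -⟩ := hS p hp
    rw [Finset.mem_Icc]
    have h3 : p.1.1 ≠ 0 ∨ p.1.2 ≠ 0 := by
      by_contra hcon
      push Not at hcon
      exact h0 (Prod.ext hcon.1 hcon.2)
    simp only [hhd]
    rw [abs_le] at h1 h2
    omega
  have h1 : S.card = ∑ h ∈ Finset.Icc 1 P, (S.filter (fun p => hh p = h)).card :=
    Finset.card_eq_sum_card_fiberwise hmaps
  have h2 : ∀ h ∈ Finset.Icc 1 P, (S.filter (fun p => hh p = h)).card ≤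
      (2 * Q + 1) * (16 * Y + 8 * h) := by
    intro h hh1
    have h1h := (Finset.mem_Icc.1 hh1).1
    have h3 := Finset.card_le_mul_card_image (f := Prod.fst) (S.filter (fun p => hh p = h))
      ((2 * Q + 1) * (2 * Y / h + 1)) (by
        intro al hal
        obtain ⟨p0, hp0, hal0⟩ := Finset.mem_image.1 hal
        have hp0' := (Finset.mem_filter.1 hp0).2
        simp only [hhd] at hp0'
        rw [hal0] at hp0'
        have h4 : ((S.filter (fun p => hh p = h)).filter (fun p => p.1 = al)).card =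
            (((S.filter (fun p => hh p = h)).filter (fun p => p.1 = al)).image Prod.snd).card := by
          rw [Finset.card_image_of_injOn]
          intro V hV V' hV' he
          have hV := (Finset.mem_filter.1 hV).2
          have hV' := (Finset.mem_filter.1 hV').2
          exact Prod.ext (hV.trans hV'.symm) he
        rw [h4]
        apply fib al Q Y h h1h hp0'
        intro V hV
        obtain ⟨p, hp, rfl⟩ := Finset.mem_image.1 hV
        obtain ⟨hp1, hp2⟩ := Finset.mem_filter.1 hp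
        have hp3 := hS p (Finset.mem_filter.1 hp1).1
        rw [← hp2]
        exact ⟨hp3.2.2.2.1, hp3.2.2.2.2.1, hp3.2.2.2.2.2⟩)
    have h5 : (S.filter (fun p => hh p = h)).image Prod.fst ⊆ (Finset.box h : Finset (ℤ × ℤ)) := by
      intro al hal
      obtain ⟨p, hp, rfl⟩ := Finset.mem_image.1 hal
      rw [Int.mem_box]
      exact (Finset.mem_filter.1 hp).2
    have h6 := Finset.card_le_card h5
    rw [Int.card_box (by omega)] at h6
    calc (S.filter (fun p => hh p = h)).card ≤ _ := h3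
      _ ≤ (2 * Q + 1) * (2 * Y / h + 1) * (8 * h) := Nat.mul_le_mul_left _ h6
      _ = (2 * Q + 1) * (8 * (2 * Y / h * h) + 8 * h) := by ring
      _ ≤ (2 * Q + 1) * (8 * (2 * Y) + 8 * h) := by
          apply Nat.mul_le_mul_left
          have := Nat.div_mul_le_self (2 * Y) h
          omega
      _ = _ := by ring
  rw [h1]
  calc _ ≤ ∑ h ∈ Finset.Icc 1 P, (2 * Q + 1) * (16 * Y + 8 * h) := Finset.sum_le_sum h2
    _ ≤ ∑ h ∈ Finset.Icc 1 P, (2 * Q + 1) * (16 * Y + 8 * P) := by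
        apply Finset.sum_le_sum
        intro h hh1
        have := (Finset.mem_Icc.1 hh1).2
        gcongr
    _ = _ := by
        rw [Finset.sum_const, Nat.card_Icc]
        simp only [Nat.add_sub_cancel, smul_eq_mul]
        ring

/-! ### The orbit count of rank two -/

theorem round_near (x : ℝ) : |x - round x| ≤ 1 / 2 := abs_sub_round x

theorem round_bd {M v a e i : ℝ} (hM : 0 ≤ M) (hv : |v| ≤ a) (hi : |M * v - i| ≤ e) :
    |i| ≤ M * a + e := by
  have h1 : |M * v| ≤ M * a := by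
    rw [abs_mul, abs_of_nonneg hM]
    gcongr
  have h2 : i = M * v - (M * v - i) := by ring
  rw [h2]
  exact (abs_sub _ _).trans (by linarith)

/-- the wedge of the rounded vectors -/
theorem wedge_round {M a b τ : ℝ} (hM : 0 ≤ M) {v w : ℝ × ℝ} {i j : ℤ × ℤ}
    (hv1 : |v.1| ≤ a) (hv2 : |v.2| ≤ a) (hw1 : |w.1| ≤ b) (hw2 : |w.2| ≤ b)
    (hw : |v.1 * w.2 - v.2 * w.1| ≤ τ) (e : ℝ) (he0 : 0 ≤ e)
    {M' : ℝ} (hM' : 0 ≤ M')
    (hi1 : |M * v.1 - i.1| ≤ e) (hi2 : |M * v.2 - i.2| ≤ e)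
    (hj1 : |M' * w.1 - j.1| ≤ e) (hj2 : |M' * w.2 - j.2| ≤ e) :
    |((i.1 * j.2 - i.2 * j.1 : ℤ) : ℝ)| ≤ M * M' * τ + 2 * M * a * e + 2 * M' * b * e + 2 * e ^ 2 := by
  have h1 : ((i.1 * j.2 - i.2 * j.1 : ℤ) : ℝ) = M * M' * (v.1 * w.2 - v.2 * w.1)
      - M * v.1 * (M' * w.2 - j.2) + M * v.2 * (M' * w.1 - j.1)
      - (M * v.1 - i.1) * (M' * w.2) + (M * v.2 - i.2) * (M' * w.1)
      + (M * v.1 - i.1) * (M' * w.2 - j.2) - (M * v.2 - i.2) * (M' * w.1 - j.1) := by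
    push_cast; ring
  have ha : 0 ≤ a := (abs_nonneg _).trans hv1
  have hb : 0 ≤ b := (abs_nonneg _).trans hw1
  have t0 : |M * M' * (v.1 * w.2 - v.2 * w.1)| ≤ M * M' * τ := by
    rw [abs_mul, abs_of_nonneg (by positivity : 0 ≤ M * M')]
    gcongr
  have t1 : |M * v.1 * (M' * w.2 - j.2)| ≤ M * a * e := by
    rw [abs_mul, abs_mul, abs_of_nonneg hM]
    gcongr
  have t2 : |M * v.2 * (M' * w.1 - j.1)| ≤ M * a * e := by
    rw [abs_mul, abs_mul, abs_of_nonneg hM]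
    gcongr
  have t3 : |(M * v.1 - i.1) * (M' * w.2)| ≤ e * (M' * b) := by
    rw [abs_mul, abs_mul, abs_of_nonneg hM']
    gcongr
  have t4 : |(M * v.2 - i.2) * (M' * w.1)| ≤ e * (M' * b) := by
    rw [abs_mul, abs_mul, abs_of_nonneg hM']
    gcongr
  have t5 : |(M * v.1 - i.1) * (M' * w.2 - j.2)| ≤ e * e := by
    rw [abs_mul]
    gcongr
  have t6 : |(M * v.2 - i.2) * (M' * w.1 - j.1)| ≤ e * e := by
    rw [abs_mul]
    gcongr
  rw [h1]
  rw [abs_le] at *
  constructor <;> linarith [t0.1, t0.2, t1.1, t1.2, t2.1, t2.2, t3.1, t3.2, t4.1, t4.2, t5.1, t5.2,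
    t6.1, t6.2]

/-- a finite set is bounded by the number of its images and the size of the fibres -/
theorem fibre {α β : Type*} [DecidableEq α] [DecidableEq β] (S : Finset α) (f : α → β) (N B : ℝ)
    (hB : 0 ≤ B)
    (hf : ∀ b ∈ S.image f, ((S.filter (fun a => f a = b)).card : ℝ) ≤ B)
    (hN : ((S.image f).card : ℝ) ≤ N) : (S.card : ℝ) ≤ N * B := by
  have h1 : S.card = ∑ b ∈ S.image f, (S.filter (fun a => f a = b)).card :=
    Finset.card_eq_sum_card_image f S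
  rw [h1]
  push_cast
  calc _ ≤ ∑ b ∈ S.image f, B := Finset.sum_le_sum hf
    _ = (S.image f).card * B := by rw [Finset.sum_const, nsmul_eq_mul]
    _ ≤ N * B := by gcongr

theorem near_of {ω ρ x v : ℝ} {M : ℝ} {i : ℤ} (hM : 0 < M) (hx : NI (x - v) ω)
    (hi : |M * v - i| ≤ 1 / 2) (h : ω + 1 / (2 * M) ≤ ρ) : NI (x - i / M) ρ := by
  obtain ⟨k, hk⟩ := hx
  refine ⟨k, ?_⟩
  have h1 : |v - i / M| ≤ 1 / (2 * M) := by
    have h2 : v - i / M = (M * v - i) / M := by field_simp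
    rw [h2, abs_div, abs_of_pos hM]
    rw [div_le_div_iff₀ hM (by positivity)]
    nlinarith
  have h3 : x - i / M - k = (x - v - k) + (v - i / M) := by ring
  rw [h3]
  exact (abs_add_le _ _).trans (by linarith)

theorem num1 {c r τ K : ℝ} (hc : 0 ≤ c) (hr : 0 < r) (hr1 : r ≤ 1) (hτK : 1 ≤ τ * K)
    (hK : 1 ≤ K) :
    16 * (c * (r * K)) * (c * (τ * K ^ 2)) + 8 * (c * (r * K)) ^ 2 ≤
      (16 * c * c + 8 * c ^ 2) * (τ * r * K ^ 3) := by
  have e1 : (r * K) ^ 2 ≤ τ * r * K ^ 3 := by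
    have e2 : r * (r * K ^ 2) * 1 ≤ r * (1 * K ^ 2) * (τ * K) := by gcongr
    calc (r * K) ^ 2 = r * (r * K ^ 2) * 1 := by ring
      _ ≤ _ := e2
      _ = _ := by ring
  have e3 : 8 * c ^ 2 * (r * K) ^ 2 ≤ 8 * c ^ 2 * (τ * r * K ^ 3) := by gcongr
  calc _ = 16 * c * c * (τ * r * K ^ 3) + 8 * c ^ 2 * (r * K) ^ 2 := by ring
    _ ≤ 16 * c * c * (τ * r * K ^ 3) + 8 * c ^ 2 * (τ * r * K ^ 3) := by linarith
    _ = _ := by ring

theorem num2 {r τ K : ℝ} (h : 1 ≤ τ * r * K) (hK : 1 ≤ K) : K ^ 2 ≤ τ * r * K ^ 4 := by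
  have e0 : 1 ≤ τ * r * K * K := by
    calc (1 : ℝ) = 1 * 1 := by ring
      _ ≤ τ * r * K * K := by gcongr
  calc K ^ 2 = K ^ 2 * 1 := by ring
    _ ≤ K ^ 2 * (τ * r * K * K) := by gcongr
    _ = _ := by ring

theorem num3 {c C₁ r τ K : ℝ} (hc : c = 4 * C₁ + 5) (hC : 0 ≤ C₁) (hr1 : r ≤ 1)
    (hτ : 0 ≤ τ) (hτK : 1 ≤ τ * K) (hK : 1 ≤ K) :
    2 * K * (2 * K) * τ + 2 * (2 * K) * (C₁ * r) * (1 / 2) + 2 * (2 * K) * C₁ * (1 / 2) +
      2 * (1 / 2) ^ 2 ≤ c * (τ * K ^ 2) := by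
  have e1 : K ≤ τ * K ^ 2 := by
    calc K = K * 1 := by ring
      _ ≤ K * (τ * K) := by gcongr
      _ = _ := by ring
  have e3 : C₁ * r * K ≤ C₁ * (τ * K ^ 2) := by
    calc C₁ * r * K ≤ C₁ * 1 * (τ * K ^ 2) := by gcongr
      _ = _ := by ring
  have e4 : C₁ * K ≤ C₁ * (τ * K ^ 2) := by gcongr
  have e5 : 2 * K * (2 * K) * τ = 4 * (τ * K ^ 2) := by ring
  have e6 : c * (τ * K ^ 2) = 4 * (C₁ * (τ * K ^ 2)) + 5 * (τ * K ^ 2) := by rw [hc]; ring
  rw [e5, e6]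
  linarith

theorem o2 (hcount : S_COUNT) (hbox : S_BOX2) : S_O2 := by
  classical
  intro C₀ C₁
  obtain ⟨CB, hCB, hbox⟩ := hbox C₀
  set c : ℝ := 4 * (C₁ : ℝ) + 5 with hc
  have hC1 : (0 : ℝ) ≤ C₁ := Nat.cast_nonneg _
  have hc5 : 5 ≤ c := by linarith
  refine ⟨(9 * c ^ 2 + 3 * c * (16 * c * c + 8 * c ^ 2)) * CB, by positivity, ?_⟩
  intro A₀ R K K₁ κ₁ ξ ξ' r τ ω hyp hdio hr hr1 hτ hτ1 hrt hω hω1 S hS
  have hK1 : 1 ≤ K := hyp.1
  have hK : (1 : ℝ) ≤ K := by exact_mod_cast hK1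
  -- basic inequalities
  have hrK : 1 ≤ r * K := by
    have : τ * (r * K) ≤ 1 * (r * K) := by gcongr
    linarith
  have hτK : 1 ≤ τ * K := by
    have : τ * K * r ≤ τ * K * 1 := by gcongr
    linarith
  -- the choice of the vectors
  have hex : ∀ p : M4 × M4, ∃ g : (ℤ × ℤ) × (ℤ × ℤ), p ∈ S →
      |(g.1.1 : ℝ)| ≤ c * (r * K) ∧ |(g.1.2 : ℝ)| ≤ c * (r * K) ∧ |(g.2.1 : ℝ)| ≤ c * K ∧
      |(g.2.2 : ℝ)| ≤ c * K ∧
      |((g.1.1 * g.2.2 - g.1.2 * g.2.1 : ℤ) : ℝ)| ≤ c * (τ * K ^ 2) ∧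
      Near (1 / (2 * K)) (act p.1 (act p.2 ξ)) ((g.1.1 : ℝ) / (2 * K), (g.1.2 : ℝ) / (2 * K)) ∧
      Near (1 / (2 * K)) (act p.1 (act p.2 ξ')) ((g.2.1 : ℝ) / (2 * K), (g.2.2 : ℝ) / (2 * K)) := by
    intro p
    by_cases hp : p ∈ S
    swap
    · exact ⟨0, fun h => absurd h hp⟩
    obtain ⟨-, -, v, v', hv1, hv2, hv1', hv2', hw, hn, hn'⟩ := hS p hp
    refine ⟨((round (2 * K * v.1), round (2 * K * v.2)),
      (round (2 * K * v'.1), round (2 * K * v'.2))), fun _ => ?_⟩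
    have r1 := round_near (2 * K * v.1)
    have r2 := round_near (2 * K * v.2)
    have r3 := round_near (2 * K * v'.1)
    have r4 := round_near (2 * K * v'.2)
    have h2K : (0 : ℝ) ≤ 2 * K := by positivity
    have s1 := round_bd h2K hv1 r1
    have s2 := round_bd h2K hv2 r2
    have s3 := round_bd h2K hv1' r3
    have s4 := round_bd h2K hv2' r4
    have q1 : 2 * (K : ℝ) * (C₁ * r) + 1 / 2 ≤ c * (r * K) := by
      have e0 : 0 ≤ (C₁ : ℝ) * (r * K) := by positivity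
      rw [hc]; linarith
    have q2 : 2 * (K : ℝ) * C₁ + 1 / 2 ≤ c * K := by
      have e0 : 0 ≤ (C₁ : ℝ) * K := by positivity
      rw [hc]; linarith
    have hwd := wedge_round (M := 2 * K) (M' := 2 * K) (by positivity) hv1 hv2 hv1' hv2' hw
      (1 / 2) (by norm_num) (by positivity) r1 r2 r3 r4 (i := (round (2 * K * v.1), round (2 * K * v.2)))
      (j := (round (2 * K * v'.1), round (2 * K * v'.2)))
    have hωK : ω + 1 / (2 * (2 * K)) ≤ 1 / (2 * (K : ℝ)) := by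
      have e1 : (1 : ℝ) / (16 * K) = 1 / 16 * (1 / K) := by field_simp
      have e2 : (1 : ℝ) / (2 * (2 * K)) = 1 / 4 * (1 / K) := by field_simp; norm_num
      have e3 : (1 : ℝ) / (2 * K) = 1 / 2 * (1 / K) := by field_simp
      have e4 : (0 : ℝ) < 1 / K := by positivity
      rw [e2, e3]
      rw [e1] at hω1
      linarith
    refine ⟨s1.trans q1, s2.trans q1, s3.trans q2, s4.trans q2, ?_, ⟨?_, ?_⟩, ⟨?_, ?_⟩⟩
    · exact hwd.trans (num3 hc hC1 hr1 hτ.le hτK hK)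
    · exact near_of (by positivity) hn.1 r1 hωK
    · exact near_of (by positivity) hn.2 r2 hωK
    · exact near_of (by positivity) hn'.1 r3 hωK
    · exact near_of (by positivity) hn'.2 r4 hωK
  choose f hf using hex
  -- the number of grid points
  have hfl : ∀ (n : ℤ) (x : ℝ), |(n : ℝ)| ≤ x → |n| ≤ (⌊x⌋₊ : ℤ) := by
    intro n x hn
    have h1 : (0 : ℝ) ≤ x := (abs_nonneg _).trans hn
    have h2 : n.natAbs ≤ ⌊x⌋₊ := by
      rw [Nat.le_floor_iff h1]
      rw [Nat.cast_natAbs]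
      push_cast
      exact hn
    rw [Int.abs_eq_natAbs]
    exact_mod_cast h2
  have hN : ((S.image f).card : ℝ) ≤
      (9 * c ^ 2 + 3 * c * (16 * c * c + 8 * c ^ 2)) * (τ * r * K ^ 4) := by
    have hsplit : (S.image f) = (S.image f).filter (fun g => g.1 = 0) ∪
        (S.image f).filter (fun g => ¬ g.1 = 0) := (Finset.filter_union_filter_not_eq _ _).symm
    have hP0 : (0 : ℝ) ≤ c * (r * K) := by positivity
    have hQ0 : (0 : ℝ) ≤ c * K := by positivity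
    have hY0 : (0 : ℝ) ≤ c * (τ * K ^ 2) := by positivity
    have hQ1 : 2 * (⌊c * (K : ℝ)⌋₊ : ℝ) + 1 ≤ 3 * c * K := by
      have := Nat.floor_le hQ0
      nlinarith
    have h1 : (((S.image f).filter (fun g => g.1 = 0)).card : ℝ) ≤ 9 * c ^ 2 * (τ * r * K ^ 4) := by
      have h2 : ((S.image f).filter (fun g => g.1 = 0)).card ≤
          (2 * ⌊c * (K : ℝ)⌋₊ + 1) * (2 * ⌊c * (K : ℝ)⌋₊ + 1) := by
        have h3 : (S.image f).filter (fun g => g.1 = 0) ⊆ ({(0 : ℤ × ℤ)} : Finset (ℤ × ℤ)) ×ˢ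
            ((Finset.Icc (-(⌊c * (K : ℝ)⌋₊ : ℤ)) ⌊c * (K : ℝ)⌋₊) ×ˢ
              (Finset.Icc (-(⌊c * (K : ℝ)⌋₊ : ℤ)) ⌊c * (K : ℝ)⌋₊)) := by
          intro g hg
          obtain ⟨hg1, hg0⟩ := Finset.mem_filter.1 hg
          obtain ⟨p, hp, rfl⟩ := Finset.mem_image.1 hg1
          have h4 := hf p hp
          rw [Finset.mem_product, Finset.mem_product, Finset.mem_singleton, Finset.mem_Icc,
            Finset.mem_Icc]
          exact ⟨hg0, abs_le.1 (hfl _ _ h4.2.2.1), abs_le.1 (hfl _ _ h4.2.2.2.1)⟩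
        refine (Finset.card_le_card h3).trans (le_of_eq ?_)
        rw [Finset.card_product, Finset.card_product, Finset.card_singleton, one_mul, Int.card_Icc]
        congr 1 <;> omega
      have h4 : (((S.image f).filter (fun g => g.1 = 0)).card : ℝ) ≤
          (2 * (⌊c * (K : ℝ)⌋₊ : ℝ) + 1) * (2 * (⌊c * (K : ℝ)⌋₊ : ℝ) + 1) := by exact_mod_cast h2
      have h5 : (2 * (⌊c * (K : ℝ)⌋₊ : ℝ) + 1) * (2 * (⌊c * (K : ℝ)⌋₊ : ℝ) + 1) ≤
          (3 * c * K) * (3 * c * K) := by gcongr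
      have h6 : (K : ℝ) ^ 2 ≤ τ * r * K ^ 4 := num2 hrt hK
      calc _ ≤ _ := h4
        _ ≤ _ := h5
        _ = 9 * c ^ 2 * K ^ 2 := by ring
        _ ≤ _ := by gcongr
    have h7 : (((S.image f).filter (fun g => ¬ g.1 = 0)).card : ℝ) ≤
        3 * c * (16 * c * c + 8 * c ^ 2) * (τ * r * K ^ 4) := by
      have h8 := hcount ⌊c * (r * K)⌋₊ ⌊c * (K : ℝ)⌋₊ ⌊c * (τ * (K : ℝ) ^ 2)⌋₊
        ((S.image f).filter (fun g => ¬ g.1 = 0)) (by
          intro g hg
          obtain ⟨hg1, hg0⟩ := Finset.mem_filter.1 hg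
          obtain ⟨p, hp, rfl⟩ := Finset.mem_image.1 hg1
          have h4 := hf p hp
          exact ⟨hg0, hfl _ _ h4.1, hfl _ _ h4.2.1, hfl _ _ h4.2.2.1, hfl _ _ h4.2.2.2.1,
            hfl _ _ h4.2.2.2.2.1⟩)
      have h9 : (((S.image f).filter (fun g => ¬ g.1 = 0)).card : ℝ) ≤
          (2 * (⌊c * (K : ℝ)⌋₊ : ℝ) + 1) * (16 * (⌊c * (r * K)⌋₊ : ℝ) *
            (⌊c * (τ * (K : ℝ) ^ 2)⌋₊ : ℝ) + 8 * (⌊c * (r * K)⌋₊ : ℝ) ^ 2) := by
        exact_mod_cast h8
      have f1 := Nat.floor_le hP0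
      have f2 := Nat.floor_le hY0
      have h10 : (16 * (⌊c * (r * K)⌋₊ : ℝ) * (⌊c * (τ * (K : ℝ) ^ 2)⌋₊ : ℝ) +
          8 * (⌊c * (r * K)⌋₊ : ℝ) ^ 2) ≤
          16 * (c * (r * K)) * (c * (τ * K ^ 2)) + 8 * (c * (r * K)) ^ 2 := by gcongr
      have h11 : 16 * (c * (r * K)) * (c * (τ * K ^ 2)) + 8 * (c * (r * K)) ^ 2 ≤
          (16 * c * c + 8 * c ^ 2) * (τ * r * K ^ 3) := num1 (by linarith) hr hr1 hτK hK
      calc _ ≤ _ := h9
        _ ≤ (3 * c * K) * ((16 * c * c + 8 * c ^ 2) * (τ * r * K ^ 3)) := by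
            apply mul_le_mul hQ1 (h10.trans h11) (by positivity) (by positivity)
        _ = _ := by ring
    have h12 := Finset.card_union_le ((S.image f).filter (fun g => g.1 = 0))
      ((S.image f).filter (fun g => ¬ g.1 = 0))
    rw [← hsplit] at h12
    have h13 : ((S.image f).card : ℝ) ≤ (((S.image f).filter (fun g => g.1 = 0)).card : ℝ) +
        (((S.image f).filter (fun g => ¬ g.1 = 0)).card : ℝ) := by exact_mod_cast h12
    linarith
  -- the fibres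
  have hfib : ∀ g ∈ S.image f, ((S.filter (fun p => f p = g)).card : ℝ) ≤
      CB * (A₀ : ℝ) ^ 2 * (R : ℝ) ^ 2 / (K : ℝ) ^ 4 := by
    intro g _
    apply hbox A₀ R K K₁ κ₁ ξ ξ' ((g.1.1 : ℝ) / (2 * K), (g.1.2 : ℝ) / (2 * K))
      ((g.2.1 : ℝ) / (2 * K), (g.2.2 : ℝ) / (2 * K)) hyp hdio
    intro p hp
    obtain ⟨hpS, hpg⟩ := Finset.mem_filter.1 hp
    have h1 := hf p hpS
    have h2 := hS p hpS
    rw [hpg] at h1
    exact ⟨h2.1, h2.2.1, h1.2.2.2.2.2.1, h1.2.2.2.2.2.2⟩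
  have hfin := fibre S f _ _ (by positivity) hfib hN
  refine hfin.trans (le_of_eq ?_)
  have hK4 : (K : ℝ) ^ 4 ≠ 0 := by positivity
  field_simp

end Pool.Agent.Helper982_KG.ORB2
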