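import Pool.Agent.Helper982_KG.Stmts
import Pool.Agent.Helper982_KG.ORB2

/-!
# Part ORB1: the orbit count of rank one
-/

open MeasureTheory Set Finset

namespace Pool.Agent.Helper982_KG.ORB1

open Pool.Agent.Helper982_KG.ORB2 (round_near round_bd wedge_round fibre)

/-- the nearest integer to `K η` against the value of the form -/
theorem close {M η a v ω : ℝ} {z : ℤ} {j : ℝ} (hj : 0 < j) (hM : 0 < M)
    (hz : |j * M * η - z| ≤ 1 / 2) (h : |j * η + a - v| ≤ ω) (hω : ω * M ≤ 1 / 4) :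
    |M * v - (z + M * a)| ≤ 3 / 4 := by
  have h1 : M * v - (z + M * a) = (j * M * η - z) - M * (j * η + a - v) := by ring
  have h2 : |M * (j * η + a - v)| ≤ 1 / 4 := by
    rw [abs_mul, abs_of_pos hM]
    calc M * |j * η + a - v| ≤ M * ω := by gcongr
      _ ≤ 1 / 4 := by linarith
  rw [h1]
  exact (abs_sub _ _).trans (by linarith)

theorem num1 {j j' L r τ c : ℝ} (hj : 1 ≤ j) (hj' : 1 ≤ j') (hL : 1 ≤ L) (hr : 0 < r) (hr1 : r ≤ 1)
    (hτ : 0 < τ) (hτL : 1 ≤ τ * L) (hrL : 1 ≤ r * L) (hc : 1 ≤ c) (hle : r * j' ≤ j)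
    {P Q Y : ℝ} (hP0 : 0 ≤ P) (hQ0 : 0 ≤ Q) (hY0 : 0 ≤ Y) (hP : P ≤ c * (r * j' + j))
    (hQ : Q ≤ c * (r * j' * L)) (hY : Y ≤ c * (j * j' * L * τ)) :
    (2 * Q + 1) * (16 * P * Y + 8 * P ^ 2) ≤ 192 * c ^ 3 * (τ * r * (j * j' * L) ^ 2) := by
  have hjp : 0 < j := by linarith
  have hjp' : 0 < j' := by linarith
  have hLp : 0 < L := by linarith
  have hcp : 0 < c := by linarith
  have h1 : 2 * Q + 1 ≤ 3 * c * (r * j' * L) := by
    have e1 : 1 ≤ c * (r * j' * L) := by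
      calc (1 : ℝ) = 1 * (1 * 1) := by ring
        _ ≤ c * (j' * (r * L)) := by gcongr
        _ = _ := by ring
    linarith
  have h2 : P ≤ 2 * c * j := by
    calc P ≤ c * (r * j' + j) := hP
      _ ≤ c * (j + j) := by gcongr
      _ = _ := by ring
  have h3 : j ≤ j * j' * L * τ := by
    calc j = j * (1 * 1) := by ring
      _ ≤ j * (j' * (τ * L)) := by gcongr
      _ = _ := by ring
  have h4 : 16 * P * Y + 8 * P ^ 2 ≤ 64 * c ^ 2 * (j * (j * j' * L * τ)) := by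
    have e1 : 16 * P * Y ≤ 16 * (2 * c * j) * (c * (j * j' * L * τ)) := by gcongr
    have e2 : 8 * P ^ 2 ≤ 8 * (2 * c * j) ^ 2 := by gcongr
    have e3 : 8 * (2 * c * j) ^ 2 = 32 * c ^ 2 * (j * j) := by ring
    have e4 : 32 * c ^ 2 * (j * j) ≤ 32 * c ^ 2 * (j * (j * j' * L * τ)) := by gcongr
    calc _ ≤ 16 * (2 * c * j) * (c * (j * j' * L * τ)) + 32 * c ^ 2 * (j * (j * j' * L * τ)) := by
          linarith
      _ = _ := by ring
  calc _ ≤ (3 * c * (r * j' * L)) * (64 * c ^ 2 * (j * (j * j' * L * τ))) := by gcongr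
    _ = _ := by ring

theorem num2 {j j' L r τ c : ℝ} (hj : 1 ≤ j) (hj' : 1 ≤ j') (hL : 1 ≤ L) (hr : 0 < r) (hr1 : r ≤ 1)
    (hτ : 0 < τ) (hτL : 1 ≤ τ * L) (hc : 1 ≤ c) (hle : j ≤ r * j')
    {P Q Y : ℝ} (hP0 : 0 ≤ P) (hQ0 : 0 ≤ Q) (hY0 : 0 ≤ Y) (hP : P ≤ c * (r * j' + j))
    (hQ : Q ≤ c * (j * L)) (hY : Y ≤ c * (j * j' * L * τ)) :
    (2 * Q + 1) * (16 * P * Y + 8 * P ^ 2) ≤ 192 * c ^ 3 * (τ * r * (j * j' * L) ^ 2) := by
  have hjp : 0 < j := by linarith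
  have hjp' : 0 < j' := by linarith
  have hLp : 0 < L := by linarith
  have hcp : 0 < c := by linarith
  have h1 : 2 * Q + 1 ≤ 3 * c * (j * L) := by
    have e1 : 1 ≤ c * (j * L) := by
      calc (1 : ℝ) = 1 * (1 * 1) := by ring
        _ ≤ c * (j * L) := by gcongr
    linarith
  have h2 : P ≤ 2 * c * (r * j') := by
    calc P ≤ c * (r * j' + j) := hP
      _ ≤ c * (r * j' + r * j') := by gcongr
      _ = _ := by ring
  have h3 : r * j' ≤ j * j' * L * τ := by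
    calc r * j' ≤ 1 * j' := by gcongr
      _ = 1 * j' * 1 := by ring
      _ ≤ j * j' * (τ * L) := by gcongr
      _ = _ := by ring
  have h4 : 16 * P * Y + 8 * P ^ 2 ≤ 64 * c ^ 2 * (r * j' * (j * j' * L * τ)) := by
    have e1 : 16 * P * Y ≤ 16 * (2 * c * (r * j')) * (c * (j * j' * L * τ)) := by gcongr
    have e2 : 8 * P ^ 2 ≤ 8 * (2 * c * (r * j')) ^ 2 := by gcongr
    have e3 : 8 * (2 * c * (r * j')) ^ 2 = 32 * c ^ 2 * (r * j' * (r * j')) := by ring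
    have e4 : 32 * c ^ 2 * (r * j' * (r * j')) ≤ 32 * c ^ 2 * (r * j' * (j * j' * L * τ)) := by
      gcongr
    calc _ ≤ 16 * (2 * c * (r * j')) * (c * (j * j' * L * τ)) +
          32 * c ^ 2 * (r * j' * (j * j' * L * τ)) := by linarith
      _ = _ := by ring
  calc _ ≤ (3 * c * (j * L)) * (64 * c ^ 2 * (r * j' * (j * j' * L * τ))) := by gcongr
    _ = _ := by ring

/-- the residue of `z` modulo `j j' L` is determined by its residues modulo `j L` and `j' L` -/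
theorem crt {j j' L : ℕ} (hL : 1 ≤ L) (hco : Nat.Coprime j j') {x : ℤ}
    (h1 : ((j * L : ℕ) : ℤ) ∣ x) (h2 : ((j' * L : ℕ) : ℤ) ∣ x) : ((j * j' * L : ℕ) : ℤ) ∣ x := by
  obtain ⟨u, rfl⟩ := h1
  have h3 : ((j' : ℤ)) ∣ j * u := by
    have h4 : (L : ℤ) * (j' : ℤ) ∣ L * (j * u) := by
      convert h2 using 1 <;> push_cast <;> ring
    exact (mul_dvd_mul_iff_left (by positivity : (L : ℤ) ≠ 0)).1 h4
  have h5 : ((j' : ℤ)) ∣ u := by
    have : IsCoprime (j' : ℤ) (j : ℤ) := (Nat.isCoprime_iff_coprime.2 hco).symm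
    exact this.dvd_of_dvd_mul_left h3
  obtain ⟨w, rfl⟩ := h5
  exact ⟨w, by push_cast; ring⟩

/-- the data attached to one pair -/
structure Dat (c r τ : ℝ) (j j' L : ℕ) (η : ℝ × ℝ) (z a a' : ℤ × ℤ) : Prop where
  z1 : |(j : ℝ) * j' * L * η.1 - z.1| ≤ 1 / 2
  z2 : |(j : ℝ) * j' * L * η.2 - z.2| ≤ 1 / 2
  V1 : |((z.1 + j' * L * a.1 : ℤ) : ℝ)| ≤ c * (r * j' * L)
  V2 : |((z.2 + j' * L * a.2 : ℤ) : ℝ)| ≤ c * (r * j' * L)
  W1 : |((z.1 + j * L * a'.1 : ℤ) : ℝ)| ≤ c * (j * L)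
  W2 : |((z.2 + j * L * a'.2 : ℤ) : ℝ)| ≤ c * (j * L)
  A1 : |((j' * a.1 - j * a'.1 : ℤ) : ℝ)| ≤ c * (r * j' + j)
  A2 : |((j' * a.2 - j * a'.2 : ℤ) : ℝ)| ≤ c * (r * j' + j)
  ne : ((j' * a.1 - j * a'.1, j' * a.2 - j * a'.2) : ℤ × ℤ) ≠ 0
  wV : |(((j' * a.1 - j * a'.1) * (z.2 + j' * L * a.2) -
    (j' * a.2 - j * a'.2) * (z.1 + j' * L * a.1) : ℤ) : ℝ)| ≤ c * (j * j' * L * τ)

theorem dat {C₁ : ℕ} {c r τ ω : ℝ} {j j' L : ℕ} (hc : c = 3 * C₁ + 3) (hj : 1 ≤ j) (hj' : 1 ≤ j')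
    (hL : 1 ≤ L) (hr : 0 < r) (hr1 : r ≤ 1) (hτ : 0 < τ) (hrL : 1 ≤ r * L) (hτL : 1 ≤ τ * L)
    (hω : 0 ≤ ω) (hω1 : ω ≤ 1 / (4 * ((j : ℝ) * j' * L))) {η v v' : ℝ × ℝ} {a a' : ℤ × ℤ}
    (hv1 : |v.1| ≤ C₁ * r) (hv2 : |v.2| ≤ C₁ * r) (hv1' : |v'.1| ≤ C₁) (hv2' : |v'.2| ≤ C₁)
    (hw : |v.1 * v'.2 - v.2 * v'.1| ≤ τ)
    (h1 : |j * η.1 + a.1 - v.1| ≤ ω) (h2 : |j * η.2 + a.2 - v.2| ≤ ω)
    (h3 : |j' * η.1 + a'.1 - v'.1| ≤ ω) (h4 : |j' * η.2 + a'.2 - v'.2| ≤ ω)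
    (hne : j' * a.1 ≠ j * a'.1 ∨ j' * a.2 ≠ j * a'.2) :
    Dat c r τ j j' L η (round ((j : ℝ) * j' * L * η.1), round ((j : ℝ) * j' * L * η.2)) a a' := by
  have hjR : (1 : ℝ) ≤ j := by exact_mod_cast hj
  have hjR' : (1 : ℝ) ≤ j' := by exact_mod_cast hj'
  have hLR : (1 : ℝ) ≤ L := by exact_mod_cast hL
  have hjp : (0 : ℝ) < j := by linarith
  have hjp' : (0 : ℝ) < j' := by linarith
  have hLp : (0 : ℝ) < L := by linarith
  have hC1 : (0 : ℝ) ≤ C₁ := Nat.cast_nonneg _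
  have z1 := round_near ((j : ℝ) * j' * L * η.1)
  have z2 := round_near ((j : ℝ) * j' * L * η.2)
  set z : ℤ × ℤ := (round ((j : ℝ) * j' * L * η.1), round ((j : ℝ) * j' * L * η.2)) with hz
  have hω2 : ω * (j * j' * L) ≤ 1 / 4 := by
    calc ω * (j * j' * L) ≤ 1 / (4 * ((j : ℝ) * j' * L)) * (j * j' * L) := by gcongr
      _ = 1 / 4 := by field_simp
  have hωM : ω * ((j' : ℝ) * L) ≤ 1 / 4 := by
    calc ω * ((j' : ℝ) * L) = ω * (1 * (j' * L)) := by ring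
      _ ≤ ω * (j * (j' * L)) := by gcongr
      _ = ω * (j * j' * L) := by ring
      _ ≤ _ := hω2
  have hωM' : ω * ((j : ℝ) * L) ≤ 1 / 4 := by
    calc ω * ((j : ℝ) * L) = ω * (1 * (j * L)) := by ring
      _ ≤ ω * (j' * (j * L)) := by gcongr
      _ = ω * (j * j' * L) := by ring
      _ ≤ _ := hω2
  have hM : (0 : ℝ) < (j' : ℝ) * L := by positivity
  have hM' : (0 : ℝ) < (j : ℝ) * L := by positivity
  have k1 := close (η := η.1) (a := a.1) (v := v.1) (z := z.1) hjp hM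
    (by convert z1 using 3; ring) h1 hωM
  have k2 := close (η := η.2) (a := a.2) (v := v.2) (z := z.2) hjp hM
    (by convert z2 using 3; ring) h2 hωM
  have k3 := close (η := η.1) (a := a'.1) (v := v'.1) (z := z.1) hjp' hM'
    (by convert z1 using 3; ring) h3 hωM'
  have k4 := close (η := η.2) (a := a'.2) (v := v'.2) (z := z.2) hjp' hM'
    (by convert z2 using 3; ring) h4 hωM'
  have cV : ∀ x b : ℤ, ((x + j' * L * b : ℤ) : ℝ) = x + j' * L * b := by intro x b; push_cast; ring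
  have cW : ∀ x b : ℤ, ((x + j * L * b : ℤ) : ℝ) = x + j * L * b := by intro x b; push_cast; ring
  rw [← cV] at k1 k2
  rw [← cW] at k3 k4
  have m1 := round_bd hM.le hv1 k1
  have m2 := round_bd hM.le hv2 k2
  have m3 := round_bd hM'.le hv1' k3
  have m4 := round_bd hM'.le hv2' k4
  have hw2 := wedge_round hM.le hv1 hv2 hv1' hv2' hw (3 / 4) (by norm_num) hM'.le k1 k2 k3 k4
    (i := (z.1 + j' * L * a.1, z.2 + j' * L * a.2))
    (j := (z.1 + j * L * a'.1, z.2 + j * L * a'.2))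
  simp only at hw2
  -- numerical facts
  have f1 : (1 : ℝ) ≤ r * j' * L := by
    calc (1 : ℝ) = 1 * 1 := by ring
      _ ≤ (r * L) * j' := by gcongr
      _ = _ := by ring
  have f2 : (1 : ℝ) ≤ j * L := by
    calc (1 : ℝ) = 1 * 1 := by ring
      _ ≤ _ := by gcongr
  have n1 : (j' : ℝ) * L * (C₁ * r) + 3 / 4 ≤ c * (r * j' * L) := by
    have e0 : 0 ≤ (C₁ : ℝ) * (r * j' * L) := by positivity
    rw [hc]; linarith
  have n2 : (j : ℝ) * L * C₁ + 3 / 4 ≤ c * (j * L) := by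
    have e0 : 0 ≤ (C₁ : ℝ) * (j * L) := by positivity
    rw [hc]; linarith
  -- the vector `α`
  have hα : ∀ x b b' : ℤ, ((L * (j' * b - j * b') : ℤ) : ℝ) =
      ((x + j' * L * b : ℤ) : ℝ) - ((x + j * L * b' : ℤ) : ℝ) := by
    intro x b b'; push_cast; ring
  have hA : ∀ x b b' : ℤ, |((x + j' * L * b : ℤ) : ℝ)| ≤ j' * L * (C₁ * r) + 3 / 4 →
      |((x + j * L * b' : ℤ) : ℝ)| ≤ j * L * C₁ + 3 / 4 →
      |((j' * b - j * b' : ℤ) : ℝ)| ≤ c * (r * j' + j) := by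
    intro x b b' e1 e2
    have e3 : (L : ℝ) * |((j' * b - j * b' : ℤ) : ℝ)| = |((L * (j' * b - j * b') : ℤ) : ℝ)| := by
      rw [Int.cast_mul, abs_mul]
      simp
    have e4 : |((L * (j' * b - j * b') : ℤ) : ℝ)| ≤ L * (c * (r * j' + j)) := by
      rw [hα x]
      refine (abs_sub _ _).trans ((add_le_add e1 e2).trans ?_)
      have e5 : 0 ≤ (C₁ : ℝ) * (L * (r * j')) := by positivity
      have e6 : 0 ≤ (C₁ : ℝ) * (L * j) := by positivity
      have e7 : (1 : ℝ) ≤ L * j := by linarith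
      have e8 : 0 ≤ (L : ℝ) * (r * j') := by positivity
      rw [hc]
      linarith
    rw [← e3] at e4
    exact le_of_mul_le_mul_left e4 hLp
  refine ⟨z1, z2, m1.trans n1, m2.trans n1, m3.trans n2, m4.trans n2, hA _ _ _ m1 m3, hA _ _ _ m2 m4,
    ?_, ?_⟩
  · intro h0
    rw [Prod.ext_iff] at h0
    simp only [Prod.fst_zero, Prod.snd_zero] at h0
    rcases hne with hne | hne
    · exact hne (by linarith [h0.1])
    · exact hne (by linarith [h0.2])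
  · have e1 : (L : ℝ) * |(((j' * a.1 - j * a'.1) * (z.2 + j' * L * a.2) -
        (j' * a.2 - j * a'.2) * (z.1 + j' * L * a.1) : ℤ) : ℝ)| =
        |(((z.1 + j' * L * a.1) * (z.2 + j * L * a'.2) -
          (z.2 + j' * L * a.2) * (z.1 + j * L * a'.1) : ℤ) : ℝ)| := by
      have e2 : (L : ℝ) = |(L : ℝ)| := (abs_of_pos hLp).symm
      rw [e2, ← abs_mul]
      congr 1
      push_cast
      ring
    have e3 : (j' : ℝ) * L * (j * L) * τ + 2 * (j' * L) * (C₁ * r) * (3 / 4) +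
        2 * (j * L) * C₁ * (3 / 4) + 2 * (3 / 4) ^ 2 ≤ L * (c * (j * j' * L * τ)) := by
      have g1 : (1 : ℝ) ≤ j * j' * L * τ * L := by
        calc (1 : ℝ) = 1 * 1 * 1 * 1 := by ring
          _ ≤ (j : ℝ) * j' * (τ * L) * L := by gcongr
          _ = _ := by ring
      have g2 : (j' : ℝ) * L * r ≤ j * j' * L * τ * L := by
        calc (j' : ℝ) * L * r = 1 * (j' * L) * r := by ring
          _ ≤ j * (j' * L) * (τ * L) := by
              gcongr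
              linarith
          _ = _ := by ring
      have g3 : (j : ℝ) * L ≤ j * j' * L * τ * L := by
        calc (j : ℝ) * L = 1 * (j * L) * 1 := by ring
          _ ≤ j' * (j * L) * (τ * L) := by gcongr
          _ = _ := by ring
      have g4 : (C₁ : ℝ) * (j' * L * r) ≤ C₁ * (j * j' * L * τ * L) := by gcongr
      have g5 : (C₁ : ℝ) * (j * L) ≤ C₁ * (j * j' * L * τ * L) := by gcongr
      have g6 : (L : ℝ) * (c * (j * j' * L * τ)) =
          3 * (C₁ * (j * j' * L * τ * L)) + 3 * (j * j' * L * τ * L) := by rw [hc]; ring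
      have g7 : (j' : ℝ) * L * (j * L) * τ = j * j' * L * τ * L := by ring
      rw [g6, g7]
      linarith
    rw [← e1] at hw2
    exact le_of_mul_le_mul_left (hw2.trans e3) hLp

theorem o1 (hcount : S_COUNT) (hbox : S_BOX1) : S_O1 := by
  classical
  intro C₀ C₁
  obtain ⟨CB, hCB, hbox⟩ := hbox C₀
  set c : ℝ := 3 * (C₁ : ℝ) + 3 with hc
  have hC1 : (0 : ℝ) ≤ C₁ := Nat.cast_nonneg _
  have hc1 : 1 ≤ c := by linarith
  have hcp : 0 < c := by linarith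
  refine ⟨192 * c ^ 3 * CB, by positivity, ?_⟩
  intro A₀ R j j' L K₁ κ₁ ζ r τ ω hj hj' hco hyp hdio hr hr1 hτ hτ1 hrt hω hω1 S hS
  have hK1 : 1 ≤ j * j' * L := hyp.1
  have hL : 1 ≤ L := Nat.pos_of_ne_zero (by rintro rfl; simp at hK1)
  have hjR : (1 : ℝ) ≤ j := by exact_mod_cast hj
  have hjR' : (1 : ℝ) ≤ j' := by exact_mod_cast hj'
  have hLR : (1 : ℝ) ≤ L := by exact_mod_cast hL
  have hrL : 1 ≤ r * L := by
    have : τ * (r * L) ≤ 1 * (r * L) := by gcongr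
    linarith
  have hτL : 1 ≤ τ * L := by
    have : τ * L * r ≤ τ * L * 1 := by gcongr
    linarith
  have hex : ∀ p : M4 × M4, ∃ g : (ℤ × ℤ) × (ℤ × ℤ) × (ℤ × ℤ), p ∈ S →
      Dat c r τ j j' L (act p.1 (act p.2 ζ)) g.1 g.2.1 g.2.2 := by
    intro p
    by_cases hp : p ∈ S
    swap
    · exact ⟨0, fun h => absurd h hp⟩
    obtain ⟨-, -, v, v', a, a', hv1, hv2, hv1', hv2', hw, h1, h2, h3, h4, hne⟩ := hS p hp
    exact ⟨(_, a, a'), fun _ => dat hc hj hj' hL hr hr1 hτ hrL hτL hω hω1 hv1 hv2 hv1' hv2' hw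
      h1 h2 h3 h4 hne⟩
  choose g hg using hex
  -- the maps
  set Al : M4 × M4 → ℤ × ℤ := fun p =>
    (j' * (g p).2.1.1 - j * (g p).2.2.1, j' * (g p).2.1.2 - j * (g p).2.2.2) with hAl
  set V : M4 × M4 → ℤ × ℤ := fun p =>
    ((g p).1.1 + j' * L * (g p).2.1.1, (g p).1.2 + j' * L * (g p).2.1.2) with hV
  set W : M4 × M4 → ℤ × ℤ := fun p =>
    ((g p).1.1 + j * L * (g p).2.2.1, (g p).1.2 + j * L * (g p).2.2.2) with hW
  have hWV1 : ∀ p, (W p).1 = (V p).1 - L * (Al p).1 := by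
    intro p; simp only [hAl, hV, hW]; ring
  have hWV2 : ∀ p, (W p).2 = (V p).2 - L * (Al p).2 := by
    intro p; simp only [hAl, hV, hW]; ring
  -- the fibres
  set B : ℝ := CB * (A₀ : ℝ) ^ 2 * (R : ℝ) ^ 2 / ((j * j' * L : ℕ) : ℝ) ^ 2 with hB
  have hB0 : 0 ≤ B := by positivity
  have hfib : ∀ T : Finset (M4 × M4), T ⊆ S → (∀ p ∈ T, ∀ p' ∈ T, V p = V p' ∧ W p = W p') →
      (T.card : ℝ) ≤ B := by
    intro T hT hVW
    rcases T.eq_empty_or_nonempty with rfl | ⟨p0, hp0⟩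
    · simpa using hB0
    apply hbox A₀ R (j * j' * L) K₁ κ₁ ζ (((g p0).1.1 : ℝ) / ((j * j' * L : ℕ) : ℝ),
      ((g p0).1.2 : ℝ) / ((j * j' * L : ℕ) : ℝ)) hyp hdio
    intro p hp
    have hpS := hS p (hT hp)
    have hgp := hg p (hT hp)
    refine ⟨hpS.1, hpS.2.1, ?_⟩
    obtain ⟨e1, e2⟩ := hVW p hp p0 hp0
    simp only [hV, Prod.mk.injEq] at e1
    simp only [hW, Prod.mk.injEq] at e2
    have hdvd : ∀ x y b b' d d' : ℤ, x + j' * L * b = y + j' * L * b' →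
        x + j * L * d = y + j * L * d' → ((j * j' * L : ℕ) : ℤ) ∣ x - y := by
      intro x y b b' d d' h1 h2
      apply crt hL hco
      · exact ⟨d' - d, by push_cast; linarith⟩
      · exact ⟨b' - b, by push_cast; linarith⟩
    have hKp : (0 : ℝ) < ((j * j' * L : ℕ) : ℝ) := by exact_mod_cast hK1
    have hnear : ∀ (η : ℝ) (x y : ℤ), |(j : ℝ) * j' * L * η - x| ≤ 1 / 2 →
        ((j * j' * L : ℕ) : ℤ) ∣ x - y →
        NI (η - (y : ℝ) / ((j * j' * L : ℕ) : ℝ)) (1 / (2 * ((j * j' * L : ℕ) : ℝ))) := by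
      intro η x y h1 h2
      obtain ⟨k, hk⟩ := h2
      refine ⟨k, ?_⟩
      have h3 : (x : ℝ) = y + ((j * j' * L : ℕ) : ℝ) * k := by
        have : x = y + ((j * j' * L : ℕ) : ℤ) * k := by linarith
        exact_mod_cast this
      have h4 : (j : ℝ) * j' * L = ((j * j' * L : ℕ) : ℝ) := by push_cast; ring
      rw [h4, h3] at h1
      have h5 : η - (y : ℝ) / ((j * j' * L : ℕ) : ℝ) - k =
          (((j * j' * L : ℕ) : ℝ) * η - (y + ((j * j' * L : ℕ) : ℝ) * k)) /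
            ((j * j' * L : ℕ) : ℝ) := by
        field_simp
        ring
      rw [h5, abs_div, abs_of_pos hKp, div_le_div_iff₀ hKp (by positivity)]
      nlinarith
    exact ⟨hnear _ _ _ hgp.z1 (hdvd _ _ _ _ _ _ e1.1 e2.1),
      hnear _ _ _ hgp.z2 (hdvd _ _ _ _ _ _ e1.2 e2.2)⟩
  -- counting
  have hfl : ∀ (n : ℤ) (x : ℝ), |(n : ℝ)| ≤ x → |n| ≤ (⌊x⌋₊ : ℤ) := by
    intro n x hn
    have h1 : (0 : ℝ) ≤ x := (abs_nonneg _).trans hn
    have h2 : n.natAbs ≤ ⌊x⌋₊ := by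
      rw [Nat.le_floor_iff h1]
      rw [Nat.cast_natAbs]
      push_cast
      exact hn
    rw [Int.abs_eq_natAbs]
    exact_mod_cast h2
  have hP0 : (0 : ℝ) ≤ c * (r * j' + j) := by positivity
  have hQ0 : (0 : ℝ) ≤ c * (r * j' * L) := by positivity
  have hQ0' : (0 : ℝ) ≤ c * (j * L) := by positivity
  have hY0 : (0 : ℝ) ≤ c * (j * j' * L * τ) := by positivity
  have hend : ∀ f : M4 × M4 → (ℤ × ℤ) × (ℤ × ℤ), (∀ p p', f p = f p' → V p = V p' ∧ W p = W p') →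
      ((S.image f).card : ℝ) ≤ 192 * c ^ 3 * (τ * r * ((j : ℝ) * j' * L) ^ 2) →
      (S.card : ℝ) ≤ 192 * c ^ 3 * CB * τ * r * (A₀ : ℝ) ^ 2 * (R : ℝ) ^ 2 := by
    intro f hf hN
    have h1 := fibre S f _ B hB0 (fun b _ => hfib _ (Finset.filter_subset _ _) (by
      intro p hp p' hp'
      apply hf
      rw [(Finset.mem_filter.1 hp).2, (Finset.mem_filter.1 hp').2])) hN
    refine h1.trans (le_of_eq ?_)
    rw [hB]
    have hKne : ((j : ℝ) * j' * L) ≠ 0 := by positivity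
    push_cast
    field_simp
  rcases le_total (r * (j' : ℝ)) j with hle | hle
  · apply hend (fun p => (Al p, V p))
    · intro p p' h
      simp only [Prod.mk.injEq] at h
      refine ⟨h.2, Prod.ext ?_ ?_⟩
      · rw [hWV1, hWV1, h.1, h.2]
      · rw [hWV2, hWV2, h.1, h.2]
    · have h1 := hcount ⌊c * (r * j' + j)⌋₊ ⌊c * (r * j' * L)⌋₊ ⌊c * (j * j' * L * τ)⌋₊
        (S.image (fun p => (Al p, V p))) (by
          intro q hq
          obtain ⟨p, hp, rfl⟩ := Finset.mem_image.1 hq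
          have h2 := hg p hp
          exact ⟨h2.ne, hfl _ _ h2.A1, hfl _ _ h2.A2, hfl _ _ h2.V1, hfl _ _ h2.V2,
            hfl _ _ h2.wV⟩)
      have h3 : ((S.image (fun p => (Al p, V p))).card : ℝ) ≤
          (2 * (⌊c * (r * j' * L)⌋₊ : ℝ) + 1) * (16 * (⌊c * (r * j' + j)⌋₊ : ℝ) *
            (⌊c * (j * j' * L * τ)⌋₊ : ℝ) + 8 * (⌊c * (r * j' + j)⌋₊ : ℝ) ^ 2) := by
        exact_mod_cast h1
      exact h3.trans (num1 hjR hjR' hLR hr hr1 hτ hτL hrL hc1 hle (Nat.cast_nonneg _)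
        (Nat.cast_nonneg _) (Nat.cast_nonneg _) (Nat.floor_le hP0) (Nat.floor_le hQ0)
        (Nat.floor_le hY0))
  · apply hend (fun p => (Al p, W p))
    · intro p p' h
      simp only [Prod.mk.injEq] at h
      refine ⟨Prod.ext ?_ ?_, h.2⟩
      · have h1 := hWV1 p
        have h2 := hWV1 p'
        rw [h.1, h.2] at h1
        linarith
      · have h1 := hWV2 p
        have h2 := hWV2 p'
        rw [h.1, h.2] at h1
        linarith
    · have h1 := hcount ⌊c * (r * j' + j)⌋₊ ⌊c * ((j : ℝ) * L)⌋₊ ⌊c * (j * j' * L * τ)⌋₊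
        (S.image (fun p => (Al p, W p))) (by
          intro q hq
          obtain ⟨p, hp, rfl⟩ := Finset.mem_image.1 hq
          have h2 := hg p hp
          refine ⟨h2.ne, hfl _ _ h2.A1, hfl _ _ h2.A2, hfl _ _ h2.W1, hfl _ _ h2.W2, ?_⟩
          have h3 := hfl _ _ h2.wV
          convert h3 using 2
          simp only [hWV1, hWV2]
          simp only [hAl, hV]
          ring)
      have h3 : ((S.image (fun p => (Al p, W p))).card : ℝ) ≤
          (2 * (⌊c * ((j : ℝ) * L)⌋₊ : ℝ) + 1) * (16 * (⌊c * (r * j' + j)⌋₊ : ℝ) *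
            (⌊c * (j * j' * L * τ)⌋₊ : ℝ) + 8 * (⌊c * (r * j' + j)⌋₊ : ℝ) ^ 2) := by
        exact_mod_cast h1
      exact h3.trans (num2 hjR hjR' hLR hr hr1 hτ hτL hc1 hle (Nat.cast_nonneg _)
        (Nat.cast_nonneg _) (Nat.cast_nonneg _) (Nat.floor_le hP0) (Nat.floor_le hQ0')
        (Nat.floor_le hY0))

end Pool.Agent.Helper982_KG.ORB1
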