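import Pool.Agent.Helper982_KG.Stmts

/-!
# MP_99fd1a_nt, part PACK (helper297): packing on a line
-/

set_option autoImplicit false

open MeasureTheory Set Finset

namespace Pool.Agent.Helper982_KG.Pack

/-! ### Covering lemmas -/

lemma cover_of_cells {S : Set ℝ} {ℓ : ℝ} (hb : BddBelow S) (T : Finset (ℤ × ℤ))
    (cell : ℝ → ℤ × ℤ) (hT : ∀ x ∈ S, cell x ∈ T)
    (hc : ∀ x ∈ S, ∀ x' ∈ S, cell x = cell x' → x - x' ≤ ℓ) :
    ∃ c : Fin T.card → ℝ, S ⊆ ⋃ i, Icc (c i) (c i + ℓ) := by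
  classical
  let P : Fin T.card → Set ℝ := fun i => {x | x ∈ S ∧ cell x = (T.equivFin.symm i : ℤ × ℤ)}
  refine ⟨fun i => sInf (P i), fun x hx => ?_⟩
  rw [Set.mem_iUnion]
  refine ⟨T.equivFin ⟨cell x, hT x hx⟩, ?_⟩
  have hxP : x ∈ P (T.equivFin ⟨cell x, hT x hx⟩) := by
    refine ⟨hx, ?_⟩
    rw [Equiv.symm_apply_apply]
  have hbP : BddBelow (P (T.equivFin ⟨cell x, hT x hx⟩)) := hb.mono fun z hz => hz.1
  refine ⟨csInf_le hbP hxP, ?_⟩
  have h1 : x - ℓ ≤ sInf (P (T.equivFin ⟨cell x, hT x hx⟩)) := by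
    refine le_csInf ⟨x, hxP⟩ fun z hz => ?_
    have h2 := hc x hx z hz.1 (hxP.2.trans hz.2.symm)
    linarith
  linarith

lemma vol_icover {Z : Set ℝ} {n : ℕ} {ℓ B : ℝ} (_hB : 0 ≤ B) (c : Fin n → ℝ)
    (hZ : Z ⊆ ⋃ i, Icc (c i) (c i + ℓ)) (hb : ∀ β, volume (Z ∩ Icc β (β + ℓ)) ≤ ENNReal.ofReal B) :
    volume Z ≤ ENNReal.ofReal (n * B) := by
  have h1 : Z ⊆ ⋃ i, (Z ∩ Icc (c i) (c i + ℓ)) := by
    intro x hx
    obtain ⟨i, hi⟩ := Set.mem_iUnion.1 (hZ hx)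
    exact Set.mem_iUnion.2 ⟨i, hx, hi⟩
  refine (measure_mono h1).trans ((measure_iUnion_fintype_le _ _).trans ?_)
  refine (Finset.sum_le_sum fun i _ => hb (c i)).trans ?_
  rw [Finset.sum_const, Finset.card_univ, Fintype.card_fin, nsmul_eq_mul, ENNReal.ofReal_mul
    (Nat.cast_nonneg n), ENNReal.ofReal_natCast]

lemma vol_icover' {Z : Set ℝ} {n : ℕ} {ℓ : ℝ} (hℓ : 0 ≤ ℓ) (c : Fin n → ℝ)
    (hZ : Z ⊆ ⋃ i, Icc (c i) (c i + ℓ)) : volume Z ≤ ENNReal.ofReal (n * ℓ) := by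
  refine vol_icover hℓ c hZ fun β => ?_
  refine (measure_mono Set.inter_subset_right).trans ?_
  rw [Real.volume_Icc]
  exact ENNReal.ofReal_le_ofReal (by linarith)

lemma vol_cut {Z : Set ℝ} {α len h B : ℝ} (hh : 0 < h) (hlen : 0 ≤ len) (hB : 0 ≤ B)
    (hZ : Z ⊆ Icc α (α + len)) (hb : ∀ β, volume (Z ∩ Icc β (β + h)) ≤ ENNReal.ofReal B) :
    volume Z ≤ ENNReal.ofReal ((len / h + 1) * B) := by
  have h1 : Z ⊆ ⋃ i : Fin (⌊len / h⌋₊ + 1), Icc (α + (i : ℕ) * h) (α + (i : ℕ) * h + h) := by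
    intro x hx
    have hx' := hZ hx
    have h2 : 0 ≤ (x - α) / h := div_nonneg (by linarith [hx'.1]) hh.le
    have h3 : (x - α) / h ≤ len / h := div_le_div_of_nonneg_right (by linarith [hx'.2]) hh.le
    have h4 : ⌊(x - α) / h⌋₊ ≤ ⌊len / h⌋₊ := Nat.floor_le_floor h3
    rw [Set.mem_iUnion]
    refine ⟨⟨⌊(x - α) / h⌋₊, by omega⟩, ?_, ?_⟩
    · have h5 := Nat.floor_le h2
      rw [le_div_iff₀ hh] at h5
      change α + (⌊(x - α) / h⌋₊ : ℝ) * h ≤ x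
      linarith
    · have h5 := (Nat.lt_floor_add_one ((x - α) / h)).le
      rw [div_le_iff₀ hh] at h5
      change x ≤ α + (⌊(x - α) / h⌋₊ : ℝ) * h + h
      linarith
  have h6 := vol_icover hB (fun i : Fin (⌊len / h⌋₊ + 1) => α + (i : ℕ) * h) h1 hb
  refine h6.trans (ENNReal.ofReal_le_ofReal ?_)
  refine mul_le_mul_of_nonneg_right ?_ hB
  push_cast
  have := Nat.floor_le (div_nonneg hlen hh.le)
  linarith

/-! ### The slowly varying part -/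

lemma dt_lip (m a₃ : ℕ) (L : ℝ) (h3 : 2 ≤ a₃) (hL : 0 ≤ L) : ∃ k₀ : ℕ,
    ∀ (s l : ℝ) (y : ℝ → Fin m → ℝ), LipOn y L s l → ∀ k, k₀ ≤ k → ∀ mm : Fin m → ℕ,
    MOK a₃ k mm → ∀ x ∈ Icc s (s + l), ∀ x' ∈ Icc s (s + l),
      |dt mm (y x) - dt mm (y x')| ≤ 2 ^ k / 2 * |x - x'| := by
  obtain ⟨K, hK⟩ := pow_unbounded_of_one_lt (2 * (m * L)) (one_lt_two : (1 : ℝ) < 2)
  refine ⟨2 * K, ?_⟩
  intro s l y hy k hk mm hm x hx x' hx'
  have h1 : |dt mm (y x) - dt mm (y x')| ≤ ∑ i : Fin m, 2 ^ (k / a₃) * (L * |x - x'|) := by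
    unfold dt
    rw [← Finset.sum_sub_distrib]
    refine (Finset.abs_sum_le_sum_abs _ _).trans (Finset.sum_le_sum fun i _ => ?_)
    rw [← mul_sub, abs_mul]
    refine mul_le_mul ?_ (hy x hx x' hx' i) (abs_nonneg _) (by positivity)
    rw [abs_of_nonneg (Nat.cast_nonneg _)]
    exact_mod_cast (hm i).2
  rw [Finset.sum_const, Finset.card_univ, Fintype.card_fin, nsmul_eq_mul] at h1
  refine h1.trans ?_
  have h4 : (2 : ℝ) ^ (k / a₃) ≤ 2 ^ (k / 2) :=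
    pow_le_pow_right₀ one_le_two (Nat.div_le_div_left h3 (by norm_num))
  have h5 : (2 : ℝ) ^ K ≤ 2 ^ (k - k / 2) := pow_le_pow_right₀ one_le_two (by omega)
  have h6 : (2 : ℝ) ^ k = 2 ^ (k / 2) * 2 ^ (k - k / 2) := by
    rw [← pow_add]
    congr 1
    omega
  have h7 : (m : ℝ) * (2 ^ (k / a₃) * L) ≤ 2 ^ k / 2 := by
    have hmL : 0 ≤ m * L := by positivity
    have h8 : (2 : ℝ) ^ (k / a₃) * (2 * (m * L)) ≤ 2 ^ (k / 2) * 2 ^ (k - k / 2) :=
      mul_le_mul h4 (hK.le.trans h5) (by positivity) (by positivity)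
    rw [← h6] at h8
    linarith
  calc (m : ℝ) * (2 ^ (k / a₃) * (L * |x - x'|)) = (m : ℝ) * (2 ^ (k / a₃) * L) * |x - x'| := by
        ring
    _ ≤ 2 ^ k / 2 * |x - x'| := mul_le_mul_of_nonneg_right h7 (abs_nonneg _)

/-- the linear form -/
def Fm {m : ℕ} (mm : Fin m → ℕ) (y : ℝ → Fin m → ℝ) (p : ℤ) (q : ℕ) (x : ℝ) : ℝ :=
  (p : ℝ) + (q : ℝ) * x + dt mm (y x)

lemma Fm_sub {m : ℕ} {mm : Fin m → ℕ} {y : ℝ → Fin m → ℝ} {k : ℕ} {x x' : ℝ}
    (h : |dt mm (y x) - dt mm (y x')| ≤ 2 ^ k / 2 * |x - x'|) {p : ℤ} {q : ℕ}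
    (h1 : 2 ^ k ≤ q) (h2 : q < 2 ^ (k + 1)) :
    2 ^ k / 2 * |x - x'| ≤ |Fm mm y p q x - Fm mm y p q x'| ∧
      |Fm mm y p q x - Fm mm y p q x'| ≤ 3 * 2 ^ k * |x - x'| := by
  have h1' : (2 : ℝ) ^ k ≤ q := by exact_mod_cast h1
  have h2' : (q : ℝ) ≤ 2 * 2 ^ k := by
    have : (q : ℝ) < 2 ^ (k + 1) := by exact_mod_cast h2
    rw [pow_succ] at this
    linarith
  have e : Fm mm y p q x - Fm mm y p q x' = q * (x - x') + (dt mm (y x) - dt mm (y x')) := by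
    unfold Fm
    ring
  have hq : |(q : ℝ) * (x - x')| = q * |x - x'| := by
    rw [abs_mul, abs_of_nonneg (Nat.cast_nonneg q)]
  have ha := abs_nonneg (x - x')
  rw [e]
  constructor
  · have h3 := abs_sub_abs_le_abs_sub ((q : ℝ) * (x - x')) (-(dt mm (y x) - dt mm (y x')))
    rw [abs_neg, sub_neg_eq_add, hq] at h3
    nlinarith
  · refine (abs_add_le _ _).trans ?_
    rw [hq]
    nlinarith

theorem pack : S_PACK := by
  intro m a₃ L C₃ h3 hL hC₃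
  obtain ⟨k₀, hk₀⟩ := dt_lip m a₃ L h3 hL
  obtain ⟨K, hK⟩ := exists_nat_ge (1 + 3 * C₃)
  obtain ⟨T, hT⟩ : ∃ T : Finset (ℤ × ℤ), ∀ c : ℤ × ℤ, c ∈ T ↔
      ((0 : ℤ) ≤ c.1 ∧ c.1 ≤ 65535) ∧ (-(K : ℤ)) ≤ c.2 ∧ c.2 ≤ K :=
    ⟨(Finset.Icc (0 : ℤ) 65535) ×ˢ (Finset.Icc (-(K : ℤ)) K), fun c => by
      rw [Finset.mem_product, Finset.mem_Icc, Finset.mem_Icc]⟩
  refine ⟨T.card, max k₀ 1, ?_⟩
  intro s l y hy k hk mm hm δ hδ hδ' α
  have hkk : k₀ ≤ k := (le_max_left _ _).trans hk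
  have hk1 : 1 ≤ k := (le_max_right _ _).trans hk
  have hlip := hk₀ s l y hy k hkk mm hm
  set X : ℝ := 2 ^ k with hX
  have hXpos : 0 < X := by positivity
  have hX2 : 2 ≤ X := by
    rw [hX]
    calc (2 : ℝ) = 2 ^ 1 := by norm_num
      _ ≤ 2 ^ k := pow_le_pow_right₀ one_le_two hk1
  have h4k : (4 : ℝ) ^ k = X * X := by
    rw [hX, ← mul_pow]
    norm_num
  set S : Set ℝ := {x | x ∈ Icc s (s + l) ∧ α ≤ x ∧ x ≤ α + C₃ / 4 ^ k ∧ EE (2 ^ k) x ∧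
    Ev k mm δ x (y x)} with hS
  by_cases hne : S.Nonempty
  swap
  · rw [Set.not_nonempty_iff_eq_empty] at hne
    exact ⟨fun _ => 0, by rw [hne]; exact Set.empty_subset _⟩
  obtain ⟨z, hz⟩ := hne
  classical
  -- the chosen forms
  let pp : ℝ → ℤ × ℕ := fun x => if h : ∃ r : ℤ × ℕ, 2 ^ k ≤ r.2 ∧ r.2 < 2 ^ (k + 1) ∧
    |Fm mm y r.1 r.2 x| < δ then h.choose else 0
  have hpp : ∀ x ∈ S, 2 ^ k ≤ (pp x).2 ∧ (pp x).2 < 2 ^ (k + 1) ∧
      |Fm mm y (pp x).1 (pp x).2 x| < δ := by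
    intro x hx
    obtain ⟨p, q, h1, h2, _, h4⟩ := hx.2.2.2.2
    have h : ∃ r : ℤ × ℕ, 2 ^ k ≤ r.2 ∧ r.2 < 2 ^ (k + 1) ∧ |Fm mm y r.1 r.2 x| < δ :=
      ⟨(p, q), h1, h2, h4⟩
    have e : pp x = h.choose := dif_pos h
    rw [e]
    exact h.choose_spec
  -- the value at z
  have hval : ∀ x ∈ S, |Fm mm y (pp x).1 (pp x).2 z| * X ≤ K := by
    intro x hx
    obtain ⟨h1, h2, h4⟩ := hpp x hx
    have h5 := (Fm_sub (hlip x hx.1 z hz.1) (p := (pp x).1) h1 h2).2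
    have h6 : |x - z| ≤ C₃ / (X * X) := by
      rw [← h4k, abs_le]
      constructor <;> linarith [hx.2.1, hx.2.2.1, hz.2.1, hz.2.2.1]
    have h7 : |Fm mm y (pp x).1 (pp x).2 z| ≤ δ + 3 * X * (C₃ / (X * X)) := by
      have h8 : |Fm mm y (pp x).1 (pp x).2 z| ≤ |Fm mm y (pp x).1 (pp x).2 x| +
          |Fm mm y (pp x).1 (pp x).2 x - Fm mm y (pp x).1 (pp x).2 z| := by
        have := abs_sub_abs_le_abs_sub (Fm mm y (pp x).1 (pp x).2 z) (Fm mm y (pp x).1 (pp x).2 x)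
        rw [abs_sub_comm] at this
        linarith
      have h9 : 3 * X * |x - z| ≤ 3 * X * (C₃ / (X * X)) :=
        mul_le_mul_of_nonneg_left h6 (by positivity)
      linarith
    have h10 : δ * X ≤ 1 := by
      have h11 : δ ≤ 1 / X := by
        refine hδ'.trans ?_
        rw [hX]
        exact one_div_le_one_div_of_le (by positivity) (pow_le_pow_right₀ one_le_two (by omega))
      rwa [le_div_iff₀ hXpos] at h11
    have h12 : 3 * X * (C₃ / (X * X)) * X = 3 * C₃ := by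
      field_simp
    calc |Fm mm y (pp x).1 (pp x).2 z| * X ≤ (δ + 3 * X * (C₃ / (X * X))) * X :=
          mul_le_mul_of_nonneg_right h7 hXpos.le
      _ = δ * X + 3 * C₃ := by rw [add_mul, h12]
      _ ≤ K := by linarith
  let cell : ℝ → ℤ × ℤ := fun x => (⌊(((pp x).2 : ℝ) - X) * 65536 / X⌋,
    ⌊Fm mm y (pp x).1 (pp x).2 z * X⌋)
  refine cover_of_cells ⟨s, fun x hx => hx.1.1⟩ T cell ?_ ?_
  · intro x hx
    obtain ⟨h1, h2, h4⟩ := hpp x hx
    have h1' : X ≤ ((pp x).2 : ℝ) := by rw [hX]; exact_mod_cast h1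
    have h2' : ((pp x).2 : ℝ) < 2 * X := by
      have : ((pp x).2 : ℝ) < 2 ^ (k + 1) := by exact_mod_cast h2
      rw [pow_succ] at this
      linarith
    rw [hT]
    refine ⟨⟨?_, ?_⟩, ?_, ?_⟩
    · apply Int.floor_nonneg.2
      exact div_nonneg (mul_nonneg (by linarith) (by norm_num)) hXpos.le
    · apply Int.le_of_lt_add_one
      rw [Int.floor_lt, div_lt_iff₀ hXpos]
      push_cast
      linarith
    · have h5 := hval x hx
      rw [← abs_of_pos hXpos, ← abs_mul, abs_le] at h5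
      apply Int.le_floor.2
      push_cast
      exact h5.1
    · have h5 := hval x hx
      rw [← abs_of_pos hXpos, ← abs_mul, abs_le] at h5
      have h6 : ((⌊Fm mm y (pp x).1 (pp x).2 z * X⌋ : ℤ) : ℝ) ≤ ((K : ℤ) : ℝ) := by
        push_cast
        exact (Int.floor_le _).trans h5.2
      exact_mod_cast h6
  · intro x hx x' hx' hcell
    have e1 : ⌊(((pp x).2 : ℝ) - X) * 65536 / X⌋ = ⌊(((pp x').2 : ℝ) - X) * 65536 / X⌋ :=
      congrArg Prod.fst hcell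
    have e2 : ⌊Fm mm y (pp x).1 (pp x).2 z * X⌋ = ⌊Fm mm y (pp x').1 (pp x').2 z * X⌋ :=
      congrArg Prod.snd hcell
    have f1 := Int.abs_sub_lt_one_of_floor_eq_floor e1
    have f2 := Int.abs_sub_lt_one_of_floor_eq_floor e2
    obtain ⟨h1, h2, h4⟩ := hpp x hx
    obtain ⟨h1', h2', h4'⟩ := hpp x' hx'
    -- the difference of the forms
    have g1 : |((pp x).2 : ℝ) - (pp x').2| < kap * X := by
      have e3 : (((pp x).2 : ℝ) - X) * 65536 / X - (((pp x').2 : ℝ) - X) * 65536 / X =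
          (((pp x).2 : ℝ) - (pp x').2) * (65536 / X) := by ring
      rw [e3, abs_mul, abs_of_pos (by positivity : (0 : ℝ) < 65536 / X), ← lt_div_iff₀
        (by positivity)] at f1
      refine f1.trans_le (le_of_eq ?_)
      unfold kap
      field_simp
    have g2 : |Fm mm y (pp x).1 (pp x).2 z - Fm mm y (pp x').1 (pp x').2 z| < 1 / X := by
      rw [← sub_mul, abs_mul, abs_of_pos hXpos] at f2
      rwa [lt_div_iff₀ hXpos]
    have g3 : Fm mm y (pp x).1 (pp x).2 z - Fm mm y (pp x').1 (pp x').2 z =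
        (((pp x).2 : ℝ) - (pp x').2) * z - (((pp x').1 - (pp x).1 : ℤ) : ℝ) := by
      unfold Fm
      push_cast
      ring
    have hEE : EE (2 ^ k) z := hz.2.2.2.1
    have hq : (pp x).2 = (pp x').2 := by
      by_contra hne
      rcases Nat.lt_or_gt_of_ne hne with hlt | hlt
      · have h5 := hEE ((pp x').2 - (pp x).2) (by omega) (by
          rw [Nat.cast_sub hlt.le]
          push_cast
          rw [abs_sub_comm] at g1
          exact (le_abs_self _).trans_lt g1) ((pp x).1 - (pp x').1)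
        rw [Nat.cast_sub hlt.le] at h5
        have h6 : |(((pp x').2 : ℝ) - (pp x).2) * z - (((pp x).1 - (pp x').1 : ℤ) : ℝ)| =
            |Fm mm y (pp x).1 (pp x).2 z - Fm mm y (pp x').1 (pp x').2 z| := by
          rw [g3, ← abs_neg]
          congr 1
          push_cast
          ring
        rw [h6] at h5
        push_cast at h5
        linarith
      · have h5 := hEE ((pp x).2 - (pp x').2) (by omega) (by
          rw [Nat.cast_sub hlt.le]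
          push_cast
          exact (le_abs_self _).trans_lt g1) ((pp x').1 - (pp x).1)
        rw [Nat.cast_sub hlt.le, ← g3] at h5
        push_cast at h5
        linarith
    have hp : (pp x).1 = (pp x').1 := by
      rw [g3, hq, sub_self, zero_mul, zero_sub, abs_neg] at g2
      have h5 : (1 : ℝ) / X ≤ 1 := by
        rw [div_le_one hXpos]
        linarith
      have h6 : |(((pp x').1 - (pp x).1 : ℤ) : ℝ)| < 1 := by linarith
      have h7 : |(pp x').1 - (pp x).1| < 1 := by exact_mod_cast h6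
      have h8 := Int.abs_lt_one_iff.1 h7
      omega
    rw [← hp, ← hq] at h4'
    have h5 := (Fm_sub (hlip x hx.1 x' hx'.1) (p := (pp x).1) h1 h2).1
    have h6 : |Fm mm y (pp x).1 (pp x).2 x - Fm mm y (pp x).1 (pp x).2 x'| ≤ 2 * δ :=
      (abs_sub _ _).trans (by linarith)
    have h7 : X / 2 * |x - x'| ≤ 2 * δ := h5.trans h6
    have h8 : |x - x'| ≤ 4 * δ / X := by
      rw [le_div_iff₀ hXpos]
      linarith
    exact (le_abs_self _).trans h8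

lemma four_pow_large (l : ℝ) (hl : 0 < l) : ∃ k₀ : ℕ, ∀ k, k₀ ≤ k → 1 ≤ l * 4 ^ k := by
  obtain ⟨k₀, hk₀⟩ := pow_unbounded_of_one_lt (1 / l) (by norm_num : (1 : ℝ) < 4)
  refine ⟨k₀, fun k hk => ?_⟩
  have h1 : (4 : ℝ) ^ k₀ ≤ 4 ^ k := pow_le_pow_right₀ (by norm_num) hk
  have h2 := hk₀.le.trans h1
  rw [div_le_iff₀ hl] at h2
  linarith

theorem up (hP : S_PACK) : S_UP := by
  intro m a₃ L h3 hL
  obtain ⟨n, k₀, hp⟩ := hP m a₃ L 1 h3 hL zero_le_one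
  refine ⟨8 * n + 1, by positivity, ?_⟩
  intro l hl hl1
  obtain ⟨k₁, hk₁⟩ := four_pow_large l hl
  refine ⟨max k₀ k₁, ?_⟩
  intro s y hy k hk mm hm δ hδ hδ'
  have hk0 : k₀ ≤ k := (le_max_left _ _).trans hk
  have h4 := hk₁ k ((le_max_right _ _).trans hk)
  have hpk := hp s l y hy k hk0 mm hm δ hδ hδ'
  have hcut := vol_cut (Z := {x | x ∈ Icc s (s + l) ∧ EE (2 ^ k) x ∧ Ev k mm δ x (y x)})
    (α := s) (len := l) (h := 1 / 4 ^ k) (B := n * (4 * δ / 2 ^ k)) (by positivity) hl.le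
    (by positivity) (fun x hx => hx.1) (fun β => by
      obtain ⟨c, hc⟩ := hpk β
      refine vol_icover' (by positivity) c (subset_trans ?_ hc)
      rintro x ⟨⟨h1, h2, h3⟩, h4, h5⟩
      exact ⟨h1, h4, h5, h2, h3⟩)
  refine hcut.trans (ENNReal.ofReal_le_ofReal ?_)
  have h5 : l / (1 / 4 ^ k) + 1 ≤ 2 * (l * 4 ^ k) := by
    rw [div_div_eq_mul_div, div_one]
    linarith
  have h6 : (4 : ℝ) ^ k = 2 ^ k * 2 ^ k := by
    rw [← mul_pow]
    norm_num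
  calc (l / (1 / 4 ^ k) + 1) * (n * (4 * δ / 2 ^ k))
      ≤ 2 * (l * 4 ^ k) * (n * (4 * δ / 2 ^ k)) :=
        mul_le_mul_of_nonneg_right h5 (by positivity)
    _ = 8 * n * l * (2 ^ k * δ) := by
        rw [h6]
        field_simp
        ring
    _ ≤ (8 * n + 1) * l * (2 ^ k * δ) := by
        have : 0 ≤ l * (2 ^ k * δ) := by positivity
        nlinarith

lemma dOK_pos {a₄ k : ℕ} {δ : ℝ} (h : dOK a₄ k δ) : 0 < δ :=
  lt_of_lt_of_le (by positivity) h.1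

theorem case1 (hP : S_PACK) : S_CASE1 := by
  intro m a₁ a₃ a₄ L hpar hL
  have h3 : 2 ≤ a₃ := by
    obtain ⟨p1, p2, p3⟩ := hpar
    nlinarith
  obtain ⟨n, k₀, hp⟩ := hP m a₃ L 1 h3 hL zero_le_one
  refine ⟨96 * n * n + 1, by positivity, ?_⟩
  intro l hl hl1
  obtain ⟨k₁, hk₁⟩ := four_pow_large l hl
  refine ⟨max k₀ k₁, ?_⟩
  intro s y hy k k' hk hkk' mm mm' hm hm' δ δ' hd hd' hbig
  have hk0 : k₀ ≤ k := (le_max_left _ _).trans hk
  have h4 := hk₁ k ((le_max_right _ _).trans hk)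
  have hδ := dOK_pos hd
  have hδ' := dOK_pos hd'
  have hp1 := hp s l y hy k hk0 mm hm δ hδ hd.2
  have hp2 := hp s l y hy k' (hk0.trans hkk') mm' hm' δ' hδ' hd'.2
  set Z : Set ℝ := {x | x ∈ Icc s (s + l) ∧ Two a₁ k k' mm mm' δ δ' y x} with hZ
  set B2 : ℝ := n * (4 * δ' / 2 ^ k') with hB2
  set B1 : ℝ := ((4 * δ / 2 ^ k) / (1 / 4 ^ k') + 1) * B2 with hB1
  have hB2n : 0 ≤ B2 := by positivity
  have hB1n : 0 ≤ B1 := by positivity
  -- in an interval of length 1 / 4 ^ k'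
  have hfine : ∀ W ⊆ Z, ∀ β, volume (W ∩ Icc β (β + 1 / 4 ^ k')) ≤ ENNReal.ofReal B2 := by
    intro W hW β
    obtain ⟨c, hc⟩ := hp2 β
    refine vol_icover' (by positivity) c (subset_trans ?_ hc)
    rintro x ⟨hx, h5, h6⟩
    have hxZ := hW hx
    exact ⟨hxZ.1, h5, h6, hxZ.2.2.2.1.1, hxZ.2.2.2.2⟩
  -- in an interval of length 4 δ / 2 ^ k
  have hmid : ∀ W ⊆ Z, ∀ β, volume (W ∩ Icc β (β + 4 * δ / 2 ^ k)) ≤ ENNReal.ofReal B1 := by
    intro W hW β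
    refine vol_cut (by positivity) (by positivity) hB2n (Set.inter_subset_right) fun β' => ?_
    exact hfine _ (Set.inter_subset_left.trans hW) β'
  -- in an interval of length 1 / 4 ^ k
  have hcoarse : ∀ β, volume (Z ∩ Icc β (β + 1 / 4 ^ k)) ≤ ENNReal.ofReal (n * B1) := by
    intro β
    obtain ⟨c, hc⟩ := hp1 β
    refine vol_icover hB1n c (subset_trans ?_ hc) fun β' => ?_
    · rintro x ⟨hx, h5, h6⟩
      exact ⟨hx.1, h5, h6, hx.2.1.1, hx.2.2.1⟩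
    · exact hmid _ Set.inter_subset_left β'
  have hall := vol_cut (Z := Z) (α := s) (len := l) (h := 1 / 4 ^ k) (B := n * B1)
    (by positivity) hl.le (by positivity) (fun x hx => hx.1) hcoarse
  refine hall.trans (ENNReal.ofReal_le_ofReal ?_)
  have h5 : l / (1 / 4 ^ k) + 1 ≤ 2 * (l * 4 ^ k) := by
    rw [div_div_eq_mul_div, div_one]
    linarith
  have h6 : (4 : ℝ) ^ k = 2 ^ k * 2 ^ k := by
    rw [← mul_pow]
    norm_num
  have h6' : (4 : ℝ) ^ k' = 2 ^ k' * 2 ^ k' := by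
    rw [← mul_pow]
    norm_num
  have h7 : (4 * δ / 2 ^ k) / (1 / 4 ^ k') + 1 ≤ 12 * (δ * 4 ^ k' / 2 ^ k) := by
    have h8 : (1 : ℝ) ≤ 8 * (δ * 4 ^ k' / 2 ^ k) := by
      rw [← mul_div_assoc, le_div_iff₀ (by positivity)]
      linarith
    have h9 : (4 * δ / 2 ^ k) / (1 / 4 ^ k') = 4 * (δ * 4 ^ k' / 2 ^ k) := by
      field_simp
    rw [h9]
    linarith
  calc (l / (1 / 4 ^ k) + 1) * (n * B1)
      ≤ 2 * (l * 4 ^ k) * (n * (12 * (δ * 4 ^ k' / 2 ^ k) * B2)) := by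
        refine mul_le_mul h5 ?_ (by positivity) (by positivity)
        refine mul_le_mul_of_nonneg_left ?_ (Nat.cast_nonneg n)
        exact mul_le_mul_of_nonneg_right h7 hB2n
    _ = 96 * n * n * l * (2 ^ k * δ) * (2 ^ k' * δ') := by
        rw [hB2, h6, h6']
        field_simp
        ring
    _ ≤ (96 * n * n + 1) * l * (2 ^ k * δ) * (2 ^ k' * δ') := by
        have : 0 ≤ l * (2 ^ k * δ) * (2 ^ k' * δ') := by positivity
        nlinarith

lemma two_swap {m : ℕ} {a₁ k k' : ℕ} {mm mm' : Fin m → ℕ} {δ δ' : ℝ} {y : ℝ → Fin m → ℝ} {x : ℝ}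
    (h : Two a₁ k k' mm mm' δ δ' y x) : Two a₁ k' k mm' mm δ' δ y x :=
  ⟨h.2.2.1, h.2.2.2, h.1, h.2.1⟩

theorem pair (h1 : S_CASE1) (h2 : S_CASE2) : S_PAIR := by
  intro m a₁ a₃ a₄ L hpar hL
  obtain ⟨C, hC, hc1⟩ := h1 m a₁ a₃ a₄ L hpar hL
  obtain ⟨C', hC', hc2⟩ := h2 m a₁ a₃ a₄ L hpar hL
  refine ⟨C + C', by positivity, ?_⟩
  intro l hl hl1
  obtain ⟨k₁, hk₁⟩ := hc1 l hl hl1
  obtain ⟨k₂, hk₂⟩ := hc2 l hl hl1
  refine ⟨max k₁ k₂, ?_⟩
  intro s y hy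
  -- the ordered case
  have main : ∀ k k' : ℕ, max k₁ k₂ ≤ k → k ≤ k' → ∀ mm mm' : Fin m → ℕ, MOK a₃ k mm →
      MOK a₃ k' mm' → ¬ (k = k' ∧ mm = mm') → ∀ δ δ' : ℝ, dOK a₄ k δ → dOK a₄ k' δ' →
      volume {x | x ∈ Icc s (s + l) ∧ Two a₁ k k' mm mm' δ δ' y x} ≤
        ENNReal.ofReal ((C + C') * l * (2 ^ k * δ) * (2 ^ k' * δ')) := by
    intro k k' hk hkk' mm mm' hm hm' hne δ δ' hd hd'
    have hδ := dOK_pos hd
    have hδ' := dOK_pos hd'
    have hpos : 0 ≤ l * (2 ^ k * δ) * (2 ^ k' * δ') := by positivity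
    rcases le_or_gt ((2 : ℝ) ^ k) (8 * 4 ^ k' * δ) with h | h
    · refine (hk₁ s y hy k k' ((le_max_left _ _).trans hk) hkk' mm mm' hm hm' δ δ' hd hd' h).trans
        (ENNReal.ofReal_le_ofReal ?_)
      nlinarith
    · refine (hk₂ s y hy k k' ((le_max_right _ _).trans hk) hkk' mm mm' hm hm' hne δ δ' hd hd'
        h).trans (ENNReal.ofReal_le_ofReal ?_)
      nlinarith
  intro k k' hk hk' mm mm' hm hm' hne δ δ' hd hd'
  rcases le_total k k' with h | h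
  · exact main k k' hk h mm mm' hm hm' hne δ δ' hd hd'
  · have h3 := main k' k hk' h mm' mm hm' hm (fun h4 => hne ⟨h4.1.symm, h4.2.symm⟩) δ' δ hd' hd
    refine (measure_mono ?_).trans (h3.trans (le_of_eq ?_))
    · rintro x ⟨hx1, hx2⟩
      exact ⟨hx1, two_swap hx2⟩
    · congr 1
      ring

end Pool.Agent.Helper982_KG.Pack
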