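import Mathlib
import Pool.Agent.Helper982_KG.Stmts
import Pool.Agent.Helper982_KG.KER

/-!
# Sums of Fejer kernels over differences, and the sum over first rows
-/

set_option autoImplicit false

open MeasureTheory Set Finset

namespace Pool.Agent.Helper982_KG.FEJ2

open Pool.Agent.Helper982_KG.KER (e_add e_neg e_zero e_norm fej geo row mem_GG)

/-- the square of the Dirichlet kernel, `K` times the Fejer kernel -/
noncomputable def Ph (K : ℕ) (t : ℝ) : ℝ := ‖∑ k ∈ Finset.range K, e (k * t)‖ ^ 2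

theorem Ph_nonneg (K : ℕ) (t : ℝ) : 0 ≤ Ph K t := by unfold Ph; positivity

theorem Ph_le (K : ℕ) (t : ℝ) : Ph K t ≤ (K : ℝ) ^ 2 := by
  unfold Ph
  have h : ‖∑ k ∈ Finset.range K, e (k * t)‖ ≤ K := by
    refine (norm_sum_le _ _).trans ?_
    simp [e_norm]
  gcongr

theorem Ph_eq (K : ℕ) (t : ℝ) : ((Ph K t : ℝ) : ℂ) =
    ∑ k ∈ Finset.Ioo (-(K : ℤ)) K, (((K : ℝ) - |(k : ℝ)| : ℝ) : ℂ) * e (k * t) := fej K t

theorem norm_sq_sum {ι : Type*} (I : Finset ι) (θ : ι → ℝ) :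
    ((‖∑ i ∈ I, e (θ i)‖ ^ 2 : ℝ) : ℂ) = ∑ i ∈ I, ∑ j ∈ I, e (θ i - θ j) := by
  have hn : ∀ z : ℂ, ((‖z‖ ^ 2 : ℝ) : ℂ) = z * (starRingEnd ℂ) z := by
    intro z
    rw [Complex.mul_conj, Complex.normSq_eq_norm_sq]
  rw [hn, map_sum, Finset.sum_mul_sum]
  refine Finset.sum_congr rfl fun i _ => Finset.sum_congr rfl fun j _ => ?_
  rw [← e_neg, ← e_add]
  rfl

/-- one dimensional -/
theorem sum_Ph {ι : Type*} (I : Finset ι) (θ : ι → ℝ) (K : ℕ) :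
    ∑ i ∈ I, ∑ j ∈ I, Ph K (θ i - θ j) =
      ∑ k ∈ Finset.Ioo (-(K : ℤ)) K, ((K : ℝ) - |(k : ℝ)|) * ‖∑ i ∈ I, e (k * θ i)‖ ^ 2 := by
  have h : ((∑ i ∈ I, ∑ j ∈ I, Ph K (θ i - θ j) : ℝ) : ℂ) =
      ((∑ k ∈ Finset.Ioo (-(K : ℤ)) K, ((K : ℝ) - |(k : ℝ)|) * ‖∑ i ∈ I, e (k * θ i)‖ ^ 2 : ℝ) :
        ℂ) := by
    rw [Complex.ofReal_sum, Complex.ofReal_sum]
    have e1 : ∀ k : ℤ, (((((K : ℝ) - |(k : ℝ)|) * ‖∑ i ∈ I, e (k * θ i)‖ ^ 2 : ℝ)) : ℂ) =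
        ∑ i ∈ I, ∑ j ∈ I, (((K : ℝ) - |(k : ℝ)| : ℝ) : ℂ) * e (k * (θ i - θ j)) := by
      intro k
      rw [Complex.ofReal_mul, norm_sq_sum, Finset.mul_sum]
      refine Finset.sum_congr rfl fun i _ => ?_
      rw [Finset.mul_sum]
      refine Finset.sum_congr rfl fun j _ => ?_
      rw [mul_sub]
    rw [Finset.sum_congr rfl fun k _ => e1 k, Finset.sum_comm]
    refine Finset.sum_congr rfl fun i _ => ?_
    rw [Complex.ofReal_sum, Finset.sum_comm]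
    refine Finset.sum_congr rfl fun j _ => ?_
    exact Ph_eq K _
  exact_mod_cast h

/-- two dimensional -/
theorem sum_Ph2 {ι : Type*} (I : Finset ι) (θ η : ι → ℝ) (K : ℕ) :
    ∑ i ∈ I, ∑ j ∈ I, Ph K (θ i - θ j) * Ph K (η i - η j) =
      ∑ k ∈ Finset.Ioo (-(K : ℤ)) K, ∑ l ∈ Finset.Ioo (-(K : ℤ)) K,
        ((K : ℝ) - |(k : ℝ)|) * ((K : ℝ) - |(l : ℝ)|) * ‖∑ i ∈ I, e (k * θ i + l * η i)‖ ^ 2 := by
  have h : ((∑ i ∈ I, ∑ j ∈ I, Ph K (θ i - θ j) * Ph K (η i - η j) : ℝ) : ℂ) =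
      ((∑ k ∈ Finset.Ioo (-(K : ℤ)) K, ∑ l ∈ Finset.Ioo (-(K : ℤ)) K,
        ((K : ℝ) - |(k : ℝ)|) * ((K : ℝ) - |(l : ℝ)|) * ‖∑ i ∈ I, e (k * θ i + l * η i)‖ ^ 2 : ℝ) :
        ℂ) := by
    rw [Complex.ofReal_sum, Complex.ofReal_sum]
    have e1 : ∀ k l : ℤ, ((((K : ℝ) - |(k : ℝ)|) * ((K : ℝ) - |(l : ℝ)|) *
        ‖∑ i ∈ I, e (k * θ i + l * η i)‖ ^ 2 : ℝ) : ℂ) =
        ∑ i ∈ I, ∑ j ∈ I, ((((K : ℝ) - |(k : ℝ)| : ℝ) : ℂ) * e (k * (θ i - θ j))) *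
          ((((K : ℝ) - |(l : ℝ)| : ℝ) : ℂ) * e (l * (η i - η j))) := by
      intro k l
      rw [Complex.ofReal_mul, Complex.ofReal_mul, norm_sq_sum, Finset.mul_sum]
      refine Finset.sum_congr rfl fun i _ => ?_
      rw [Finset.mul_sum]
      refine Finset.sum_congr rfl fun j _ => ?_
      have e2 : (k * θ i + l * η i) - (k * θ j + l * η j) = k * (θ i - θ j) + l * (η i - η j) := by
        ring
      rw [e2, e_add]
      ring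
    have e3 : ∀ k : ℤ, ((∑ l ∈ Finset.Ioo (-(K : ℤ)) K, ((K : ℝ) - |(k : ℝ)|) *
        ((K : ℝ) - |(l : ℝ)|) * ‖∑ i ∈ I, e (k * θ i + l * η i)‖ ^ 2 : ℝ) : ℂ) =
        ∑ i ∈ I, ∑ j ∈ I, ((((K : ℝ) - |(k : ℝ)| : ℝ) : ℂ) * e (k * (θ i - θ j))) *
          ((Ph K (η i - η j) : ℝ) : ℂ) := by
      intro k
      rw [Complex.ofReal_sum, Finset.sum_congr rfl fun l _ => e1 k l, Finset.sum_comm]
      refine Finset.sum_congr rfl fun i _ => ?_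
      rw [Finset.sum_comm]
      refine Finset.sum_congr rfl fun j _ => ?_
      rw [← Finset.mul_sum, Ph_eq]
    rw [Finset.sum_congr rfl fun k _ => e3 k, Finset.sum_comm]
    refine Finset.sum_congr rfl fun i _ => ?_
    rw [Complex.ofReal_sum, Finset.sum_comm]
    refine Finset.sum_congr rfl fun j _ => ?_
    rw [← Finset.sum_mul, ← Ph_eq]
    push_cast
    rfl
  exact_mod_cast h

/-- the box of first rows -/
noncomputable def Bx (R : ℕ) : Finset (ℤ × ℤ) := (Finset.Icc (-(R : ℤ)) R) ×ˢ (Finset.Icc (-(R : ℤ)) R)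

theorem Bx_card (R : ℕ) : (Bx R).card = (2 * R + 1) ^ 2 := by
  rw [Bx, Finset.card_product, Int.card_Icc, sq]
  congr 1 <;> omega

theorem mem_Bx {R : ℕ} {u : ℤ × ℤ} : u ∈ Bx R ↔ |u.1| ≤ R ∧ |u.2| ≤ R := by
  rw [Bx, Finset.mem_product, Finset.mem_Icc, Finset.mem_Icc, abs_le, abs_le]

/-- from sums over matrices to sums over first rows -/
theorem row_sum (C₀ R : ℕ) (f : ℤ × ℤ → ℝ) (hf : ∀ ρ, 0 ≤ f ρ) :
    ∑ B ∈ GG C₀ R, f (B.1, B.2.1) ≤ (2 * C₀ + 1) * ∑ ρ ∈ Bx R, f ρ := by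
  have h1 : ∀ B ∈ GG C₀ R, (B.1, B.2.1) ∈ Bx R := by
    intro B hB
    rw [mem_GG] at hB
    rw [mem_Bx]
    exact ⟨hB.1.1, hB.1.2.1⟩
  rw [← Finset.sum_fiberwise_of_maps_to h1, Finset.mul_sum]
  apply Finset.sum_le_sum
  intro ρ _
  have h2 : ∑ B ∈ (GG C₀ R).filter (fun B => (B.1, B.2.1) = ρ), f (B.1, B.2.1) =
      (((GG C₀ R).filter (fun B => (B.1, B.2.1) = ρ)).card : ℝ) * f ρ := by
    rw [← nsmul_eq_mul, ← Finset.sum_const]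
    refine Finset.sum_congr rfl fun B hB => ?_
    rw [(Finset.mem_filter.1 hB).2]
  rw [h2]
  have h3 : (((GG C₀ R).filter (fun B => (B.1, B.2.1) = ρ)).card : ℝ) ≤ 2 * C₀ + 1 := by
    exact_mod_cast row C₀ R ρ
  exact mul_le_mul_of_nonneg_right h3 (hf ρ)

theorem Far_neg {κ₁ t : ℝ} (h : Far κ₁ t) : Far κ₁ (-t) := by
  intro k
  have := h (-k)
  push_cast at this
  rw [← abs_neg]
  have e1 : -(-t - (k : ℝ)) = t - -(k : ℝ) := by ring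
  rw [e1]
  exact this

/-- the one dimensional sum is at most its number of terms -/
theorem Icc_norm_le (R : ℕ) (t : ℝ) :
    ‖∑ k ∈ Finset.Icc (-(R : ℤ)) R, e (k * t)‖ ≤ 2 * R + 1 := by
  refine (norm_sum_le _ _).trans ?_
  have : (Finset.Icc (-(R : ℤ)) R).card = 2 * R + 1 := by
    rw [Int.card_Icc]; omega
  simp only [e_norm, Finset.sum_const, nsmul_eq_mul, mul_one]
  rw [this]
  push_cast
  rfl

theorem Bx_sum (R : ℕ) (a b : ℝ) : ∑ ρ ∈ Bx R, e (ρ.1 * a + ρ.2 * b) =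
    (∑ k ∈ Finset.Icc (-(R : ℤ)) R, e (k * a)) * ∑ k ∈ Finset.Icc (-(R : ℤ)) R, e (k * b) := by
  rw [Bx, Finset.sum_product, Finset.sum_mul_sum]
  refine Finset.sum_congr rfl fun i _ => Finset.sum_congr rfl fun j _ => ?_
  rw [e_add]

theorem Bx_far {κ₁ : ℝ} (hκ : 0 < κ₁) (R : ℕ) {a b : ℝ} (h : Far κ₁ a ∨ Far κ₁ b) :
    ‖∑ ρ ∈ Bx R, e (ρ.1 * a + ρ.2 * b)‖ ^ 2 ≤ (2 * R + 1) ^ 2 / (4 * κ₁ ^ 2) := by
  rw [Bx_sum, norm_mul]
  have h2 : ‖∑ k ∈ Finset.Icc (-(R : ℤ)) R, e (k * a)‖ *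
      ‖∑ k ∈ Finset.Icc (-(R : ℤ)) R, e (k * b)‖ ≤ (2 * R + 1) * (1 / (2 * κ₁)) := by
    rcases h with h | h
    · rw [mul_comm]
      exact mul_le_mul (Icc_norm_le R b) (geo κ₁ a R hκ h) (norm_nonneg _) (by positivity)
    · exact mul_le_mul (Icc_norm_le R a) (geo κ₁ b R hκ h) (norm_nonneg _) (by positivity)
  calc _ ≤ ((2 * (R : ℝ) + 1) * (1 / (2 * κ₁))) ^ 2 := by gcongr
    _ = (2 * R + 1) ^ 2 / (4 * κ₁ ^ 2) := by
        field_simp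
        norm_num

theorem Bx_triv (R : ℕ) (a b : ℝ) :
    ‖∑ ρ ∈ Bx R, e (ρ.1 * a + ρ.2 * b)‖ ^ 2 ≤ (2 * R + 1) ^ 4 := by
  rw [Bx_sum, norm_mul]
  calc _ ≤ ((2 * (R : ℝ) + 1) * (2 * R + 1)) ^ 2 := by
        gcongr
        · exact Icc_norm_le R a
        · exact Icc_norm_le R b
    _ = _ := by ring

/-- the sum over differences of first rows -/
theorem rows_le {κ₁ : ℝ} (hκ : 0 < κ₁) (R M : ℕ) (hM : 1 ≤ M) (ζ : ℝ × ℝ)
    (h : ∀ k : ℕ, 1 ≤ k → k < M → Far κ₁ (k * ζ.1) ∨ Far κ₁ (k * ζ.2)) :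
    ∑ ρ ∈ Bx R, ∑ ρ' ∈ Bx R, Ph M ((ρ.1 * ζ.1 + ρ.2 * ζ.2) - (ρ'.1 * ζ.1 + ρ'.2 * ζ.2)) ≤
      M * ((2 * R + 1) ^ 4 + 2 * M * ((2 * R + 1) ^ 2 / (4 * κ₁ ^ 2))) := by
  rw [sum_Ph (Bx R) (fun ρ => ρ.1 * ζ.1 + ρ.2 * ζ.2) M]
  have hk : ∀ k ∈ Finset.Ioo (-(M : ℤ)) M, ((M : ℝ) - |(k : ℝ)|) *
      ‖∑ ρ ∈ Bx R, e (k * (ρ.1 * ζ.1 + ρ.2 * ζ.2))‖ ^ 2 ≤
      M * ((if k = 0 then (2 * (R : ℝ) + 1) ^ 4 else 0) + (2 * R + 1) ^ 2 / (4 * κ₁ ^ 2)) := by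
    intro k hk
    rw [Finset.mem_Ioo] at hk
    have e1 : ∑ ρ ∈ Bx R, e (k * (ρ.1 * ζ.1 + ρ.2 * ζ.2)) =
        ∑ ρ ∈ Bx R, e (ρ.1 * (k * ζ.1) + ρ.2 * (k * ζ.2)) := by
      refine Finset.sum_congr rfl fun ρ _ => ?_
      congr 1
      ring
    rw [e1]
    have h0 : 0 ≤ (2 * (R : ℝ) + 1) ^ 2 / (4 * κ₁ ^ 2) := by positivity
    have hw0 : 0 ≤ (M : ℝ) - |(k : ℝ)| := by
      have : |k| ≤ (M : ℤ) := abs_le.2 ⟨by omega, by omega⟩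
      have : |(k : ℝ)| ≤ M := by exact_mod_cast this
      linarith
    have hw1 : (M : ℝ) - |(k : ℝ)| ≤ M := by
      have := abs_nonneg (k : ℝ)
      linarith
    by_cases hk0 : k = 0
    · rw [if_pos hk0]
      calc _ ≤ (M : ℝ) * (2 * R + 1) ^ 4 := by
            apply mul_le_mul hw1 (Bx_triv R _ _) (by positivity) (by positivity)
        _ ≤ _ := by
            gcongr
            linarith
    · rw [if_neg hk0, zero_add]
      apply mul_le_mul hw1 _ (by positivity) (by positivity)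
      apply Bx_far hκ
      rcases Int.natAbs_eq k with h2 | h2
      · have h3 := h k.natAbs (by omega) (by omega)
        have h4 : (k : ℝ) = (k.natAbs : ℝ) := by
          conv_lhs => rw [h2]
          simp
        rw [h4]
        exact h3
      · have h3 := h k.natAbs (by omega) (by omega)
        have h4 : (k : ℝ) = -(k.natAbs : ℝ) := by
          conv_lhs => rw [h2]
          simp
        rw [h4, neg_mul, neg_mul]
        exact h3.imp Far_neg Far_neg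
  refine (Finset.sum_le_sum hk).trans ?_
  rw [← Finset.mul_sum, Finset.sum_add_distrib, Finset.sum_ite_eq' , Finset.sum_const]
  have hc : (Finset.Ioo (-(M : ℤ)) M).card ≤ 2 * M := by
    rw [Int.card_Ioo]
    omega
  have h0 : (0 : ℤ) ∈ Finset.Ioo (-(M : ℤ)) M := by
    rw [Finset.mem_Ioo]
    omega
  rw [if_pos h0, nsmul_eq_mul]
  have hc' : ((Finset.Ioo (-(M : ℤ)) M).card : ℝ) ≤ 2 * M := by exact_mod_cast hc
  gcongr

end Pool.Agent.Helper982_KG.FEJ2
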