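import Mathlib
import Pool.Agent.Helper982_KG.Stmts
import Pool.Agent.Helper982_KG.KER
import Pool.Agent.Helper982_KG.MULT
import Pool.Agent.Helper982_KG.FEJ2

/-!
# The bilinear sum for a matrix of rank one
-/

set_option autoImplicit false

open MeasureTheory Set Finset

namespace Pool.Agent.Helper982_KG.R1

open Pool.Agent.Helper982_KG.KER (mem_GG e_norm)
open Pool.Agent.Helper982_KG.FEJ2

/-- the inner sum -/
noncomputable def Gs (C₀ R : ℕ) (ζ : ℝ × ℝ) (u : ℤ × ℤ) : ℂ :=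
  ∑ B ∈ GG C₀ R, e (u.1 * (act B ζ).1 + u.2 * (act B ζ).2)

/-- mean square of the inner sum -/
theorem Gs_sq (C₀ R U : ℕ) {κ₁ : ℝ} (hκ : 0 < κ₁) (hU : 1 ≤ U) (ζ : ℝ × ℝ)
    (h : DioOne (2 * U) κ₁ ζ) (hR : (4 * U : ℝ) ≤ κ₁ * R) (hR1 : 1 ≤ R) :
    ∑ u ∈ Bx U, ‖Gs C₀ R ζ u‖ ^ 2 ≤ 16 * 81 * (2 * C₀ + 1) ^ 2 * (U * (R : ℝ) ^ 4) := by
  set M : ℕ := 2 * U with hM
  have hM1 : 1 ≤ M := by omega
  have hMr : (M : ℝ) = 2 * U := by rw [hM]; push_cast; ring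
  have hM0 : (0 : ℝ) < M := by exact_mod_cast hM1
  have hU0 : (0 : ℝ) < U := by exact_mod_cast hU
  have h1 := sum_Ph2 (GG C₀ R) (fun B => (act B ζ).1) (fun B => (act B ζ).2) M
  -- lower bound of the weighted sum
  have h2 : (M : ℝ) ^ 2 / 4 * ∑ u ∈ Bx U, ‖Gs C₀ R ζ u‖ ^ 2 ≤
      ∑ k ∈ Finset.Ioo (-(M : ℤ)) M, ∑ l ∈ Finset.Ioo (-(M : ℤ)) M,
        ((M : ℝ) - |(k : ℝ)|) * ((M : ℝ) - |(l : ℝ)|) *
          ‖∑ B ∈ GG C₀ R, e (k * (act B ζ).1 + l * (act B ζ).2)‖ ^ 2 := by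
    rw [← Finset.sum_product (s := Finset.Ioo (-(M : ℤ)) M) (t := Finset.Ioo (-(M : ℤ)) M)
      (f := fun u : ℤ × ℤ => ((M : ℝ) - |(u.1 : ℝ)|) * ((M : ℝ) - |(u.2 : ℝ)|) *
          ‖∑ B ∈ GG C₀ R, e (u.1 * (act B ζ).1 + u.2 * (act B ζ).2)‖ ^ 2)]
    have hsub : Bx U ⊆ Finset.Ioo (-(M : ℤ)) M ×ˢ Finset.Ioo (-(M : ℤ)) M := by
      intro u hu
      rw [mem_Bx, abs_le, abs_le] at hu
      rw [Finset.mem_product, Finset.mem_Ioo, Finset.mem_Ioo]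
      omega
    have hnn : ∀ u ∈ Finset.Ioo (-(M : ℤ)) M ×ˢ Finset.Ioo (-(M : ℤ)) M, u ∉ Bx U →
        0 ≤ ((M : ℝ) - |(u.1 : ℝ)|) * ((M : ℝ) - |(u.2 : ℝ)|) *
          ‖∑ B ∈ GG C₀ R, e (u.1 * (act B ζ).1 + u.2 * (act B ζ).2)‖ ^ 2 := by
      intro u hu _
      rw [Finset.mem_product, Finset.mem_Ioo, Finset.mem_Ioo] at hu
      have a1 : |(u.1 : ℝ)| ≤ M := by
        have : |u.1| ≤ (M : ℤ) := abs_le.2 ⟨by omega, by omega⟩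
        exact_mod_cast this
      have a2 : |(u.2 : ℝ)| ≤ M := by
        have : |u.2| ≤ (M : ℤ) := abs_le.2 ⟨by omega, by omega⟩
        exact_mod_cast this
      exact mul_nonneg (mul_nonneg (by linarith) (by linarith)) (by positivity)
    refine le_trans ?_ (Finset.sum_le_sum_of_subset_of_nonneg hsub hnn)
    rw [Finset.mul_sum]
    apply Finset.sum_le_sum
    intro u hu
    rw [mem_Bx] at hu
    have a1 : (M : ℝ) / 2 ≤ (M : ℝ) - |(u.1 : ℝ)| := by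
      have : |(u.1 : ℝ)| ≤ U := by exact_mod_cast hu.1
      linarith
    have a2 : (M : ℝ) / 2 ≤ (M : ℝ) - |(u.2 : ℝ)| := by
      have : |(u.2 : ℝ)| ≤ U := by exact_mod_cast hu.2
      linarith
    have a3 : (M : ℝ) ^ 2 / 4 ≤ ((M : ℝ) - |(u.1 : ℝ)|) * ((M : ℝ) - |(u.2 : ℝ)|) := by
      have : (M : ℝ) / 2 * (M / 2) ≤ ((M : ℝ) - |(u.1 : ℝ)|) * ((M : ℝ) - |(u.2 : ℝ)|) :=
        mul_le_mul a1 a2 (by positivity) (le_trans (by positivity) a1)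
      linarith [this, (by ring : (M : ℝ) / 2 * (M / 2) = (M : ℝ) ^ 2 / 4)]
    exact mul_le_mul_of_nonneg_right a3 (by positivity)
  rw [← h1] at h2
  -- upper bound
  have h3 : ∑ B ∈ GG C₀ R, ∑ B' ∈ GG C₀ R,
      Ph M ((act B ζ).1 - (act B' ζ).1) * Ph M ((act B ζ).2 - (act B' ζ).2) ≤
      (M : ℝ) ^ 2 * ((2 * C₀ + 1) * ((2 * C₀ + 1) *
        ∑ ρ ∈ Bx R, ∑ ρ' ∈ Bx R,
          Ph M ((ρ.1 * ζ.1 + ρ.2 * ζ.2) - (ρ'.1 * ζ.1 + ρ'.2 * ζ.2)))) := by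
    calc _ ≤ ∑ B ∈ GG C₀ R, ∑ B' ∈ GG C₀ R,
          (M : ℝ) ^ 2 * Ph M ((act B ζ).1 - (act B' ζ).1) := by
          refine Finset.sum_le_sum fun B _ => Finset.sum_le_sum fun B' _ => ?_
          rw [mul_comm]
          exact mul_le_mul_of_nonneg_right (Ph_le M _) (Ph_nonneg M _)
      _ = (M : ℝ) ^ 2 * ∑ B ∈ GG C₀ R, ∑ B' ∈ GG C₀ R, Ph M ((act B ζ).1 - (act B' ζ).1) := by
          rw [Finset.mul_sum]
          refine Finset.sum_congr rfl fun B _ => ?_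
          rw [Finset.mul_sum]
      _ ≤ (M : ℝ) ^ 2 * ((2 * C₀ + 1) * ∑ ρ ∈ Bx R, ∑ B' ∈ GG C₀ R,
          Ph M ((ρ.1 * ζ.1 + ρ.2 * ζ.2) - (act B' ζ).1)) := by
          gcongr
          exact row_sum C₀ R (fun ρ => ∑ B' ∈ GG C₀ R,
            Ph M ((ρ.1 * ζ.1 + ρ.2 * ζ.2) - (act B' ζ).1))
            (fun ρ => Finset.sum_nonneg fun B' _ => Ph_nonneg M _)
      _ ≤ (M : ℝ) ^ 2 * ((2 * C₀ + 1) * ∑ ρ ∈ Bx R, ((2 * C₀ + 1) * ∑ ρ' ∈ Bx R,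
          Ph M ((ρ.1 * ζ.1 + ρ.2 * ζ.2) - (ρ'.1 * ζ.1 + ρ'.2 * ζ.2)))) := by
          gcongr with ρ _
          exact row_sum C₀ R (fun ρ' => Ph M ((ρ.1 * ζ.1 + ρ.2 * ζ.2) -
            (ρ'.1 * ζ.1 + ρ'.2 * ζ.2))) (fun ρ' => Ph_nonneg M _)
      _ = _ := by rw [← Finset.mul_sum]
  have h4 := rows_le hκ R M hM1 ζ (fun k hk1 hk2 => h k hk1 hk2.le)
  have hκR : 1 / κ₁ ^ 2 ≤ (R : ℝ) ^ 2 / (4 * (M : ℝ) ^ 2) := by
    have h5 : (2 * (M : ℝ)) ≤ κ₁ * R := by rw [hMr]; linarith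
    rw [div_le_div_iff₀ (by positivity) (by positivity)]
    calc 1 * (4 * (M : ℝ) ^ 2) = (2 * (M : ℝ)) ^ 2 := by ring
      _ ≤ (κ₁ * R) ^ 2 := by gcongr
      _ = (R : ℝ) ^ 2 * κ₁ ^ 2 := by ring
  have hR1' : (1 : ℝ) ≤ R := by exact_mod_cast hR1
  have h5 : (2 * (R : ℝ) + 1) ^ 4 + 2 * M * ((2 * R + 1) ^ 2 / (4 * κ₁ ^ 2)) ≤ 2 * (81 * R ^ 4) := by
    have h6 : (2 * (R : ℝ) + 1) ^ 4 ≤ 81 * R ^ 4 := by
      calc (2 * (R : ℝ) + 1) ^ 4 ≤ (3 * (R : ℝ)) ^ 4 := by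
            gcongr
            linarith
        _ = 81 * (R : ℝ) ^ 4 := by ring
    have h7 : 2 * (M : ℝ) * ((2 * R + 1) ^ 2 / (4 * κ₁ ^ 2)) ≤ 81 * R ^ 4 := by
      have h8 : (2 * (R : ℝ) + 1) ^ 2 ≤ 9 * R ^ 2 := by
        calc (2 * (R : ℝ) + 1) ^ 2 ≤ (3 * (R : ℝ)) ^ 2 := by
              gcongr
              linarith
          _ = 9 * (R : ℝ) ^ 2 := by ring
      have hM1' : (1 : ℝ) ≤ M := by exact_mod_cast hM1
      calc 2 * (M : ℝ) * ((2 * R + 1) ^ 2 / (4 * κ₁ ^ 2))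
          = 2 * (M : ℝ) * ((2 * R + 1) ^ 2 / 4) * (1 / κ₁ ^ 2) := by field_simp
        _ ≤ 2 * (M : ℝ) * (9 * R ^ 2 / 4) * ((R : ℝ) ^ 2 / (4 * (M : ℝ) ^ 2)) := by gcongr
        _ = 9 / 8 * R ^ 4 / M := by field_simp; norm_num
        _ ≤ 9 / 8 * R ^ 4 := div_le_self (by positivity) hM1'
        _ ≤ 81 * R ^ 4 := by
            have : (0 : ℝ) ≤ R ^ 4 := by positivity
            linarith
    linarith
  have h6 : (M : ℝ) ^ 2 / 4 * ∑ u ∈ Bx U, ‖Gs C₀ R ζ u‖ ^ 2 ≤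
      (M : ℝ) ^ 2 * ((2 * C₀ + 1) * ((2 * C₀ + 1) * (M * (2 * (81 * R ^ 4))))) := by
    refine h2.trans (h3.trans ?_)
    gcongr
    refine h4.trans ?_
    gcongr
  have h7 : ∑ u ∈ Bx U, ‖Gs C₀ R ζ u‖ ^ 2 ≤
      4 * ((2 * C₀ + 1) * ((2 * C₀ + 1) * (M * (2 * (81 * R ^ 4))))) := by
    have hM2 : (0 : ℝ) < (M : ℝ) ^ 2 / 4 := by positivity
    refine le_of_mul_le_mul_left ?_ hM2
    refine h6.trans (le_of_eq ?_)
    ring
  refine h7.trans (le_of_eq ?_)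
  rw [hMr]
  ring

theorem r1 : S_FEJ → S_GEO → S_ROW → S_CARD → S_MULT → S_R1 := by
  intro _ _ _ _ hmult C₀
  obtain ⟨C, hC, hmul⟩ := hmult C₀
  refine ⟨√(2 * (16 * 81 * (2 * C₀ + 1) ^ 2) * C), by positivity, ?_⟩
  intro A₀ R K κ₁ ζ w hA hK hκ hRA hD hw hw1 hw2
  have hA1 : (1 : ℝ) ≤ A₀ := by exact_mod_cast hA
  have hA0 : (0 : ℝ) < A₀ := by linarith
  have hK1 : (1 : ℝ) ≤ K := by exact_mod_cast hK
  have hR1 : 1 ≤ R := by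
    by_contra hcon
    have h0 : R = 0 := by omega
    rw [h0] at hRA
    have : (0 : ℝ) < 8 * A₀ * K := by positivity
    simp at hRA
    nlinarith
  set U : ℕ := 2 * A₀ * K with hU
  have hU1 : 1 ≤ U := by
    rw [hU]
    have := Nat.mul_le_mul hA hK
    nlinarith
  have hUr : (U : ℝ) = 2 * A₀ * K := by rw [hU]; push_cast; ring
  have hG := Gs_sq C₀ R U hκ hU1 ζ (by
    have : 2 * U = 4 * A₀ * K := by rw [hU]; ring
    rw [this]; exact hD) (by rw [hUr]; linarith) hR1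
  -- the sum as a sum over the images of `w`
  have hT : ∑ A ∈ GG C₀ A₀, ∑ B ∈ GG C₀ R,
      e (w.1 * (act A (act B ζ)).1 + w.2 * (act A (act B ζ)).2) =
      ∑ A ∈ GG C₀ A₀, Gs C₀ R ζ (tact A w) := by
    refine Finset.sum_congr rfl fun A _ => ?_
    unfold Gs
    refine Finset.sum_congr rfl fun B _ => ?_
    congr 1
    unfold act tact
    push_cast
    ring
  rw [hT]
  have hmaps : ∀ A ∈ GG C₀ A₀, tact A w ∈ Bx U := by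
    intro A hAm
    rw [mem_GG] at hAm
    obtain ⟨⟨a1, a2, a3, a4⟩, _⟩ := hAm
    rw [mem_Bx]
    have hb : ∀ p q : ℤ, |p| ≤ A₀ → |q| ≤ A₀ → |p * w.1 + q * w.2| ≤ (U : ℤ) := by
      intro p q hp hq
      calc |p * w.1 + q * w.2| ≤ |p * w.1| + |q * w.2| := abs_add_le _ _
        _ = |p| * |w.1| + |q| * |w.2| := by rw [abs_mul, abs_mul]
        _ ≤ (A₀ : ℤ) * K + A₀ * K := by gcongr
        _ = (U : ℤ) := by rw [hU]; push_cast; ring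
    exact ⟨hb _ _ a1 a3, hb _ _ a2 a4⟩
  set m : ℤ × ℤ → ℝ := fun u => (((GG C₀ A₀).filter (fun A => tact A w = u)).card : ℝ) with hm
  have h1 : ‖∑ A ∈ GG C₀ A₀, Gs C₀ R ζ (tact A w)‖ ≤ ∑ u ∈ Bx U, m u * ‖Gs C₀ R ζ u‖ := by
    rw [← Finset.sum_fiberwise_of_maps_to hmaps]
    refine (norm_sum_le _ _).trans (Finset.sum_le_sum fun u _ => ?_)
    have h2 : ∑ A ∈ (GG C₀ A₀).filter (fun A => tact A w = u), Gs C₀ R ζ (tact A w) =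
        (m u : ℂ) * Gs C₀ R ζ u := by
      rw [hm]
      simp only
      rw [Complex.ofReal_natCast, ← nsmul_eq_mul, ← Finset.sum_const]
      refine Finset.sum_congr rfl fun A hAm => ?_
      rw [(Finset.mem_filter.1 hAm).2]
    rw [h2, norm_mul, Complex.norm_real, Real.norm_of_nonneg (by rw [hm]; positivity)]
  have h2 : ∑ u ∈ Bx U, m u ^ 2 ≤ C * (K : ℝ) ^ 3 * (A₀ : ℝ) ^ ((14 : ℝ) / 5) := by
    refine le_trans (le_of_eq ?_) (hmul A₀ K hA hK w hw hw1 hw2)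
    have hsum : (((GG C₀ A₀) ×ˢ (GG C₀ A₀)).filter (fun p => tact p.1 w = tact p.2 w)).card =
        ∑ g ∈ GG C₀ A₀, ((GG C₀ A₀).filter (fun g' => tact g' w = tact g w)).card := by
      rw [Finset.card_filter, Finset.sum_product]
      refine Finset.sum_congr rfl fun g _ => ?_
      rw [Finset.card_filter]
      refine Finset.sum_congr rfl fun g' _ => ?_
      simp only [eq_comm]
    rw [hsum, Nat.cast_sum, ← Finset.sum_fiberwise_of_maps_to hmaps]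
    refine Finset.sum_congr rfl fun u _ => ?_
    have h3 : ∑ A ∈ (GG C₀ A₀).filter (fun A => tact A w = u),
        (((GG C₀ A₀).filter (fun g' => tact g' w = tact A w)).card : ℝ) =
        ∑ A ∈ (GG C₀ A₀).filter (fun A => tact A w = u), m u := by
      refine Finset.sum_congr rfl fun A hAm => ?_
      rw [(Finset.mem_filter.1 hAm).2]
    rw [h3, Finset.sum_const, nsmul_eq_mul, sq]
  have h3 := Finset.sum_mul_sq_le_sq_mul_sq (Bx U) m (fun u => ‖Gs C₀ R ζ u‖)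
  have h4 : ‖∑ A ∈ GG C₀ A₀, Gs C₀ R ζ (tact A w)‖ ^ 2 ≤
      (C * (K : ℝ) ^ 3 * (A₀ : ℝ) ^ ((14 : ℝ) / 5)) *
        (16 * 81 * (2 * C₀ + 1) ^ 2 * (U * (R : ℝ) ^ 4)) := by
    calc _ ≤ (∑ u ∈ Bx U, m u * ‖Gs C₀ R ζ u‖) ^ 2 := by gcongr
      _ ≤ _ := h3
      _ ≤ _ := by gcongr
  have h5 : (C * (K : ℝ) ^ 3 * (A₀ : ℝ) ^ ((14 : ℝ) / 5)) *
        (16 * 81 * (2 * C₀ + 1) ^ 2 * (U * (R : ℝ) ^ 4)) =
      (√(2 * (16 * 81 * (2 * C₀ + 1) ^ 2) * C) * (K : ℝ) ^ 2 * (A₀ : ℝ) ^ ((19 : ℝ) / 10) *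
        (R : ℝ) ^ 2) ^ 2 := by
    have h6 : ((A₀ : ℝ) ^ ((19 : ℝ) / 10)) ^ 2 = (A₀ : ℝ) ^ ((14 : ℝ) / 5) * A₀ := by
      rw [← Real.rpow_natCast, ← Real.rpow_mul hA0.le]
      nth_rewrite 3 [← Real.rpow_one (A₀ : ℝ)]
      rw [← Real.rpow_add hA0]
      norm_num
    rw [mul_pow, mul_pow, mul_pow, h6, Real.sq_sqrt (by positivity), hUr]
    ring
  rw [h5] at h4
  exact (pow_le_pow_iff_left₀ (norm_nonneg _) (by positivity) two_ne_zero).1 h4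

end Pool.Agent.Helper982_KG.R1
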