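import Pool.Agent.Helper982_KG.R2b

/-!
# The second bilinear sum (part R2)
-/

set_option autoImplicit false

open Finset

namespace Pool.Agent.Helper982_KG.RTwo

theorem fourth_eq (ξ ξ' : ℝ × ℝ) (G : Finset M4) (B : M4) :
    ((‖∑ A ∈ G, e (ph ξ ξ' A B)‖ ^ 4 : ℝ) : ℂ) =
      ∑ q ∈ (G ×ˢ G) ×ˢ (G ×ˢ G), e (ph ξ ξ' ((q.1.1 + q.1.2) - (q.2.1 + q.2.2)) B) := by
  have e1 : (∑ A ∈ G, e (ph ξ ξ' A B)) * (∑ A ∈ G, e (ph ξ ξ' A B)) =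
      ∑ p ∈ G ×ˢ G, e (ph ξ ξ' (p.1 + p.2) B) := by
    rw [sum_mul_sum, ← sum_product']
    refine sum_congr rfl fun p _ => ?_
    rw [ph_add, e_add]
  have e2 : ‖∑ A ∈ G, e (ph ξ ξ' A B)‖ ^ 4 = ‖∑ p ∈ G ×ˢ G, e (ph ξ ξ' (p.1 + p.2) B)‖ ^ 2 := by
    rw [← e1, norm_mul]; ring
  rw [e2, normsq]
  refine sum_congr rfl fun q _ => ?_
  rw [ph_sub]

theorem fourth_le (C₀ R : ℕ) (ξ ξ' : ℝ × ℝ) (G : Finset M4) :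
    ∑ B ∈ GG C₀ R, ‖∑ A ∈ G, e (ph ξ ξ' A B)‖ ^ 4 ≤
      ∑ q ∈ (G ×ˢ G) ×ˢ (G ×ˢ G), ‖FF C₀ R ξ ξ' ((q.1.1 + q.1.2) - (q.2.1 + q.2.2))‖ := by
  have e1 : ((∑ B ∈ GG C₀ R, ‖∑ A ∈ G, e (ph ξ ξ' A B)‖ ^ 4 : ℝ) : ℂ) =
      ∑ q ∈ (G ×ˢ G) ×ˢ (G ×ˢ G), FF C₀ R ξ ξ' ((q.1.1 + q.1.2) - (q.2.1 + q.2.2)) := by
    rw [Complex.ofReal_sum, sum_congr rfl fun B _ => fourth_eq ξ ξ' G B, sum_comm]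
    refine sum_congr rfl fun q _ => ?_
    rw [FF]
  have e2 : 0 ≤ ∑ B ∈ GG C₀ R, ‖∑ A ∈ G, e (ph ξ ξ' A B)‖ ^ 4 :=
    sum_nonneg fun B _ => by positivity
  have e3 : ∑ B ∈ GG C₀ R, ‖∑ A ∈ G, e (ph ξ ξ' A B)‖ ^ 4 =
      ‖((∑ B ∈ GG C₀ R, ‖∑ A ∈ G, e (ph ξ ξ' A B)‖ ^ 4 : ℝ) : ℂ)‖ := by
    rw [Complex.norm_real, Real.norm_of_nonneg e2]
  rw [e3, e1]
  exact norm_sum_le _ _

theorem diff_mem (C₀ A₀ : ℕ) : ∀ p ∈ GG C₀ A₀ ×ˢ GG C₀ A₀, ∀ q ∈ GG C₀ A₀ ×ˢ GG C₀ A₀,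
    (p.1 + p.2) - (q.1 + q.2) ∈ BB A₀ := by
  rintro ⟨⟨a1, a2, a3, a4⟩, ⟨b1, b2, b3, b4⟩⟩ hp ⟨⟨c1, c2, c3, c4⟩, ⟨d1, d2, d3, d4⟩⟩ hq
  have p1 := (mem_filter.1 (mem_product.1 hp).1).1
  have p2 := (mem_filter.1 (mem_product.1 hp).2).1
  have q1 := (mem_filter.1 (mem_product.1 hq).1).1
  have q2 := (mem_filter.1 (mem_product.1 hq).2).1
  clear hp hq
  simp only [mem_product, mem_Icc] at p1 p2 q1 q2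
  obtain ⟨⟨_, _⟩, ⟨_, _⟩, ⟨_, _⟩, ⟨_, _⟩⟩ := p1
  obtain ⟨⟨_, _⟩, ⟨_, _⟩, ⟨_, _⟩, ⟨_, _⟩⟩ := p2
  obtain ⟨⟨_, _⟩, ⟨_, _⟩, ⟨_, _⟩, ⟨_, _⟩⟩ := q1
  obtain ⟨⟨_, _⟩, ⟨_, _⟩, ⟨_, _⟩, ⟨_, _⟩⟩ := q2
  unfold BB
  simp only [Prod.mk_add_mk, Prod.mk_sub_mk, mem_product, mem_Icc]
  refine ⟨⟨?_, ?_⟩, ⟨?_, ?_⟩, ⟨?_, ?_⟩, ⟨?_, ?_⟩⟩ <;> linarith

theorem energy_card (G : Finset M4) :
    (((G ×ˢ G) ×ˢ (G ×ˢ G)).filter (fun q => (q.1.1 + q.1.2) - (q.2.1 + q.2.2) = 0)).card ≤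
      ((G ×ˢ G ×ˢ G ×ˢ G).filter (fun p => p.1 + p.2.1 = p.2.2.1 + p.2.2.2)).card := by
  refine card_le_card_of_injOn (fun q => (q.1.1, q.1.2, q.2.1, q.2.2)) ?_ ?_
  · intro q hq
    have hq' := mem_filter.1 (mem_coe.1 hq)
    have h1 := mem_product.1 hq'.1
    have h2 := mem_product.1 h1.1
    have h3 := mem_product.1 h1.2
    refine mem_coe.2 (mem_filter.2 ⟨?_, sub_eq_zero.1 hq'.2⟩)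
    exact mem_product.2 ⟨h2.1, mem_product.2 ⟨h2.2, mem_product.2 ⟨h3.1, h3.2⟩⟩⟩
  · rintro ⟨⟨a, b⟩, ⟨c, d⟩⟩ _ ⟨⟨a', b'⟩, ⟨c', d'⟩⟩ _ h
    have h' := h
    simp only [Prod.mk.injEq] at h' ⊢
    exact ⟨⟨h'.1, h'.2.1⟩, h'.2.2.1, h'.2.2.2⟩

theorem card_le (hcard : S_CARD) (C₀ T : ℕ) (hT : 1 ≤ T) :
    ((GG C₀ T).card : ℝ) ≤ 9 * (2 * (C₀ : ℝ) + 1) * (T : ℝ) ^ 2 := by
  have hT1 : (1 : ℝ) ≤ T := by exact_mod_cast hT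
  have h5 : ((GG C₀ T).card : ℝ) ≤ (2 * (C₀ : ℝ) + 1) * (2 * (T : ℝ) + 1) ^ 2 := by
    exact_mod_cast hcard C₀ T
  have h6 : (2 * (T : ℝ) + 1) ^ 2 ≤ 9 * (T : ℝ) ^ 2 := by nlinarith
  have h7 : 0 ≤ 2 * (C₀ : ℝ) + 1 := by positivity
  nlinarith [mul_le_mul_of_nonneg_left h6 h7]

/-- numerical assembly -/
theorem assemble {Tn X Y nH nP E D c CE κ A R : ℝ} (_hT : 0 ≤ Tn) (hX : 0 ≤ X) (hnH : 0 ≤ nH)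
    (hnP : 0 ≤ nP) (hE : 0 ≤ E) (hD : 0 ≤ D) (hc : 0 < c) (hCE : 0 < CE) (hκ : 0 < κ)
    (hA : 1 ≤ A) (hR : 1 ≤ R) (h1 : Tn ^ 4 ≤ nH ^ 3 * X) (h2 : X ≤ Y) (h3 : Y ^ 2 ≤ nP ^ 2 * E * D)
    (h4 : nH ≤ c * R ^ 2) (h5 : nP ≤ (c * A ^ 2) ^ 2) (h6 : E ≤ CE * A ^ ((29 : ℝ) / 5))
    (h7 : D ≤ κ * A ^ 2 * R ^ 4) :
    Tn ≤ (c ^ 10 * CE * κ + 1) * A ^ ((79 : ℝ) / 40) * R ^ 2 := by
  have hA0 : 0 < A := by linarith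
  have hR0 : 0 < R := by linarith
  have hQ : 0 < c ^ 10 * CE * κ := by positivity
  have i1 : Tn ^ 8 ≤ nH ^ 6 * Y ^ 2 := by
    calc Tn ^ 8 = (Tn ^ 4) ^ 2 := by ring
      _ ≤ (nH ^ 3 * X) ^ 2 := pow_le_pow_left₀ (by positivity) h1 2
      _ = nH ^ 6 * X ^ 2 := by ring
      _ ≤ nH ^ 6 * Y ^ 2 :=
          mul_le_mul_of_nonneg_left (pow_le_pow_left₀ hX h2 2) (by positivity)
  have i2 : nH ^ 6 ≤ (c * R ^ 2) ^ 6 := pow_le_pow_left₀ hnH h4 6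
  have i3 : nP ^ 2 ≤ (c * A ^ 2) ^ 4 := by
    calc nP ^ 2 ≤ ((c * A ^ 2) ^ 2) ^ 2 := pow_le_pow_left₀ hnP h5 2
      _ = (c * A ^ 2) ^ 4 := by ring
  have hAr : 0 ≤ A ^ ((29 : ℝ) / 5) := Real.rpow_nonneg hA0.le _
  have i4 : Y ^ 2 ≤ (c * A ^ 2) ^ 4 * (CE * A ^ ((29 : ℝ) / 5)) * (κ * A ^ 2 * R ^ 4) := by
    refine h3.trans ?_
    refine mul_le_mul (mul_le_mul i3 h6 hE (by positivity)) h7 hD (by positivity)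
  have e1 : A ^ ((79 : ℝ) / 5) = A ^ 10 * A ^ ((29 : ℝ) / 5) := by
    rw [show ((79 : ℝ) / 5) = (10 : ℕ) + 29 / 5 by norm_num, Real.rpow_add hA0, Real.rpow_natCast]
  have i5 : Tn ^ 8 ≤ (c ^ 10 * CE * κ) * (R ^ 16 * A ^ ((79 : ℝ) / 5)) := by
    calc Tn ^ 8 ≤ nH ^ 6 * Y ^ 2 := i1
      _ ≤ (c * R ^ 2) ^ 6 * ((c * A ^ 2) ^ 4 * (CE * A ^ ((29 : ℝ) / 5)) * (κ * A ^ 2 * R ^ 4)) :=
          mul_le_mul i2 i4 (sq_nonneg _) (by positivity)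
      _ = _ := by rw [e1]; ring
  have e3 : (A ^ ((79 : ℝ) / 40)) ^ 8 = A ^ ((79 : ℝ) / 5) := by
    rw [← Real.rpow_natCast, ← Real.rpow_mul hA0.le]
    norm_num
  have hAp : 0 ≤ A ^ ((79 : ℝ) / 40) := Real.rpow_nonneg hA0.le _
  have hAq : 0 ≤ A ^ ((79 : ℝ) / 5) := Real.rpow_nonneg hA0.le _
  generalize c ^ 10 * CE * κ = Q at *
  have e2 : Q ≤ (Q + 1) ^ 8 := by
    have : (Q + 1) ^ 1 ≤ (Q + 1) ^ 8 := pow_le_pow_right₀ (by linarith) (by norm_num)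
    linarith
  have i6 : Q * (R ^ 16 * A ^ ((79 : ℝ) / 5)) ≤ ((Q + 1) * A ^ ((79 : ℝ) / 40) * R ^ 2) ^ 8 := by
    calc Q * (R ^ 16 * A ^ ((79 : ℝ) / 5))
        ≤ (Q + 1) ^ 8 * (R ^ 16 * A ^ ((79 : ℝ) / 5)) :=
          mul_le_mul_of_nonneg_right e2 (by positivity)
      _ = (Q + 1) ^ 8 * (A ^ ((79 : ℝ) / 40)) ^ 8 * R ^ 16 := by rw [e3]; ring
      _ = _ := by ring
  exact le_of_pow_le_pow_left₀ (by norm_num) (by positivity) (i5.trans i6)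

theorem r2 (hF : S_FEJ) (hG : S_GEO) (hrow : S_ROW) (hcard : S_CARD) (hE : S_ENERGY) : S_R2 := by
  intro C₀
  obtain ⟨CE, hCE, hEn⟩ := hE C₀
  have hc0 : 0 < 9 * (2 * (C₀ : ℝ) + 1) := by positivity
  have hk0 : 0 < 16 * (2 * (C₀ : ℝ) + 1) ^ 2 * (90 * 64) := by positivity
  refine ⟨(9 * (2 * (C₀ : ℝ) + 1)) ^ 10 * CE * (16 * (2 * (C₀ : ℝ) + 1) ^ 2 * (90 * 64)) + 1,
    add_pos (mul_pos (mul_pos (pow_pos hc0 10) hCE) hk0) one_pos,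
    fun A₀ R κ₁ ξ ξ' hA hκ hκR hd => ?_⟩
  have hA1 : (1 : ℝ) ≤ A₀ := by exact_mod_cast hA
  have hR : 1 ≤ R := by
    by_contra h
    have : R = 0 := by omega
    rw [this] at hκR
    simp only [Nat.cast_zero, mul_zero] at hκR
    linarith
  have hR1 : (1 : ℝ) ≤ R := by exact_mod_cast hR
  have hT : ∑ A ∈ GG C₀ A₀, ∑ B ∈ GG C₀ R, e ((act A (act B ξ)).1 + (act A (act B ξ')).2) =
      ∑ B ∈ GG C₀ R, ∑ A ∈ GG C₀ A₀, e (ph ξ ξ' A B) := by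
    rw [sum_comm]
    refine sum_congr rfl fun B _ => sum_congr rfl fun A _ => ?_
    rw [ph]
  rw [hT]
  have h5 := fourth_le C₀ R ξ ξ' (GG C₀ A₀)
  have h6 := quad (GG C₀ A₀ ×ˢ GG C₀ A₀) (fun p => p.1 + p.2) (BB A₀) (diff_mem C₀ A₀)
    (fun g => ‖FF C₀ R ξ ξ' g‖)
  have h7 : ((((GG C₀ A₀ ×ˢ GG C₀ A₀) ×ˢ (GG C₀ A₀ ×ˢ GG C₀ A₀)).filter
      (fun q => (q.1.1 + q.1.2) - (q.2.1 + q.2.2) = 0)).card : ℝ) ≤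
      CE * (A₀ : ℝ) ^ ((29 : ℝ) / 5) :=
    le_trans (by exact_mod_cast energy_card (GG C₀ A₀)) (hEn A₀ hA)
  have h8 := box_le' hF hG hrow C₀ A₀ R κ₁ ξ ξ' hA hR hκ hκR hd
  have h9 := four (GG C₀ R) (fun B => ∑ A ∈ GG C₀ A₀, e (ph ξ ξ' A B))
  have hPc : ((GG C₀ A₀ ×ˢ GG C₀ A₀).card : ℝ) ≤ (9 * (2 * (C₀ : ℝ) + 1) * (A₀ : ℝ) ^ 2) ^ 2 := by
    have h := pow_le_pow_left₀ (Nat.cast_nonneg _) (card_le hcard C₀ A₀ hA) 2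
    rw [card_product]
    push_cast
    rw [← sq]
    exact h
  exact assemble (norm_nonneg _) (sum_nonneg fun B _ => pow_nonneg (norm_nonneg _) 4)
    (Nat.cast_nonneg _) (Nat.cast_nonneg _) (Nat.cast_nonneg _)
    (sum_nonneg fun g _ => sq_nonneg _) hc0 hCE hk0 hA1 hR1 h9 h5 h6 (card_le hcard C₀ R hR)
    hPc h7 h8

end Pool.Agent.Helper982_KG.RTwo
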