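import Mathlib
import Pool.Agent.Helper982_KG.Stmts
import Pool.Agent.Helper982_KG.KER
import Pool.Agent.Helper982_KG.Energy
import Pool.Agent.Helper982_KG.MULT
import Pool.Agent.Helper982_KG.R1
import Pool.Agent.Helper982_KG.R2
import Pool.Agent.Helper982_KG.Box
import Pool.Agent.Helper982_KG.ORB1
import Pool.Agent.Helper982_KG.ORB2
import Pool.Agent.Helper982_KG.Bases
import Pool.Agent.Helper982_KG.Pack
import Pool.Agent.Helper982_KG.Case2
import Pool.Agent.Helper982_KG.COPR
import Pool.Agent.Helper982_KG.FIRST
import Pool.Agent.Helper982_KG.Crit
import Pool.Agent.Helper982_KG.Norm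
import Pool.Agent.Helper982_KG.Div
import Pool.Agent.Helper982_KG.Bad
import Pool.Agent.Helper982_KG.Local

/-!
# Assembly of all parts
-/

set_option autoImplicit false

namespace Pool.Agent.Helper982_KG.All

theorem main_of_r2 (hR2 : S_FEJ → S_GEO → S_ROW → S_CARD → S_ENERGY → S_R2) : S_MAIN := by
  have fej := KER.fej
  have flow := KER.flow
  have geo := KER.geo
  have row := KER.row
  have card := KER.card
  have energy := Energy.energy row card
  have mult := MULT.mult card
  have r1 := R1.r1 fej geo row card mult
  have r2 := hR2 fej geo row card energy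
  have box1 := Box.box1 fej flow card r1
  have box2 := Box.box2 fej flow card r1 r2
  have count := ORB2.count
  have o2 := ORB2.o2 count box2
  have o1 := ORB1.o1 count box1
  have bases := Bases.bases
  have pack := Pack.pack
  have up := Pack.up pack
  have case1 := Pack.case1 pack
  have case2 := Case2.case2 o1 o2 bases pack
  have pair := Pack.pair case1 case2
  have first := FIRST.first COPR.copr
  exact Norm.main_of_local Crit.crit (Local.local_of first up pair Bad.bad Div.div)

theorem main : S_MAIN := main_of_r2 RTwo.r2

end Pool.Agent.Helper982_KG.All
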