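import Pool.Agent.Helper982_KG.BadMain

/-!
# Part BAD: the union bound (helper661)
-/

set_option autoImplicit false
set_option maxHeartbeats 4000000

open MeasureTheory Set

namespace Pool.Agent.Helper982_KG.Bad

theorem bad_of (itdiff : S_ITDIFF) (ndu : S_NDU) (om : S_OM) (rec : S_REC) : S_BAD := by
  classical
  intro d m l Y u₀ ρ hρ hY hnd
  obtain ⟨c₀, hc₀, A, hA, hε⟩ := ndu d m l Y u₀ ρ hρ hY hnd
  obtain ⟨r, hr, hrρ, hw⟩ := hε (c₀ / (2 * (m + 1))) (by positivity)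
  have hkap : 0 < kap := by unfold kap; norm_num
  obtain ⟨h₁, hh₁, hh₁1, hh₁r⟩ : ∃ h₁ : ℝ, 0 < h₁ ∧ h₁ ≤ 1 ∧ h₁ * (2 * (l + 1)) ≤ r := by
    refine ⟨min (r / (2 * (l + 1))) 1, by positivity, min_le_right _ _, ?_⟩
    have h1 : min (r / (2 * ((l : ℝ) + 1))) 1 ≤ r / (2 * (l + 1)) := min_le_left _ _
    rwa [le_div_iff₀ (by positivity)] at h1
  set K : ℝ := max (20 * (4 * (A + c₀) / c₀)) (2 ^ (l + 1)) with hK
  have hK0 : 0 < K := lt_of_lt_of_le (by positivity) (le_max_right _ _)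
  set V' : ℝ := (2 * r) ^ d * (2 * r + 3) * 2 with hV'
  have hV'0 : 0 < V' := by rw [hV']; positivity
  obtain ⟨C, hC0, hC1, hC2, hC3⟩ : ∃ C : ℝ, 0 < C ∧ 2 * (A + c₀) ≤ kap * C ∧
      1 ≤ h₁ ^ l * (2 * (A + c₀) * (kap * C)) ∧ 2 * 3 ^ m * K * V' ≤ C := by
    refine ⟨max (2 * 3 ^ m * K * V') (max (2 * (A + c₀) / kap) (1 / (h₁ ^ l * (2 * (A + c₀) * kap)))),
      ?_, ?_, ?_, le_max_left _ _⟩
    · exact lt_of_lt_of_le (by positivity) (le_max_left _ _)
    · have h1 : 2 * (A + c₀) / kap ≤ max (2 * 3 ^ m * K * V')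
        (max (2 * (A + c₀) / kap) (1 / (h₁ ^ l * (2 * (A + c₀) * kap)))) :=
        (le_max_left _ _).trans (le_max_right _ _)
      rw [div_le_iff₀ hkap] at h1
      linarith
    · have h1 : 1 / (h₁ ^ l * (2 * (A + c₀) * kap)) ≤ max (2 * 3 ^ m * K * V')
        (max (2 * (A + c₀) / kap) (1 / (h₁ ^ l * (2 * (A + c₀) * kap)))) :=
        (le_max_right _ _).trans (le_max_right _ _)
      rw [div_le_iff₀ (by positivity)] at h1
      linarith
  refine ⟨r / 2, by positivity, by linarith, 1 / ((l + 1) * 2 ^ l), by positivity, C, hC0, ?_⟩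
  intro N W θ hW hθ hθ1 hN
  have hWr : (1 : ℝ) ≤ W := by exact_mod_cast hW
  have hθ2 : θ ^ 2 ≤ 1 := pow_le_one₀ hθ.le hθ1
  have hNpos : (0 : ℝ) < N := by
    have h1 : 0 < C * W := by positivity
    have h2 : 0 < (N : ℝ) * θ ^ 2 := lt_of_lt_of_le h1 hN
    exact (pos_iff_pos_of_mul_pos h2).2 (by positivity)
  have hN1 : 1 ≤ N := by exact_mod_cast hNpos
  have hN1r : (1 : ℝ) ≤ N := by exact_mod_cast hN1
  set η : ℝ := (1 : ℝ) / ((l + 1) * 2 ^ l) with hη
  set X : ℝ := K * θ ^ η * (V' / N) with hX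
  have hθη : 0 < θ ^ η := Real.rpow_pos_of_pos hθ _
  have hX0 : 0 ≤ X := by rw [hX]; positivity
  set Zs : ℕ → (Fin m → ℤ) → Set (Fin (d + 1) → ℝ) := fun b w =>
    {u | (kap * N ≤ b ∧ w ≠ 0 ∧ ∀ i, |w i| ≤ W) ∧ u ∈ Metric.ball u₀ (r / 2) ∧
      (∃ a : ℤ, |(b : ℝ) * u 0 - a| ≤ 1 / (N : ℝ)) ∧
      ∃ a : ℤ, |(b : ℝ) * (∑ i, (w i : ℝ) * Y u i) - a| < θ} with hZs
  have hZle : ∀ b w, volume (Zs b w) ≤ ENNReal.ofReal X := by
    intro b w
    by_cases hc : kap * N ≤ b ∧ w ≠ 0 ∧ ∀ i, |w i| ≤ W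
    · have h1 := per_bw itdiff om rec Y u₀ r c₀ A hr hc₀ hA (hY.mono (Metric.ball_subset_ball hrρ)) hw
        C h₁ hh₁ hh₁1 hh₁r hC1 hC2 N W θ hW hθ hθ1 hN b hc.1 w hc.2.1 hc.2.2
      refine (measure_mono ?_).trans h1
      intro u hu
      exact hu.2
    · have : Zs b w = ∅ := by
        ext u
        simp only [hZs, mem_ofPred_eq, mem_empty_iff_false, iff_false]
        intro h
        exact hc h.1
      rw [this, measure_empty]
      exact zero_le
  have hsub : {u | u ∈ Metric.ball u₀ (r / 2) ∧ ¬ Dio θ N W (u 0) (Y u)} ⊆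
      ⋃ b ∈ Finset.range (N + 1), ⋃ w ∈ Fintype.piFinset (fun _ : Fin m => Finset.Icc (-(W : ℤ)) W),
        Zs b w := by
    intro u hu
    obtain ⟨hu1, hu2⟩ := hu
    unfold Dio at hu2
    push Not at hu2
    obtain ⟨b, hb1, hb2, hb3, w, hw1, hw2, hw3⟩ := hu2
    simp only [Far] at hw3
    push Not at hw3
    simp only [mem_iUnion]
    refine ⟨b, Finset.mem_range.2 (by omega), w, ?_, ?_⟩
    · rw [Fintype.mem_piFinset]
      intro i
      rw [Finset.mem_Icc]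
      exact abs_le.1 (hw2 i)
    · exact ⟨⟨hb1, hw1, hw2⟩, hu1, hb3, hw3⟩
  refine (measure_mono hsub).trans ?_
  calc volume (⋃ b ∈ Finset.range (N + 1), ⋃ w ∈ Fintype.piFinset
        (fun _ : Fin m => Finset.Icc (-(W : ℤ)) W), Zs b w)
      ≤ ∑ b ∈ Finset.range (N + 1), volume (⋃ w ∈ Fintype.piFinset
        (fun _ : Fin m => Finset.Icc (-(W : ℤ)) W), Zs b w) := measure_biUnion_finset_le _ _
    _ ≤ ∑ b ∈ Finset.range (N + 1), ∑ w ∈ Fintype.piFinset
        (fun _ : Fin m => Finset.Icc (-(W : ℤ)) W), volume (Zs b w) :=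
        Finset.sum_le_sum (fun b _ => measure_biUnion_finset_le _ _)
    _ ≤ ∑ b ∈ Finset.range (N + 1), ∑ w ∈ Fintype.piFinset
        (fun _ : Fin m => Finset.Icc (-(W : ℤ)) W), ENNReal.ofReal X :=
        Finset.sum_le_sum (fun b _ => Finset.sum_le_sum (fun w _ => hZle b w))
    _ = ENNReal.ofReal ((N + 1) * ((2 * W + 1) ^ m * X)) := by
        rw [Finset.sum_const, Finset.sum_const, Finset.card_range, Fintype.card_piFinset]
        simp only [Int.card_Icc, Finset.prod_const, Finset.card_univ, Fintype.card_fin]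
        have h1 : ((W : ℤ) + 1 - -(W : ℤ)).toNat = 2 * W + 1 := by omega
        rw [h1, ENNReal.ofReal_mul (p := (N : ℝ) + 1) (by positivity),
          ENNReal.ofReal_mul (p := (2 * (W : ℝ) + 1) ^ m) (by positivity),
          nsmul_eq_mul, nsmul_eq_mul]
        have h2 : ((N + 1 : ℕ) : ENNReal) = ENNReal.ofReal ((N : ℝ) + 1) := by
          rw [← ENNReal.ofReal_natCast]; push_cast; rfl
        have h3 : (((2 * W + 1) ^ m : ℕ) : ENNReal) = ENNReal.ofReal ((2 * (W : ℝ) + 1) ^ m) := by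
          rw [← ENNReal.ofReal_natCast]; push_cast; rfl
        rw [h2, h3]
    _ ≤ ENNReal.ofReal (C * (W : ℝ) ^ m * θ ^ η) := by
        apply ENNReal.ofReal_le_ofReal
        have h1 : (2 * (W : ℝ) + 1) ^ m ≤ (3 * W) ^ m := pow_le_pow_left₀ (by positivity) (by linarith) m
        have h2 : ((N : ℝ) + 1) * (V' / N) ≤ 2 * V' := by
          rw [mul_div_assoc', div_le_iff₀ hNpos]
          nlinarith
        calc ((N : ℝ) + 1) * ((2 * W + 1) ^ m * X) ≤ ((N : ℝ) + 1) * ((3 * W) ^ m * X) := by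
              apply mul_le_mul_of_nonneg_left _ (by positivity)
              exact mul_le_mul_of_nonneg_right h1 hX0
          _ = (((N : ℝ) + 1) * (V' / N)) * ((3 * W) ^ m * (K * θ ^ η)) := by rw [hX]; ring
          _ ≤ (2 * V') * ((3 * W) ^ m * (K * θ ^ η)) := mul_le_mul_of_nonneg_right h2 (by positivity)
          _ = (2 * 3 ^ m * K * V') * ((W : ℝ) ^ m * θ ^ η) := by rw [mul_pow]; ring
          _ ≤ C * ((W : ℝ) ^ m * θ ^ η) := mul_le_mul_of_nonneg_right hC3 (by positivity)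
          _ = C * (W : ℝ) ^ m * θ ^ η := by ring

end Pool.Agent.Helper982_KG.Bad
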