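import Pool.Agent.Helper982_KG.Stmts

/-!
# Part BAD: definitions and statements of the sub-lemmas (helper661)
-/

open MeasureTheory Set

namespace Pool.Agent.Helper982_KG.Bad

/-- partial derivative in the direction `e_j` -/
noncomputable def pd {d : ℕ} {G : Type} [NormedAddCommGroup G] [NormedSpace ℝ G]
    (j : Fin (d + 1)) (F : (Fin (d + 1) → ℝ) → G) : (Fin (d + 1) → ℝ) → G :=
  fun u => fderiv ℝ F u (Pi.single j 1)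

/-- word derivative (the first letter is applied first) -/
noncomputable def dW {d : ℕ} {G : Type} [NormedAddCommGroup G] [NormedSpace ℝ G] :
    List (Fin (d + 1)) → ((Fin (d + 1) → ℝ) → G) → (Fin (d + 1) → ℝ) → G
  | [], F => F
  | j :: L, F => dW L (pd j F)

/-- iterated difference (the first step is applied first) -/
noncomputable def DD {d : ℕ} {G : Type} [NormedAddCommGroup G] [NormedSpace ℝ G] :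
    List (Fin (d + 1) × ℝ) → ((Fin (d + 1) → ℝ) → G) → (Fin (d + 1) → ℝ) → G
  | [], F => F
  | p :: L, F => DD L (fun u => F (u + p.2 • Pi.single p.1 1) - F u)

/-- BA: iterated mean value inequality -/
def S_ITDIFF : Prop := ∀ (d m : ℕ) (L : List (Fin (d + 1) × ℝ)) (F : (Fin (d + 1) → ℝ) → (Fin m → ℝ))
  (u₀ : Fin (d + 1) → ℝ) (r : ℝ), ContDiffOn ℝ (L.length : ℕ) F (Metric.ball u₀ r) →
  ∀ (a : Fin m → ℝ) (ε : ℝ), (∀ u ∈ Metric.ball u₀ r, ‖dW (L.map Prod.fst) F u - a‖ ≤ ε) →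
  ∀ u : Fin (d + 1) → ℝ, ‖u - u₀‖ + (L.map (fun p => |p.2|)).sum < r →
    ‖DD L F u - (L.map Prod.snd).prod • a‖ ≤ ε * (L.map (fun p => |p.2|)).prod

/-- BB: uniform nondegeneracy near `u₀` -/
def S_NDU : Prop := ∀ (d m l : ℕ) (Y : (Fin (d + 1) → ℝ) → (Fin m → ℝ)) (u₀ : Fin (d + 1) → ℝ)
  (ρ : ℝ), 0 < ρ → ContDiffOn ℝ l Y (Metric.ball u₀ ρ) → NDn l Y u₀ →
  ∃ c₀ : ℝ, 0 < c₀ ∧ ∃ A : ℝ, 0 < A ∧ ∀ ε : ℝ, 0 < ε → ∃ r : ℝ, 0 < r ∧ r ≤ ρ ∧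
    ∀ w : Fin m → ℝ, w ≠ 0 → ∃ L : List (Fin (d + 1)), 1 ≤ L.length ∧ L.length ≤ l ∧
      (L.length = 1 → (0 : Fin (d + 1)) ∉ L) ∧
      c₀ * ‖w‖ ≤ |∑ i, w i * dW L Y u₀ i| ∧ |∑ i, w i * dW L Y u₀ i| ≤ A * ‖w‖ ∧
      ∀ u ∈ Metric.ball u₀ r, ‖dW L Y u - dW L Y u₀‖ ≤ ε

/-- the neighbourhood of the hyperplanes `b u_0 = a` in a ball -/
def Om {d : ℕ} (b N : ℕ) (u₀ : Fin (d + 1) → ℝ) (r : ℝ) : Set (Fin (d + 1) → ℝ) :=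
  {u | u ∈ Metric.ball u₀ r ∧ ∃ a : ℤ, |(b : ℝ) * u 0 - a| ≤ 1 / (N : ℝ)}

/-- BC: its measure -/
def S_OM : Prop := ∀ (d b N : ℕ) (u₀ : Fin (d + 1) → ℝ) (r : ℝ), 1 ≤ b → 1 ≤ N → 0 < r →
  MeasurableSet (Om b N u₀ r) ∧
    volume (Om b N u₀ r) ≤ ENNReal.ofReal ((2 * r) ^ d * (2 * r + 3) * 2 / N)

/-- BD: the corner lemma, one step -/
def S_STEP : Prop := ∀ (d M : ℕ) (Z Om' : Set (Fin (d + 1) → ℝ)) (x : ℕ → Fin (d + 1) → ℝ)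
  (V σ B : ℝ), 1 ≤ M → MeasurableSet Z → MeasurableSet Om' → 0 < V → 0 ≤ σ → 0 ≤ B →
  volume Om' ≤ ENNReal.ofReal V → (∀ i < M, ∀ u ∈ Z, u - x i ∈ Om') →
  (∃ T : Finset (ℕ × ℕ), (T.card : ℝ) ≤ σ * (M : ℝ) ^ 2 ∧ ∀ i < M, ∀ i' < M, (i, i') ∉ T →
    volume {u | u ∈ Z ∧ u + (x i' - x i) ∈ Z} ≤ ENNReal.ofReal (B * V)) →
  volume Z ≤ ENNReal.ofReal (Real.sqrt (σ + B) * V)

/-- BE: recursion over the word -/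
def S_REC : Prop := ∀ (d b N : ℕ) (u₀ : Fin (d + 1) → ℝ) (r r' H s V : ℝ), 1 ≤ b → 1 ≤ N →
  0 < H → 0 < s → 0 < V → r' + H ≤ r → MeasurableSet (Om b N u₀ r) →
  volume (Om b N u₀ r) ≤ ENNReal.ofReal V →
  ∀ (L : List (Fin (d + 1))),
  (∀ j ∈ L, ∃ (M : ℕ) (h : ℝ), 0 < h ∧ 1 ≤ s * M ∧ H / 2 ≤ M * h ∧ M * h ≤ H ∧
    (j = 0 → ∃ c : ℤ, (b : ℝ) * h = c)) →
  ∀ (g : (Fin (d + 1) → ℝ) → ℝ) (θ : ℝ) (Z : Set (Fin (d + 1) → ℝ)), MeasurableSet Z →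
  Z ⊆ Om b N u₀ r' → (∀ u ∈ Z, ∃ a : ℤ, |g u - a| < θ) →
  (∀ t : List ℝ, t.length = L.length → (∀ x ∈ t, s * H ≤ |x| ∧ |x| ≤ H) → ∀ u ∈ Z,
    2 ^ L.length * θ ≤ |DD (L.zip t) g u| ∧ |DD (L.zip t) g u| ≤ 1 - 2 ^ L.length * θ) →
  volume Z ≤ ENNReal.ofReal (2 * (5 * s) ^ ((1 : ℝ) / 2 ^ L.length) * V)

end Pool.Agent.Helper982_KG.Bad
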