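import Pool.Agent.Helper982_KG.BadDefs

/-!
# Part BAD: assembly (helper661)
-/

set_option autoImplicit false
set_option maxHeartbeats 4000000

open MeasureTheory Set

namespace Pool.Agent.Helper982_KG.Bad

theorem DD_lin {d m : ℕ} (L : List (Fin (d + 1) × ℝ)) : ∀ (Y : (Fin (d + 1) → ℝ) → (Fin m → ℝ))
    (b : ℝ) (w : Fin m → ℝ) (u : Fin (d + 1) → ℝ),
    DD L (fun u => b * ∑ i, w i * Y u i) u = b * ∑ i, w i * DD L Y u i := by
  induction L with
  | nil => intro Y b w u; rfl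
  | cons p L ih =>
    intro Y b w u
    show DD L (fun u => (b * ∑ i, w i * Y (u + p.2 • Pi.single p.1 1) i) - b * ∑ i, w i * Y u i) u =
      b * ∑ i, w i * DD L (fun u => Y (u + p.2 • Pi.single p.1 1) - Y u) u i
    rw [← ih]
    congr 1
    funext v
    rw [← mul_sub, ← Finset.sum_sub_distrib]
    congr 1
    apply Finset.sum_congr rfl
    intro i _
    rw [Pi.sub_apply]
    ring

theorem meas_Z {d : ℕ} (u₀ : Fin (d + 1) → ℝ) (r r' : ℝ) (hr : r' ≤ r) (b N : ℕ) (θ : ℝ)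
    (g : (Fin (d + 1) → ℝ) → ℝ) (hg : ContinuousOn g (Metric.ball u₀ r)) :
    MeasurableSet {u | u ∈ Metric.ball u₀ r' ∧ (∃ a : ℤ, |(b : ℝ) * u 0 - a| ≤ 1 / (N : ℝ)) ∧
      ∃ a : ℤ, |g u - a| < θ} := by
  have h1 : MeasurableSet {u : Fin (d + 1) → ℝ | ∃ a : ℤ, |(b : ℝ) * u 0 - a| ≤ 1 / (N : ℝ)} := by
    rw [ofPred_exists]
    apply MeasurableSet.iUnion
    intro a
    apply IsClosed.measurableSet
    apply isClosed_le
    · fun_prop
    · fun_prop
  have h2 : IsOpen (Metric.ball u₀ r' ∩ g ⁻¹' {x : ℝ | ∃ a : ℤ, |x - a| < θ}) := by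
    apply ContinuousOn.isOpen_inter_preimage (hg.mono (Metric.ball_subset_ball hr)) Metric.isOpen_ball
    rw [ofPred_exists]
    apply isOpen_iUnion
    intro a
    apply isOpen_lt
    · fun_prop
    · fun_prop
  have : {u | u ∈ Metric.ball u₀ r' ∧ (∃ a : ℤ, |(b : ℝ) * u 0 - a| ≤ 1 / (N : ℝ)) ∧
      ∃ a : ℤ, |g u - a| < θ} = (Metric.ball u₀ r' ∩ g ⁻¹' {x : ℝ | ∃ a : ℤ, |x - a| < θ}) ∩
      {u : Fin (d + 1) → ℝ | ∃ a : ℤ, |(b : ℝ) * u 0 - a| ≤ 1 / (N : ℝ)} := by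
    ext u
    simp only [mem_ofPred_eq, mem_inter_iff, mem_preimage]
    tauto
  rw [this]
  exact h2.measurableSet.inter h1

theorem prod_abs_le {t : List ℝ} {H : ℝ} (hH : 0 ≤ H) (h : ∀ x ∈ t, |x| ≤ H) :
    (t.map (fun x => |x|)).prod ≤ H ^ t.length := by
  induction t with
  | nil => simp
  | cons x t ih =>
    simp only [List.map_cons, List.prod_cons, List.length_cons]
    rw [pow_succ, mul_comm (H ^ t.length)]
    apply mul_le_mul (h x (by simp)) (ih (fun y hy => h y (by simp [hy])))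
    · apply List.prod_nonneg
      intro a ha
      obtain ⟨b, _, rfl⟩ := List.mem_map.1 ha
      exact abs_nonneg _
    · exact hH

theorem le_prod_abs {t : List ℝ} {H : ℝ} (hH : 0 ≤ H) (h : ∀ x ∈ t, H ≤ |x|) :
    H ^ t.length ≤ (t.map (fun x => |x|)).prod := by
  induction t with
  | nil => simp
  | cons x t ih =>
    simp only [List.map_cons, List.prod_cons, List.length_cons]
    rw [pow_succ, mul_comm (H ^ t.length)]
    apply mul_le_mul (h x (by simp)) (ih (fun y hy => h y (by simp [hy])))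
    · positivity
    · exact abs_nonneg _

theorem sum_abs_le {t : List ℝ} {H : ℝ} (h : ∀ x ∈ t, |x| ≤ H) :
    (t.map (fun x => |x|)).sum ≤ t.length * H := by
  induction t with
  | nil => simp
  | cons x t ih =>
    simp only [List.map_cons, List.sum_cons, List.length_cons]
    have h1 := h x (by simp)
    have h2 := ih (fun y hy => h y (by simp [hy]))
    push_cast
    nlinarith

theorem abs_prod_list (t : List ℝ) : |t.prod| = (t.map (fun x => |x|)).prod := by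
  induction t with
  | nil => simp
  | cons x t ih => simp [abs_mul, ih]

/-- two-sided bound for the iterated difference -/
theorem dd_bound (itdiff : S_ITDIFF) {d m : ℕ} (L : List (Fin (d + 1))) (Y : (Fin (d + 1) → ℝ) → (Fin m → ℝ))
    (u₀ : Fin (d + 1) → ℝ) (r c₀ A : ℝ) (hc₀ : 0 < c₀) (w : Fin m → ℝ)
    (hY : ContDiffOn ℝ (L.length : ℕ) Y (Metric.ball u₀ r))
    (h1 : c₀ * ‖w‖ ≤ |∑ i, w i * dW L Y u₀ i|) (h2 : |∑ i, w i * dW L Y u₀ i| ≤ A * ‖w‖)
    (h3 : ∀ u ∈ Metric.ball u₀ r, ‖dW L Y u - dW L Y u₀‖ ≤ c₀ / (2 * (m + 1)))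
    (t : List ℝ) (ht : t.length = L.length) (u : Fin (d + 1) → ℝ)
    (hu : ‖u - u₀‖ + (t.map (fun x => |x|)).sum < r) :
    c₀ / 2 * ‖w‖ * (t.map (fun x => |x|)).prod ≤ |∑ i, w i * DD (L.zip t) Y u i| ∧
    |∑ i, w i * DD (L.zip t) Y u i| ≤ (A + c₀) * ‖w‖ * (t.map (fun x => |x|)).prod := by
  have hfst : (L.zip t).map Prod.fst = L := List.map_fst_zip (by omega)
  have hsnd : (L.zip t).map Prod.snd = t := List.map_snd_zip (by omega)
  have hlen : (L.zip t).length = L.length := by simp [ht]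
  have habs : (L.zip t).map (fun p => |p.2|) = t.map (fun x => |x|) := by
    conv_rhs => rw [← hsnd]
    rw [List.map_map]
    rfl
  have key := itdiff d m (L.zip t) Y u₀ r (by rw [hlen]; exact hY) (dW L Y u₀) (c₀ / (2 * (m + 1)))
    (by rw [hfst]; exact h3) u (by rw [habs]; exact hu)
  rw [hsnd, habs] at key
  set P := (t.map (fun x => |x|)).prod with hP
  have hPt : |t.prod| = P := abs_prod_list t
  have hP0 : 0 ≤ P := by rw [← hPt]; exact abs_nonneg _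
  have hdiff : |(∑ i, w i * DD (L.zip t) Y u i) - t.prod * ∑ i, w i * dW L Y u₀ i| ≤
      c₀ / 2 * ‖w‖ * P := by
    have e1 : (∑ i, w i * DD (L.zip t) Y u i) - t.prod * ∑ i, w i * dW L Y u₀ i =
        ∑ i, w i * (DD (L.zip t) Y u - t.prod • dW L Y u₀) i := by
      rw [Finset.mul_sum, ← Finset.sum_sub_distrib]
      apply Finset.sum_congr rfl
      intro i _
      simp only [Pi.sub_apply, Pi.smul_apply, smul_eq_mul]
      ring
    rw [e1]
    calc |∑ i, w i * (DD (L.zip t) Y u - t.prod • dW L Y u₀) i|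
        ≤ ∑ i, |w i * (DD (L.zip t) Y u - t.prod • dW L Y u₀) i| := Finset.abs_sum_le_sum_abs _ _
      _ ≤ ∑ _i : Fin m, ‖w‖ * (c₀ / (2 * (m + 1)) * P) := by
          apply Finset.sum_le_sum
          intro i _
          rw [abs_mul]
          apply mul_le_mul
          · exact norm_le_pi_norm w i
          · exact (norm_le_pi_norm _ i).trans key
          · exact abs_nonneg _
          · exact norm_nonneg _
      _ = (m / (m + 1)) * (c₀ / 2 * ‖w‖ * P) := by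
          rw [Finset.sum_const, Finset.card_univ, Fintype.card_fin, nsmul_eq_mul]
          field_simp
      _ ≤ 1 * (c₀ / 2 * ‖w‖ * P) := by
          apply mul_le_mul_of_nonneg_right
          · rw [div_le_one (by positivity)]; linarith
          · positivity
      _ = _ := one_mul _
  have hprod : |t.prod * ∑ i, w i * dW L Y u₀ i| = P * |∑ i, w i * dW L Y u₀ i| := by
    rw [abs_mul, hPt]
  have hlow : P * (c₀ * ‖w‖) ≤ |t.prod * ∑ i, w i * dW L Y u₀ i| := by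
    rw [hprod]; exact mul_le_mul_of_nonneg_left h1 hP0
  have hup : |t.prod * ∑ i, w i * dW L Y u₀ i| ≤ P * (A * ‖w‖) := by
    rw [hprod]; exact mul_le_mul_of_nonneg_left h2 hP0
  have ht1 := abs_sub_abs_le_abs_sub (∑ i, w i * DD (L.zip t) Y u i) (t.prod * ∑ i, w i * dW L Y u₀ i)
  have ht2 := abs_sub_abs_le_abs_sub (t.prod * ∑ i, w i * dW L Y u₀ i) (∑ i, w i * DD (L.zip t) Y u i)
  rw [abs_sub_comm] at ht2
  have hwn : 0 ≤ ‖w‖ := norm_nonneg _
  have hcwP : 0 ≤ c₀ * ‖w‖ * P := by positivity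
  constructor
  · nlinarith
  · nlinarith

/-- the final exponent inequality -/
theorem exp_ineq (k l : ℕ) (hk : 1 ≤ k) (hkl : k ≤ l) (K₁ θ : ℝ) (hK : 1 ≤ K₁) (hθ : 0 < θ)
    (hθ1 : θ ≤ 1) :
    2 * (5 * (2 * (K₁ * θ) ^ ((1 : ℝ) / k))) ^ ((1 : ℝ) / 2 ^ k) ≤
      20 * K₁ * θ ^ ((1 : ℝ) / ((l + 1) * 2 ^ l)) := by
  have hk0 : (0 : ℝ) < k := by exact_mod_cast hk
  have hk1 : (1 : ℝ) ≤ k := by exact_mod_cast hk
  have hkl' : (k : ℝ) ≤ l := by exact_mod_cast hkl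
  have h1k : (1 : ℝ) / k ≤ 1 := by rw [div_le_one hk0]; exact hk1
  have e1 : (K₁ * θ) ^ ((1 : ℝ) / k) ≤ K₁ * θ ^ ((1 : ℝ) / k) := by
    rw [Real.mul_rpow (by linarith) hθ.le]
    apply mul_le_mul_of_nonneg_right _ (Real.rpow_nonneg hθ.le _)
    calc K₁ ^ ((1 : ℝ) / k) ≤ K₁ ^ (1 : ℝ) := Real.rpow_le_rpow_of_exponent_le hK h1k
      _ = K₁ := Real.rpow_one _
  have h2k : (1 : ℝ) ≤ 2 ^ k := one_le_pow₀ (by norm_num)
  have h12k : (1 : ℝ) / 2 ^ k ≤ 1 := by rw [div_le_one (by positivity)]; exact h2k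
  have h12k0 : (0 : ℝ) ≤ 1 / 2 ^ k := by positivity
  have e2 : (5 * (2 * (K₁ * θ) ^ ((1 : ℝ) / k))) ^ ((1 : ℝ) / 2 ^ k) ≤
      (10 * K₁ * θ ^ ((1 : ℝ) / k)) ^ ((1 : ℝ) / 2 ^ k) := by
    apply Real.rpow_le_rpow
    · have := Real.rpow_nonneg (show 0 ≤ K₁ * θ by positivity) ((1 : ℝ) / k)
      positivity
    · nlinarith
    · exact h12k0
  have e3 : (10 * K₁ * θ ^ ((1 : ℝ) / k)) ^ ((1 : ℝ) / 2 ^ k) =
      (10 * K₁) ^ ((1 : ℝ) / 2 ^ k) * θ ^ ((1 : ℝ) / k * (1 / 2 ^ k)) := by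
    rw [Real.mul_rpow (by positivity) (Real.rpow_nonneg hθ.le _), ← Real.rpow_mul hθ.le]
  have e4 : (10 * K₁) ^ ((1 : ℝ) / 2 ^ k) ≤ 10 * K₁ := by
    calc (10 * K₁) ^ ((1 : ℝ) / 2 ^ k) ≤ (10 * K₁) ^ (1 : ℝ) :=
          Real.rpow_le_rpow_of_exponent_le (by linarith) h12k
      _ = _ := Real.rpow_one _
  have e5 : θ ^ ((1 : ℝ) / k * (1 / 2 ^ k)) ≤ θ ^ ((1 : ℝ) / ((l + 1) * 2 ^ l)) := by
    apply Real.rpow_le_rpow_of_exponent_ge hθ hθ1
    rw [one_div_mul_one_div]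
    apply one_div_le_one_div_of_le
    · positivity
    · apply mul_le_mul
      · linarith
      · exact pow_le_pow_right₀ (by norm_num) hkl
      · positivity
      · positivity
  have hth : 0 ≤ θ ^ ((1 : ℝ) / k * (1 / 2 ^ k)) := Real.rpow_nonneg hθ.le _
  calc 2 * (5 * (2 * (K₁ * θ) ^ ((1 : ℝ) / k))) ^ ((1 : ℝ) / 2 ^ k)
      ≤ 2 * ((10 * K₁) ^ ((1 : ℝ) / 2 ^ k) * θ ^ ((1 : ℝ) / k * (1 / 2 ^ k))) := by
        rw [← e3]; linarith
    _ ≤ 2 * ((10 * K₁) * θ ^ ((1 : ℝ) / ((l + 1) * 2 ^ l))) := by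
        apply mul_le_mul_of_nonneg_left _ (by norm_num)
        apply mul_le_mul e4 e5 hth (by positivity)
    _ = _ := by ring

/-- the measure for one pair `(b, w)` -/
theorem per_bw (itdiff : S_ITDIFF) (om : S_OM) (rec : S_REC) {d m l : ℕ}
    (Y : (Fin (d + 1) → ℝ) → (Fin m → ℝ)) (u₀ : Fin (d + 1) → ℝ) (r c₀ A : ℝ) (hr : 0 < r)
    (hc₀ : 0 < c₀) (hA : 0 < A) (hY : ContDiffOn ℝ l Y (Metric.ball u₀ r))
    (hnd : ∀ w : Fin m → ℝ, w ≠ 0 → ∃ L : List (Fin (d + 1)), 1 ≤ L.length ∧ L.length ≤ l ∧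
      (L.length = 1 → (0 : Fin (d + 1)) ∉ L) ∧
      c₀ * ‖w‖ ≤ |∑ i, w i * dW L Y u₀ i| ∧ |∑ i, w i * dW L Y u₀ i| ≤ A * ‖w‖ ∧
      ∀ u ∈ Metric.ball u₀ r, ‖dW L Y u - dW L Y u₀‖ ≤ c₀ / (2 * (m + 1)))
    (C h₁ : ℝ) (hh₁ : 0 < h₁) (hh₁1 : h₁ ≤ 1) (hh₁r : h₁ * (2 * (l + 1)) ≤ r)
    (hC1 : 2 * (A + c₀) ≤ kap * C) (hC2 : 1 ≤ h₁ ^ l * (2 * (A + c₀) * (kap * C)))
    (N W : ℕ) (θ : ℝ) (hW : 1 ≤ W) (hθ : 0 < θ) (hθ1 : θ ≤ 1) (hN : C * W ≤ N * θ ^ 2)
    (b : ℕ) (hb1 : kap * N ≤ b) (w : Fin m → ℤ) (hw0 : w ≠ 0)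
    (hwW : ∀ i, |w i| ≤ W) :
    volume {u | u ∈ Metric.ball u₀ (r / 2) ∧ (∃ a : ℤ, |(b : ℝ) * u 0 - a| ≤ 1 / (N : ℝ)) ∧
      ∃ a : ℤ, |(b : ℝ) * (∑ i, (w i : ℝ) * Y u i) - a| < θ} ≤
      ENNReal.ofReal (max (20 * (4 * (A + c₀) / c₀)) (2 ^ (l + 1)) *
        θ ^ ((1 : ℝ) / ((l + 1) * 2 ^ l)) * ((2 * r) ^ d * (2 * r + 3) * 2 / N)) := by
  classical
  have hkap : 0 < kap := by unfold kap; norm_num
  have hC₂0 : 0 < A + c₀ := by positivity
  have hWr : (1 : ℝ) ≤ W := by exact_mod_cast hW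
  have hkC : 0 < kap * C := by linarith
  have hC0 : 0 < C := (pos_iff_pos_of_mul_pos hkC).1 hkap
  have hθ2 : θ ^ 2 ≤ 1 := pow_le_one₀ hθ.le hθ1
  have hN0 : C ≤ N := by
    have h1 : C ≤ C * W := by nlinarith
    have h2 : (N : ℝ) * θ ^ 2 ≤ N := by
      have : (0 : ℝ) ≤ N := Nat.cast_nonneg _
      nlinarith
    linarith
  have hNpos : (0 : ℝ) < N := lt_of_lt_of_le hC0 hN0
  have hN1 : 1 ≤ N := by exact_mod_cast hNpos
  have hbpos : (0 : ℝ) < b := lt_of_lt_of_le (mul_pos hkap hNpos) hb1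
  have hb1' : 1 ≤ b := by exact_mod_cast hbpos
  set wr : Fin m → ℝ := fun i => (w i : ℝ) with hwr
  obtain ⟨i₀, hi₀⟩ : ∃ i, w i ≠ 0 := by
    by_contra hcon
    push Not at hcon
    exact hw0 (funext hcon)
  have hwr1 : 1 ≤ ‖wr‖ := by
    have h1 : ‖wr i₀‖ ≤ ‖wr‖ := norm_le_pi_norm wr i₀
    have h2 : (1 : ℝ) ≤ |(w i₀ : ℝ)| := by
      have : (1 : ℤ) ≤ |w i₀| := Int.one_le_abs hi₀
      exact_mod_cast this
    exact h2.trans h1
  have hwr0 : wr ≠ 0 := by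
    intro h0
    rw [h0, norm_zero] at hwr1
    linarith
  have hwrW : ‖wr‖ ≤ W := by
    rw [pi_norm_le_iff_of_nonneg (by linarith)]
    intro i
    have := hwW i
    rw [Real.norm_eq_abs]
    show |(w i : ℝ)| ≤ W
    exact_mod_cast this
  obtain ⟨L, hL1, hLl, hL0, ha1, ha2, ha3⟩ := hnd wr hwr0
  set k := L.length with hk
  have hkr : (1 : ℝ) ≤ k := by exact_mod_cast hL1
  have hk0 : (0 : ℝ) < k := by linarith
  have hkl : (k : ℝ) ≤ l := by exact_mod_cast hLl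
  set g : (Fin (d + 1) → ℝ) → ℝ := fun u => b * ∑ i, wr i * Y u i with hg
  have hgc : ContinuousOn g (Metric.ball u₀ r) := by
    have hYc := hY.continuousOn
    apply ContinuousOn.mul continuousOn_const
    apply continuousOn_finsetSum
    intro i _
    apply ContinuousOn.mul continuousOn_const
    exact (continuous_apply i).comp_continuousOn hYc
  set Z : Set (Fin (d + 1) → ℝ) := {u | u ∈ Metric.ball u₀ (r / 2) ∧
    (∃ a : ℤ, |(b : ℝ) * u 0 - a| ≤ 1 / (N : ℝ)) ∧ ∃ a : ℤ, |g u - a| < θ} with hZ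
  have hZm : MeasurableSet Z := meas_Z u₀ r (r / 2) (by linarith) b N θ g hgc
  obtain ⟨hOm1, hOm2⟩ := om d b N u₀ r hb1' hN1 hr
  set V : ℝ := (2 * r) ^ d * (2 * r + 3) * 2 / N with hV
  have hV0 : 0 < V := by rw [hV]; positivity
  have hZsub : Z ⊆ Om b N u₀ (r / 2) := fun u hu => ⟨hu.1, hu.2.1⟩
  have hθη : θ ≤ θ ^ ((1 : ℝ) / ((l + 1) * 2 ^ l)) := by
    conv_lhs => rw [← Real.rpow_one θ]
    apply Real.rpow_le_rpow_of_exponent_ge hθ hθ1
    rw [div_le_one (by positivity)]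
    have h1 : (1 : ℝ) ≤ 2 ^ l := one_le_pow₀ (by norm_num)
    have h2 : (0 : ℝ) ≤ l := Nat.cast_nonneg _
    nlinarith
  by_cases hbig : 2 ^ k * θ ≤ 1 / 2
  swap
  · push Not at hbig
    have h1 : volume Z ≤ ENNReal.ofReal V := by
      refine (measure_mono (hZsub.trans ?_)).trans hOm2
      intro u hu
      exact ⟨Metric.ball_subset_ball (by linarith) hu.1, hu.2⟩
    refine h1.trans (ENNReal.ofReal_le_ofReal ?_)
    have h2 : (2 : ℝ) ^ (k + 1) ≤ 2 ^ (l + 1) := pow_le_pow_right₀ (by norm_num) (by omega)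
    have h3 : 1 ≤ 2 ^ (l + 1) * θ := by
      have : (2 : ℝ) ^ (k + 1) * θ ≤ 2 ^ (l + 1) * θ := mul_le_mul_of_nonneg_right h2 hθ.le
      rw [pow_succ] at this
      linarith
    have h4 : 1 ≤ max (20 * (4 * (A + c₀) / c₀)) (2 ^ (l + 1)) * θ ^ ((1 : ℝ) / ((l + 1) * 2 ^ l)) := by
      calc (1 : ℝ) ≤ 2 ^ (l + 1) * θ := h3
        _ ≤ max (20 * (4 * (A + c₀) / c₀)) (2 ^ (l + 1)) * θ ^ ((1 : ℝ) / ((l + 1) * 2 ^ l)) := by
          apply mul_le_mul (le_max_right _ _) hθη hθ.le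
          exact le_trans (by positivity) (le_max_right _ _)
    calc V = 1 * V := (one_mul _).symm
      _ ≤ _ := mul_le_mul_of_nonneg_right h4 hV0.le
  set q : ℝ := 2 * (A + c₀) * (b * ‖wr‖) with hqdef
  have hbw : kap * C ≤ b * ‖wr‖ := by
    have h1 : kap * C ≤ kap * N := mul_le_mul_of_nonneg_left hN0 hkap.le
    have h2 : (b : ℝ) ≤ b * ‖wr‖ := by nlinarith
    linarith
  have hq : 1 ≤ h₁ ^ l * q := by
    refine hC2.trans ?_
    apply mul_le_mul_of_nonneg_left _ (by positivity)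
    rw [hqdef]
    apply mul_le_mul_of_nonneg_left hbw (by positivity)
  have hq0 : 0 < q := by rw [hqdef]; positivity
  have hq1 : 1 ≤ q := by
    have : h₁ ^ l ≤ 1 := pow_le_one₀ hh₁.le hh₁1
    nlinarith
  set H : ℝ := (1 / q) ^ ((1 : ℝ) / k) with hH
  have hHk : H ^ k = 1 / q := by
    rw [hH, ← Real.rpow_natCast, ← Real.rpow_mul (by positivity), one_div_mul_cancel hk0.ne',
      Real.rpow_one]
  have hH0 : 0 < H := Real.rpow_pos_of_pos (by positivity) _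
  have hHh : H ≤ h₁ := by
    by_contra hcon
    push Not at hcon
    have h1 : h₁ ^ k < H ^ k := pow_lt_pow_left₀ hcon hh₁.le (by omega)
    have h2 : h₁ ^ l ≤ h₁ ^ k := pow_le_pow_of_le_one hh₁.le hh₁1 hLl
    have h3 : 1 / q ≤ h₁ ^ l := by
      rw [div_le_iff₀ hq0]; exact hq
    rw [hHk] at h1
    linarith
  set K₁ : ℝ := 4 * (A + c₀) / c₀ with hK₁
  have hK₁1 : 1 ≤ K₁ := by
    rw [hK₁, le_div_iff₀ hc₀]; linarith
  set s : ℝ := 2 * (K₁ * θ) ^ ((1 : ℝ) / k) with hs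
  have hKθ : 0 < K₁ * θ := by positivity
  have hsk : s ^ k = 2 ^ k * (K₁ * θ) := by
    rw [hs, mul_pow]
    congr 1
    rw [← Real.rpow_natCast, ← Real.rpow_mul hKθ.le, one_div_mul_cancel hk0.ne', Real.rpow_one]
  have hs0 : 0 < s := by
    have := Real.rpow_pos_of_pos hKθ ((1 : ℝ) / k)
    positivity
  have hsθ : 2 * θ ≤ s := by
    have h1 : θ ^ (1 : ℝ) ≤ θ ^ ((1 : ℝ) / k) := by
      apply Real.rpow_le_rpow_of_exponent_ge hθ hθ1
      rw [div_le_one hk0]; exact hkr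
    have h2 : θ ^ ((1 : ℝ) / k) ≤ (K₁ * θ) ^ ((1 : ℝ) / k) := by
      apply Real.rpow_le_rpow hθ.le _ (by positivity)
      nlinarith
    rw [Real.rpow_one] at h1
    rw [hs]; linarith
  -- the letters
  have hlet : ∀ j ∈ L, ∃ (M : ℕ) (h : ℝ), 0 < h ∧ 1 ≤ s * M ∧ H / 2 ≤ M * h ∧ M * h ≤ H ∧
      (j = 0 → ∃ c : ℤ, (b : ℝ) * h = c) := by
    intro j hj
    by_cases hj0 : j = 0
    · have hk2 : 2 ≤ k := by
        rcases Nat.lt_or_ge k 2 with h | h
        · exfalso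
          have : k = 1 := by omega
          exact hL0 this (hj0 ▸ hj)
        · exact h
      have hkr2 : (2 : ℝ) ≤ k := by exact_mod_cast hk2
      have h1q : 1 / q ≤ 1 := by rw [div_le_one hq0]; exact hq1
      have hHs : Real.sqrt (1 / q) ≤ H := by
        rw [Real.sqrt_eq_rpow, hH]
        apply Real.rpow_le_rpow_of_exponent_ge (by positivity) h1q
        exact one_div_le_one_div_of_le (by norm_num) hkr2
      have hbs : 1 / θ ≤ b * Real.sqrt (1 / q) := by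
        have e1 : (b : ℝ) * Real.sqrt (1 / q) = Real.sqrt (b ^ 2 * (1 / q)) := by
          rw [Real.sqrt_mul (by positivity), Real.sqrt_sq hbpos.le]
        rw [e1]
        apply Real.le_sqrt_of_sq_le
        have e2 : (b : ℝ) ^ 2 * (1 / q) = b / (2 * (A + c₀) * ‖wr‖) := by
          rw [hqdef]
          have : ‖wr‖ ≠ 0 := by positivity
          field_simp
        rw [e2, div_pow, one_pow, div_le_div_iff₀ (by positivity) (by positivity)]
        have h3 : 2 * (A + c₀) * ‖wr‖ ≤ kap * C * W := by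
          apply mul_le_mul hC1 hwrW (norm_nonneg _) hkC.le
        have h4 : kap * (C * W) ≤ kap * (N * θ ^ 2) := mul_le_mul_of_nonneg_left hN hkap.le
        have h5 : kap * N * θ ^ 2 ≤ b * θ ^ 2 := mul_le_mul_of_nonneg_right hb1 (by positivity)
        linarith
      have hbH : 1 / θ ≤ b * H := hbs.trans (mul_le_mul_of_nonneg_left hHs hbpos.le)
      have h1θ : 1 ≤ 1 / θ := by rw [le_div_iff₀ hθ]; linarith
      have hbH1 : 1 ≤ b * H := h1θ.trans hbH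
      refine ⟨⌊(b : ℝ) * H⌋₊, 1 / b, by positivity, ?_, ?_, ?_, fun _ => ⟨1, ?_⟩⟩
      · have hM : (b : ℝ) * H / 2 ≤ ⌊(b : ℝ) * H⌋₊ := by
          have h6 := Nat.lt_floor_add_one ((b : ℝ) * H)
          have h7 : (1 : ℝ) ≤ ⌊(b : ℝ) * H⌋₊ := by
            exact_mod_cast Nat.one_le_floor_iff _ |>.2 hbH1
          linarith
        have h8 : 1 ≤ θ * (b * H) := by
          rw [div_le_iff₀ hθ] at hbH
          linarith
        have h9 : θ * (b * H) ≤ s * (b * H / 2) := by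
          have : 0 ≤ (b : ℝ) * H := by positivity
          nlinarith
        have h10 : s * (b * H / 2) ≤ s * ⌊(b : ℝ) * H⌋₊ := mul_le_mul_of_nonneg_left hM hs0.le
        linarith
      · have hM : (b : ℝ) * H / 2 ≤ ⌊(b : ℝ) * H⌋₊ := by
          have h6 := Nat.lt_floor_add_one ((b : ℝ) * H)
          have h7 : (1 : ℝ) ≤ ⌊(b : ℝ) * H⌋₊ := by
            exact_mod_cast Nat.one_le_floor_iff _ |>.2 hbH1
          linarith
        rw [mul_one_div, le_div_iff₀ hbpos]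
        linarith
      · rw [mul_one_div, div_le_iff₀ hbpos]
        have := Nat.floor_le (show 0 ≤ (b : ℝ) * H by positivity)
        linarith
      · rw [mul_one_div_cancel hbpos.ne']; norm_num
    · have hM1 : 0 < ⌈1 / s⌉₊ := Nat.ceil_pos.2 (by positivity)
      have hM1r : (0 : ℝ) < ⌈1 / s⌉₊ := by exact_mod_cast hM1
      have hMh : (⌈1 / s⌉₊ : ℝ) * (H / ⌈1 / s⌉₊) = H := by field_simp
      refine ⟨⌈1 / s⌉₊, H / ⌈1 / s⌉₊, by positivity, ?_, ?_, ?_, fun h => absurd h hj0⟩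
      · have := Nat.le_ceil (1 / s)
        rw [div_le_iff₀ hs0] at this
        linarith
      · rw [hMh]; linarith
      · rw [hMh]
  have hlh : (k : ℝ) * H < r / 2 := by
    have h1 : (k : ℝ) * H ≤ l * h₁ := mul_le_mul hkl hHh hH0.le (by positivity)
    nlinarith
  have hDD : ∀ t : List ℝ, t.length = L.length → (∀ x ∈ t, s * H ≤ |x| ∧ |x| ≤ H) → ∀ u ∈ Z,
      2 ^ L.length * θ ≤ |DD (L.zip t) g u| ∧ |DD (L.zip t) g u| ≤ 1 - 2 ^ L.length * θ := by
    intro t ht htb u hu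
    have hu1 : ‖u - u₀‖ < r / 2 := by
      have := hu.1
      rwa [Metric.mem_ball, dist_eq_norm] at this
    have hsum := sum_abs_le (fun x hx => (htb x hx).2)
    rw [ht] at hsum
    obtain ⟨lo, up⟩ := dd_bound itdiff L Y u₀ r c₀ A hc₀ wr
      (hY.of_le (by exact_mod_cast hLl)) ha1 ha2 ha3 t ht u (by
        have : (L.length : ℝ) * H < r / 2 := hlh
        linarith)
    have hP1 := prod_abs_le hH0.le (fun x hx => (htb x hx).2)
    have hP2 := le_prod_abs (show 0 ≤ s * H by positivity) (fun x hx => (htb x hx).1)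
    rw [ht] at hP1 hP2
    change H ^ L.length = _ at hHk
    rw [hHk] at hP1
    rw [mul_pow, hHk] at hP2
    change s ^ L.length = _ at hsk
    rw [hsk] at hP2
    set P := (t.map (fun x => |x|)).prod with hP
    have hg2 : DD (L.zip t) g u = b * ∑ i, wr i * DD (L.zip t) Y u i := DD_lin _ Y b wr u
    rw [hg2, abs_mul, Nat.abs_cast]
    have hwr0' : 0 < ‖wr‖ := by linarith
    constructor
    · have h1 : (b : ℝ) * (c₀ / 2 * ‖wr‖ * (2 ^ L.length * (K₁ * θ) * (1 / q))) = 2 ^ L.length * θ := by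
        rw [hqdef, hK₁]
        field_simp
        ring
      calc 2 ^ L.length * θ = (b : ℝ) * (c₀ / 2 * ‖wr‖ * (2 ^ L.length * (K₁ * θ) * (1 / q))) := h1.symm
        _ ≤ b * (c₀ / 2 * ‖wr‖ * P) := by
          apply mul_le_mul_of_nonneg_left _ hbpos.le
          exact mul_le_mul_of_nonneg_left hP2 (by positivity)
        _ ≤ _ := mul_le_mul_of_nonneg_left lo hbpos.le
    · have h1 : (b : ℝ) * ((A + c₀) * ‖wr‖ * (1 / q)) = 1 / 2 := by
        rw [hqdef]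
        field_simp
      calc (b : ℝ) * |∑ i, wr i * DD (L.zip t) Y u i| ≤ b * ((A + c₀) * ‖wr‖ * P) :=
            mul_le_mul_of_nonneg_left up hbpos.le
        _ ≤ b * ((A + c₀) * ‖wr‖ * (1 / q)) := by
          apply mul_le_mul_of_nonneg_left _ hbpos.le
          exact mul_le_mul_of_nonneg_left hP1 (by positivity)
        _ = 1 / 2 := h1
        _ ≤ _ := by
          have : (2 : ℝ) ^ L.length * θ ≤ 1 / 2 := hbig
          linarith
  have hr'H : r / 2 + H ≤ r := by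
    have h1 : H * (2 * (l + 1)) ≤ r := (mul_le_mul_of_nonneg_right hHh (by positivity)).trans hh₁r
    have h2 : (0 : ℝ) ≤ l := Nat.cast_nonneg _
    nlinarith
  have key := rec d b N u₀ r (r / 2) H s V hb1' hN1 hH0 hs0 hV0 hr'H hOm1 hOm2 L hlet g θ Z hZm hZsub
    (fun u hu => hu.2.2) hDD
  refine key.trans (ENNReal.ofReal_le_ofReal ?_)
  apply mul_le_mul_of_nonneg_right _ hV0.le
  have h1 := exp_ineq k l hL1 hLl K₁ θ hK₁1 hθ hθ1
  refine h1.trans ?_
  apply mul_le_mul_of_nonneg_right (le_max_left _ _) (Real.rpow_nonneg hθ.le _)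

end Pool.Agent.Helper982_KG.Bad
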