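import Pool.Agent.Helper982_KG.Stmts2

/-!
# Part CASE2B: from the number of codes to the measure of two events
-/

open MeasureTheory Set Finset

namespace Pool.Agent.Helper982_KG.CASE2B

theorem kap_pos : 0 < kap := by unfold kap; norm_num

/-- the coarse bases -/
noncomputable def CS (N : ℕ) (s l : ℝ) : Finset (ℤ × ℤ) :=
  (Finset.Icc (1 : ℤ) N).biUnion (fun b =>
    (Finset.Icc ⌈(b : ℝ) * s - 1 / N⌉ ⌊(b : ℝ) * (s + l) + 1 / N⌋).image (fun a => (b, a)))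

theorem mem_CS {N : ℕ} {s l x : ℝ} {c : ℤ × ℤ} (hN : 1 ≤ N) (hx : x ∈ Icc s (s + l))
    (h1 : 1 ≤ c.1) (h2 : c.1 ≤ N) (h3 : |(c.1 : ℝ) * x - c.2| ≤ 1 / N) : c ∈ CS N s l := by
  unfold CS
  rw [Finset.mem_biUnion]
  refine ⟨c.1, Finset.mem_Icc.2 ⟨h1, h2⟩, ?_⟩
  rw [Finset.mem_image]
  refine ⟨c.2, ?_, rfl⟩
  rw [Finset.mem_Icc, Int.ceil_le, Int.le_floor]
  have hc : (0 : ℝ) ≤ c.1 := by exact_mod_cast (by omega : (0 : ℤ) ≤ c.1)
  have h4 := abs_le.1 h3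
  have h5 : (c.1 : ℝ) * s ≤ c.1 * x := by gcongr; exact hx.1
  have h6 : (c.1 : ℝ) * x ≤ c.1 * (s + l) := by gcongr; exact hx.2
  constructor <;> linarith [h4.1, h4.2]

theorem card_CS {N : ℕ} {s l : ℝ} (hN : 1 ≤ N) (hl : 0 < l) (hNl : 1 ≤ N * l) :
    ((CS N s l).card : ℝ) ≤ 4 * (N : ℝ) ^ 2 * l := by
  have hNR : (1 : ℝ) ≤ N := by exact_mod_cast hN
  have h1 : ((CS N s l).card : ℝ) ≤ ∑ b ∈ Finset.Icc (1 : ℤ) N, (((Finset.Icc ⌈(b : ℝ) * s - 1 / N⌉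
      ⌊(b : ℝ) * (s + l) + 1 / N⌋).card : ℕ) : ℝ) := by
    rw [← Nat.cast_sum]
    have := Finset.card_biUnion_le (s := Finset.Icc (1 : ℤ) N) (t := fun b =>
      (Finset.Icc ⌈(b : ℝ) * s - 1 / N⌉ ⌊(b : ℝ) * (s + l) + 1 / N⌋).image
        (fun a => ((b, a) : ℤ × ℤ)))
    refine Nat.cast_le.2 (this.trans (Finset.sum_le_sum fun b _ => Finset.card_image_le))
  have h2 : ∀ b ∈ Finset.Icc (1 : ℤ) N, (((Finset.Icc ⌈(b : ℝ) * s - 1 / N⌉
      ⌊(b : ℝ) * (s + l) + 1 / N⌋).card : ℕ) : ℝ) ≤ 4 * N * l := by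
    intro b hb
    have hb1 := (Finset.mem_Icc.1 hb).1
    have hb2 := (Finset.mem_Icc.1 hb).2
    have hbR : (b : ℝ) ≤ N := by exact_mod_cast hb2
    have h3 : (1 : ℝ) / N ≤ 1 := by
      rw [div_le_one (by linarith)]; exact hNR
    rw [Int.card_Icc]
    have h4 : (((⌊(b : ℝ) * (s + l) + 1 / N⌋ + 1 - ⌈(b : ℝ) * s - 1 / N⌉).toNat : ℕ) : ℝ) ≤
        max (((⌊(b : ℝ) * (s + l) + 1 / N⌋ + 1 - ⌈(b : ℝ) * s - 1 / N⌉ : ℤ)) : ℝ) 0 := by
      rcases le_total 0 (⌊(b : ℝ) * (s + l) + 1 / N⌋ + 1 - ⌈(b : ℝ) * s - 1 / N⌉) with h | h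
      · have h5 : (((⌊(b : ℝ) * (s + l) + 1 / N⌋ + 1 - ⌈(b : ℝ) * s - 1 / N⌉).toNat : ℤ)) =
            (⌊(b : ℝ) * (s + l) + 1 / N⌋ + 1 - ⌈(b : ℝ) * s - 1 / N⌉) := Int.toNat_of_nonneg h
        refine le_max_of_le_left (le_of_eq ?_)
        exact_mod_cast congrArg (Int.cast : ℤ → ℝ) h5
      · rw [Int.toNat_of_nonpos h]
        simp
    refine h4.trans (max_le ?_ (by positivity))
    push_cast
    have h6 := Int.floor_le ((b : ℝ) * (s + l) + 1 / N)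
    have h7 := Int.le_ceil ((b : ℝ) * s - 1 / N)
    have h8 : (b : ℝ) * l ≤ N * l := by gcongr
    nlinarith
  refine h1.trans ((Finset.sum_le_sum h2).trans (le_of_eq ?_))
  rw [Finset.sum_const, Int.card_Icc, nsmul_eq_mul]
  have h9 : (((N : ℤ) + 1 - 1).toNat : ℝ) = N := by simp
  rw [h9]
  ring

theorem scale {a₁ k : ℕ} (ha : 64 ≤ a₁) :
    N0 a₁ k * 2 ^ tE k = N1 a₁ k ∧ N0 a₁ k * 2 ^ tE k * 2 ^ sE a₁ k = 2 ^ k ∧
      2 ^ (k / 2) ≤ N0 a₁ k := by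
  have h1 : k / a₁ ≤ k / 64 := Nat.div_le_div_left ha (by norm_num)
  unfold N0 N1 tE sE
  refine ⟨?_, ?_, ?_⟩
  · rw [← pow_add]; congr 1; omega
  · rw [← pow_add, ← pow_add]; congr 1; omega
  · exact Nat.pow_le_pow_right (by norm_num) (by omega)

theorem nat_ofReal (n : ℕ) (x : ℝ) :
    (n : ENNReal) * ENNReal.ofReal x = ENNReal.ofReal ((n : ℝ) * x) := by
  rw [ENNReal.ofReal_mul (Nat.cast_nonneg n), ENNReal.ofReal_natCast]

/-- packing: the measure of a set which is covered by `n` intervals -/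
theorem vol_cover {n : ℕ} {T : Set ℝ} {c : Fin n → ℝ} {w : ℝ}
    (h : T ⊆ ⋃ i, Icc (c i) (c i + w)) : volume T ≤ ENNReal.ofReal (n * w) := by
  refine (measure_mono h).trans ((measure_iUnion_le _).trans (le_of_eq ?_))
  rw [tsum_fintype]
  simp only [Real.volume_Icc, add_sub_cancel_left]
  rw [Finset.sum_const, Finset.card_univ, Fintype.card_fin, nsmul_eq_mul,
    ENNReal.ofReal_mul (Nat.cast_nonneg n), ENNReal.ofReal_natCast]

theorem arith {l N2 X X' δ δ' CC n : ℝ} (hl : 0 < l) (hX : 0 < X) (hX' : 0 < X') (hδ : 0 < δ)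
    (hδ' : 0 < δ') (hCC : 0 < CC) (hn : 0 ≤ n) {S2 T2 : ℝ} (hN : N2 * S2 * T2 = X' ^ 2) :
    4 * N2 * l * ((CC * (X * δ' + X' * δ) * (X / X') * S2 * T2) * (n * (4 * min (δ / X) (δ' / X')))) ≤
      32 * (n + 1) * CC * l * (X * δ) * (X' * δ') := by
  have h1 : (X * δ' + X' * δ) * min (δ / X) (δ' / X') ≤ 2 * (δ * δ') := by
    rcases le_total (δ / X) (δ' / X') with h | h
    · rw [min_eq_left h]
      have h2 : X' * δ ≤ X * δ' := by
        rw [div_le_div_iff₀ hX hX'] at h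
        linarith
      calc (X * δ' + X' * δ) * (δ / X) ≤ (X * δ' + X * δ') * (δ / X) := by gcongr
        _ = _ := by field_simp; ring
    · rw [min_eq_right h]
      have h2 : X * δ' ≤ X' * δ := by
        rw [div_le_div_iff₀ hX' hX] at h
        linarith
      calc (X * δ' + X' * δ) * (δ' / X') ≤ (X' * δ + X' * δ) * (δ' / X') := by gcongr
        _ = _ := by field_simp; ring
  have h3 : 0 ≤ (X * δ' + X' * δ) * min (δ / X) (δ' / X') := by positivity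
  calc _ = 16 * n * CC * l * (N2 * S2 * T2) * (X / X') *
        ((X * δ' + X' * δ) * min (δ / X) (δ' / X')) := by ring
    _ = 16 * n * CC * l * (X' * X) * ((X * δ' + X' * δ) * min (δ / X) (δ' / X')) := by
        rw [hN]; field_simp
    _ ≤ 16 * n * CC * l * (X' * X) * (2 * (δ * δ')) := by gcongr
    _ = 32 * n * CC * l * (X * δ) * (X' * δ') := by ring
    _ ≤ _ := by
        have : 32 * n * CC ≤ 32 * (n + 1) * CC := by nlinarith
        gcongr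

theorem case2b (hcode : S_CODE) (hbases : S_BASES) (hpack : S_PACK) : S_CASE2 := by
  classical
  obtain ⟨C₀, C₂, comp, hC₀, hC₂, hbases⟩ := hbases
  intro m a₁ a₃ a₄ L hpar hL
  have ha₁ : 64 ≤ a₁ := hpar.1
  have ha₃ : 2 ≤ a₃ := by
    obtain ⟨h1, h2, h3⟩ := hpar
    nlinarith
  obtain ⟨CC, hCC, kc, hcode⟩ := hcode C₀ C₂ comp m a₁ a₃ a₄ L hC₀ hC₂ hpar hL
  have hkap := kap_pos
  obtain ⟨n, kp, hpack⟩ := hpack m a₃ L (2 / kap) ha₃ hL (by positivity)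
  refine ⟨32 * (n + 1) * CC, by positivity, ?_⟩
  intro l hl hl1
  obtain ⟨j, hj⟩ := pow_unbounded_of_one_lt (1 / l) (one_lt_two : (1 : ℝ) < 2)
  refine ⟨max (max kc kp) (2 * j), ?_⟩
  intro s y hy k k' hk hkk mm mm' hmm hmm' hne δ δ' hδ hδ' hcase
  have hkc : kc ≤ k := (le_max_left _ _).trans ((le_max_left _ _).trans hk)
  have hkp : kp ≤ k := (le_max_right _ _).trans ((le_max_left _ _).trans hk)
  have hkj : 2 * j ≤ k := (le_max_right _ _).trans hk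
  have hδ0 : 0 < δ := lt_of_lt_of_le (by positivity) hδ.1
  have hδ0' : 0 < δ' := lt_of_lt_of_le (by positivity) hδ'.1
  obtain ⟨hs1, hs2, hs3⟩ := scale (k := k') ha₁
  have hN1 : 1 ≤ N0 a₁ k' := Nat.one_le_two_pow
  have hNl : 1 ≤ (N0 a₁ k' : ℝ) * l := by
    have h1 : (2 : ℝ) ^ j ≤ N0 a₁ k' := by
      have h2 : 2 ^ j ≤ N0 a₁ k' := (Nat.pow_le_pow_right (by norm_num) (by omega)).trans hs3
      exact_mod_cast h2
    have h3 : 1 / l ≤ N0 a₁ k' := hj.le.trans h1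
    rwa [div_le_iff₀ hl] at h3
  -- the pieces
  set T : ℤ × ℤ → M4 × M4 → Set ℝ := fun c p =>
    {x | x ∈ Icc s (s + l) ∧ Two a₁ k k' mm mm' δ δ' y x ∧
      BaseData C₀ C₂ comp (N0 a₁ k') (tE k') (sE a₁ k') x c p.1 p.2} with hT
  set PS : ℤ × ℤ → Finset (M4 × M4) := fun c =>
    ((GG C₀ (C₂ * 2 ^ sE a₁ k')) ×ˢ (GG C₀ (C₂ * 2 ^ tE k'))).filter
      (fun p => (T c p).Nonempty) with hPS
  have hcov : {x | x ∈ Icc s (s + l) ∧ Two a₁ k k' mm mm' δ δ' y x} ⊆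
      ⋃ c ∈ CS (N0 a₁ k') s l, ⋃ p ∈ PS c, T c p := by
    rintro x ⟨hx, htwo⟩
    obtain ⟨g1, g2, g3, -⟩ := htwo.2.2.1
    rw [← hs1] at g2
    rw [← hs2] at g1
    obtain ⟨c, A, B, hb⟩ := hbases (N0 a₁ k') (tE k') (sE a₁ k') x hN1 g3 g2 g1
    have hxT : x ∈ T c (A, B) := ⟨hx, htwo, hb⟩
    refine mem_iUnion₂.2 ⟨c, ?_, mem_iUnion₂.2 ⟨(A, B), ?_, hxT⟩⟩
    · exact mem_CS hN1 hx hb.2.2.1 hb.2.2.2.2.1 hb.2.2.2.2.2.1
    · rw [hPS]
      exact Finset.mem_filter.2 ⟨Finset.mem_product.2 ⟨hb.1, hb.2.1⟩, ⟨x, hxT⟩⟩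
  -- one piece
  have hone : ∀ c p, volume (T c p) ≤
      ENNReal.ofReal (n * (4 * min (δ / 2 ^ k) (δ' / 2 ^ k'))) := by
    intro c p
    -- the interval
    have hint : ∃ α : ℝ, ∀ x ∈ T c p, α ≤ x ∧ x ≤ α + 2 / kap / 4 ^ k' := by
      have hX' : ((N0 a₁ k' : ℝ) * 2 ^ tE k' * 2 ^ sE a₁ k') = 2 ^ k' := by exact_mod_cast hs2
      by_cases hT0 : (T c p).Nonempty
      swap
      · exact ⟨0, fun x hx => absurd ⟨x, hx⟩ hT0⟩
      obtain ⟨x0, hx0⟩ := hT0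
      have hb0 := hx0.2.2.2.2.2.2.2.2.2.2.2.1
      rw [hX'] at hb0
      set b2 := (iact p.1 (iact p.2 (c.1, (comp c).1))).1
      set a2 := (iact p.1 (iact p.2 (c.2, (comp c).2))).1
      have hbp : 0 < kap * 2 ^ k' := by positivity
      have hb2 : (0 : ℝ) < b2 := lt_of_lt_of_le hbp hb0
      refine ⟨a2 / b2 - 1 / (b2 * 2 ^ k'), ?_⟩
      intro x hx
      have h3 := hx.2.2.2.2.2.2.2.2.2.2.2.2.2.2.2.1
      rw [hX'] at h3
      have h4 := abs_le.1 h3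
      have h5 : x = (b2 * x - a2) / b2 + a2 / b2 := by field_simp; ring
      have h6 : (b2 * x - a2) / b2 ≤ 1 / (b2 * 2 ^ k') := by
        calc (b2 * x - a2) / b2 ≤ (1 / 2 ^ k') / b2 := by gcongr; exact h4.2
          _ = _ := by field_simp
      have h7 : -(1 / ((b2 : ℝ) * 2 ^ k')) ≤ (b2 * x - a2) / b2 := by
        calc -(1 / ((b2 : ℝ) * 2 ^ k')) = -(1 / 2 ^ k') / b2 := by field_simp
          _ ≤ _ := by gcongr; exact h4.1
      have h8 : 2 / (b2 * 2 ^ k') ≤ 2 / kap / 4 ^ k' := by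
        have h9 : (4 : ℝ) ^ k' = 2 ^ k' * 2 ^ k' := by rw [← mul_pow]; norm_num
        rw [h9, div_div]
        apply div_le_div_of_nonneg_left (by norm_num) (by positivity)
        calc kap * (2 ^ k' * 2 ^ k') = kap * 2 ^ k' * 2 ^ k' := by ring
          _ ≤ _ := by gcongr
      have h10 : 2 / ((b2 : ℝ) * 2 ^ k') = 1 / (b2 * 2 ^ k') + 1 / (b2 * 2 ^ k') := by ring
      constructor
      · linarith
      · linarith
    obtain ⟨α, hα⟩ := hint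
    have hlen : 2 / kap / (4 : ℝ) ^ k' ≤ 2 / kap / 4 ^ k := by
      gcongr
      norm_num
    rcases le_total (δ / 2 ^ k) (δ' / 2 ^ k') with h | h
    · rw [min_eq_left h]
      obtain ⟨cc, hcc⟩ := hpack s l y hy k hkp mm hmm δ hδ0 hδ.2 α
      have h1 : T c p ⊆ ⋃ i, Icc (cc i) (cc i + 4 * δ / 2 ^ k) := by
        refine Subset.trans ?_ hcc
        intro x hx
        have h2 := hα x hx
        obtain ⟨hx1, htwo, -⟩ := hx
        exact ⟨hx1, h2.1, h2.2.trans (by linarith), htwo.1.1, htwo.2.1⟩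
      have h2 := vol_cover h1
      rwa [mul_div_assoc] at h2
    · rw [min_eq_right h]
      obtain ⟨cc, hcc⟩ := hpack s l y hy k' (hkp.trans hkk) mm' hmm' δ' hδ0' hδ'.2 α
      have h1 : T c p ⊆ ⋃ i, Icc (cc i) (cc i + 4 * δ' / 2 ^ k') := by
        refine Subset.trans ?_ hcc
        intro x hx
        have h2 := hα x hx
        obtain ⟨hx1, htwo, -⟩ := hx
        exact ⟨hx1, h2.1, h2.2, htwo.2.2.1.1, htwo.2.2.2⟩
      have h2 := vol_cover h1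
      rwa [mul_div_assoc] at h2
  -- the number of codes
  have hcard : ∀ c, ((PS c).card : ℝ) ≤ CC * (2 ^ k * δ' + 2 ^ k' * δ) * (2 ^ k / 2 ^ k') *
      (2 ^ sE a₁ k') ^ 2 * (2 ^ tE k') ^ 2 := by
    intro c
    apply hcode s l y hy k k' hkc hkk mm mm' hmm hmm' hne δ δ' hδ hδ' hcase c (PS c)
    intro p hp
    obtain ⟨x, hx1, hx2, hx3⟩ := (Finset.mem_filter.1 hp).2
    exact ⟨x, hx1, hx2, hx3⟩
  set Mx : ℝ := n * (4 * min (δ / 2 ^ k) (δ' / 2 ^ k')) with hMx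
  set Bd : ℝ := CC * (2 ^ k * δ' + 2 ^ k' * δ) * (2 ^ k / 2 ^ k') *
      (2 ^ sE a₁ k') ^ 2 * (2 ^ tE k') ^ 2 with hBd
  have hBd0 : 0 ≤ Bd := by positivity
  have hMx0 : 0 ≤ Mx := by positivity
  calc volume {x | x ∈ Icc s (s + l) ∧ Two a₁ k k' mm mm' δ δ' y x}
      ≤ volume (⋃ c ∈ CS (N0 a₁ k') s l, ⋃ p ∈ PS c, T c p) := measure_mono hcov
    _ ≤ ∑ c ∈ CS (N0 a₁ k') s l, volume (⋃ p ∈ PS c, T c p) := measure_biUnion_finset_le _ _
    _ ≤ ∑ c ∈ CS (N0 a₁ k') s l, ENNReal.ofReal (Bd * Mx) := by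
        apply Finset.sum_le_sum
        intro c _
        calc volume (⋃ p ∈ PS c, T c p) ≤ ∑ p ∈ PS c, volume (T c p) :=
              measure_biUnion_finset_le _ _
          _ ≤ ∑ p ∈ PS c, ENNReal.ofReal Mx := Finset.sum_le_sum fun p _ => hone c p
          _ = ENNReal.ofReal (((PS c).card : ℝ) * Mx) := by
              rw [Finset.sum_const, nsmul_eq_mul, nat_ofReal]
          _ ≤ ENNReal.ofReal (Bd * Mx) := by
              apply ENNReal.ofReal_le_ofReal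
              gcongr
              exact hcard c
    _ = ENNReal.ofReal (((CS (N0 a₁ k') s l).card : ℝ) * (Bd * Mx)) := by
        rw [Finset.sum_const, nsmul_eq_mul, nat_ofReal]
    _ ≤ ENNReal.ofReal (32 * (n + 1) * CC * l * (2 ^ k * δ) * (2 ^ k' * δ')) := by
        apply ENNReal.ofReal_le_ofReal
        calc ((CS (N0 a₁ k') s l).card : ℝ) * (Bd * Mx)
            ≤ 4 * (N0 a₁ k' : ℝ) ^ 2 * l * (Bd * Mx) := by
              gcongr
              exact card_CS hN1 hl hNl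
          _ ≤ _ := by
              apply arith hl (by positivity) (by positivity) hδ0 hδ0' hCC (Nat.cast_nonneg _)
              have hX' : ((N0 a₁ k' : ℝ) * 2 ^ tE k' * 2 ^ sE a₁ k') = 2 ^ k' := by
                exact_mod_cast hs2
              rw [← hX']
              ring

end Pool.Agent.Helper982_KG.CASE2B
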