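import Mathlib
import Pool.Agent.Helper982_KG.Stmts

/-!
# Normal form: the main theorem from the local theorem
-/

open MeasureTheory Set Topology

namespace Pool.Agent.Helper982_KG.Norm

/-! ### the increasing case -/

lemma mono_case (n : ℕ) (hn : 1 ≤ n) (y : Fin n → ℝ) (ψ : ℝ → ℝ) (hpos : ∀ x, 0 < x → 0 < ψ x)
    (hψ : MonotoneOn ψ (Ioi 0)) :
    {z : ℤ × (Fin n → ℤ) | |(z.1 : ℝ) + ∑ i, (z.2 i : ℝ) * y i| < ψ (PiPlus z.2)}.Infinite := by
  set i₀ : Fin n := ⟨0, hn⟩ with hi₀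
  intro hfin
  obtain ⟨B, hB⟩ := (hfin.image (fun z => z.2 i₀)).bddAbove
  obtain ⟨T, hT1, hTB⟩ : ∃ T : ℕ, 1 ≤ T ∧ B < T := ⟨B.toNat + 1, by omega, by omega⟩
  have hε := hpos 1 one_pos
  obtain ⟨K, hK⟩ := exists_nat_gt ((T : ℝ) / ψ 1)
  have hT0 : (0 : ℝ) < T := by exact_mod_cast hT1
  have hKpos : 0 < K := by
    have : (0 : ℝ) < K := lt_trans (div_pos hT0 hε) hK
    exact_mod_cast this
  obtain ⟨j, k, hk0, hkK, hjk⟩ := Real.exists_int_int_abs_mul_sub_le (y i₀) hKpos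
  have hTk : (T : ℤ) ≤ T * k := by
    have : (0 : ℤ) ≤ T := by positivity
    nlinarith
  have hTk1 : (1 : ℤ) ≤ T * k := by
    have : (1 : ℤ) ≤ T := by exact_mod_cast hT1
    linarith
  have hPi : PiPlus (Pi.single i₀ ((T : ℤ) * k)) = (T : ℝ) * k := by
    unfold PiPlus
    rw [Finset.prod_eq_single i₀]
    · rw [Pi.single_eq_same, if_neg (by omega), abs_of_nonneg]
      · push_cast; ring
      · exact_mod_cast (by omega : (0 : ℤ) ≤ T * k)
    · intro i _ hi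
      rw [Pi.single_eq_of_ne hi, if_pos rfl]
    · intro h; exact absurd (Finset.mem_univ _) h
  have hsum : ∑ i, ((Pi.single i₀ ((T : ℤ) * k) : Fin n → ℤ) i : ℝ) * y i = (T : ℝ) * k * y i₀ := by
    rw [Finset.sum_eq_single i₀]
    · rw [Pi.single_eq_same]; push_cast; ring
    · intro i _ hi
      rw [Pi.single_eq_of_ne hi]; simp
    · intro h; exact absurd (Finset.mem_univ _) h
  have hmem : ((-((T : ℤ) * j), Pi.single i₀ ((T : ℤ) * k)) : ℤ × (Fin n → ℤ)) ∈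
      {z : ℤ × (Fin n → ℤ) | |(z.1 : ℝ) + ∑ i, (z.2 i : ℝ) * y i| < ψ (PiPlus z.2)} := by
    simp only [mem_ofPred_eq]
    rw [hsum, hPi]
    have h1 : ((-((T : ℤ) * j) : ℤ) : ℝ) + (T : ℝ) * k * y i₀ = T * ((k : ℝ) * y i₀ - j) := by
      push_cast; ring
    rw [h1, abs_mul, abs_of_pos hT0]
    have h2 : ψ 1 ≤ ψ ((T : ℝ) * k) := by
      have h3 : (1 : ℝ) ≤ (T : ℝ) * k := by exact_mod_cast hTk1
      exact hψ (by simp) (lt_of_lt_of_le one_pos h3) h3
    refine lt_of_lt_of_le ?_ h2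
    have h4 : (T : ℝ) * |(k : ℝ) * y i₀ - j| ≤ T * (1 / (K + 1)) :=
      mul_le_mul_of_nonneg_left hjk hT0.le
    refine lt_of_le_of_lt h4 ?_
    have hK' : (0 : ℝ) < K := by exact_mod_cast hKpos
    rw [mul_one_div, div_lt_iff₀ (by positivity)]
    rw [div_lt_iff₀ hε] at hK
    nlinarith
  have h5 := hB ⟨_, hmem, rfl⟩
  simp only [Pi.single_eq_same] at h5
  omega

/-! ### consequences of the span condition -/

lemma one_le_of_span {d n l : ℕ} (hn : 1 ≤ n) {f : (Fin d → ℝ) → (Fin n → ℝ)} {x₀ : Fin d → ℝ}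
    (h : Submodule.span ℝ {v : Fin n → ℝ | ∃ k : ℕ, 1 ≤ k ∧ k ≤ l ∧ ∃ w : Fin k → Fin d,
      v = iteratedFDeriv ℝ k f x₀ (fun j => Pi.single (w j) 1)} = ⊤) : 1 ≤ l := by
  by_contra hl
  have h1 : {v : Fin n → ℝ | ∃ k : ℕ, 1 ≤ k ∧ k ≤ l ∧ ∃ w : Fin k → Fin d,
      v = iteratedFDeriv ℝ k f x₀ (fun j => Pi.single (w j) 1)} = ∅ := by
    ext v
    simp only [mem_ofPred_eq, mem_empty_iff_false, iff_false]
    rintro ⟨k, h1, h2, _⟩
    omega
  rw [h1, Submodule.span_empty] at h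
  have h2 : (Pi.single ⟨0, hn⟩ 1 : Fin n → ℝ) ∈ (⊥ : Submodule ℝ (Fin n → ℝ)) := by
    rw [h]; trivial
  rw [Submodule.mem_bot] at h2
  have := congrFun h2 ⟨0, hn⟩
  simp at this

lemma exists_ne_of_span {d n l : ℕ} (hn : 1 ≤ n) {f : (Fin d → ℝ) → (Fin n → ℝ)} {x₀ : Fin d → ℝ}
    (h : Submodule.span ℝ {v : Fin n → ℝ | ∃ k : ℕ, 1 ≤ k ∧ k ≤ l ∧ ∃ w : Fin k → Fin d,
      v = iteratedFDeriv ℝ k f x₀ (fun j => Pi.single (w j) 1)} = ⊤) :
    ∃ k : ℕ, 1 ≤ k ∧ k ≤ l ∧ iteratedFDeriv ℝ k f x₀ ≠ 0 := by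
  by_contra hcon
  push Not at hcon
  have h1 : Submodule.span ℝ {v : Fin n → ℝ | ∃ k : ℕ, 1 ≤ k ∧ k ≤ l ∧ ∃ w : Fin k → Fin d,
      v = iteratedFDeriv ℝ k f x₀ (fun j => Pi.single (w j) 1)} ≤ ⊥ := by
    rw [Submodule.span_le]
    rintro v ⟨k, h1, h2, w, rfl⟩
    rw [hcon k h1 h2]
    simp
  rw [h] at h1
  have h2 : (Pi.single ⟨0, hn⟩ 1 : Fin n → ℝ) ∈ (⊥ : Submodule ℝ (Fin n → ℝ)) := h1 trivial
  rw [Submodule.mem_bot] at h2
  have := congrFun h2 ⟨0, hn⟩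
  simp at this

/-! ### the coordinate change -/

/-- the new coordinates -/
def Phi {d m : ℕ} (f : (Fin (d + 1) → ℝ) → (Fin (m + 1) → ℝ)) (i : Fin (m + 1)) (j : Fin (d + 1))
    (x : Fin (d + 1) → ℝ) : Fin (d + 1) → ℝ :=
  Fin.cons (f x i) (fun k => x (j.succAbove k))

lemma Phi_contDiffAt {d m : ℕ} {f : (Fin (d + 1) → ℝ) → (Fin (m + 1) → ℝ)} {i : Fin (m + 1)}
    {j : Fin (d + 1)} {l : ℕ} {x : Fin (d + 1) → ℝ} (hf : ContDiffAt ℝ l f x) :
    ContDiffAt ℝ l (Phi f i j) x := by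
  rw [contDiffAt_pi]
  intro k
  refine Fin.cases ?_ (fun k => ?_) k
  · simp only [Phi, Fin.cons_zero]
    exact (contDiffAt_pi.mp hf) i
  · simp only [Phi, Fin.cons_succ]
    exact (contDiff_apply ℝ ℝ (j.succAbove k)).contDiffAt

/-- the derivative of the new coordinates is invertible -/
lemma Phi_inv {d m : ℕ} {f : (Fin (d + 1) → ℝ) → (Fin (m + 1) → ℝ)} {i : Fin (m + 1)}
    {j : Fin (d + 1)} {x : Fin (d + 1) → ℝ} (hf : DifferentiableAt ℝ f x)
    (hne : fderiv ℝ f x (Pi.single j 1) i ≠ 0) :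
    ∃ A : (Fin (d + 1) → ℝ) ≃L[ℝ] (Fin (d + 1) → ℝ),
      HasFDerivAt (Phi f i j) (A : (Fin (d + 1) → ℝ) →L[ℝ] (Fin (d + 1) → ℝ)) x := by
  set B : (Fin (d + 1) → ℝ) →L[ℝ] (Fin (d + 1) → ℝ) :=
    ContinuousLinearMap.pi (Fin.cons ((ContinuousLinearMap.proj i).comp (fderiv ℝ f x))
      (fun k => ContinuousLinearMap.proj (j.succAbove k))) with hB
  have hB0 : ∀ v, B v 0 = fderiv ℝ f x v i := by
    intro v; simp [hB]
  have hBs : ∀ v k, B v (Fin.succ k) = v (j.succAbove k) := by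
    intro v k; simp [hB]
  have hder : HasFDerivAt (Phi f i j) B x := by
    rw [hasFDerivAt_pi']
    intro k
    refine Fin.cases ?_ (fun k => ?_) k
    · have h1 : HasFDerivAt (fun x => f x i) ((ContinuousLinearMap.proj i).comp (fderiv ℝ f x)) x :=
        (hasFDerivAt_pi'.mp hf.hasFDerivAt) i
      have h2 : (ContinuousLinearMap.proj 0).comp B = (ContinuousLinearMap.proj i).comp (fderiv ℝ f x) := by
        ext v
        exact hB0 _
      rw [h2]
      exact h1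
    · have h2 : (ContinuousLinearMap.proj k.succ).comp B =
          (ContinuousLinearMap.proj (j.succAbove k) : (Fin (d + 1) → ℝ) →L[ℝ] ℝ) := by
        ext v
        exact hBs _ _
      rw [h2]
      exact (ContinuousLinearMap.proj (j.succAbove k) : (Fin (d + 1) → ℝ) →L[ℝ] ℝ).hasFDerivAt
  have hinj : Function.Injective B := by
    rw [injective_iff_map_eq_zero]
    intro v hv
    have h1 : ∀ k, v (j.succAbove k) = 0 := by
      intro k
      rw [← hBs v k, hv]; rfl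
    have h2 : v = v j • (Pi.single j 1 : Fin (d + 1) → ℝ) := by
      ext k
      rcases Fin.eq_self_or_eq_succAbove j k with rfl | ⟨k', rfl⟩
      · simp
      · rw [h1]; simp [Fin.succAbove_ne]
    have h3 : fderiv ℝ f x v i = 0 := by
      rw [← hB0 v, hv]; rfl
    rw [h2, map_smul, Pi.smul_apply, smul_eq_mul, mul_eq_zero] at h3
    rcases h3 with h3 | h3
    · rw [h2, h3, zero_smul]
    · exact absurd h3 hne
  set A := (LinearEquiv.ofInjectiveEndo (B : (Fin (d + 1) → ℝ) →ₗ[ℝ] (Fin (d + 1) → ℝ)) hinj).toContinuousLinearEquiv with hA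
  refine ⟨A, ?_⟩
  have hAB : (A : (Fin (d + 1) → ℝ) →L[ℝ] (Fin (d + 1) → ℝ)) = B := by
    ext v
    simp [hA]
  rw [hAB]
  exact hder

/-! ### vanishing derivatives -/

lemma iter_lin {E : Type*} [NormedAddCommGroup E] [NormedSpace ℝ E] (p : E →L[ℝ] ℝ) (k : ℕ)
    (x : E) : iteratedFDeriv ℝ (k + 2) (fun x => p x) x = 0 := by
  have h1 : (fun y => fderiv ℝ (fun x => p x) y) = fun _ => p := by
    ext1 y
    exact p.fderiv
  rw [iteratedFDeriv_succ_eq_comp_right, h1, Function.comp_apply, iteratedFDeriv_succ_const]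
  exact map_zero (continuousMultilinearCurryRightEquiv' ℝ (k + 1) E ℝ).symm

lemma comp_vanish {E F : Type*} [NormedAddCommGroup E] [NormedSpace ℝ E] [NormedAddCommGroup F]
    [NormedSpace ℝ F] {l : ℕ} {g : F → ℝ} {φ : E → F} {x : E} (hg : ContDiffAt ℝ l g (φ x))
    (hφ : ContDiffAt ℝ l φ x) (hv : ∀ k, k ≤ l → iteratedFDeriv ℝ k g (φ x) = 0) :
    ∀ k, k ≤ l → iteratedFDeriv ℝ k (g ∘ φ) x = 0 := by
  intro k hk
  obtain ⟨t', ht', hgt'⟩ := hg.contDiffOn le_rfl (by simp)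
  obtain ⟨t, htt', hto, hxt⟩ := mem_nhds_iff.mp ht'
  obtain ⟨s', hs', hφs'⟩ := hφ.contDiffOn le_rfl (by simp)
  obtain ⟨s, hss', hso, hxs⟩ := mem_nhds_iff.mp
    (Filter.inter_mem hs' (hφ.continuousAt.preimage_mem_nhds (hto.mem_nhds hxt)))
  have hgt : ContDiffOn ℝ l g t := hgt'.mono htt'
  have hφs : ContDiffOn ℝ l φ s := hφs'.mono (fun y hy => (hss' hy).1)
  have hmaps : MapsTo φ s t := fun y hy => (hss' hy).2
  set D : ℝ := 1 + ∑ i ∈ Finset.range (k + 1), ‖iteratedFDerivWithin ℝ i φ s x‖ with hD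
  have hD1 : 1 ≤ D := by
    have : 0 ≤ ∑ i ∈ Finset.range (k + 1), ‖iteratedFDerivWithin ℝ i φ s x‖ :=
      Finset.sum_nonneg fun _ _ => norm_nonneg _
    linarith
  have h1 : ‖iteratedFDerivWithin ℝ k (g ∘ φ) s x‖ ≤ (k.factorial : ℝ) * 0 * D ^ k := by
    refine norm_iteratedFDerivWithin_comp_le hgt hφs (by exact_mod_cast hk) hto.uniqueDiffOn
      hso.uniqueDiffOn hmaps hxs ?_ ?_
    · intro i hi
      rw [iteratedFDerivWithin_of_isOpen i hto hxt, hv i (hi.trans hk), norm_zero]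
    · intro i hi1 hi
      have h2 : ‖iteratedFDerivWithin ℝ i φ s x‖ ≤
          ∑ i ∈ Finset.range (k + 1), ‖iteratedFDerivWithin ℝ i φ s x‖ :=
        Finset.single_le_sum (f := fun i => ‖iteratedFDerivWithin ℝ i φ s x‖)
          (fun _ _ => norm_nonneg _) (Finset.mem_range.mpr (by omega))
      calc ‖iteratedFDerivWithin ℝ i φ s x‖ ≤ D := by linarith
        _ = D ^ 1 := (pow_one D).symm
        _ ≤ D ^ i := pow_le_pow_right₀ hD1 hi1
  rw [mul_zero, zero_mul, iteratedFDerivWithin_of_isOpen k hso hxs] at h1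
  exact norm_eq_zero.mp (le_antisymm h1 (norm_nonneg _))

/-- the linear functional with given coefficients -/
noncomputable def lf {n : ℕ} (w : Fin n → ℝ) : (Fin n → ℝ) →L[ℝ] ℝ :=
  ∑ r, w r • (ContinuousLinearMap.proj r : (Fin n → ℝ) →L[ℝ] ℝ)

lemma lf_apply {n : ℕ} (w v : Fin n → ℝ) : lf w v = ∑ r, w r * v r := by
  simp [lf]

lemma nd {d m l : ℕ} {f : (Fin (d + 1) → ℝ) → (Fin (m + 1) → ℝ)}
    {i : Fin (m + 1)} {j : Fin (d + 1)} {x₀ : Fin (d + 1) → ℝ} (hf : ContDiffAt ℝ l f x₀)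
    (hspan : Submodule.span ℝ {v : Fin (m + 1) → ℝ | ∃ k : ℕ, 1 ≤ k ∧ k ≤ l ∧
      ∃ w : Fin k → Fin (d + 1), v = iteratedFDeriv ℝ k f x₀ (fun j => Pi.single (w j) 1)} = ⊤)
    (Ψ : (Fin (d + 1) → ℝ) → (Fin (d + 1) → ℝ)) (hΨ : ContDiffAt ℝ l Ψ (Phi f i j x₀))
    (hΨΦ : ∀ᶠ x in 𝓝 x₀, Ψ (Phi f i j x) = x) :
    NDn l (fun u r => f (Ψ u) (i.succAbove r)) (Phi f i j x₀) := by
  intro w hw
  by_contra hcon
  push Not at hcon
  set u₀ := Phi f i j x₀ with hu₀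
  set Y : (Fin (d + 1) → ℝ) → (Fin m → ℝ) := fun u r => f (Ψ u) (i.succAbove r) with hYdef
  have hΨ0 : Ψ u₀ = x₀ := hΨΦ.self_of_nhds
  have hfΨ : ContDiffAt ℝ l (fun u => f (Ψ u)) u₀ := by
    have : ContDiffAt ℝ l f (Ψ u₀) := by rw [hΨ0]; exact hf
    exact this.comp u₀ hΨ
  have hY : ContDiffAt ℝ l Y u₀ := by
    rw [contDiffAt_pi]
    intro r
    exact (contDiffAt_pi.mp hfΨ) (i.succAbove r)
  set t : ℝ := lf w (iteratedFDeriv ℝ 1 Y u₀ (fun _ => Pi.single 0 1)) with ht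
  set p : (Fin (d + 1) → ℝ) →L[ℝ] ℝ := t • (ContinuousLinearMap.proj 0) with hp
  have hWY : ContDiffAt ℝ l (lf w ∘ Y) u₀ := (lf w).contDiff.contDiffAt.comp u₀ hY
  have hpc : ContDiffAt ℝ l (fun u => p u) u₀ := p.contDiff.contDiffAt
  set κ : ℝ := lf w (Y u₀) - p u₀ with hκ
  set G : (Fin (d + 1) → ℝ) → ℝ := fun u => (lf w ∘ Y) u - p u - κ with hG
  have hGc : ContDiffAt ℝ l G u₀ := (hWY.sub hpc).sub contDiffAt_const
  have hGv : ∀ k, k ≤ l → iteratedFDeriv ℝ k G u₀ = 0 := by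
    intro k hk
    rcases k with _ | k
    · rw [← norm_eq_zero, norm_iteratedFDeriv_zero]
      simp [hG, hκ]
    · have hk' : ((k + 1 : ℕ) : WithTop ℕ∞) ≤ l := by exact_mod_cast hk
      have h1 : iteratedFDeriv ℝ (k + 1) G u₀ =
          (lf w).compContinuousMultilinearMap (iteratedFDeriv ℝ (k + 1) Y u₀) -
            iteratedFDeriv ℝ (k + 1) (fun u => p u) u₀ := by
        have h2 : G = ((lf w ∘ Y) - fun u => p u) - fun _ => κ := by
          ext u; simp [hG]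
        have h3 : ContDiffAt ℝ (k + 1 : ℕ) ((lf w ∘ Y) - fun u => p u) u₀ :=
          (hWY.of_le hk').sub (hpc.of_le hk')
        rw [h2, iteratedFDeriv_sub_apply h3 contDiffAt_const,
          iteratedFDeriv_sub_apply (hWY.of_le hk') (hpc.of_le hk'), iteratedFDeriv_succ_const,
          (lf w).iteratedFDeriv_comp_left hY hk']
        simp
      rw [h1]
      apply ContinuousMultilinearMap.toMultilinearMap_injective
      refine Module.Basis.ext_multilinear (fun _ => Pi.basisFun ℝ (Fin (d + 1))) ?_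
      intro v
      simp only [Pi.basisFun_apply]
      change lf w (iteratedFDeriv ℝ (k + 1) Y u₀ (fun r => Pi.single (v r) 1)) -
        iteratedFDeriv ℝ (k + 1) (fun u => p u) u₀ (fun r => Pi.single (v r) 1) = 0
      by_cases hv : NotE0 v
      · have h3 := hcon (k + 1) (by omega) hk v hv
        rw [lf_apply, h3]
        rcases k with _ | k
        · rw [iteratedFDeriv_one_apply]
          have h4 : v 0 ≠ 0 := by
            intro h5
            apply hv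
            refine ⟨rfl, fun r => ?_⟩
            have h7 : r = (0 : Fin 1) := Subsingleton.elim (α := Fin 1) _ _
            rw [h7]
            exact h5
          have h6 : fderiv ℝ (fun u => p u) u₀ = p := p.fderiv
          rw [h6]
          simp [hp, Pi.single_eq_of_ne h4.symm]
        · rw [iter_lin]
          simp
      · unfold NotE0 at hv
        push Not at hv
        obtain ⟨hk1, hv0⟩ := hv
        have hk0 : k = 0 := by omega
        subst hk0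
        have h4 : (fun r : Fin (0 + 1) => (Pi.single (v r) 1 : Fin (d + 1) → ℝ)) =
            fun _ => Pi.single 0 1 := by
          ext1 r; rw [hv0 r]
        rw [h4, ← ht, iteratedFDeriv_one_apply]
        have h6 : fderiv ℝ (fun u => p u) u₀ = p := p.fderiv
        rw [h6]
        simp [hp]
  have hΦ : ContDiffAt ℝ l (Phi f i j) x₀ := Phi_contDiffAt hf
  have hGΦ := comp_vanish hGc hΦ hGv
  set c : Fin (m + 1) → ℝ := i.insertNth (-t) w with hc
  have hci : c i = -t := by simp [hc]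
  have hcs : ∀ r, c (i.succAbove r) = w r := by intro r; simp [hc]
  have heq : (G ∘ Phi f i j) =ᶠ[𝓝 x₀] ((lf c ∘ f) - fun _ => κ) := by
    filter_upwards [hΨΦ] with x hx
    simp only [Function.comp_apply, hG, Pi.sub_apply, hYdef, hx]
    rw [lf_apply, lf_apply, Fin.sum_univ_succAbove _ i, hci]
    simp only [hcs]
    simp only [hp, smul_apply, ContinuousLinearMap.proj_apply, Phi,
      Fin.cons_zero, smul_eq_mul]
    ring
  have hker : ∀ k, 1 ≤ k → k ≤ l → ∀ v : Fin k → Fin (d + 1),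
      lf c (iteratedFDeriv ℝ k f x₀ (fun j => Pi.single (v j) 1)) = 0 := by
    intro k hk1 hk v
    obtain ⟨k, rfl⟩ : ∃ k', k = k' + 1 := ⟨k - 1, by omega⟩
    have hk' : ((k + 1 : ℕ) : WithTop ℕ∞) ≤ l := by exact_mod_cast hk
    have hcf : ContDiffAt ℝ l (lf c ∘ f) x₀ := (lf c).contDiff.contDiffAt.comp x₀ hf
    have h1 := hGΦ (k + 1) hk
    rw [(Filter.EventuallyEq.iteratedFDeriv ℝ heq (k + 1)).self_of_nhds,
      iteratedFDeriv_sub_apply (hcf.of_le hk') contDiffAt_const, iteratedFDeriv_succ_const,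
      (lf c).iteratedFDeriv_comp_left hf hk'] at h1
    have h2 := congrArg (fun M : ContinuousMultilinearMap ℝ
      (fun _ : Fin (k + 1) => (Fin (d + 1) → ℝ)) ℝ => M (fun j => Pi.single (v j) 1)) h1
    simpa using h2
  have hzero : ∀ v : Fin (m + 1) → ℝ, lf c v = 0 := by
    intro v
    have hv : v ∈ Submodule.span ℝ {v : Fin (m + 1) → ℝ | ∃ k : ℕ, 1 ≤ k ∧ k ≤ l ∧
      ∃ w : Fin k → Fin (d + 1), v = iteratedFDeriv ℝ k f x₀ (fun j => Pi.single (w j) 1)} := by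
      rw [hspan]; trivial
    induction hv using Submodule.span_induction with
    | mem v hv =>
      obtain ⟨k, hk1, hk2, w', rfl⟩ := hv
      exact hker k hk1 hk2 w'
    | zero => exact map_zero _
    | add a b _ _ ha hb => rw [map_add, ha, hb, add_zero]
    | smul a b _ hb => rw [map_smul, hb, smul_zero]
  apply hw
  ext r
  have h1 := hzero (Pi.single (i.succAbove r) 1)
  rw [lf_apply, Finset.sum_eq_single (i.succAbove r)] at h1
  · rw [hcs] at h1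
    simpa using h1
  · intro b _ hb
    rw [Pi.single_eq_of_ne hb, mul_zero]
  · intro h; exact absurd (Finset.mem_univ _) h

/-! ### transport of solutions -/

lemma inf_transfer {d m : ℕ} {f : (Fin (d + 1) → ℝ) → (Fin (m + 1) → ℝ)} {i : Fin (m + 1)}
    {j : Fin (d + 1)} {x : Fin (d + 1) → ℝ} {yv : Fin m → ℝ} {ψ : ℝ → ℝ}
    (hy : ∀ r, yv r = f x (i.succAbove r))
    (h : {z : ℤ × ℕ × (Fin m → ℕ) | 1 ≤ z.2.1 ∧ (∀ i, 1 ≤ z.2.2 i) ∧
      |(z.1 : ℝ) + z.2.1 * (Phi f i j x) 0 + dt z.2.2 yv| <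
        ψ (z.2.1 * ∏ i, (z.2.2 i : ℝ))}.Infinite) :
    {z : ℤ × (Fin (m + 1) → ℤ) |
      |(z.1 : ℝ) + ∑ i, (z.2 i : ℝ) * f x i| < ψ (PiPlus z.2)}.Infinite := by
  set τ : ℤ × ℕ × (Fin m → ℕ) → ℤ × (Fin (m + 1) → ℤ) :=
    fun z => (z.1, i.insertNth (α := fun _ => ℤ) (z.2.1 : ℤ) (fun r => (z.2.2 r : ℤ))) with hτ
  refine Set.infinite_of_injOn_mapsTo (f := τ) ?_ ?_ h
  · rintro ⟨p, q, mm⟩ _ ⟨p', q', mm'⟩ _ heq
    simp only [hτ, Prod.mk.injEq] at heq
    obtain ⟨h1, h2⟩ := heq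
    have h3 := congrFun h2 i
    simp only [Fin.insertNth_apply_same] at h3
    have h4 : mm = mm' := by
      ext r
      have h5 := congrFun h2 (i.succAbove r)
      simp only [Fin.insertNth_apply_succAbove] at h5
      exact_mod_cast h5
    have h6 : q = q' := by exact_mod_cast h3
    rw [h1, h4, h6]
  · rintro ⟨p, q, mm⟩ ⟨hq, hmm, hlt⟩
    simp only at hq hmm hlt
    simp only [hτ, mem_ofPred_eq]
    have h1 : PiPlus (i.insertNth (α := fun _ => ℤ) (q : ℤ) (fun r => (mm r : ℤ))) =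
        (q : ℝ) * ∏ r, (mm r : ℝ) := by
      unfold PiPlus
      rw [Fin.prod_univ_succAbove _ i]
      simp only [Fin.insertNth_apply_same, Fin.insertNth_apply_succAbove]
      congr 1
      · rw [if_neg (by omega)]
        simp
      · refine Finset.prod_congr rfl fun r _ => ?_
        have := hmm r
        rw [if_neg (by omega)]
        simp
    have h2 : ∑ r, ((i.insertNth (α := fun _ => ℤ) (q : ℤ) (fun r => (mm r : ℤ)) : Fin (m + 1) → ℤ) r : ℝ)
        * f x r = (q : ℝ) * (Phi f i j x) 0 + dt mm yv := by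
      rw [Fin.sum_univ_succAbove _ i]
      simp only [Fin.insertNth_apply_same, Fin.insertNth_apply_succAbove]
      congr 1
      unfold dt
      refine Finset.sum_congr rfl fun r _ => ?_
      rw [hy r]
      simp
    rw [h1, h2]
    rw [← add_assoc]
    exact hlt

/-- the local theorem in the original coordinates -/
lemma local_thm (HL : S_LOCAL) {d m l : ℕ} (hl : 1 ≤ l)
    {f : (Fin (d + 1) → ℝ) → (Fin (m + 1) → ℝ)}
    {i : Fin (m + 1)} {j : Fin (d + 1)} {x₀ : Fin (d + 1) → ℝ} (hf : ContDiffAt ℝ l f x₀)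
    (hspan : Submodule.span ℝ {v : Fin (m + 1) → ℝ | ∃ k : ℕ, 1 ≤ k ∧ k ≤ l ∧
      ∃ w : Fin k → Fin (d + 1), v = iteratedFDeriv ℝ k f x₀ (fun j => Pi.single (w j) 1)} = ⊤)
    (hne : fderiv ℝ f x₀ (Pi.single j 1) i ≠ 0) (ψ : ℝ → ℝ) (hpos : ∀ x, 0 < x → 0 < ψ x)
    (hanti : AntitoneOn ψ (Ioi 0))
    (hdiv : ¬ Summable (fun h : ℕ => Real.log (h + 1) ^ m * ψ (h + 1))) :
    ∃ O ∈ 𝓝 x₀, volume (O ∩ {x | ¬ {z : ℤ × (Fin (m + 1) → ℤ) |
      |(z.1 : ℝ) + ∑ i, (z.2 i : ℝ) * f x i| < ψ (PiPlus z.2)}.Infinite}) = 0 := by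
  have hn : (l : WithTop ℕ∞) ≠ 0 := by
    have : l ≠ 0 := by omega
    exact_mod_cast this
  obtain ⟨A, hA⟩ := Phi_inv (hf.differentiableAt hn) hne
  have hΦ : ContDiffAt ℝ l (Phi f i j) x₀ := Phi_contDiffAt hf
  set Ψ := hΦ.localInverse hA hn with hΨdef
  have hΨ : ContDiffAt ℝ l Ψ (Phi f i j x₀) := hΦ.to_localInverse hA hn
  have hΨΦ : ∀ᶠ x in 𝓝 x₀, Ψ (Phi f i j x) = x :=
    (hΦ.hasStrictFDerivAt' hA hn).eventually_left_inverse
  have hND := nd hf hspan Ψ hΨ hΨΦ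
  set u₀ := Phi f i j x₀ with hu₀
  set Y : (Fin (d + 1) → ℝ) → (Fin m → ℝ) := fun u r => f (Ψ u) (i.succAbove r) with hYdef
  have hΨ0 : Ψ u₀ = x₀ := hΨΦ.self_of_nhds
  have hfΨ : ContDiffAt ℝ l (fun u => f (Ψ u)) u₀ := by
    have : ContDiffAt ℝ l f (Ψ u₀) := by rw [hΨ0]; exact hf
    exact this.comp u₀ hΨ
  have hY : ContDiffAt ℝ l Y u₀ := by
    rw [contDiffAt_pi]
    intro r
    exact (contDiffAt_pi.mp hfΨ) (i.succAbove r)
  obtain ⟨S, hS, hYS⟩ := hY.contDiffOn le_rfl (by simp)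
  obtain ⟨ρ, hρ, hρS⟩ := Metric.mem_nhds_iff.mp hS
  obtain ⟨ρ', hρ', hae⟩ := HL d m l Y u₀ ρ hρ (hYS.mono hρS) hND ψ hpos hanti hdiv
  obtain ⟨T, hT, hΨT⟩ := hΨ.contDiffOn le_rfl (by simp)
  have hΨd : DifferentiableOn ℝ Ψ T := hΨT.differentiableOn hn
  have hO : ∀ᶠ x in 𝓝 x₀, Phi f i j x ∈ Metric.ball u₀ ρ' ∩ T ∧ Ψ (Phi f i j x) = x := by
    have h1 : ∀ᶠ x in 𝓝 x₀, Phi f i j x ∈ Metric.ball u₀ ρ' ∩ T :=
      hΦ.continuousAt.eventually (Filter.inter_mem (Metric.ball_mem_nhds _ hρ') hT)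
    exact h1.and hΨΦ
  refine ⟨_, hO, ?_⟩
  set N' : Set (Fin (d + 1) → ℝ) := {u | u ∈ Metric.ball u₀ ρ' ∧
    ¬ {z : ℤ × ℕ × (Fin m → ℕ) | 1 ≤ z.2.1 ∧ (∀ i, 1 ≤ z.2.2 i) ∧
      |(z.1 : ℝ) + z.2.1 * u 0 + dt z.2.2 (Y u)| < ψ (z.2.1 * ∏ i, (z.2.2 i : ℝ))}.Infinite}
    with hN'
  have hN0 : volume N' = 0 := by
    rw [measure_eq_zero_iff_ae_notMem]
    rw [ae_restrict_iff' Metric.isOpen_ball.measurableSet] at hae
    filter_upwards [hae] with u hu hmem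
    exact hmem.2 (hu hmem.1)
  have hNT : volume (N' ∩ T) = 0 := measure_mono_null inter_subset_left hN0
  have himg : volume (Ψ '' (N' ∩ T)) = 0 :=
    addHaar_image_eq_zero_of_differentiableOn_of_addHaar_eq_zero volume
      (hΨd.mono inter_subset_right) hNT
  refine measure_mono_null ?_ himg
  rintro x ⟨⟨⟨hx1, hx2⟩, hx3⟩, hx4⟩
  refine ⟨Phi f i j x, ⟨⟨hx1, ?_⟩, hx2⟩, hx3⟩
  intro hinf
  apply hx4
  refine inf_transfer (i := i) (j := j) (yv := Y (Phi f i j x)) ?_ hinf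
  intro r
  simp only [hYdef, hx3]

/-- **The main theorem from the local theorem.** -/
theorem main_of_local (HC : S_CRIT) (HL : S_LOCAL) : S_MAIN := by
  intro d n hd hn U hU f hnd ψ hpos hmono hdiv
  rcases hmono with hmono | hanti
  · exact Filter.Eventually.of_forall fun x => mono_case n hn (f x) ψ hpos hmono
  obtain ⟨d, rfl⟩ : ∃ d', d = d' + 1 := ⟨d - 1, by omega⟩
  obtain ⟨m, rfl⟩ : ∃ m', n = m' + 1 := ⟨n - 1, by omega⟩
  have hC : ∀ l : ℕ, ∀ᵐ x ∂(volume : Measure (Fin (d + 1) → ℝ)), 1 ≤ l →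
      (∃ V : Set (Fin (d + 1) → ℝ), IsOpen V ∧ x ∈ V ∧ ContDiffOn ℝ l f V) →
      fderiv ℝ f x = 0 → ∀ k : ℕ, 1 ≤ k → k ≤ l → iteratedFDeriv ℝ k f x = 0 := by
    intro l
    by_cases hl : 1 ≤ l
    · set W : Set (Fin (d + 1) → ℝ) :=
        {x | ∃ V : Set (Fin (d + 1) → ℝ), IsOpen V ∧ x ∈ V ∧ ContDiffOn ℝ l f V} with hW
      have hWo : IsOpen W := by
        rw [isOpen_iff_forall_mem_open]
        rintro x ⟨V, hV, hxV, hfV⟩
        exact ⟨V, fun y hy => ⟨V, hV, hy, hfV⟩, hV, hxV⟩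
      have hWc : ContDiffOn ℝ l f W := by
        rintro x ⟨V, hV, hxV, hfV⟩
        exact (hfV.contDiffAt (hV.mem_nhds hxV)).contDiffWithinAt
      have h1 := HC (d + 1) (m + 1) l f W hl hWo hWc
      rw [ae_restrict_iff' hWo.measurableSet] at h1
      filter_upwards [h1] with x hx _ hxW
      exact hx hxW
    · exact Filter.Eventually.of_forall fun x h => absurd h hl
  set B : Set (Fin (d + 1) → ℝ) := {x | ¬ {z : ℤ × (Fin (m + 1) → ℤ) |
      |(z.1 : ℝ) + ∑ i, (z.2 i : ℝ) * f x i| < ψ (PiPlus z.2)}.Infinite} with hB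
  set G : Set (Fin (d + 1) → ℝ) := {x | ∃ l, NondegAt l f x ∧ fderiv ℝ f x ≠ 0} with hG
  have hGB : volume (G ∩ B) = 0 := by
    apply measure_null_of_locally_null
    rintro x₀ ⟨⟨l, ⟨⟨V, hV, hxV, hfV⟩, hspan⟩, hne⟩, -⟩
    obtain ⟨j, i, hji⟩ : ∃ j i, fderiv ℝ f x₀ (Pi.single j 1) i ≠ 0 := by
      by_contra hcon
      push Not at hcon
      apply hne
      apply ContinuousLinearMap.coe_injective
      refine (Pi.basisFun ℝ (Fin (d + 1))).ext fun j => ?_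
      ext i
      simpa using hcon j i
    obtain ⟨O, hO, hO0⟩ := local_thm HL (one_le_of_span (by omega) hspan)
      (hfV.contDiffAt (hV.mem_nhds hxV)) hspan hji ψ hpos hanti hdiv
    refine ⟨O ∩ (G ∩ B), ?_, ?_⟩
    · exact Filter.inter_mem (mem_nhdsWithin_of_mem_nhds hO) self_mem_nhdsWithin
    · refine measure_mono_null ?_ hO0
      rintro x ⟨h1, h2, h3⟩
      exact ⟨h1, h3⟩
  rw [ae_restrict_iff' hU.measurableSet] at hnd ⊢
  filter_upwards [hnd, ae_all_iff.mpr hC, measure_eq_zero_iff_ae_notMem.mp hGB]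
    with x h1 h2 h3 hxU
  obtain ⟨l, hl⟩ := h1 hxU
  by_contra hxB
  apply h3
  refine ⟨⟨l, hl, ?_⟩, hxB⟩
  intro h0
  obtain ⟨k, hk1, hk2, hne⟩ := exists_ne_of_span (by omega) hl.2
  exact hne (h2 l (one_le_of_span (by omega) hl.2) hl.1 h0 k hk1 hk2)

end Pool.Agent.Helper982_KG.Norm
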