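import Pool.Agent.Helper982_KG.Stmts

/-!
# The second bilinear sum, tools (part R2)
-/

set_option autoImplicit false

open Finset

namespace Pool.Agent.Helper982_KG.RTwo

theorem e_add (a b : ℝ) : e (a + b) = e a * e b := by
  unfold e
  rw [← Complex.exp_add]
  congr 1
  push_cast
  ring

theorem e_norm (a : ℝ) : ‖e a‖ = 1 := by
  unfold e
  exact Complex.norm_exp_ofReal_mul_I _

theorem e_zero : e 0 = 1 := by
  unfold e
  simp

theorem e_neg (a : ℝ) : e (-a) = (starRingEnd ℂ) (e a) := by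
  unfold e
  rw [← Complex.exp_conj]
  congr 1
  rw [map_mul, Complex.conj_I, Complex.conj_ofReal]
  push_cast
  ring

/-- the square of a sum of exponentials -/
theorem normsq {ι : Type*} (P : Finset ι) (f : ι → ℝ) :
    ((‖∑ p ∈ P, e (f p)‖ ^ 2 : ℝ) : ℂ) = ∑ q ∈ P ×ˢ P, e (f q.1 - f q.2) := by
  have h : ((‖∑ p ∈ P, e (f p)‖ ^ 2 : ℝ) : ℂ) =
      (∑ p ∈ P, e (f p)) * (starRingEnd ℂ) (∑ p ∈ P, e (f p)) := by
    rw [Complex.mul_conj, Complex.normSq_eq_norm_sq]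
  rw [h, map_sum, sum_mul_sum, ← sum_product']
  refine sum_congr rfl fun q _ => ?_
  rw [sub_eq_add_neg, e_add, e_neg]

theorem norm_sum_e_le {ι : Type*} (P : Finset ι) (f : ι → ℝ) :
    ‖∑ p ∈ P, e (f p)‖ ≤ P.card := by
  refine (norm_sum_le _ _).trans ?_
  simp only [e_norm, sum_const, nsmul_eq_mul, mul_one, le_refl]

/-- Cauchy-Schwarz twice -/
theorem four {ι : Type*} (P : Finset ι) (f : ι → ℂ) :
    ‖∑ p ∈ P, f p‖ ^ 4 ≤ (P.card : ℝ) ^ 3 * ∑ p ∈ P, ‖f p‖ ^ 4 := by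
  have h1 : ‖∑ p ∈ P, f p‖ ≤ ∑ p ∈ P, ‖f p‖ := norm_sum_le _ _
  have h2 : (∑ p ∈ P, ‖f p‖) ^ 2 ≤ (P.card : ℝ) * ∑ p ∈ P, ‖f p‖ ^ 2 := sq_sum_le_card_mul_sum_sq
  have h3 : (∑ p ∈ P, ‖f p‖ ^ 2) ^ 2 ≤ (P.card : ℝ) * ∑ p ∈ P, (‖f p‖ ^ 2) ^ 2 :=
    sq_sum_le_card_mul_sum_sq
  have n0 : 0 ≤ ‖∑ p ∈ P, f p‖ := norm_nonneg _
  have c0 : (0 : ℝ) ≤ P.card := by positivity
  calc ‖∑ p ∈ P, f p‖ ^ 4 ≤ (∑ p ∈ P, ‖f p‖) ^ 4 := pow_le_pow_left₀ n0 h1 4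
    _ = ((∑ p ∈ P, ‖f p‖) ^ 2) ^ 2 := by ring
    _ ≤ ((P.card : ℝ) * ∑ p ∈ P, ‖f p‖ ^ 2) ^ 2 := pow_le_pow_left₀ (sq_nonneg _) h2 2
    _ = (P.card : ℝ) ^ 2 * (∑ p ∈ P, ‖f p‖ ^ 2) ^ 2 := by ring
    _ ≤ (P.card : ℝ) ^ 2 * ((P.card : ℝ) * ∑ p ∈ P, (‖f p‖ ^ 2) ^ 2) :=
        mul_le_mul_of_nonneg_left h3 (by positivity)
    _ = (P.card : ℝ) ^ 3 * ∑ p ∈ P, ‖f p‖ ^ 4 := by
        rw [← mul_assoc, ← pow_succ]
        congr 1
        refine sum_congr rfl fun p _ => ?_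
        ring

/-- the difference `0` is the most frequent one -/
theorem rep_le {ι M : Type*} [AddCommGroup M] [DecidableEq M] (P : Finset ι) (σ : ι → M) (g : M) :
    ((P ×ˢ P).filter (fun q => σ q.1 - σ q.2 = g)).card ≤
      ((P ×ˢ P).filter (fun q => σ q.1 - σ q.2 = 0)).card := by
  set r : M → ℕ := fun s => (P.filter (fun p => σ p = s)).card with hr
  set I := P.image σ with hI
  -- the counts in terms of `r`
  have h0 : ∀ g : M, ((P ×ˢ P).filter (fun q => σ q.1 - σ q.2 = g)).card =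
      ∑ s ∈ I, r s * r (s - g) := by
    intro g
    have h1 : ((P ×ˢ P).filter (fun q => σ q.1 - σ q.2 = g)).card =
        ∑ s ∈ I, (((P ×ˢ P).filter (fun q => σ q.1 - σ q.2 = g)).filter
          (fun q => σ q.1 = s)).card := by
      refine card_eq_sum_card_fiberwise fun q hq => ?_
      have := (mem_product.1 (mem_filter.1 (mem_coe.1 hq)).1).1
      exact mem_coe.2 (mem_image_of_mem σ this)
    rw [h1]
    refine sum_congr rfl fun s _ => ?_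
    rw [hr, ← card_product]
    congr 1
    ext ⟨a, b⟩
    simp only [mem_filter, mem_product]
    constructor
    · rintro ⟨⟨⟨ha, hb⟩, h⟩, h'⟩
      refine ⟨⟨ha, h'⟩, hb, ?_⟩
      rw [← h', ← h]; abel
    · rintro ⟨⟨ha, h'⟩, hb, h⟩
      refine ⟨⟨⟨ha, hb⟩, ?_⟩, h'⟩
      rw [h', h]; abel
  rw [h0 g, h0 0]
  have hz : ∀ s, s ∉ I → r s = 0 := by
    intro s hs
    rw [hr]
    simp only [card_eq_zero, filter_eq_empty_iff]
    intro p hp h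
    exact hs (h ▸ mem_image_of_mem σ hp)
  have h2 : ∑ s ∈ I, r (s - g) ^ 2 ≤ ∑ s ∈ I, r s ^ 2 := by
    have h3 : ∑ s ∈ I, r (s - g) ^ 2 = ∑ s ∈ I.image (fun s => s - g), r s ^ 2 :=
      (sum_image (s := I) (g := fun s => s - g) (f := fun s => r s ^ 2)
        fun a _ b _ hab => sub_left_injective hab).symm
    rw [h3, ← sum_filter_add_sum_filter_not (I.image (fun s => s - g)) (fun s => s ∈ I)]
    have h4 : ∑ s ∈ (I.image (fun s => s - g)).filter (fun s => ¬ s ∈ I), r s ^ 2 = 0 := by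
      refine sum_eq_zero fun s hs => ?_
      rw [hz s (mem_filter.1 hs).2]
      rfl
    rw [h4, add_zero]
    refine sum_le_sum_of_subset ?_
    intro s hs
    exact (mem_filter.1 hs).2
  have h5 : 2 * ∑ s ∈ I, r s * r (s - g) ≤ ∑ s ∈ I, r s ^ 2 + ∑ s ∈ I, r (s - g) ^ 2 := by
    rw [← sum_add_distrib, mul_sum]
    refine sum_le_sum fun s _ => ?_
    nlinarith [two_mul_le_add_sq (r s) (r (s - g))]
  have h6 : ∑ s ∈ I, r s * r (s - 0) = ∑ s ∈ I, r s ^ 2 := by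
    refine sum_congr rfl fun s _ => ?_
    rw [sub_zero, sq]
  rw [h6]
  omega

/-- Cauchy-Schwarz over the quadruples -/
theorem quad {ι M : Type*} [AddCommGroup M] [DecidableEq M] (P : Finset ι) (σ : ι → M)
    (D : Finset M) (hD : ∀ p ∈ P, ∀ q ∈ P, σ p - σ q ∈ D) (F : M → ℝ) :
    (∑ q ∈ P ×ˢ P, F (σ q.1 - σ q.2)) ^ 2 ≤ (P.card : ℝ) ^ 2 *
      (((P ×ˢ P).filter (fun q => σ q.1 - σ q.2 = 0)).card : ℝ) * ∑ g ∈ D, F g ^ 2 := by
  have h1 : (∑ q ∈ P ×ˢ P, F (σ q.1 - σ q.2)) ^ 2 ≤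
      ((P ×ˢ P).card : ℝ) * ∑ q ∈ P ×ˢ P, F (σ q.1 - σ q.2) ^ 2 := sq_sum_le_card_mul_sum_sq
  have h2 : ∑ q ∈ P ×ˢ P, F (σ q.1 - σ q.2) ^ 2 =
      ∑ g ∈ D, ∑ q ∈ (P ×ˢ P).filter (fun q => σ q.1 - σ q.2 = g), F (σ q.1 - σ q.2) ^ 2 := by
    rw [sum_fiberwise_of_maps_to]
    intro q hq
    rw [mem_product] at hq
    exact hD _ hq.1 _ hq.2
  have h3 : ∑ q ∈ P ×ˢ P, F (σ q.1 - σ q.2) ^ 2 ≤
      (((P ×ˢ P).filter (fun q => σ q.1 - σ q.2 = 0)).card : ℝ) * ∑ g ∈ D, F g ^ 2 := by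
    rw [h2, mul_sum]
    refine sum_le_sum fun g _ => ?_
    have h4 : ∑ q ∈ (P ×ˢ P).filter (fun q => σ q.1 - σ q.2 = g), F (σ q.1 - σ q.2) ^ 2 =
        ∑ q ∈ (P ×ˢ P).filter (fun q => σ q.1 - σ q.2 = g), F g ^ 2 := by
      refine sum_congr rfl fun q hq => ?_
      rw [(mem_filter.1 hq).2]
    rw [h4, sum_const, nsmul_eq_mul]
    refine mul_le_mul_of_nonneg_right ?_ (sq_nonneg _)
    exact_mod_cast rep_le P σ g
  refine h1.trans ((mul_le_mul_of_nonneg_left h3 (by positivity)).trans (le_of_eq ?_))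
  rw [card_product]
  push_cast
  ring

/-- the kernel -/
noncomputable def KK (M : ℕ) (t : ℝ) : ℝ := ‖∑ k ∈ Finset.range M, e (k * t)‖ ^ 2

theorem KK_nonneg (M : ℕ) (t : ℝ) : 0 ≤ KK M t := sq_nonneg _

theorem KK_le (M : ℕ) (t : ℝ) : KK M t ≤ (M : ℝ) ^ 2 := by
  unfold KK
  have := norm_sum_e_le (Finset.range M) (fun k => (k : ℝ) * t)
  rw [card_range] at this
  exact pow_le_pow_left₀ (norm_nonneg _) this 2

/-- the open interval -/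
noncomputable def II (M : ℕ) : Finset ℤ := Finset.Ioo (-(M : ℤ)) M

/-- the weights -/
noncomputable def wt (M : ℕ) (k : ℤ) : ℝ := (M : ℝ) - |(k : ℝ)|

theorem wt_nonneg {M : ℕ} {k : ℤ} (hk : k ∈ II M) : 0 ≤ wt M k := by
  unfold II at hk
  rw [mem_Ioo, ← abs_lt] at hk
  unfold wt
  have : (|k| : ℝ) ≤ M := by exact_mod_cast hk.le
  linarith

theorem wt_le (M : ℕ) (k : ℤ) : wt M k ≤ M := by
  unfold wt
  have := abs_nonneg (k : ℝ)
  linarith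

theorem fej' (hF : S_FEJ) (M : ℕ) (t : ℝ) :
    ((KK M t : ℝ) : ℂ) = ∑ k ∈ II M, ((wt M k : ℝ) : ℂ) * e (k * t) := hF M t

/-- two kernels -/
theorem fej2 (hF : S_FEJ) (M : ℕ) (t u : ℝ) :
    ((KK M t * KK M u : ℝ) : ℂ) = ∑ k ∈ II M ×ˢ II M,
      ((wt M k.1 * wt M k.2 : ℝ) : ℂ) * e (k.1 * t + k.2 * u) := by
  push_cast
  rw [fej' hF, fej' hF, sum_mul_sum, ← sum_product']
  refine sum_congr rfl fun k _ => ?_
  rw [e_add]
  ring

end Pool.Agent.Helper982_KG.RTwo
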