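import Pool.Agent.Helper982_KG.R2a

/-!
# The second bilinear sum (part R2)
-/

set_option autoImplicit false

open Finset

namespace Pool.Agent.Helper982_KG.RTwo

/-- the rows -/
noncomputable def QQ (R : ℕ) : Finset (ℤ × ℤ) :=
  (Finset.Icc (-(R : ℤ)) R) ×ˢ (Finset.Icc (-(R : ℤ)) R)

/-- scalar product of an integer vector and a real vector -/
def dot (r : ℤ × ℤ) (v : ℝ × ℝ) : ℝ := (r.1 : ℝ) * v.1 + (r.2 : ℝ) * v.2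

/-- the first row -/
def row1 (B : M4) : ℤ × ℤ := (B.1, B.2.1)

/-- the second row -/
def row2 (B : M4) : ℤ × ℤ := (B.2.2.1, B.2.2.2)

theorem card_Icc_R (R : ℕ) : (Finset.Icc (-(R : ℤ)) R).card = 2 * R + 1 := by
  rw [Int.card_Icc]; omega

theorem row_sum (hrow : S_ROW) (C₀ R : ℕ) (h : ℤ × ℤ → ℝ) (hh : ∀ r, 0 ≤ h r) :
    ∑ B ∈ GG C₀ R, h (row1 B) ≤ (2 * (C₀ : ℝ) + 1) * ∑ r ∈ QQ R, h r := by
  have h1 : ∑ B ∈ GG C₀ R, h (row1 B) =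
      ∑ r ∈ QQ R, ∑ B ∈ (GG C₀ R).filter (fun B => row1 B = r), h (row1 B) := by
    rw [sum_fiberwise_of_maps_to]
    intro B hB
    have := (mem_filter.1 hB).1
    simp only [mem_product] at this
    exact mem_product.2 ⟨this.1, this.2.1⟩
  rw [h1, mul_sum]
  refine sum_le_sum fun r _ => ?_
  have h2 : ∑ B ∈ (GG C₀ R).filter (fun B => row1 B = r), h (row1 B) =
      ∑ B ∈ (GG C₀ R).filter (fun B => row1 B = r), h r :=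
    sum_congr rfl fun B hB => by rw [(mem_filter.1 hB).2]
  rw [h2, sum_const, nsmul_eq_mul]
  refine mul_le_mul_of_nonneg_right ?_ (hh r)
  have := hrow C₀ R r
  have h3 : (((GG C₀ R).filter (fun B => row1 B = r)).card : ℝ) ≤ ((2 * C₀ + 1 : ℕ) : ℝ) := by
    exact_mod_cast this
  push_cast at h3
  exact h3

theorem exp_prod (R : ℕ) (v : ℝ × ℝ) : ∑ r ∈ QQ R, e (dot r v) =
    (∑ k ∈ Finset.Icc (-(R : ℤ)) R, e (k * v.1)) * ∑ k ∈ Finset.Icc (-(R : ℤ)) R, e (k * v.2) := by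
  unfold QQ
  rw [sum_mul_sum, ← sum_product']
  refine sum_congr rfl fun r _ => ?_
  rw [dot, e_add]

theorem exp_triv (R : ℕ) (t : ℝ) : ‖∑ k ∈ Finset.Icc (-(R : ℤ)) R, e (k * t)‖ ≤ 2 * (R : ℝ) + 1 := by
  have := norm_sum_e_le (Finset.Icc (-(R : ℤ)) R) (fun k => (k : ℝ) * t)
  rw [card_Icc_R] at this
  push_cast at this
  exact this

theorem exp_triv2 (R : ℕ) (v : ℝ × ℝ) : ‖∑ r ∈ QQ R, e (dot r v)‖ ≤ (2 * (R : ℝ) + 1) ^ 2 := by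
  rw [exp_prod, norm_mul, sq]
  exact mul_le_mul (exp_triv R _) (exp_triv R _) (norm_nonneg _) (by positivity)

theorem exp_far (hG : S_GEO) (R : ℕ) (κ₁ : ℝ) (hκ : 0 < κ₁) (v : ℝ × ℝ)
    (hf : Far κ₁ v.1 ∨ Far κ₁ v.2) :
    ‖∑ r ∈ QQ R, e (dot r v)‖ ≤ (2 * (R : ℝ) + 1) * (1 / (2 * κ₁)) := by
  rw [exp_prod, norm_mul]
  rcases hf with h | h
  · rw [mul_comm]
    exact mul_le_mul (exp_triv R _) (hG κ₁ _ R hκ h) (norm_nonneg _) (by positivity)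
  · exact mul_le_mul (exp_triv R _) (hG κ₁ _ R hκ h) (norm_nonneg _) (by positivity)

/-- the sum over the rows -/
noncomputable def WW (R M : ℕ) (ξ ξ' : ℝ × ℝ) : ℝ :=
  ∑ q ∈ QQ R ×ˢ QQ R, KK M (dot q.1 ξ - dot q.2 ξ) * KK M (dot q.1 ξ' - dot q.2 ξ')

/-- the combination of the two vectors -/
noncomputable def comb (k : ℤ × ℤ) (ξ ξ' : ℝ × ℝ) : ℝ × ℝ :=
  ((k.1 : ℝ) * ξ.1 + (k.2 : ℝ) * ξ'.1, (k.1 : ℝ) * ξ.2 + (k.2 : ℝ) * ξ'.2)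

theorem WW_eq (hF : S_FEJ) (R M : ℕ) (ξ ξ' : ℝ × ℝ) : WW R M ξ ξ' =
    ∑ k ∈ II M ×ˢ II M, wt M k.1 * wt M k.2 * ‖∑ r ∈ QQ R, e (dot r (comb k ξ ξ'))‖ ^ 2 := by
  have h : ((WW R M ξ ξ' : ℝ) : ℂ) = ((∑ k ∈ II M ×ˢ II M, wt M k.1 * wt M k.2 *
      ‖∑ r ∈ QQ R, e (dot r (comb k ξ ξ'))‖ ^ 2 : ℝ) : ℂ) := by
    rw [WW, Complex.ofReal_sum, Complex.ofReal_sum]
    rw [sum_congr rfl fun q _ => fej2 hF M (dot q.1 ξ - dot q.2 ξ) (dot q.1 ξ' - dot q.2 ξ')]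
    rw [sum_comm]
    refine sum_congr rfl fun k _ => ?_
    rw [Complex.ofReal_mul (wt M k.1 * wt M k.2) (‖∑ r ∈ QQ R, e (dot r (comb k ξ ξ'))‖ ^ 2),
      normsq, mul_sum]
    refine sum_congr rfl fun q _ => ?_
    congr 2
    simp only [dot, comb]
    ring
  exact_mod_cast h

theorem WW_le (hF : S_FEJ) (hG : S_GEO) (R M : ℕ) (κ₁ : ℝ) (ξ ξ' : ℝ × ℝ) (hκ : 0 < κ₁)
    (hR : 1 ≤ R) (hM : (M : ℝ) ≤ κ₁ * R) (hd : DioTwo M κ₁ ξ ξ') :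
    WW R M ξ ξ' ≤ 90 * (M : ℝ) ^ 2 * (R : ℝ) ^ 4 := by
  have hR1 : (1 : ℝ) ≤ R := by exact_mod_cast hR
  rw [WW_eq hF]
  set a : ℝ := ((2 * (R : ℝ) + 1) * (1 / (2 * κ₁))) ^ 2 with ha
  set b : ℝ := ((2 * (R : ℝ) + 1) ^ 2) ^ 2 with hb
  have ha0 : 0 ≤ a := sq_nonneg _
  have hb0 : 0 ≤ b := sq_nonneg _
  have h1 : ∀ k ∈ II M ×ˢ II M, wt M k.1 * wt M k.2 *
      ‖∑ r ∈ QQ R, e (dot r (comb k ξ ξ'))‖ ^ 2 ≤
      (M : ℝ) ^ 2 * (a + if k = 0 then b else 0) := by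
    intro k hk
    rw [mem_product] at hk
    have w1 := wt_nonneg hk.1
    have w2 := wt_nonneg hk.2
    have w3 : wt M k.1 * wt M k.2 ≤ (M : ℝ) ^ 2 := by
      rw [sq]
      exact mul_le_mul (wt_le _ _) (wt_le _ _) w2 (by positivity)
    have w4 : ‖∑ r ∈ QQ R, e (dot r (comb k ξ ξ'))‖ ^ 2 ≤ a + if k = 0 then b else 0 := by
      split_ifs with h0
      · have := pow_le_pow_left₀ (norm_nonneg _) (exp_triv2 R (comb k ξ ξ')) 2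
        linarith
      · rw [add_zero]
        have b1 : |k.1| ≤ M := by
          have := hk.1; unfold II at this; rw [mem_Ioo, ← abs_lt] at this; exact this.le
        have b2 : |k.2| ≤ M := by
          have := hk.2; unfold II at this; rw [mem_Ioo, ← abs_lt] at this; exact this.le
        exact pow_le_pow_left₀ (norm_nonneg _)
          (exp_far hG R κ₁ hκ (comb k ξ ξ') (hd k h0 b1 b2)) 2
    exact mul_le_mul w3 w4 (sq_nonneg _) (by positivity)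
  refine (sum_le_sum h1).trans ?_
  rw [← mul_sum, sum_add_distrib, sum_const, sum_ite_eq', nsmul_eq_mul]
  have c1 : ((II M ×ˢ II M).card : ℝ) ≤ (2 * (M : ℝ)) ^ 2 := by
    rw [card_product]
    have : (II M).card ≤ 2 * M := by
      unfold II
      rw [Int.card_Ioo]
      omega
    have h2 : ((II M).card : ℝ) ≤ 2 * (M : ℝ) := by exact_mod_cast this
    push_cast
    rw [sq]
    exact mul_le_mul h2 h2 (by positivity) (by positivity)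
  have c2 : ((II M ×ˢ II M).card : ℝ) * a ≤ (2 * (M : ℝ)) ^ 2 * a :=
    mul_le_mul_of_nonneg_right c1 ha0
  have c3 : (if (0 : ℤ × ℤ) ∈ II M ×ˢ II M then b else 0) ≤ b := by
    split_ifs
    · exact le_rfl
    · exact hb0
  have c4 : (2 * (M : ℝ)) ^ 2 * a ≤ 9 * (R : ℝ) ^ 4 := by
    have e1 : (2 * (M : ℝ)) ^ 2 * a = (2 * (R : ℝ) + 1) ^ 2 * ((M : ℝ) / κ₁) ^ 2 := by
      rw [ha]; field_simp
    rw [e1]
    have e2 : (M : ℝ) / κ₁ ≤ R := by rw [div_le_iff₀ hκ, mul_comm]; exact hM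
    have e3 : ((M : ℝ) / κ₁) ^ 2 ≤ (R : ℝ) ^ 2 := pow_le_pow_left₀ (by positivity) e2 2
    have e4 : (2 * (R : ℝ) + 1) ^ 2 ≤ 9 * (R : ℝ) ^ 2 := by nlinarith
    calc (2 * (R : ℝ) + 1) ^ 2 * ((M : ℝ) / κ₁) ^ 2 ≤ 9 * (R : ℝ) ^ 2 * (R : ℝ) ^ 2 :=
          mul_le_mul e4 e3 (sq_nonneg _) (by positivity)
      _ = 9 * (R : ℝ) ^ 4 := by ring
  have c5 : b ≤ 81 * (R : ℝ) ^ 4 := by
    have e4 : (2 * (R : ℝ) + 1) ^ 2 ≤ 9 * (R : ℝ) ^ 2 := by nlinarith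
    calc b ≤ (9 * (R : ℝ) ^ 2) ^ 2 := pow_le_pow_left₀ (sq_nonneg _) e4 2
      _ = 81 * (R : ℝ) ^ 4 := by ring
  have c6 : ((II M ×ˢ II M).card : ℝ) * a + (if (0 : ℤ × ℤ) ∈ II M ×ˢ II M then b else 0) ≤
      90 * (R : ℝ) ^ 4 := by linarith
  calc (M : ℝ) ^ 2 * (((II M ×ˢ II M).card : ℝ) * a +
        (if (0 : ℤ × ℤ) ∈ II M ×ˢ II M then b else 0)) ≤ (M : ℝ) ^ 2 * (90 * (R : ℝ) ^ 4) :=
        mul_le_mul_of_nonneg_left c6 (by positivity)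
    _ = _ := by ring

/-- the phase -/
noncomputable def ph (ξ ξ' : ℝ × ℝ) (g B : M4) : ℝ := (act g (act B ξ)).1 + (act g (act B ξ')).2

theorem ph_eq (ξ ξ' : ℝ × ℝ) (g B : M4) : ph ξ ξ' g B = (g.1 : ℝ) * dot (row1 B) ξ +
    (g.2.1 : ℝ) * dot (row2 B) ξ + (g.2.2.1 : ℝ) * dot (row1 B) ξ' +
    (g.2.2.2 : ℝ) * dot (row2 B) ξ' := by
  simp only [ph, act, dot, row1, row2]
  ring

theorem ph_add (ξ ξ' : ℝ × ℝ) (g h B : M4) : ph ξ ξ' (g + h) B = ph ξ ξ' g B + ph ξ ξ' h B := by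
  rw [ph_eq, ph_eq, ph_eq]
  simp only [Prod.fst_add, Prod.snd_add]
  push_cast
  ring

theorem ph_sub (ξ ξ' : ℝ × ℝ) (g h B : M4) : ph ξ ξ' (g - h) B = ph ξ ξ' g B - ph ξ ξ' h B := by
  rw [ph_eq, ph_eq, ph_eq]
  simp only [Prod.fst_sub, Prod.snd_sub]
  push_cast
  ring

/-- the exponential sum over `B` -/
noncomputable def FF (C₀ R : ℕ) (ξ ξ' : ℝ × ℝ) (g : M4) : ℂ := ∑ B ∈ GG C₀ R, e (ph ξ ξ' g B)

/-- product of the weights -/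
noncomputable def w4 (M : ℕ) (g : M4) : ℝ :=
  wt M g.1 * (wt M g.2.1 * (wt M g.2.2.1 * wt M g.2.2.2))

/-- four kernels -/
theorem fej4 (hF : S_FEJ) (M : ℕ) (t1 t2 t3 t4 : ℝ) :
    ((KK M t1 * (KK M t2 * (KK M t3 * KK M t4)) : ℝ) : ℂ) =
    ∑ g ∈ II M ×ˢ II M ×ˢ II M ×ˢ II M, ((w4 M g : ℝ) : ℂ) *
      e ((g.1 : ℝ) * t1 + ((g.2.1 : ℝ) * t2 + ((g.2.2.1 : ℝ) * t3 + (g.2.2.2 : ℝ) * t4))) := by
  have h34 := fej2 hF M t3 t4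
  have h234 : ((KK M t2 * (KK M t3 * KK M t4) : ℝ) : ℂ) = ∑ k ∈ II M ×ˢ II M ×ˢ II M,
      ((wt M k.1 * (wt M k.2.1 * wt M k.2.2) : ℝ) : ℂ) *
        e ((k.1 : ℝ) * t2 + ((k.2.1 : ℝ) * t3 + (k.2.2 : ℝ) * t4)) := by
    rw [Complex.ofReal_mul, h34, fej' hF, sum_mul_sum, ← sum_product']
    refine sum_congr rfl fun k _ => ?_
    simp only [e_add, Complex.ofReal_mul]
    ring
  rw [Complex.ofReal_mul, h234, fej' hF, sum_mul_sum, ← sum_product']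
  refine sum_congr rfl fun k _ => ?_
  simp only [w4, e_add, Complex.ofReal_mul]
  ring

theorem V_eq (hF : S_FEJ) (C₀ R M : ℕ) (ξ ξ' : ℝ × ℝ) :
    ∑ g ∈ II M ×ˢ II M ×ˢ II M ×ˢ II M, w4 M g * ‖FF C₀ R ξ ξ' g‖ ^ 2 =
    ∑ q ∈ GG C₀ R ×ˢ GG C₀ R, KK M (dot (row1 q.1) ξ - dot (row1 q.2) ξ) *
      (KK M (dot (row2 q.1) ξ - dot (row2 q.2) ξ) *
      (KK M (dot (row1 q.1) ξ' - dot (row1 q.2) ξ') *
        KK M (dot (row2 q.1) ξ' - dot (row2 q.2) ξ'))) := by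
  have h : ((∑ g ∈ II M ×ˢ II M ×ˢ II M ×ˢ II M, w4 M g * ‖FF C₀ R ξ ξ' g‖ ^ 2 : ℝ) : ℂ) =
    ((∑ q ∈ GG C₀ R ×ˢ GG C₀ R, KK M (dot (row1 q.1) ξ - dot (row1 q.2) ξ) *
      (KK M (dot (row2 q.1) ξ - dot (row2 q.2) ξ) *
      (KK M (dot (row1 q.1) ξ' - dot (row1 q.2) ξ') *
        KK M (dot (row2 q.1) ξ' - dot (row2 q.2) ξ'))) : ℝ) : ℂ) := by
    rw [Complex.ofReal_sum, Complex.ofReal_sum]
    rw [sum_congr rfl fun q _ => fej4 hF M _ _ _ _]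
    rw [sum_comm]
    refine sum_congr rfl fun g _ => ?_
    rw [Complex.ofReal_mul, FF, normsq, mul_sum]
    refine sum_congr rfl fun q _ => ?_
    congr 2
    rw [ph_eq, ph_eq]
    ring
  exact_mod_cast h

theorem V_le (hF : S_FEJ) (hrow : S_ROW) (C₀ R M : ℕ) (ξ ξ' : ℝ × ℝ) :
    ∑ g ∈ II M ×ˢ II M ×ˢ II M ×ˢ II M, w4 M g * ‖FF C₀ R ξ ξ' g‖ ^ 2 ≤
      (M : ℝ) ^ 4 * (2 * (C₀ : ℝ) + 1) ^ 2 * WW R M ξ ξ' := by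
  rw [V_eq hF]
  have h1 : ∀ q ∈ GG C₀ R ×ˢ GG C₀ R, KK M (dot (row1 q.1) ξ - dot (row1 q.2) ξ) *
      (KK M (dot (row2 q.1) ξ - dot (row2 q.2) ξ) *
      (KK M (dot (row1 q.1) ξ' - dot (row1 q.2) ξ') *
        KK M (dot (row2 q.1) ξ' - dot (row2 q.2) ξ'))) ≤
      (M : ℝ) ^ 4 * (KK M (dot (row1 q.1) ξ - dot (row1 q.2) ξ) *
        KK M (dot (row1 q.1) ξ' - dot (row1 q.2) ξ')) := by
    intro q _
    have a1 := KK_nonneg M (dot (row1 q.1) ξ - dot (row1 q.2) ξ)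
    have a2 := KK_nonneg M (dot (row2 q.1) ξ - dot (row2 q.2) ξ)
    have a3 := KK_nonneg M (dot (row1 q.1) ξ' - dot (row1 q.2) ξ')
    have a4 := KK_nonneg M (dot (row2 q.1) ξ' - dot (row2 q.2) ξ')
    have b2 := KK_le M (dot (row2 q.1) ξ - dot (row2 q.2) ξ)
    have b4 := KK_le M (dot (row2 q.1) ξ' - dot (row2 q.2) ξ')
    generalize KK M (dot (row1 q.1) ξ - dot (row1 q.2) ξ) = x1 at *
    generalize KK M (dot (row2 q.1) ξ - dot (row2 q.2) ξ) = x2 at *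
    generalize KK M (dot (row1 q.1) ξ' - dot (row1 q.2) ξ') = x3 at *
    generalize KK M (dot (row2 q.1) ξ' - dot (row2 q.2) ξ') = x4 at *
    have c : x2 * x4 ≤ (M : ℝ) ^ 2 * (M : ℝ) ^ 2 := mul_le_mul b2 b4 a4 (by positivity)
    calc x1 * (x2 * (x3 * x4)) = (x2 * x4) * (x1 * x3) := by ring
      _ ≤ ((M : ℝ) ^ 2 * (M : ℝ) ^ 2) * (x1 * x3) := mul_le_mul_of_nonneg_right c (mul_nonneg a1 a3)
      _ = (M : ℝ) ^ 4 * (x1 * x3) := by ring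
  refine (sum_le_sum h1).trans ?_
  rw [← mul_sum, mul_assoc]
  refine mul_le_mul_of_nonneg_left ?_ (by positivity)
  set H : ℤ × ℤ → ℤ × ℤ → ℝ := fun r s => KK M (dot r ξ - dot s ξ) * KK M (dot r ξ' - dot s ξ')
    with hH
  have hH0 : ∀ r s, 0 ≤ H r s := fun r s => mul_nonneg (KK_nonneg _ _) (KK_nonneg _ _)
  have e1 : ∑ q ∈ GG C₀ R ×ˢ GG C₀ R, KK M (dot (row1 q.1) ξ - dot (row1 q.2) ξ) *
        KK M (dot (row1 q.1) ξ' - dot (row1 q.2) ξ') =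
      ∑ B ∈ GG C₀ R, ∑ B' ∈ GG C₀ R, H (row1 B) (row1 B') := by
    rw [sum_product]
  have e2 : WW R M ξ ξ' = ∑ r ∈ QQ R, ∑ s ∈ QQ R, H r s := by
    rw [WW, sum_product]
  rw [e1, e2]
  have hC : (0 : ℝ) ≤ 2 * (C₀ : ℝ) + 1 := by positivity
  have k1 : ∀ B ∈ GG C₀ R, ∑ B' ∈ GG C₀ R, H (row1 B) (row1 B') ≤
      (2 * (C₀ : ℝ) + 1) * ∑ s ∈ QQ R, H (row1 B) s := fun B _ =>
    row_sum hrow C₀ R (fun s => H (row1 B) s) fun s => hH0 _ _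
  have k2 := row_sum hrow C₀ R (fun r => ∑ s ∈ QQ R, H r s) fun r => sum_nonneg fun s _ => hH0 _ _
  calc ∑ B ∈ GG C₀ R, ∑ B' ∈ GG C₀ R, H (row1 B) (row1 B')
      ≤ ∑ B ∈ GG C₀ R, (2 * (C₀ : ℝ) + 1) * ∑ s ∈ QQ R, H (row1 B) s := sum_le_sum k1
    _ = (2 * (C₀ : ℝ) + 1) * ∑ B ∈ GG C₀ R, ∑ s ∈ QQ R, H (row1 B) s := by rw [mul_sum]
    _ ≤ (2 * (C₀ : ℝ) + 1) * ((2 * (C₀ : ℝ) + 1) * ∑ r ∈ QQ R, ∑ s ∈ QQ R, H r s) :=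
        mul_le_mul_of_nonneg_left k2 hC
    _ = _ := by ring

/-- the box of the differences -/
noncomputable def BB (A₀ : ℕ) : Finset M4 :=
  ((Finset.Icc (-(4 * A₀ : ℤ)) (4 * A₀)) ×ˢ (Finset.Icc (-(4 * A₀ : ℤ)) (4 * A₀)) ×ˢ
    (Finset.Icc (-(4 * A₀ : ℤ)) (4 * A₀)) ×ˢ (Finset.Icc (-(4 * A₀ : ℤ)) (4 * A₀)))

theorem box_le (C₀ R A₀ : ℕ) (hA : 1 ≤ A₀) (ξ ξ' : ℝ × ℝ) :
    ((8 * A₀ : ℕ) : ℝ) ^ 4 * ∑ g ∈ BB A₀, ‖FF C₀ R ξ ξ' g‖ ^ 2 ≤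
      16 * ∑ g ∈ II (8 * A₀) ×ˢ II (8 * A₀) ×ˢ II (8 * A₀) ×ˢ II (8 * A₀),
        w4 (8 * A₀) g * ‖FF C₀ R ξ ξ' g‖ ^ 2 := by
  have hsub : BB A₀ ⊆ II (8 * A₀) ×ˢ II (8 * A₀) ×ˢ II (8 * A₀) ×ˢ II (8 * A₀) := by
    intro g hg
    unfold BB at hg
    unfold II
    simp only [mem_product, mem_Icc, mem_Ioo] at hg ⊢
    push_cast
    omega
  have hw : ∀ g ∈ BB A₀, ((8 * A₀ : ℕ) : ℝ) ^ 4 ≤ 16 * w4 (8 * A₀) g := by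
    intro g hg
    unfold BB at hg
    simp only [mem_product, mem_Icc, ← abs_le] at hg
    have k : ∀ x : ℤ, |x| ≤ 4 * A₀ → ((8 * A₀ : ℕ) : ℝ) ≤ 2 * wt (8 * A₀) x := by
      intro x hx
      unfold wt
      have : (|x| : ℝ) ≤ 4 * A₀ := by exact_mod_cast hx
      push_cast
      linarith
    obtain ⟨h1, h2, h3, h4⟩ := hg
    have k1 := k _ h1
    have k2 := k _ h2
    have k3 := k _ h3
    have k4 := k _ h4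
    have p0 : (0 : ℝ) ≤ ((8 * A₀ : ℕ) : ℝ) := by positivity
    have q1 : ((8 * A₀ : ℕ) : ℝ) * ((8 * A₀ : ℕ) : ℝ) ≤
        2 * wt (8 * A₀) g.2.2.1 * (2 * wt (8 * A₀) g.2.2.2) := mul_le_mul k3 k4 p0 (p0.trans k3)
    have q2 := mul_le_mul k2 q1 (mul_nonneg p0 p0) (p0.trans k2)
    have q3 := mul_le_mul k1 q2 (mul_nonneg p0 (mul_nonneg p0 p0)) (p0.trans k1)
    unfold w4
    calc ((8 * A₀ : ℕ) : ℝ) ^ 4 = ((8 * A₀ : ℕ) : ℝ) *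
          (((8 * A₀ : ℕ) : ℝ) * (((8 * A₀ : ℕ) : ℝ) * ((8 * A₀ : ℕ) : ℝ))) := by ring
      _ ≤ _ := q3
      _ = _ := by ring
  have hnn : ∀ g ∈ II (8 * A₀) ×ˢ II (8 * A₀) ×ˢ II (8 * A₀) ×ˢ II (8 * A₀),
      0 ≤ w4 (8 * A₀) g * ‖FF C₀ R ξ ξ' g‖ ^ 2 := by
    intro g hg
    simp only [mem_product] at hg
    exact mul_nonneg (mul_nonneg (wt_nonneg hg.1) (mul_nonneg (wt_nonneg hg.2.1)
      (mul_nonneg (wt_nonneg hg.2.2.1) (wt_nonneg hg.2.2.2)))) (sq_nonneg _)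
  calc ((8 * A₀ : ℕ) : ℝ) ^ 4 * ∑ g ∈ BB A₀, ‖FF C₀ R ξ ξ' g‖ ^ 2
      = ∑ g ∈ BB A₀, ((8 * A₀ : ℕ) : ℝ) ^ 4 * ‖FF C₀ R ξ ξ' g‖ ^ 2 := by rw [mul_sum]
    _ ≤ ∑ g ∈ BB A₀, 16 * (w4 (8 * A₀) g * ‖FF C₀ R ξ ξ' g‖ ^ 2) := by
        refine sum_le_sum fun g hg => ?_
        rw [← mul_assoc]
        exact mul_le_mul_of_nonneg_right (hw g hg) (sq_nonneg _)
    _ = 16 * ∑ g ∈ BB A₀, w4 (8 * A₀) g * ‖FF C₀ R ξ ξ' g‖ ^ 2 := by rw [mul_sum]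
    _ ≤ _ := by
        refine mul_le_mul_of_nonneg_left ?_ (by norm_num)
        exact sum_le_sum_of_subset_of_nonneg hsub fun g hg _ => hnn g hg

/-- the sum over the box of the differences -/
theorem box_le' (hF : S_FEJ) (hG : S_GEO) (hrow : S_ROW) (C₀ A₀ R : ℕ) (κ₁ : ℝ) (ξ ξ' : ℝ × ℝ)
    (hA : 1 ≤ A₀) (hR : 1 ≤ R) (hκ : 0 < κ₁) (hκR : 8 * (A₀ : ℝ) ≤ κ₁ * R)
    (hd : DioTwo (8 * A₀) κ₁ ξ ξ') :
    ∑ g ∈ BB A₀, ‖FF C₀ R ξ ξ' g‖ ^ 2 ≤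
      16 * (2 * (C₀ : ℝ) + 1) ^ 2 * (90 * 64) * (A₀ : ℝ) ^ 2 * (R : ℝ) ^ 4 := by
  have h1 := box_le C₀ R A₀ hA ξ ξ'
  have h2 := V_le hF hrow C₀ R (8 * A₀) ξ ξ'
  have h3 := WW_le hF hG R (8 * A₀) κ₁ ξ ξ' hκ hR (by push_cast; exact hκR) hd
  have hM : (0 : ℝ) < ((8 * A₀ : ℕ) : ℝ) ^ 4 := by
    have : 0 < 8 * A₀ := by omega
    have h : (0 : ℝ) < ((8 * A₀ : ℕ) : ℝ) := by exact_mod_cast this
    positivity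
  have hC : (0 : ℝ) ≤ (2 * (C₀ : ℝ) + 1) ^ 2 := sq_nonneg _
  have h4 : ((8 * A₀ : ℕ) : ℝ) ^ 4 * ∑ g ∈ BB A₀, ‖FF C₀ R ξ ξ' g‖ ^ 2 ≤
      ((8 * A₀ : ℕ) : ℝ) ^ 4 * (16 * (2 * (C₀ : ℝ) + 1) ^ 2 * (90 * ((8 * A₀ : ℕ) : ℝ) ^ 2 *
        (R : ℝ) ^ 4)) := by
    refine h1.trans ?_
    have h5 : ((8 * A₀ : ℕ) : ℝ) ^ 4 * (2 * (C₀ : ℝ) + 1) ^ 2 * WW R (8 * A₀) ξ ξ' ≤
        ((8 * A₀ : ℕ) : ℝ) ^ 4 * (2 * (C₀ : ℝ) + 1) ^ 2 * (90 * ((8 * A₀ : ℕ) : ℝ) ^ 2 *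
          (R : ℝ) ^ 4) := mul_le_mul_of_nonneg_left h3 (mul_nonneg hM.le hC)
    have h6 := mul_le_mul_of_nonneg_left (h2.trans h5) (by norm_num : (0 : ℝ) ≤ 16)
    refine h6.trans (le_of_eq ?_)
    ring
  refine (le_of_mul_le_mul_left h4 hM).trans (le_of_eq ?_)
  push_cast
  ring

end Pool.Agent.Helper982_KG.RTwo
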