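import Mathlib
import Pool.Agent.Helper982_KG.Defs
import Pool.Agent.Helper982_KG.Stmts

/-!
# Divergence multiplicative Khintchine-Groshev: statements of the finer parts
-/

open MeasureTheory Set Finset

namespace Pool.Agent.Helper982_KG

/-- the number of codes `(A, B)` over a given coarse basis `c` (paper, section 5) -/
def S_CODE : Prop := ∀ (C₀ C₂ : ℕ) (comp : ℤ × ℤ → ℤ × ℤ) (m a₁ a₃ a₄ : ℕ) (L : ℝ), 1 ≤ C₀ → 1 ≤ C₂ →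
  ParOK m a₁ a₃ a₄ → 0 ≤ L → ∃ C : ℝ, 0 < C ∧ ∃ k₀ : ℕ,
  ∀ (s l : ℝ) (y : ℝ → Fin m → ℝ), LipOn y L s l → ∀ k k' : ℕ, k₀ ≤ k → k ≤ k' →
  ∀ mm mm' : Fin m → ℕ, MOK a₃ k mm → MOK a₃ k' mm' → ¬ (k = k' ∧ mm = mm') →
  ∀ δ δ' : ℝ, dOK a₄ k δ → dOK a₄ k' δ' → 8 * 4 ^ k' * δ < (2 : ℝ) ^ k →
  ∀ (c : ℤ × ℤ) (S : Finset (M4 × M4)),
    (∀ p ∈ S, ∃ x ∈ Icc s (s + l), Two a₁ k k' mm mm' δ δ' y x ∧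
      BaseData C₀ C₂ comp (N0 a₁ k') (tE k') (sE a₁ k') x c p.1 p.2) →
    (S.card : ℝ) ≤ C * (2 ^ k * δ' + 2 ^ k' * δ) * (2 ^ k / 2 ^ k') *
      (2 ^ sE a₁ k') ^ 2 * (2 ^ tE k') ^ 2

/-- first moment, main term: the coprime forms inside the interval -/
def S_FA : Prop := ∀ (m a₃ : ℕ) (L : ℝ), 2 ≤ a₃ → 0 ≤ L →
  ∀ l : ℝ, 0 < l → l ≤ 1 → ∃ k₀ : ℕ, ∀ (s : ℝ) (y : ℝ → Fin m → ℝ), LipOn y L s l →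
  ∀ k, k₀ ≤ k → ∀ mm : Fin m → ℕ, MOK a₃ k mm → ∀ δ : ℝ, 0 < δ → δ ≤ 1 / 2 ^ (k + 4) →
    ∃ F : Finset (ℤ × ℕ), (∀ f ∈ F, 2 ^ k ≤ f.2 ∧ f.2 < 2 ^ (k + 1) ∧ Int.gcd f.1 f.2 = 1) ∧
      9 / 100 * l * (2 ^ k * δ) ≤
        ∑ f ∈ F, (volume {x | x ∈ Icc s (s + l) ∧ |(f.1 : ℝ) + f.2 * x + dt mm (y x)| < δ}).toReal

/-- first moment, the points outside `EE N` -/
def S_FB : Prop := ∀ (m a₁ a₃ a₄ : ℕ) (L : ℝ), ParOK m a₁ a₃ a₄ → 0 ≤ L →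
  ∀ l : ℝ, 0 < l → l ≤ 1 → ∃ k₀ : ℕ, ∀ (s : ℝ) (y : ℝ → Fin m → ℝ), LipOn y L s l →
  ∀ k, k₀ ≤ k → ∀ mm : Fin m → ℕ, MOK a₃ k mm → ∀ δ : ℝ, 0 < δ → δ ≤ 1 / 2 ^ (k + 4) →
  ∀ N : ℕ, (N = 2 ^ k ∨ N = N1 a₁ k ∨ N = N0 a₁ k) →
  ∀ F : Finset (ℤ × ℕ), (∀ f ∈ F, 2 ^ k ≤ f.2 ∧ f.2 < 2 ^ (k + 1)) →
    ∑ f ∈ F, (volume {x | x ∈ Icc s (s + l) ∧ ¬ EE N x ∧
      |(f.1 : ℝ) + f.2 * x + dt mm (y x)| < δ}).toReal ≤ 1 / 100 * l * (2 ^ k * δ)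

/-- the exceptional set for one pair `(b, w)` -/
def S_BONE : Prop := ∀ (d m l : ℕ) (Y : (Fin (d + 1) → ℝ) → (Fin m → ℝ)) (u₀ : Fin (d + 1) → ℝ)
  (ρ : ℝ), 0 < ρ → ContDiffOn ℝ l Y (Metric.ball u₀ ρ) → NDn l Y u₀ →
  ∃ ρ' : ℝ, 0 < ρ' ∧ ρ' ≤ ρ ∧ ∃ η : ℝ, 0 < η ∧ ∃ C : ℝ, 0 < C ∧
  ∀ (N b W : ℕ) (w : Fin m → ℤ) (θ : ℝ), 1 ≤ W → w ≠ 0 → (∀ i, |w i| ≤ W) → 0 < θ → θ ≤ 1 →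
  1 ≤ b → b ≤ N → C * W ≤ b * θ →
    volume {u | u ∈ Metric.ball u₀ ρ' ∧ (∃ a : ℤ, |(b : ℝ) * u 0 - a| ≤ 1 / (N : ℝ)) ∧
      ∃ k : ℤ, |(b : ℝ) * (∑ i, (w i : ℝ) * Y u i) - k| < θ} ≤
      ENNReal.ofReal (C / N * θ ^ η)

/-- the local form of the theorem near a point where `f` is nondegenerate and not critical -/
def S_NA : Prop := ∀ (d m l : ℕ) (f : (Fin (d + 1) → ℝ) → (Fin (m + 1) → ℝ))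
  (x₀ : Fin (d + 1) → ℝ), NondegAt l f x₀ → fderiv ℝ f x₀ ≠ 0 → ∀ ψ : ℝ → ℝ,
  (∀ x, 0 < x → 0 < ψ x) → AntitoneOn ψ (Ioi 0) →
  ¬ Summable (fun h : ℕ => Real.log (h + 1) ^ m * ψ (h + 1)) →
  ∃ V : Set (Fin (d + 1) → ℝ), IsOpen V ∧ x₀ ∈ V ∧ ∀ᵐ x ∂(volume.restrict V),
    {z : ℤ × (Fin (m + 1) → ℤ) |
      |(z.1 : ℝ) + ∑ i, (z.2 i : ℝ) * f x i| < ψ (PiPlus z.2)}.Infinite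

end Pool.Agent.Helper982_KG
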